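import Pool.Agent.H706R2.PS.ADefs

/-! Task A10a: all pieces, explicit parameters, amplitudes (helper866, adapted from W10a). -/

open Finset MeasureTheory Filter

namespace Pool.Agent.H706R2.PS

open Pool.Agent.H469R2.NK (e)
open Pool.Agent.H438R2.DL (Fw AD)

namespace A10aAux

/-- index of the piece containing `p` -/
noncomputable def jf (X J : ℕ) (p : ℕ) : ℕ := ⌈((p : ℝ) - X) * J / X⌉₊ - 1

/-- pieces of an arbitrary set -/
noncomputable def Pk (P : Finset ℕ) (X J j : ℕ) : Finset ℕ := P.filter (fun p => jf X J p = j)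

lemma jf_spec {X J p : ℕ} (hX : 0 < X) (hJ : 0 < J) (hp : p ∈ Ioc X (2 * X)) :
    jf X J p < J ∧ (X : ℝ) + (jf X J p) * (X / J) < p ∧ (p : ℝ) ≤ X + ((jf X J p : ℝ) + 1) * (X / J) := by
  have hX' : (0 : ℝ) < X := by exact_mod_cast hX
  have hJ' : (0 : ℝ) < J := by exact_mod_cast hJ
  rw [mem_Ioc] at hp
  obtain ⟨hp1, hp2⟩ := hp
  have hp1' : (X : ℝ) < p := by exact_mod_cast hp1
  have hp2' : (p : ℝ) ≤ 2 * X := by exact_mod_cast hp2
  set t : ℝ := ((p : ℝ) - X) * J / X with ht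
  have ht0 : 0 < t := by
    rw [ht]; apply div_pos (mul_pos (by linarith) hJ') hX'
  have htJ : t ≤ J := by
    rw [ht, div_le_iff₀ hX']; nlinarith
  have hc1 : 0 < ⌈t⌉₊ := Nat.ceil_pos.mpr ht0
  have hc2 : ⌈t⌉₊ ≤ J := Nat.ceil_le.mpr htJ
  have hj : jf X J p = ⌈t⌉₊ - 1 := rfl
  have hcast : ((⌈t⌉₊ - 1 : ℕ) : ℝ) = (⌈t⌉₊ : ℝ) - 1 := by
    rw [Nat.cast_sub hc1]; simp
  have h1 := Nat.ceil_lt_add_one ht0.le
  have h2 := Nat.le_ceil t
  have ep : (p : ℝ) = X + t * (X / J) := by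
    rw [ht]; field_simp; ring
  refine ⟨by omega, ?_, ?_⟩
  · rw [hj, hcast, ep]
    have : ((⌈t⌉₊ : ℝ) - 1) * (X / J) < t * (X / J) := by
      gcongr; linarith
    linarith
  · rw [hj, hcast, ep]
    have : t * (X / J) ≤ (((⌈t⌉₊ : ℝ) - 1) + 1) * (X / J) := by
      gcongr; linarith
    linarith

lemma cA_split {P : Finset ℕ} {X J : ℕ} (hX : 0 < X) (hJ : 0 < J) (hP : P ⊆ Ioc X (2 * X))
    (K : Finset ℕ) (c b w α : ℝ) :
    cA c P K b w α = ∑ j ∈ range J, cA c (Pk P X J j) K b w α := by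
  unfold cA
  rw [sum_comm]
  refine sum_congr rfl fun k _ => ?_
  rw [card_eq_sum_card_fiberwise (f := jf X J) (t := range J) (fun p hp => by
    rw [mem_coe, mem_filter] at hp
    exact mem_coe.mpr (mem_range.mpr (jf_spec hX hJ (hP hp.1)).1))]
  push_cast
  refine sum_congr rfl fun j _ => ?_
  congr 2
  unfold Pk
  rw [filter_filter, filter_filter]
  apply filter_congr
  intro p _
  tauto

lemma mA_split {P : Finset ℕ} {X J : ℕ} (hX : 0 < X) (hJ : 0 < J) (hP : P ⊆ Ioc X (2 * X))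
    (c b α : ℝ) :
    mA c P b α = ∑ j ∈ range J, mA c (Pk P X J j) b α := by
  unfold mA Pk
  rw [Finset.sum_fiberwise_of_maps_to (fun p hp => mem_range.mpr (jf_spec hX hJ (hP hp)).1)]

lemma cA_measurable (c : ℝ) (P K : Finset ℕ) (b w : ℝ) : Measurable (cA c P K b w) := by
  unfold cA
  refine Finset.measurable_sum _ fun k _ => ?_
  simp only [card_filter]
  push_cast
  refine Finset.measurable_sum _ fun p _ => ?_
  refine Measurable.ite ?_ measurable_const measurable_const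
  have h0 : Measurable (fun α : ℝ => α * (k : ℝ) ^ c) := measurable_id.mul_const _
  have h1 : MeasurableSet {α : ℝ | (p : ℝ) + b ≤ α * (k : ℝ) ^ c} :=
    measurableSet_le measurable_const h0
  have h2 : MeasurableSet {α : ℝ | α * (k : ℝ) ^ c < (p : ℝ) + b + w} :=
    measurableSet_lt h0 measurable_const
  exact h1.inter h2

lemma mA_measurable (c : ℝ) (P : Finset ℕ) (b : ℝ) : Measurable (mA c P b) := by
  unfold mA
  refine Finset.measurable_sum _ fun m _ => ?_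
  have h1 : Measurable (fun α : ℝ => α ^ (-(1 / c))) := measurable_id.pow measurable_const
  exact (h1.const_mul _).mul_const _

lemma card_P_le {P : Finset ℕ} {X : ℕ} (hP : P ⊆ Ioc X (2 * X)) : (P.card : ℝ) ≤ X := by
  have : P.card ≤ X := by
    refine (card_le_card hP).trans ?_
    rw [Nat.card_Ioc]; omega
  exact_mod_cast this

lemma mA_le {P : Finset ℕ} {X : ℕ} (hX : 1 ≤ X) (hP : P ⊆ Ioc X (2 * X)) {b c a1 α : ℝ}
    (hb : |b| ≤ 1) (hc : 1 ≤ c) (ha1 : 0 < a1) (hα : a1 ≤ α) :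
    mA c P b α ≤ (2 * X / a1 : ℝ) ^ (1 / c) := by
  have hX' : (1 : ℝ) ≤ X := by exact_mod_cast hX
  have hX0 : (0 : ℝ) < X := by linarith
  have h1c : 1 / c ≤ 1 := by rw [div_le_one (by linarith)]; exact hc
  have h0c : 0 ≤ 1 / c := by positivity
  have hb1 : -1 ≤ b := (abs_le.mp hb).1
  have hα0 : 0 < α := by linarith
  have hαp : α ^ (-(1 / c)) ≤ a1 ^ (-(1 / c)) :=
    Real.rpow_le_rpow_of_nonpos ha1 hα (by linarith)
  have hαn : 0 ≤ α ^ (-(1 / c)) := Real.rpow_nonneg hα0.le _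
  have h1 : ∀ m ∈ P, (1 / c) * α ^ (-(1 / c)) * ((m : ℝ) + b) ^ (1 / c - 1) ≤
      a1 ^ (-(1 / c)) * (X : ℝ) ^ (1 / c - 1) := by
    intro m hm
    have hm' := mem_Ioc.mp (hP hm)
    have hmX : (X : ℝ) + 1 ≤ m := by exact_mod_cast hm'.1
    have h2 : ((m : ℝ) + b) ^ (1 / c - 1) ≤ (X : ℝ) ^ (1 / c - 1) :=
      Real.rpow_le_rpow_of_nonpos hX0 (by linarith) (by linarith)
    have h3 : 0 ≤ ((m : ℝ) + b) ^ (1 / c - 1) := Real.rpow_nonneg (by linarith) _
    calc (1 / c) * α ^ (-(1 / c)) * ((m : ℝ) + b) ^ (1 / c - 1)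
        ≤ 1 * a1 ^ (-(1 / c)) * (X : ℝ) ^ (1 / c - 1) := by
          gcongr
      _ = _ := by rw [one_mul]
  calc mA c P b α ≤ ∑ _m ∈ P, a1 ^ (-(1 / c)) * (X : ℝ) ^ (1 / c - 1) := sum_le_sum h1
    _ = P.card * (a1 ^ (-(1 / c)) * (X : ℝ) ^ (1 / c - 1)) := by rw [sum_const, nsmul_eq_mul]
    _ ≤ X * (a1 ^ (-(1 / c)) * (X : ℝ) ^ (1 / c - 1)) := by
        have := card_P_le hP
        have h4 : 0 ≤ a1 ^ (-(1 / c)) := Real.rpow_nonneg ha1.le _
        gcongr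
    _ = (X / a1 : ℝ) ^ (1 / c) := by
        rw [Real.rpow_sub hX0, Real.rpow_one, Real.div_rpow hX0.le ha1.le, Real.rpow_neg ha1.le]
        field_simp
    _ ≤ (2 * X / a1 : ℝ) ^ (1 / c) := by
        apply Real.rpow_le_rpow (by positivity) _ (by positivity)
        gcongr
        linarith

lemma mA_nonneg {P : Finset ℕ} {X : ℕ} (hX : 1 ≤ X) (hP : P ⊆ Ioc X (2 * X)) {b c α : ℝ}
    (hb : |b| ≤ 1) (hc : 1 ≤ c) (hα : 0 < α) : 0 ≤ mA c P b α := by
  unfold mA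
  refine sum_nonneg fun m hm => ?_
  have hm' := mem_Ioc.mp (hP hm)
  have hmX : (X : ℝ) + 1 ≤ m := by exact_mod_cast hm'.1
  have hX' : (1 : ℝ) ≤ X := by exact_mod_cast hX
  have hb1 : -1 ≤ b := (abs_le.mp hb).1
  have h3 : 0 ≤ ((m : ℝ) + b) ^ (1 / c - 1) := Real.rpow_nonneg (by linarith) _
  have h0c : 0 ≤ 1 / c := by positivity
  exact mul_nonneg (mul_nonneg h0c (Real.rpow_nonneg hα.le _)) h3

lemma s_facts {X : ℕ} (hX : 32 ≤ X) {N w : ℝ} (h1 : (X : ℝ) - 1 ≤ N) (h2 : N ≤ 2 * X + 3)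
    (hw1 : 1 / 2 ≤ w) (hw2 : w ≤ 2) :
    0 < w / N ∧ w / N ≤ 4 / X ∧ 1 / (w / N) ≤ 16 * X ∧ w / N * X ≤ 3 := by
  have hX' : (32 : ℝ) ≤ X := by exact_mod_cast hX
  have hw0 : 0 < w := by linarith
  have hN0 : 0 < N := by linarith
  refine ⟨by positivity, ?_, ?_, ?_⟩
  · rw [div_le_div_iff₀ hN0 (by linarith)]
    nlinarith
  · rw [one_div_div, div_le_iff₀ hw0]
    nlinarith
  · rw [div_mul_eq_mul_div, div_le_iff₀ hN0]
    nlinarith

lemma ad_bound (h9 : A9) {X M : ℕ} {P : Finset ℕ} {c a1 a2 ω Ξ0 Ξ1 η b s : ℝ} (hX : 32 ≤ X) (hM : 2 ≤ M)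
    (hP : P ⊆ Ioc X (2 * X)) (hb : |b| ≤ 1) (ha1 : 0 < a1) (ha2 : a2 ≤ 2 * a1) (hω : 0 < ω)
    (hΞ0 : 0 ≤ Ξ0) (hΞω : 2 * Real.pi * ω * Ξ0 ≤ 1 / 2) (hΞ1 : 0 < Ξ1) (hη : 0 < η)
    (hexp : ∀ ξ : ℝ, Ξ0 ≤ |ξ| → |ξ| ≤ Ξ1 → ‖∑ k ∈ Ico 1 M, e (cl c k * ξ)‖ ≤ η * M)
    (hs0 : 0 < s) (hsω : s ≤ ω) (hs1 : 1 / s ≤ 16 * X)
    (hs2 : s * X ≤ 3) :
    IntegrableOn (fun α => |ADa c P M b s ω α|) (Set.Icc a1 a2) ∧
    s * ∫ α in Set.Icc a1 a2, |ADa c P M b s ω α| ≤
      2 * a1 * M * (1000 * Real.pi * ω * Ξ0 + 1000 * η + 3 * X / √Ξ1) := by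
  obtain ⟨hi, hbd⟩ := h9 X M P c b s ω Ξ0 Ξ1 η a1 (by omega) hM hP hb hs0 hsω hΞ0 hΞω hΞ1 hη hs1 hexp
    ha1
  have hsub : Set.Icc a1 a2 ⊆ Set.Icc a1 (2 * a1) := Set.Icc_subset_Icc le_rfl ha2
  refine ⟨hi.mono_set hsub, ?_⟩
  have h1 : ∫ α in Set.Icc a1 a2, |ADa c P M b s ω α| ≤ ∫ α in Set.Icc a1 (2 * a1), |ADa c P M b s ω α| :=
    setIntegral_mono_set hi (Filter.Eventually.of_forall fun _ => abs_nonneg _)
      (Filter.Eventually.of_forall hsub)
  have hπ := Real.pi_pos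
  have hΞs : 0 < √Ξ1 := Real.sqrt_pos.mpr hΞ1
  calc s * ∫ α in Set.Icc a1 a2, |ADa c P M b s ω α|
      ≤ s * (2 * a1 * (M * ((96 * Real.pi * ω * Ξ0 + 64 * η) * X +
          3 * X / (s * √Ξ1)))) := by
        gcongr
        exact h1.trans hbd
    _ = 2 * a1 * M * ((96 * Real.pi * ω * Ξ0 + 64 * η) * (s * X) +
          3 * X / √Ξ1) := by
        field_simp
    _ ≤ 2 * a1 * M * ((96 * Real.pi * ω * Ξ0 + 64 * η) * 3 + 3 * X / √Ξ1) := by
        gcongr
    _ ≤ _ := by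
        have h5 : (96 * Real.pi * ω * Ξ0 + 64 * η) * 3 ≤ 1000 * Real.pi * ω * Ξ0 + 1000 * η := by
          have : 0 ≤ Real.pi * ω * Ξ0 := by positivity
          nlinarith
        gcongr

lemma ratio {X J : ℕ} {m N1 N2 b : ℝ} (hX : 32 ≤ X) (hJ : 1 ≤ J) (hJX : J ≤ X) (h1 : (X : ℝ) ≤ N1)
    (h2 : N2 = N1 + X / J) (hm1 : N1 < m) (hm2 : m ≤ N2) (hb : |b| ≤ 1) :
    |(m + b) / (N2 + 3) - 1| ≤ 32 / J ∧ |(m + b) / (N1 - 1) - 1| ≤ 32 / J := by
  have hX' : (32 : ℝ) ≤ X := by exact_mod_cast hX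
  have hJ' : (1 : ℝ) ≤ J := by exact_mod_cast hJ
  have hJX' : (J : ℝ) ≤ X := by exact_mod_cast hJX
  obtain ⟨hb1, hb2⟩ := abs_le.mp hb
  have hq : (0 : ℝ) ≤ X / J := by positivity
  have hq1 : (1 : ℝ) ≤ X / J := by rw [le_div_iff₀ (by linarith)]; linarith
  have hbig : ∀ D : ℝ, (X : ℝ) - 1 ≤ D → X / J + 4 ≤ 32 / J * D := by
    intro D hD
    have : 32 / J * D = (X / J) * (32 * D / X) := by field_simp
    rw [this]
    have h3 : (16 : ℝ) ≤ 32 * D / X := by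
      rw [le_div_iff₀ (by linarith)]; linarith
    nlinarith
  constructor
  · have hD : 0 < N2 + 3 := by linarith
    rw [show (m + b) / (N2 + 3) - 1 = (m + b - (N2 + 3)) / (N2 + 3) by field_simp, abs_div,
      abs_of_pos hD, div_le_iff₀ hD]
    have := hbig (N2 + 3) (by linarith)
    rw [abs_le]
    constructor <;> linarith
  · have hD : 0 < N1 - 1 := by linarith
    rw [show (m + b) / (N1 - 1) - 1 = (m + b - (N1 - 1)) / (N1 - 1) by field_simp, abs_div,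
      abs_of_pos hD, div_le_iff₀ hD]
    have := hbig (N1 - 1) (by linarith)
    rw [abs_le]
    constructor <;> linarith

end A10aAux

open A10aAux

theorem a10a (h7 : A7) (h9 : A9) : A10a := by
  intro X M J P c a1 a2 ω Ξ0 Ξ1 η b w hX hM hJ hJX hP hb hw1 hw2 hc ha1 ha12 ha2 hω hω1 hωX h3 h2M hΞ0
    hΞω hΞ1 hη hexp
  have hX' : (32 : ℝ) ≤ X := by exact_mod_cast hX
  have hX0 : (0 : ℝ) < X := by linarith
  have hJ' : (1 : ℝ) ≤ J := by exact_mod_cast hJ
  have hJ0 : (0 : ℝ) < J := by linarith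
  have hw0 : 0 < w := by linarith
  have hq : (0 : ℝ) ≤ X / J := by positivity
  set N1 : ℕ → ℝ := fun j => X + j * (X / J) with hN1
  set N2 : ℕ → ℝ := fun j => N1 j + X / J with hN2
  have hN1X : ∀ j, (X : ℝ) ≤ N1 j := fun j => by
    simp only [hN1]
    have : (0 : ℝ) ≤ j * (X / J) := by positivity
    linarith
  have hN2X : ∀ j, j < J → N2 j ≤ 2 * X := fun j hj => by
    simp only [hN2, hN1]
    have hj' : (j : ℝ) + 1 ≤ J := by exact_mod_cast hj
    have : ((j : ℝ) + 1) * (X / J) ≤ J * (X / J) := by gcongr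
    have e : (J : ℝ) * (X / J) = X := by field_simp
    linarith
  have hpiece : ∀ j, ∀ m ∈ Pk P X J j, N1 j < (m : ℝ) ∧ (m : ℝ) ≤ N2 j := fun j m hm => by
    obtain ⟨hmP, hmj⟩ := mem_filter.mp hm
    obtain ⟨_, hja, hjb⟩ := jf_spec (X := X) (J := J) (by omega) (by omega) (hP hmP)
    rw [hmj] at hja hjb
    refine ⟨hja, hjb.trans (le_of_eq ?_)⟩
    simp only [hN2, hN1]; ring
  have hPk : ∀ j, Pk P X J j ⊆ Ioc X (2 * X) := fun j => (filter_subset _ _).trans hP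
  have hsu : ∀ j, j < J → 0 < w / (N1 j - 1) ∧ w / (N1 j - 1) ≤ 4 / X ∧
      1 / (w / (N1 j - 1)) ≤ 16 * X ∧
      w / (N1 j - 1) * X ≤ 3 := by
    intro j hj
    have h4 : N1 j - 1 ≤ 2 * X + 3 := by
      have := hN2X j hj
      simp only [hN2] at this
      linarith
    have h5 : (X : ℝ) - 1 ≤ N1 j - 1 := by linarith [hN1X j]
    exact s_facts hX h5 h4 hw1 hw2
  have hsl : ∀ j, j < J → 0 < w / (N2 j + 3) ∧ w / (N2 j + 3) ≤ 4 / X ∧
      1 / (w / (N2 j + 3)) ≤ 16 * X ∧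
      w / (N2 j + 3) * X ≤ 3 := by
    intro j hj
    have h4 : N2 j + 3 ≤ 2 * X + 3 := by linarith [hN2X j hj]
    have h5 : (X : ℝ) - 1 ≤ N2 j + 3 := by
      have := hN1X j
      simp only [hN2]
      linarith
    exact s_facts hX h5 h4 hw1 hw2
  have hAl : ∀ j, j < J →
      IntegrableOn (fun α => |ADa c (Pk P X J j) M b (w / (N2 j + 3)) ω α|) (Set.Icc a1 a2) ∧
      w / (N2 j + 3) * ∫ α in Set.Icc a1 a2, |ADa c (Pk P X J j) M b (w / (N2 j + 3)) ω α| ≤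
        2 * a1 * M * (1000 * Real.pi * ω * Ξ0 + 1000 * η + 3 * X / √Ξ1) := by
    intro j hj
    obtain ⟨q1, q2, q3, q4⟩ := hsl j hj
    exact ad_bound h9 hX hM (hPk j) hb ha1 ha2 hω hΞ0 hΞω hΞ1 hη hexp q1 (q2.trans hωX) q3 q4
  have hAu : ∀ j, j < J →
      IntegrableOn (fun α => |ADa c (Pk P X J j) M b (w / (N1 j - 1)) ω α|) (Set.Icc a1 a2) ∧
      w / (N1 j - 1) * ∫ α in Set.Icc a1 a2, |ADa c (Pk P X J j) M b (w / (N1 j - 1)) ω α| ≤
        2 * a1 * M * (1000 * Real.pi * ω * Ξ0 + 1000 * η + 3 * X / √Ξ1) := by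
    intro j hj
    obtain ⟨q1, q2, q3, q4⟩ := hsu j hj
    exact ad_bound h9 hX hM (hPk j) hb ha1 ha2 hω hΞ0 hΞω hΞ1 hη hexp q1 (q2.trans hωX) q3 q4
  -- the constant
  set Cst : ℝ := 64 / J * (2 * X / a1 : ℝ) ^ (1 / c) +
      J * (16 * ω * ((2 * X + 1 : ℝ) / a1) ^ (1 / c) + 16 / ω) with hCst
  set g : ℝ → ℝ := fun α => (∑ j ∈ range J, (w / (N2 j + 3) * |ADa c (Pk P X J j) M b (w / (N2 j + 3)) ω α| +
      w / (N1 j - 1) * |ADa c (Pk P X J j) M b (w / (N1 j - 1)) ω α|)) + Cst with hg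
  have hpt : ∀ α ∈ Set.Icc a1 a2, |cA c P (Ico 1 M) b w α - w * mA c P b α| ≤ g α := by
    intro α hα
    have hα0 : 0 < α := lt_of_lt_of_le ha1 hα.1
    have e1 : cA c P (Ico 1 M) b w α - w * mA c P b α =
        ∑ j ∈ range J, (cA c (Pk P X J j) (Ico 1 M) b w α - w * mA c (Pk P X J j) b α) := by
      rw [cA_split (X := X) (J := J) (by omega) (by omega) hP, mA_split (X := X) (J := J) (by omega) (by omega) hP,
        sum_sub_distrib, mul_sum]
    rw [e1]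
    refine (abs_sum_le_sum_abs _ _).trans ?_
    have hX1 : (0 : ℝ) ≤ X - 1 := by linarith
    have hpow3 : 1 ≤ (((X : ℝ) - 1) / α) ^ (1 / c) * Real.exp (-ω / c) := by
      refine h3.trans ?_
      have h31 : ((X : ℝ) - 1) / a2 ≤ ((X : ℝ) - 1) / α :=
        div_le_div_of_nonneg_left hX1 hα0 hα.2
      have h32 : (((X : ℝ) - 1) / a2) ^ (1 / c) ≤ (((X : ℝ) - 1) / α) ^ (1 / c) :=
        Real.rpow_le_rpow (div_nonneg hX1 (by linarith)) h31 (by positivity)
      exact mul_le_mul_of_nonneg_right h32 (Real.exp_pos _).le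
    have hpowc : ((2 * X + 1 : ℝ) / α) ^ (1 / c) ≤ ((2 * X + 1 : ℝ) / a1) ^ (1 / c) := by
      apply Real.rpow_le_rpow (by positivity) _ (by positivity)
      exact div_le_div_of_nonneg_left (by positivity) ha1 hα.1
    have h1 : ∀ j ∈ range J, |cA c (Pk P X J j) (Ico 1 M) b w α - w * mA c (Pk P X J j) b α| ≤
        (w / (N2 j + 3) * |ADa c (Pk P X J j) M b (w / (N2 j + 3)) ω α| +
          w / (N1 j - 1) * |ADa c (Pk P X J j) M b (w / (N1 j - 1)) ω α|) +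
        (64 / J * mA c (Pk P X J j) b α +
          (16 * ω * ((2 * X + 1 : ℝ) / a1) ^ (1 / c) + 16 / ω)) := by
      intro j hj
      have hj' := mem_range.mp hj
      have h7' := h7 X M (Pk P X J j) c α ω (N1 j) (N2 j) (32 / J) b w (by omega) (hN1X j)
        (by simp only [hN2]; linarith) (hN2X j hj') (hpiece j) hb hw0 hw2 hc hα0 hω hω1 hpow3
        (hpowc.trans h2M) (fun m hm => ratio hX hJ hJX (hN1X j)
          rfl (hpiece j m hm).1 (hpiece j m hm).2 hb)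
      refine h7'.trans ?_
      obtain ⟨q1, q2, q3, q4⟩ := hsu j hj'
      have hcard : ((Pk P X J j).card : ℝ) ≤ X := card_P_le (hPk j)
      have hz0 : 0 ≤ ((2 * X + 1 : ℝ) / α) ^ (1 / c) := Real.rpow_nonneg (by positivity) _
      have hz1 : 0 ≤ ((2 * X + 1 : ℝ) / a1) ^ (1 / c) := Real.rpow_nonneg (by positivity) _
      have h5 : w / (N1 j - 1) * ((Pk P X J j).card * (((2 * X + 1 : ℝ) / α) ^ (1 / c) * ω + 1 / ω)) ≤
          16 * ω * ((2 * X + 1 : ℝ) / a1) ^ (1 / c) + 16 / ω := by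
        calc w / (N1 j - 1) * ((Pk P X J j).card * (((2 * X + 1 : ℝ) / α) ^ (1 / c) * ω + 1 / ω))
            ≤ 4 / X * (X * (((2 * X + 1 : ℝ) / a1) ^ (1 / c) * ω + 1 / ω)) := by
              gcongr
          _ = 4 * ω * ((2 * X + 1 : ℝ) / a1) ^ (1 / c) + 4 / ω := by
              field_simp
          _ ≤ 16 * ω * ((2 * X + 1 : ℝ) / a1) ^ (1 / c) + 16 / ω := by
              gcongr <;> norm_num
      have h6 : 32 / J * (w * mA c (Pk P X J j) b α) ≤ 64 / J * mA c (Pk P X J j) b α := by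
        have hm0 : 0 ≤ mA c (Pk P X J j) b α := mA_nonneg (X := X) (by omega) (hPk j) hb hc hα0
        calc 32 / J * (w * mA c (Pk P X J j) b α) ≤ 32 / J * (2 * mA c (Pk P X J j) b α) := by
              gcongr
          _ = _ := by ring
      linarith
    refine (sum_le_sum h1).trans ?_
    rw [sum_add_distrib, hg]
    simp only
    gcongr
    rw [sum_add_distrib, ← mul_sum, ← mA_split (X := X) (J := J) (by omega) (by omega) hP, sum_const, card_range,
      nsmul_eq_mul, hCst]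
    have := mA_le (X := X) (by omega) hP hb hc ha1 hα.1
    gcongr
  have hgi : IntegrableOn g (Set.Icc a1 a2) := by
    refine Integrable.add ?_ (by
      show IntegrableOn (fun _ => Cst) (Set.Icc a1 a2)
      exact integrableOn_const (by simp))
    refine integrable_finsetSum _ fun j hj => ?_
    have hj' := mem_range.mp hj
    exact ((hAl j hj').1.const_mul _).add ((hAu j hj').1.const_mul _)
  have hfm : Measurable (fun α => |cA c P (Ico 1 M) b w α - w * mA c P b α|) :=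
    measurable_abs.comp ((cA_measurable _ _ _ _ _).sub ((mA_measurable _ _ _).const_mul _))
  have hfi : IntegrableOn (fun α => |cA c P (Ico 1 M) b w α - w * mA c P b α|) (Set.Icc a1 a2) := by
    refine Integrable.mono' hgi hfm.aestronglyMeasurable ?_
    rw [ae_restrict_iff' measurableSet_Icc]
    refine Filter.Eventually.of_forall fun α hα => ?_
    rw [Real.norm_eq_abs, abs_abs]
    exact hpt α hα
  refine ⟨hfi, ?_⟩
  have h10 : ∫ α in Set.Icc a1 a2, |cA c P (Ico 1 M) b w α - w * mA c P b α| ≤ ∫ α in Set.Icc a1 a2, g α :=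
    setIntegral_mono_on hfi hgi measurableSet_Icc hpt
  refine h10.trans ?_
  have e2 : ∫ α in Set.Icc a1 a2, g α =
      (∑ j ∈ range J, (w / (N2 j + 3) * (∫ α in Set.Icc a1 a2, |ADa c (Pk P X J j) M b (w / (N2 j + 3)) ω α|) +
        w / (N1 j - 1) * ∫ α in Set.Icc a1 a2, |ADa c (Pk P X J j) M b (w / (N1 j - 1)) ω α|)) + (a2 - a1) * Cst := by
    rw [hg]
    simp only
    rw [integral_add]
    · congr 1
      · rw [integral_finsetSum]
        · refine sum_congr rfl fun j hj => ?_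
          have hj' := mem_range.mp hj
          rw [integral_add ((hAl j hj').1.const_mul _) ((hAu j hj').1.const_mul _),
            integral_const_mul, integral_const_mul]
        · intro j hj
          have hj' := mem_range.mp hj
          exact ((hAl j hj').1.const_mul _).add ((hAu j hj').1.const_mul _)
      · rw [setIntegral_const]
        simp [ha12]
    · refine integrable_finsetSum _ fun j hj => ?_
      have hj' := mem_range.mp hj
      exact ((hAl j hj').1.const_mul _).add ((hAu j hj').1.const_mul _)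
    · show IntegrableOn (fun _ => Cst) (Set.Icc a1 a2)
      exact integrableOn_const (by simp)
  rw [e2]
  have h11 : ∑ j ∈ range J, (w / (N2 j + 3) * (∫ α in Set.Icc a1 a2, |ADa c (Pk P X J j) M b (w / (N2 j + 3)) ω α|) +
        w / (N1 j - 1) * ∫ α in Set.Icc a1 a2, |ADa c (Pk P X J j) M b (w / (N1 j - 1)) ω α|) ≤
      4 * a1 * J * M * (1000 * Real.pi * ω * Ξ0 + 1000 * η + 3 * X / √Ξ1) := by
    calc _ ≤ ∑ _j ∈ range J, 4 * a1 * M * (1000 * Real.pi * ω * Ξ0 + 1000 * η + 3 * X / √Ξ1) := by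
          refine sum_le_sum fun j hj => ?_
          have hj' := mem_range.mp hj
          have := (hAl j hj').2
          have := (hAu j hj').2
          linarith
      _ = _ := by rw [sum_const, card_range, nsmul_eq_mul]; ring
  gcongr

end Pool.Agent.H706R2.PS
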