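import Pool.Agent.H706R2.PS.ADefs

/-! Task A10b: choice of the parameters, the `L¹` theorem for amplitudes (helper908). -/

open Finset MeasureTheory Filter

namespace Pool.Agent.H706R2.PS

open Pool.Agent.H469R2.NK (e)
open Pool.Agent.H438R2.DL (Fw AD)

namespace A10baux

theorem ev (a B : ℝ) (ha : 0 < a) : ∀ᶠ X : ℕ in atTop, B ≤ (X : ℝ) ^ a :=
  ((tendsto_rpow_atTop ha).comp tendsto_natCast_atTop_atTop).eventually_ge_atTop B

theorem ev1 (B : ℝ) : ∀ᶠ X : ℕ in atTop, B ≤ (X : ℝ) :=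
  tendsto_natCast_atTop_atTop.eventually_ge_atTop B

theorem powdiff {u v s : ℝ} (hu : 1 ≤ u) (huv : u ≤ v) (hs0 : s ≤ 0) (hs1 : -1 ≤ s) :
    |u ^ s - v ^ s| ≤ (v - u) / v := by
  have hu0 : 0 < u := by linarith
  have hv0 : 0 < v := by linarith
  have h1 : v ^ s ≤ u ^ s := Real.rpow_le_rpow_of_nonpos hu0 huv hs0
  rw [abs_of_nonneg (by linarith)]
  have h2 : u ^ s ≤ 1 := Real.rpow_le_one_of_one_le_of_nonpos hu hs0
  have h3 : v ^ s = u ^ s * (v / u) ^ s := by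
    rw [← Real.mul_rpow hu0.le (by positivity)]
    congr 1
    field_simp
  have h4 : u / v ≤ (v / u) ^ s := by
    have h5 : (v / u) ^ (-1 : ℝ) ≤ (v / u) ^ s :=
      Real.rpow_le_rpow_of_exponent_le (by rw [one_le_div hu0]; exact huv) hs1
    rw [Real.rpow_neg_one, inv_div] at h5
    exact h5
  have h6 : 0 < u ^ s := Real.rpow_pos_of_pos hu0 _
  have h7 : u / v ≤ 1 := (div_le_one hv0).2 huv
  have h8 : (v - u) / v = 1 - u / v := by field_simp
  rw [h3, h8]
  have h9 : u ^ s * (u / v) ≤ u ^ s * (v / u) ^ s := mul_le_mul_of_nonneg_left h4 h6.le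
  nlinarith

theorem maindiff {X : ℕ} {P : Finset ℕ} {b c a1 α : ℝ} (hX : 2 ≤ X)
    (hP : P ⊆ Ioc X (2 * X)) (hb : |b| ≤ 1) (hc : 1 ≤ c) (ha1 : 0 < a1) (hα : a1 ≤ α) :
    |mA c P b α - mA c P 0 α| ≤ a1 ^ (-(1 / c)) := by
  have hX0 : (2 : ℝ) ≤ X := by exact_mod_cast hX
  have hc0 : 0 < c := by linarith
  have hb1 := abs_le.1 hb
  have h1c : 1 / c ≤ 1 := by rw [div_le_one hc0]; exact hc
  have h1c0 : 0 < 1 / c := by positivity
  have hα0 : 0 < α := by linarith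
  have hαA : α ^ (-(1 / c)) ≤ a1 ^ (-(1 / c)) :=
    Real.rpow_le_rpow_of_nonpos ha1 hα (by linarith)
  have hα1 : 0 < α ^ (-(1 / c)) := Real.rpow_pos_of_pos hα0 _
  have hA0 : 0 < a1 ^ (-(1 / c)) := Real.rpow_pos_of_pos ha1 _
  have hterm : ∀ m ∈ P, |(1 / c) * α ^ (-(1 / c)) * ((m : ℝ) + b) ^ (1 / c - 1) -
      (1 / c) * α ^ (-(1 / c)) * ((m : ℝ) + 0) ^ (1 / c - 1)| ≤ a1 ^ (-(1 / c)) / X := by
    intro m hm
    have hm1 : (X : ℝ) + 1 ≤ m := by
      have := (mem_Ioc.1 (hP hm)).1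
      exact_mod_cast this
    have h0 : |((m : ℝ) + b) ^ (1 / c - 1) - (m : ℝ) ^ (1 / c - 1)| ≤ 1 / X := by
      rcases le_total 0 b with h | h
      · have h2 := powdiff (u := (m : ℝ)) (v := (m : ℝ) + b) (s := 1 / c - 1) (by linarith)
          (by linarith) (by linarith) (by linarith)
        rw [abs_sub_comm]
        refine h2.trans ?_
        rw [div_le_div_iff₀ (by linarith) (by linarith)]
        nlinarith [hb1.2]
      · have h2 := powdiff (u := (m : ℝ) + b) (v := (m : ℝ)) (s := 1 / c - 1) (by linarith [hb1.1])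
          (by linarith) (by linarith) (by linarith)
        refine h2.trans ?_
        rw [div_le_div_iff₀ (by linarith) (by linarith)]
        nlinarith [hb1.1]
    rw [add_zero, ← mul_sub, abs_mul, abs_mul, abs_of_pos h1c0, abs_of_pos hα1]
    calc 1 / c * α ^ (-(1 / c)) * |((m : ℝ) + b) ^ (1 / c - 1) - (m : ℝ) ^ (1 / c - 1)| ≤
        1 * a1 ^ (-(1 / c)) * (1 / X) := by gcongr
      _ = a1 ^ (-(1 / c)) / X := by ring
  unfold mA
  rw [← sum_sub_distrib]
  refine (abs_sum_le_sum_abs _ _).trans ((sum_le_sum hterm).trans ?_)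
  rw [sum_const, nsmul_eq_mul]
  have hcard : P.card ≤ X := by
    have := card_le_card hP
    rw [Nat.card_Ioc] at this
    omega
  have hcard' : (P.card : ℝ) ≤ X := by exact_mod_cast hcard
  rw [← mul_div_assoc, div_le_iff₀ (by linarith)]
  rw [mul_comm]
  gcongr

theorem meas_cnt (c : ℝ) (P K : Finset ℕ) (b w : ℝ) : Measurable fun α => cA c P K b w α := by
  unfold cA
  refine Finset.measurable_sum _ fun k _ => ?_
  have h : (fun α : ℝ => ((P.filter (fun m : ℕ => (m : ℝ) + b ≤ α * (k : ℝ) ^ c ∧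
      α * (k : ℝ) ^ c < m + b + w)).card : ℝ)) = fun α : ℝ => ∑ m ∈ P,
        if (m : ℝ) + b ≤ α * (k : ℝ) ^ c ∧ α * (k : ℝ) ^ c < m + b + w then (1 : ℝ) else 0 := by
    funext α
    rw [card_filter]
    push_cast
    rfl
  rw [h]
  refine Finset.measurable_sum _ fun m _ => ?_
  have hk : Measurable fun α : ℝ => α * (k : ℝ) ^ c := measurable_id.mul_const _
  exact Measurable.ite ((measurableSet_le measurable_const hk).inter
    (measurableSet_lt hk measurable_const)) measurable_const measurable_const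

theorem meas_main (c : ℝ) (P : Finset ℕ) (b : ℝ) : Measurable fun α => mA c P b α := by
  unfold mA
  refine Finset.measurable_sum _ fun m _ => ?_
  exact ((measurable_id.pow_const _).const_mul _).mul_const _

theorem int {X : ℕ} {P K : Finset ℕ} {b w c a1 a2 B : ℝ} (hX : 2 ≤ X)
    (hP : P ⊆ Ioc X (2 * X)) (hb : |b| ≤ 1) (hw0 : 0 ≤ w) (hw : w ≤ 2) (hc : 1 ≤ c)
    (ha1 : 0 < a1) (ha12 : a1 ≤ a2)
    (h : IntegrableOn (fun α => |cA c P K b w α - w * mA c P b α|) (Set.Icc a1 a2))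
    (hB : ∫ α in Set.Icc a1 a2, |cA c P K b w α - w * mA c P b α| ≤ B) :
    IntegrableOn (fun α => |cA c P K b w α - w * mA c P 0 α|) (Set.Icc a1 a2) ∧
    ∫ α in Set.Icc a1 a2, |cA c P K b w α - w * mA c P 0 α| ≤
      B + 2 * a1 ^ (-(1 / c)) * (a2 - a1) := by
  have hA0 : 0 < a1 ^ (-(1 / c)) := Real.rpow_pos_of_pos ha1 _
  have hle : ∀ α ∈ Set.Icc a1 a2, |cA c P K b w α - w * mA c P 0 α| ≤
      |cA c P K b w α - w * mA c P b α| + 2 * a1 ^ (-(1 / c)) := by
    intro α hα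
    have h1 : cA c P K b w α - w * mA c P 0 α =
        (cA c P K b w α - w * mA c P b α) + w * (mA c P b α - mA c P 0 α) := by ring
    rw [h1]
    refine (abs_add_le _ _).trans ?_
    have h2 : |w * (mA c P b α - mA c P 0 α)| ≤ 2 * a1 ^ (-(1 / c)) := by
      rw [abs_mul, abs_of_nonneg hw0]
      have h3 := maindiff (c := c) hX hP hb hc ha1 hα.1
      gcongr
    linarith
  have hconst : IntegrableOn (fun _ : ℝ => 2 * a1 ^ (-(1 / c))) (Set.Icc a1 a2) :=
    integrableOn_const (by simp)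
  have hg : IntegrableOn (fun α => |cA c P K b w α - w * mA c P b α| + 2 * a1 ^ (-(1 / c)))
      (Set.Icc a1 a2) := h.add hconst
  have hm : Measurable fun α => |cA c P K b w α - w * mA c P 0 α| :=
    ((meas_cnt c P K b w).sub ((meas_main c P 0).const_mul w)).abs
  have hint : IntegrableOn (fun α => |cA c P K b w α - w * mA c P 0 α|) (Set.Icc a1 a2) := by
    refine Integrable.mono' hg hm.aestronglyMeasurable ?_
    refine (ae_restrict_iff' measurableSet_Icc).2 (Filter.Eventually.of_forall fun α hα => ?_)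
    rw [Real.norm_eq_abs, abs_abs]
    exact hle α hα
  refine ⟨hint, ?_⟩
  calc ∫ α in Set.Icc a1 a2, |cA c P K b w α - w * mA c P 0 α| ≤
      ∫ α in Set.Icc a1 a2, (|cA c P K b w α - w * mA c P b α| + 2 * a1 ^ (-(1 / c))) :=
        setIntegral_mono_on hint hg measurableSet_Icc hle
    _ = (∫ α in Set.Icc a1 a2, |cA c P K b w α - w * mA c P b α|) +
        ∫ _ in Set.Icc a1 a2, (2 * a1 ^ (-(1 / c))) := integral_add h hconst
    _ ≤ B + 2 * a1 ^ (-(1 / c)) * (a2 - a1) := by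
        have h5 : ∫ _ in Set.Icc a1 a2, (2 * a1 ^ (-(1 / c))) =
            2 * a1 ^ (-(1 / c)) * (a2 - a1) := by
          rw [setIntegral_const]
          simp [Real.volume_real_Icc_of_le ha12]
          ring
        rw [h5]
        linarith

end A10baux

open A10baux in
theorem a10b (h3 : A3) (h10 : A10a) : A10b := by
  intro c hc
  have hc0 : 0 < c := by linarith
  have hQ : 1 ≤ ⌈8 * c⌉₊ := Nat.one_le_ceil_iff.mpr (by positivity)
  obtain ⟨η0, hη0, hη1, C, hC, h3'⟩ := h3 c hc ⌈8 * c⌉₊ hQ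
  obtain ⟨θ, hθ0, hθ1, hθ2⟩ : ∃ θ : ℝ, 0 < θ ∧ θ ≤ η0 / (8 * c) ∧ θ ≤ 1 / (16 * c) :=
    ⟨min (η0 / (8 * c)) (1 / (16 * c)), lt_min (by positivity) (by positivity),
      min_le_left _ _, min_le_right _ _⟩
  have hκ : θ / 8 ≤ 1 / (8 * c) := by
    have h1 : 1 / (16 * c) ≤ 1 / (8 * c) :=
      one_div_le_one_div_of_le (by positivity) (by linarith)
    linarith
  have hθ3 : θ ≤ 1 / 16 :=
    hθ2.trans (one_div_le_one_div_of_le (by norm_num) (by linarith))
  have hθc : 16 * θ ≤ 1 / c := by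
    rw [le_div_iff₀ (by positivity)] at hθ2
    rw [le_div_iff₀ hc0]
    linarith
  have h1c : 1 / c ≤ 1 := by rw [div_le_one hc0]; exact hc
  have h1c0 : 0 < 1 / c := by positivity
  refine ⟨θ / 8, by positivity, hκ, ?_⟩
  intro a1 a2 ha1 ha12 ha2
  set A : ℝ := a1 ^ (-(1 / c)) with hA
  have hA0 : 0 < A := Real.rpow_pos_of_pos ha1 _
  have hpi := Real.pi_pos
  set K : ℝ := 4 * a1 * (4 * A + 1) * (1000 * Real.pi + 2000 * C + 3) + 256 * a1 * A +
    48 * a1 * A + 16 * a1 + 2 * A * a1 with hK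
  have hev := ((eventually_ge_atTop 32).and
    ((ev (1 / (2 * c)) 2 (by positivity)).and
    ((ev θ (4 * Real.pi) hθ0).and
    ((ev (3 * θ / 8) K (by positivity)).and
    ((ev (1 / 2) (max 4 (a1 / 4)) (by norm_num)).and (ev1 (6 * a1 + 1)))))))
  obtain ⟨X0, hX0⟩ := eventually_atTop.mp hev
  refine ⟨X0, fun X hX P hP b w hb hw1 hw2 => ?_⟩
  obtain ⟨hX32, hX2, hXpi, hXK, hXh, hXa⟩ := hX0 X hX
  set x : ℝ := (X : ℝ) with hxdef
  have hx32 : (32 : ℝ) ≤ x := by
    rw [hxdef]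
    exact_mod_cast hX32
  have hx0 : 0 < x := by linarith
  have hx1 : 1 ≤ x := by linarith
  have hXh1 : 4 ≤ x ^ (1 / 2 : ℝ) := (le_max_left _ _).trans hXh
  have hXh2 : a1 / 4 ≤ x ^ (1 / 2 : ℝ) := (le_max_right _ _).trans hXh
  set M : ℕ := ⌈(4 * x / a1) ^ (1 / c)⌉₊ with hM
  have hL1 : 1 ≤ x ^ (1 / c) := Real.one_le_rpow hx1 (by positivity)
  have hrp : ∀ t : ℝ, 1 ≤ t → (t * x / a1) ^ (1 / c) ≤ t * (A * x ^ (1 / c)) := by
    intro t ht
    have h1 : t * x / a1 = t * (x * a1⁻¹) := by ring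
    rw [h1, Real.mul_rpow (by linarith) (by positivity), Real.mul_rpow hx0.le (by positivity),
      Real.inv_rpow ha1.le, ← Real.rpow_neg ha1.le, ← hA]
    have : t ^ (1 / c) ≤ t := by
      calc t ^ (1 / c) ≤ t ^ (1 : ℝ) := Real.rpow_le_rpow_of_exponent_le ht h1c
        _ = t := Real.rpow_one t
    calc t ^ (1 / c) * (x ^ (1 / c) * A) ≤ t * (x ^ (1 / c) * A) := by gcongr
      _ = t * (A * x ^ (1 / c)) := by ring
  have hMlow : (4 * x / a1) ^ (1 / c) ≤ (M : ℝ) := Nat.le_ceil _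
  have hMup : (M : ℝ) ≤ (4 * A + 1) * x ^ (1 / c) := by
    have h1 : (M : ℝ) < (4 * x / a1) ^ (1 / c) + 1 := Nat.ceil_lt_add_one (by positivity)
    have h2 := hrp 4 (by norm_num)
    nlinarith
  have hMx : x ^ (1 / (2 * c)) ≤ (M : ℝ) := by
    refine le_trans ?_ hMlow
    have h1 : x ^ (1 / (2 * c)) = (x ^ (1 / 2 : ℝ)) ^ (1 / c) := by
      rw [← Real.rpow_mul hx0.le]
      congr 1
      field_simp
    rw [h1]
    apply Real.rpow_le_rpow (by positivity) _ (by positivity)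
    rw [le_div_iff₀ ha1]
    have h2 : x ^ (1 / 2 : ℝ) * x ^ (1 / 2 : ℝ) = x := by
      rw [← Real.rpow_add hx0]
      norm_num
    have h3 : 0 < x ^ (1 / 2 : ℝ) := by positivity
    nlinarith
  have hM2 : 2 ≤ M := by
    have : (2 : ℝ) ≤ M := hX2.trans hMx
    exact_mod_cast this
  have hM0 : (0 : ℝ) < M := by
    have : (2 : ℝ) ≤ M := hX2.trans hMx
    linarith
  set J : ℕ := ⌊x ^ (θ / 2)⌋₊ with hJ
  have hJx : 1 ≤ x ^ (θ / 2) := Real.one_le_rpow hx1 (by positivity)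
  have hJ1 : 1 ≤ J := (Nat.one_le_floor_iff _).mpr hJx
  have hJup : (J : ℝ) ≤ x ^ (θ / 2) := Nat.floor_le (by positivity)
  have hJX : J ≤ X := by
    have h1 : (J : ℝ) ≤ x := by
      calc (J : ℝ) ≤ x ^ (θ / 2) := hJup
        _ ≤ x ^ (1 : ℝ) := Real.rpow_le_rpow_of_exponent_le hx1 (by linarith)
        _ = x := Real.rpow_one x
    rw [hxdef] at h1
    exact Nat.cast_le.mp h1
  have hJ1' : (1 : ℝ) ≤ J := by exact_mod_cast hJ1
  have hJlow : x ^ (θ / 2) ≤ 2 * J := by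
    have := Nat.lt_floor_add_one (x ^ (θ / 2))
    linarith
  have hΞ0 : 0 < x ^ θ := Real.rpow_pos_of_pos hx0 _
  have hΞ1 : 1 ≤ x ^ θ := Real.one_le_rpow hx1 hθ0.le
  have hω0 : 0 < x ^ (-(2 * θ)) := Real.rpow_pos_of_pos hx0 _
  have hω1 : x ^ (-(2 * θ)) ≤ 1 := by
    apply Real.rpow_le_one_of_one_le_of_nonpos hx1
    linarith
  have hωΞ : x ^ (-(2 * θ)) * x ^ θ = x ^ (-θ) := by
    rw [← Real.rpow_add hx0]
    congr 1
    ring
  have hMη : (M : ℝ) ^ (-η0) ≤ x ^ (-θ) := by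
    calc (M : ℝ) ^ (-η0) ≤ (x ^ (1 / (2 * c))) ^ (-η0) :=
          Real.rpow_le_rpow_of_nonpos (by positivity) hMx (by linarith)
      _ = x ^ (1 / (2 * c) * -η0) := (Real.rpow_mul hx0.le _ _).symm
      _ ≤ x ^ (-θ) := by
          apply Real.rpow_le_rpow_of_exponent_le hx1
          have h1 : η0 / (8 * c) ≤ η0 / (2 * c) := by
            apply div_le_div_of_nonneg_left hη0.le (by positivity) (by linarith)
          have h2 : 1 / (2 * c) * -η0 = -(η0 / (2 * c)) := by ring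
          rw [h2]
          linarith
  have hMη0 : 0 < (M : ℝ) ^ (-η0) := Real.rpow_pos_of_pos hM0 _
  set η : ℝ := C * (1 / x ^ θ + (M : ℝ) ^ (-η0)) with hη
  have hηpos : 0 < η := by positivity
  have hηle : η ≤ 2 * C * x ^ (-θ) := by
    have h1 : 1 / x ^ θ = x ^ (-θ) := by
      rw [Real.rpow_neg hx0.le, one_div]
    calc η = C * (x ^ (-θ) + (M : ℝ) ^ (-η0)) := by rw [hη, h1]
      _ ≤ C * (x ^ (-θ) + x ^ (-θ)) := by gcongr
      _ = 2 * C * x ^ (-θ) := by ring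
  have hsqrt : √(x ^ 4) = x ^ 2 := by
    rw [show x ^ 4 = (x ^ 2) ^ 2 by ring]
    exact Real.sqrt_sq (by positivity)
  have hmain := h10 X M J P c a1 a2 (x ^ (-(2 * θ))) (x ^ θ) (x ^ 4) η b w hX32 hM2 hJ1 hJX hP hb
    hw1 hw2 hc ha1 ha12 ha2 hω0 hω1
    (by
      rw [div_le_iff₀ hx0]
      calc (4 : ℝ) ≤ x ^ (1 / 2 : ℝ) := hXh1
        _ ≤ x ^ (-(2 * θ) + 1) := Real.rpow_le_rpow_of_exponent_le hx1 (by linarith)
        _ = x ^ (-(2 * θ)) * x := by rw [Real.rpow_add hx0, Real.rpow_one])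
    (by
      have h1 : Real.exp 1 ≤ (x - 1) / a2 := by
        have := Real.exp_one_lt_d9
        rw [le_div_iff₀ (by linarith)]
        have h4 : Real.exp 1 * a2 ≤ 3 * a2 :=
          mul_le_mul_of_nonneg_right (by linarith) (by linarith)
        linarith
      have h2 : Real.exp (1 / c) ≤ ((x - 1) / a2) ^ (1 / c) := by
        calc Real.exp (1 / c) = (Real.exp 1) ^ (1 / c) := by
              rw [← Real.exp_mul, one_mul]
          _ ≤ ((x - 1) / a2) ^ (1 / c) :=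
              Real.rpow_le_rpow (Real.exp_pos _).le h1 (by positivity)
      have h3 : Real.exp (1 / c) * Real.exp (-x ^ (-(2 * θ)) / c) ≥ 1 := by
        rw [← Real.exp_add]
        apply Real.one_le_exp
        have : 1 / c + -x ^ (-(2 * θ)) / c = (1 - x ^ (-(2 * θ))) / c := by ring
        rw [this]
        apply div_nonneg (by linarith) hc0.le
      calc (1 : ℝ) ≤ Real.exp (1 / c) * Real.exp (-x ^ (-(2 * θ)) / c) := h3
        _ ≤ ((x - 1) / a2) ^ (1 / c) * Real.exp (-x ^ (-(2 * θ)) / c) := by gcongr)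
    (by
      refine le_trans ?_ hMlow
      apply Real.rpow_le_rpow (by positivity) _ (by positivity)
      gcongr
      linarith)
    hΞ0.le
    (by
      have h1 : 2 * Real.pi * x ^ (-(2 * θ)) * x ^ θ = 2 * Real.pi * x ^ (-θ) := by
        rw [mul_assoc, hωΞ]
      rw [h1, Real.rpow_neg hx0.le, ← div_eq_mul_inv, div_le_iff₀ hΞ0]
      linarith)
    (by positivity) hηpos
    (by
      intro ξ hξ1 hξ2
      have h1 : |ξ| ≤ (M : ℝ) ^ ⌈8 * c⌉₊ := by
        refine hξ2.trans ?_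
        have h2 : (8 : ℝ) * c ≤ ⌈8 * c⌉₊ := Nat.le_ceil _
        calc x ^ 4 = x ^ (4 : ℝ) := by norm_cast
          _ ≤ x ^ (1 / (2 * c) * (⌈8 * c⌉₊ : ℝ)) := by
              apply Real.rpow_le_rpow_of_exponent_le hx1
              rw [one_div, ← div_eq_inv_mul, le_div_iff₀ (by positivity)]
              linarith
          _ = (x ^ (1 / (2 * c))) ^ (⌈8 * c⌉₊ : ℕ) := by
              rw [Real.rpow_mul hx0.le, Real.rpow_natCast]
          _ ≤ (M : ℝ) ^ ⌈8 * c⌉₊ := by gcongr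
      have h2 := h3' M ξ hM2 (hΞ1.trans hξ1) h1
      refine h2.trans ?_
      have hξ0 : 0 < |ξ| := lt_of_lt_of_le hΞ0 hξ1
      have h4 : 1 / |ξ| ≤ 1 / x ^ θ := by gcongr
      calc C * M * (1 / |ξ| + (M : ℝ) ^ (-η0)) ≤
            C * M * (1 / x ^ θ + (M : ℝ) ^ (-η0)) := by gcongr
        _ = η * M := by rw [hη]; ring)
  obtain ⟨hI1, hI2⟩ := int (by omega) hP hb (by linarith) hw2 hc ha1 ha12 hmain.1 hmain.2
  refine ⟨hI1, hI2.trans ?_⟩
  rw [← hA]
  set L : ℝ := x ^ (1 / c) with hL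
  have hL0 : 0 < L := Real.rpow_pos_of_pos hx0 _
  set R : ℝ := x ^ (1 / c - θ / 2) with hR
  have hR0 : 0 < R := Real.rpow_pos_of_pos hx0 _
  have hR1 : 1 ≤ R := Real.one_le_rpow hx1 (by linarith)
  have hd0 : 0 ≤ a2 - a1 := by linarith
  have hd1 : a2 - a1 ≤ a1 := by linarith
  -- the five terms
  have hE : 1000 * Real.pi * x ^ (-(2 * θ)) * x ^ θ + 1000 * η + 3 * x / √(x ^ 4) ≤
      (1000 * Real.pi + 2000 * C + 3) * x ^ (-θ) := by
    have h1 : 1000 * Real.pi * x ^ (-(2 * θ)) * x ^ θ = 1000 * Real.pi * x ^ (-θ) := by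
      rw [mul_assoc, hωΞ]
    have h2 : 3 * x / √(x ^ 4) ≤ 3 * x ^ (-θ) := by
      rw [hsqrt]
      have h3 : 3 * x / x ^ 2 = 3 * x ^ (-1 : ℝ) := by
        rw [Real.rpow_neg_one]
        field_simp
      rw [h3]
      have h4 : x ^ (-1 : ℝ) ≤ x ^ (-θ) :=
        Real.rpow_le_rpow_of_exponent_le hx1 (by linarith)
      linarith
    rw [h1]
    calc 1000 * Real.pi * x ^ (-θ) + 1000 * η + 3 * x / √(x ^ 4) ≤
        1000 * Real.pi * x ^ (-θ) + 1000 * (2 * C * x ^ (-θ)) + 3 * x ^ (-θ) := by gcongr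
      _ = (1000 * Real.pi + 2000 * C + 3) * x ^ (-θ) := by ring
  have hE0 : 0 ≤ 1000 * Real.pi * x ^ (-(2 * θ)) * x ^ θ + 1000 * η + 3 * x / √(x ^ 4) := by
    positivity
  have hpow1 : x ^ (θ / 2) * L * x ^ (-θ) = R := by
    rw [hL, hR, ← Real.rpow_add hx0, ← Real.rpow_add hx0]
    congr 1
    ring
  have hT1 : 4 * a1 * J * M * (1000 * Real.pi * x ^ (-(2 * θ)) * x ^ θ + 1000 * η +
      3 * x / √(x ^ 4)) ≤ 4 * a1 * (4 * A + 1) * (1000 * Real.pi + 2000 * C + 3) * R := by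
    calc 4 * a1 * J * M * (1000 * Real.pi * x ^ (-(2 * θ)) * x ^ θ + 1000 * η +
          3 * x / √(x ^ 4)) ≤ 4 * a1 * x ^ (θ / 2) * ((4 * A + 1) * L) *
          ((1000 * Real.pi + 2000 * C + 3) * x ^ (-θ)) := by gcongr
      _ = 4 * a1 * (4 * A + 1) * (1000 * Real.pi + 2000 * C + 3) * (x ^ (θ / 2) * L * x ^ (-θ)) := by
          ring
      _ = _ := by rw [hpow1]
  have hT2 : 64 / (J : ℝ) * (2 * x / a1) ^ (1 / c) ≤ 256 * A * R := by
    have h1 : 64 / (J : ℝ) ≤ 128 * x ^ (-(θ / 2)) := by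
      rw [div_le_iff₀ (by linarith)]
      have h2 : x ^ (-(θ / 2)) * x ^ (θ / 2) = 1 := by
        rw [← Real.rpow_add hx0]
        simp
      have h3 : 0 < x ^ (-(θ / 2)) := Real.rpow_pos_of_pos hx0 _
      nlinarith
    have h2 := hrp 2 (by norm_num)
    calc 64 / (J : ℝ) * (2 * x / a1) ^ (1 / c) ≤ (128 * x ^ (-(θ / 2))) * (2 * (A * L)) := by
          gcongr
      _ = 256 * A * (L * x ^ (-(θ / 2))) := by ring
      _ = 256 * A * R := by
          rw [hL, hR, ← Real.rpow_add hx0]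
          congr 2
  have hT3 : (J : ℝ) * (16 * x ^ (-(2 * θ)) * ((2 * x + 1) / a1) ^ (1 / c)) ≤ 48 * A * R := by
    have h1 : ((2 * x + 1) / a1) ^ (1 / c) ≤ 3 * (A * L) := by
      refine le_trans ?_ (hrp 3 (by norm_num))
      apply Real.rpow_le_rpow (by positivity) _ (by positivity)
      gcongr
      linarith
    calc (J : ℝ) * (16 * x ^ (-(2 * θ)) * ((2 * x + 1) / a1) ^ (1 / c)) ≤
        x ^ (θ / 2) * (16 * x ^ (-(2 * θ)) * (3 * (A * L))) := by gcongr
      _ = 48 * A * (x ^ (θ / 2) * L * x ^ (-(2 * θ))) := by ring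
      _ ≤ 48 * A * R := by
          have h2 : x ^ (θ / 2) * L * x ^ (-(2 * θ)) ≤ R := by
            rw [← hpow1]
            have : x ^ (-(2 * θ)) ≤ x ^ (-θ) :=
              Real.rpow_le_rpow_of_exponent_le hx1 (by linarith)
            gcongr
          gcongr
  have hT4 : (J : ℝ) * (16 / x ^ (-(2 * θ))) ≤ 16 * R := by
    have h1 : 16 / x ^ (-(2 * θ)) = 16 * x ^ (2 * θ) := by
      rw [Real.rpow_neg hx0.le]
      simp
    rw [h1]
    calc (J : ℝ) * (16 * x ^ (2 * θ)) ≤ x ^ (θ / 2) * (16 * x ^ (2 * θ)) := by gcongr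
      _ = 16 * x ^ (5 * θ / 2) := by
          have : x ^ (5 * θ / 2) = x ^ (θ / 2) * x ^ (2 * θ) := by
            rw [← Real.rpow_add hx0]
            congr 1
            ring
          rw [this]
          ring
      _ ≤ 16 * R := by
          have : x ^ (5 * θ / 2) ≤ R := by
            rw [hR]
            apply Real.rpow_le_rpow_of_exponent_le hx1
            linarith
          gcongr
  have hT5 : 2 * A * (a2 - a1) ≤ 2 * A * a1 * R := by
    calc 2 * A * (a2 - a1) ≤ 2 * A * a1 := by gcongr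
      _ ≤ 2 * A * a1 * R := le_mul_of_one_le_right (by positivity) hR1
  have hsum : (a2 - a1) * (64 / (J : ℝ) * (2 * x / a1) ^ (1 / c) +
      J * (16 * x ^ (-(2 * θ)) * ((2 * x + 1) / a1) ^ (1 / c) + 16 / x ^ (-(2 * θ)))) ≤
      (256 * a1 * A + 48 * a1 * A + 16 * a1) * R := by
    rw [mul_add (J : ℝ)]
    have h6 : 64 / (J : ℝ) * (2 * x / a1) ^ (1 / c) +
        (J * (16 * x ^ (-(2 * θ)) * ((2 * x + 1) / a1) ^ (1 / c)) + J * (16 / x ^ (-(2 * θ)))) ≤
        256 * A * R + (48 * A * R + 16 * R) := by linarith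
    calc (a2 - a1) * (64 / (J : ℝ) * (2 * x / a1) ^ (1 / c) +
        (J * (16 * x ^ (-(2 * θ)) * ((2 * x + 1) / a1) ^ (1 / c)) + J * (16 / x ^ (-(2 * θ)))))
        ≤ a1 * (256 * A * R + (48 * A * R + 16 * R)) := by gcongr
      _ = (256 * a1 * A + 48 * a1 * A + 16 * a1) * R := by ring
  have hfinal : K * R ≤ x ^ (1 / c - θ / 8) := by
    calc K * R ≤ x ^ (3 * θ / 8) * R := by gcongr
      _ = x ^ (1 / c - θ / 8) := by
          rw [hR, ← Real.rpow_add hx0]
          congr 1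
          ring
  refine le_trans ?_ hfinal
  rw [hK]
  linarith

end Pool.Agent.H706R2.PS
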