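import Pool.Agent.H706R2.PS.ADefs

/-! A11: perturbation of the amplitude -/

open Finset MeasureTheory Filter

namespace Pool.Agent.H706R2.PS

namespace A11H

theorem pert {X k : ℕ} (hX : 16 ≤ X) {c a1 a b ε r : ℝ} (ha1 : 0 < a1) (ha : a1 ≤ a)
    (hε : 0 < ε) (hr : 0 ≤ r) (h : 4 * r * X ≤ ε * a1) (hab : |b - a| ≤ r)
    (hka : a * (k : ℝ) ^ c ≤ 2 * X + 1) : |b * (k : ℝ) ^ c - a * (k : ℝ) ^ c| < ε := by
  have hXr : (16 : ℝ) ≤ X := by exact_mod_cast hX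
  set u : ℝ := (k : ℝ) ^ c with hu
  have hu0 : 0 ≤ u := Real.rpow_nonneg (Nat.cast_nonneg _) _
  have e1 : b * u - a * u = (b - a) * u := by ring
  rw [e1, abs_mul, abs_of_nonneg hu0]
  have h1 : |b - a| * u ≤ r * u := mul_le_mul_of_nonneg_right hab hu0
  have h2 : a1 * u ≤ 2 * X + 1 := (mul_le_mul_of_nonneg_right ha hu0).trans hka
  have h3 : (r * u) * (4 * X * a1) ≤ ε * a1 * (2 * X + 1) := by
    calc (r * u) * (4 * X * a1) = (4 * r * X) * (a1 * u) := by ring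
      _ ≤ (ε * a1) * (a1 * u) := mul_le_mul_of_nonneg_right h (by positivity)
      _ ≤ (ε * a1) * (2 * X + 1) := mul_le_mul_of_nonneg_left h2 (by positivity)
  have h4 : r * u < ε := by
    by_contra hcon
    push Not at hcon
    have h5 : ε * (4 * X * a1) ≤ (r * u) * (4 * X * a1) :=
      mul_le_mul_of_nonneg_right hcon (by positivity)
    have h6 : 0 < ε * a1 := by positivity
    have h7 : ε * a1 * (4 * X) ≤ ε * a1 * (2 * X + 1) := by
      calc ε * a1 * (4 * X) = ε * (4 * X * a1) := by ring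
        _ ≤ _ := h5.trans h3
    have h8 := le_of_mul_le_mul_left h7 h6
    linarith
  linarith

theorem rp {a1 a b r s : ℝ} (ha1 : 0 < a1) (ha : a1 ≤ a) (hab : a ≤ b) (hs0 : 0 ≤ s) (hs : s ≤ 1)
    (hr : b - a ≤ r) : |a ^ (-s) - b ^ (-s)| ≤ a1 ^ (-s) * (r / a1) := by
  have ha0 : 0 < a := lt_of_lt_of_le ha1 ha
  have hb0 : 0 < b := lt_of_lt_of_le ha0 hab
  have h1 : b ^ (-s) ≤ a ^ (-s) := Real.rpow_le_rpow_of_nonpos ha0 hab (by linarith)
  rw [abs_of_nonneg (by linarith)]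
  have hq0 : 0 < a / b := by positivity
  have hq1 : a / b ≤ 1 := by rw [div_le_one hb0]; exact hab
  have h2 : a / b ≤ (a / b) ^ s := by
    have := Real.rpow_le_rpow_of_exponent_ge hq0 hq1 hs
    rwa [Real.rpow_one] at this
  have h3 : b ^ (-s) = a ^ (-s) * (a / b) ^ s := by
    rw [Real.div_rpow ha0.le hb0.le, Real.rpow_neg ha0.le, Real.rpow_neg hb0.le]
    have : a ^ s ≠ 0 := (Real.rpow_pos_of_pos ha0 s).ne'
    have : b ^ s ≠ 0 := (Real.rpow_pos_of_pos hb0 s).ne'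
    field_simp
  have h4 : a ^ (-s) ≤ a1 ^ (-s) := Real.rpow_le_rpow_of_nonpos ha1 ha (by linarith)
  have h5 : 1 - a / b ≤ r / a1 := by
    have e : 1 - a / b = (b - a) / b := by field_simp
    rw [e]
    exact div_le_div₀ (by linarith) hr ha1 (ha.trans hab)
  have h6 : 0 ≤ 1 - a / b := by linarith
  have h7 : (0 : ℝ) < a1 ^ (-s) := Real.rpow_pos_of_pos ha1 _
  have h8 : (0 : ℝ) < a ^ (-s) := Real.rpow_pos_of_pos ha0 _
  calc a ^ (-s) - b ^ (-s) = a ^ (-s) * (1 - (a / b) ^ s) := by rw [h3]; ring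
    _ ≤ a ^ (-s) * (1 - a / b) := mul_le_mul_of_nonneg_left (by linarith) h8.le
    _ ≤ a1 ^ (-s) * (r / a1) := mul_le_mul h4 h5 h6 h7.le

theorem rp' {a1 a b r s : ℝ} (ha1 : 0 < a1) (ha : a1 ≤ a) (hb : a1 ≤ b) (hs0 : 0 ≤ s) (hs : s ≤ 1)
    (hr : |a - b| ≤ r) : |a ^ (-s) - b ^ (-s)| ≤ a1 ^ (-s) * (r / a1) := by
  rw [abs_le] at hr
  rcases le_total a b with hab | hab
  · exact rp ha1 ha hab hs0 hs (by linarith)
  · rw [abs_sub_comm]
    exact rp ha1 hb hab hs0 hs (by linarith)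

end A11H

open A11H in
theorem a11 : A11 := by
  intro X P K c a1 α α' ε r hX hP hc ha1 hα hα' hε hε4 hr h hαα
  have hXr : (16 : ℝ) ≤ X := by exact_mod_cast hX
  have hmX : ∀ m ∈ P, (X : ℝ) < m ∧ (m : ℝ) ≤ 2 * X := by
    intro m hm
    have := mem_Ioc.1 (hP hm)
    exact ⟨by exact_mod_cast this.1, by exact_mod_cast this.2⟩
  have hαα' : |α' - α| ≤ r := by rw [abs_sub_comm]; exact hαα
  refine ⟨?_, ?_, ?_⟩
  · unfold cA
    apply sum_le_sum
    intro k _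
    have : (P.filter (fun m : ℕ => (m : ℝ) + ε ≤ α' * (k : ℝ) ^ c ∧
          α' * (k : ℝ) ^ c < m + ε + (1 - 2 * ε))) ⊆
        P.filter (fun m : ℕ => (m : ℝ) + 0 ≤ α * (k : ℝ) ^ c ∧ α * (k : ℝ) ^ c < m + 0 + 1) := by
      intro m hm
      rw [mem_filter] at hm ⊢
      obtain ⟨hmP, h1, h2⟩ := hm
      have hm2 := (hmX m hmP).2
      have h3 := pert (k := k) (c := c) hX ha1 hα' hε hr h hαα
        (by linarith : α' * (k : ℝ) ^ c ≤ 2 * X + 1)
      rw [abs_lt] at h3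
      exact ⟨hmP, by linarith, by linarith⟩
    exact_mod_cast card_le_card this
  · unfold cA
    apply sum_le_sum
    intro k _
    have : (P.filter (fun m : ℕ => (m : ℝ) + 0 ≤ α * (k : ℝ) ^ c ∧ α * (k : ℝ) ^ c < m + 0 + 1)) ⊆
        P.filter (fun m : ℕ => (m : ℝ) + -ε ≤ α' * (k : ℝ) ^ c ∧
          α' * (k : ℝ) ^ c < m + -ε + (1 + 2 * ε)) := by
      intro m hm
      rw [mem_filter] at hm ⊢
      obtain ⟨hmP, h1, h2⟩ := hm
      have hm2 := (hmX m hmP).2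
      have h3 := pert (k := k) (c := c) hX ha1 hα hε hr h hαα'
        (by linarith : α * (k : ℝ) ^ c ≤ 2 * X + 1)
      rw [abs_lt] at h3
      exact ⟨hmP, by linarith, by linarith⟩
    exact_mod_cast card_le_card this
  · have hc0 : 0 < c := by linarith
    have hs0 : 0 ≤ 1 / c := by positivity
    have hs1 : 1 / c ≤ 1 := by rw [div_le_one hc0]; exact hc
    have hX0 : (0 : ℝ) < X := by linarith
    set D : ℝ := a1 ^ (-(1 / c)) * (r / a1) with hD
    have hD0 : 0 ≤ D := by positivity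
    set q : ℝ := (X : ℝ) ^ (1 / c - 1) with hq
    have hq0 : 0 < q := Real.rpow_pos_of_pos hX0 _
    have hrp := rp' ha1 hα hα' hs0 hs1 hαα
    have hterm : ∀ m ∈ P, |(1 / c) * α ^ (-(1 / c)) * ((m : ℝ) + 0) ^ (1 / c - 1) -
        (1 / c) * α' ^ (-(1 / c)) * ((m : ℝ) + 0) ^ (1 / c - 1)| ≤ D * q := by
      intro m hm
      obtain ⟨hm1, hm2⟩ := hmX m hm
      rw [add_zero]
      have e : (1 / c) * α ^ (-(1 / c)) * (m : ℝ) ^ (1 / c - 1) -
        (1 / c) * α' ^ (-(1 / c)) * (m : ℝ) ^ (1 / c - 1) =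
          ((1 / c) * (α ^ (-(1 / c)) - α' ^ (-(1 / c)))) * (m : ℝ) ^ (1 / c - 1) := by ring
      have hmp : 0 ≤ (m : ℝ) ^ (1 / c - 1) := Real.rpow_nonneg (by linarith) _
      rw [e, abs_mul, abs_mul, abs_of_nonneg hs0, abs_of_nonneg hmp]
      have h1 : (m : ℝ) ^ (1 / c - 1) ≤ q :=
        Real.rpow_le_rpow_of_nonpos hX0 hm1.le (by linarith)
      have h2 : 1 / c * |α ^ (-(1 / c)) - α' ^ (-(1 / c))| ≤ D := by
        calc _ ≤ 1 * D := mul_le_mul hs1 hrp (abs_nonneg _) zero_le_one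
          _ = D := one_mul _
      exact mul_le_mul h2 h1 hmp hD0
    have hcard : (P.card : ℝ) ≤ X := by
      have h1 := card_le_card hP
      rw [Nat.card_Ioc] at h1
      have : P.card ≤ X := by omega
      exact_mod_cast this
    have hXq : (X : ℝ) * q = (X : ℝ) ^ (1 / c) := by
      rw [hq, Real.rpow_sub hX0, Real.rpow_one]
      field_simp
    have hra : r / a1 ≤ ε := by
      rw [div_le_iff₀ ha1]
      have h1 : r * 1 ≤ r * (4 * X) := mul_le_mul_of_nonneg_left (by linarith) hr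
      calc r = r * 1 := (mul_one r).symm
        _ ≤ r * (4 * X) := h1
        _ = 4 * r * X := by ring
        _ ≤ ε * a1 := h
    have hdiv : ((X : ℝ) / a1) ^ (1 / c) = (X : ℝ) ^ (1 / c) * a1 ^ (-(1 / c)) := by
      rw [Real.div_rpow hX0.le ha1.le, Real.rpow_neg ha1.le, div_eq_mul_inv]
    unfold mA
    rw [← sum_sub_distrib]
    calc |∑ m ∈ P, ((1 / c) * α ^ (-(1 / c)) * ((m : ℝ) + 0) ^ (1 / c - 1) -
          (1 / c) * α' ^ (-(1 / c)) * ((m : ℝ) + 0) ^ (1 / c - 1))|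
        ≤ ∑ m ∈ P, |(1 / c) * α ^ (-(1 / c)) * ((m : ℝ) + 0) ^ (1 / c - 1) -
          (1 / c) * α' ^ (-(1 / c)) * ((m : ℝ) + 0) ^ (1 / c - 1)| := abs_sum_le_sum_abs _ _
      _ ≤ ∑ m ∈ P, D * q := sum_le_sum hterm
      _ = P.card * (D * q) := by rw [sum_const, nsmul_eq_mul]
      _ ≤ X * (D * q) := mul_le_mul_of_nonneg_right hcard (by positivity)
      _ = (r / a1) * ((X : ℝ) ^ (1 / c) * a1 ^ (-(1 / c))) := by rw [hD, ← hXq]; ring
      _ ≤ ε * ((X : ℝ) ^ (1 / c) * a1 ^ (-(1 / c))) :=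
          mul_le_mul_of_nonneg_right hra (by positivity)
      _ = ε * ((X : ℝ) / a1) ^ (1 / c) := by rw [hdiv]

end Pool.Agent.H706R2.PS
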