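import Pool.Agent.H706R2.PS.ADefs

/-! A13 (helper796): outside the upper limit of the bad sets the law holds. -/

set_option autoImplicit false

open Finset MeasureTheory Filter

namespace Pool.Agent.H706R2.PS

namespace A13aux

theorem two_pow (θ : ℝ) (i : ℕ) :
    ((2:ℝ) ^ (i + 1)) ^ θ = (2:ℝ) ^ θ * ((2:ℝ) ^ i) ^ θ := by
  rw [pow_succ, Real.mul_rpow (by positivity) (by norm_num), mul_comm]

theorem ind (f : ℕ → ℝ) (θ K : ℝ) (hθ : 0 < θ) (hK : 0 ≤ K) (i0 : ℕ)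
    (h : ∀ i : ℕ, i0 ≤ i → ∀ y : ℕ, 2 ^ i ≤ y → y ≤ 2 ^ (i + 1) →
      |∑ m ∈ Ioc (2 ^ i) y, f m| ≤ K * ((2 : ℝ) ^ i) ^ θ) (i : ℕ) (hi : i0 ≤ i) :
    |∑ m ∈ Ioc 0 (2 ^ i), f m| ≤ |∑ m ∈ Ioc 0 (2 ^ i0), f m| +
      K / ((2:ℝ) ^ θ - 1) * ((2 : ℝ) ^ i) ^ θ := by
  have h2 : 1 < (2:ℝ) ^ θ := Real.one_lt_rpow (by norm_num) hθ
  have h3 : 0 < (2:ℝ) ^ θ - 1 := by linarith
  induction i, hi using Nat.le_induction with
  | base =>
    have : 0 ≤ K / ((2:ℝ) ^ θ - 1) * ((2 : ℝ) ^ i0) ^ θ := by positivity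
    linarith
  | succ i hi ih =>
    have hle : 2 ^ i ≤ 2 ^ (i + 1) := Nat.pow_le_pow_right (by norm_num) (Nat.le_succ i)
    rw [← Finset.sum_Ioc_consecutive f (Nat.zero_le (2 ^ i)) hle, two_pow]
    refine (abs_add_le _ _).trans ?_
    have h4 := h i hi (2 ^ (i + 1)) hle le_rfl
    have h5 : K / ((2:ℝ) ^ θ - 1) * ((2:ℝ) ^ θ * ((2:ℝ) ^ i) ^ θ) =
        K / ((2:ℝ) ^ θ - 1) * ((2 : ℝ) ^ i) ^ θ + K * ((2 : ℝ) ^ i) ^ θ := by
      field_simp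
      ring
    rw [h5]
    linarith

theorem det (f : ℕ → ℝ) (θ K : ℝ) (hθ : 0 < θ) (hK : 0 ≤ K) (i0 : ℕ)
    (h : ∀ i : ℕ, i0 ≤ i → ∀ y : ℕ, 2 ^ i ≤ y → y ≤ 2 ^ (i + 1) →
      |∑ m ∈ Ioc (2 ^ i) y, f m| ≤ K * ((2 : ℝ) ^ i) ^ θ) :
    ∃ C : ℝ, 0 ≤ C ∧ ∀ y : ℕ, 1 ≤ y → |∑ m ∈ Ioc 0 y, f m| ≤ C * (y : ℝ) ^ θ := by
  have h2 : 1 < (2:ℝ) ^ θ := Real.one_lt_rpow (by norm_num) hθ
  have h3 : 0 < (2:ℝ) ^ θ - 1 := by linarith
  set S : ℝ := ∑ y ∈ range (2 ^ i0 + 1), |∑ m ∈ Ioc 0 y, f m| with hS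
  have hS1 : ∀ y, y ≤ 2 ^ i0 → |∑ m ∈ Ioc 0 y, f m| ≤ S := by
    intro y hy
    exact Finset.single_le_sum (f := fun y => |∑ m ∈ Ioc 0 y, f m|) (fun _ _ => abs_nonneg _)
      (Finset.mem_range.2 (by omega))
  have hS0 : 0 ≤ S := Finset.sum_nonneg (fun _ _ => abs_nonneg _)
  have hc : 0 ≤ K / ((2:ℝ) ^ θ - 1) := by positivity
  refine ⟨S + (K / ((2:ℝ) ^ θ - 1) + K), by positivity, fun y hy => ?_⟩
  have hy1 : (1:ℝ) ≤ (y : ℝ) ^ θ := Real.one_le_rpow (by exact_mod_cast hy) hθ.le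
  rcases le_total y (2 ^ i0) with hle | hge
  · calc |∑ m ∈ Ioc 0 y, f m| ≤ S := hS1 y hle
      _ ≤ S + (K / ((2:ℝ) ^ θ - 1) + K) := by linarith
      _ ≤ (S + (K / ((2:ℝ) ^ θ - 1) + K)) * (y : ℝ) ^ θ :=
        le_mul_of_one_le_right (by positivity) hy1
  · set i : ℕ := Nat.log 2 y with hi
    have hi1 : 2 ^ i ≤ y := Nat.pow_log_le_self 2 (by omega)
    have hi2 : y < 2 ^ (i + 1) := Nat.lt_pow_succ_log_self (by norm_num) y
    have hi0 : i0 ≤ i := by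
      by_contra hcon
      push Not at hcon
      have : 2 ^ (i + 1) ≤ 2 ^ i0 := Nat.pow_le_pow_right (by norm_num) hcon
      omega
    have h4 := ind f θ K hθ hK i0 h i hi0
    have h5 := h i hi0 y hi1 hi2.le
    rw [← Finset.sum_Ioc_consecutive f (Nat.zero_le (2 ^ i)) hi1]
    refine (abs_add_le _ _).trans ?_
    have h6 : ((2:ℝ) ^ i) ^ θ ≤ (y : ℝ) ^ θ := by
      apply Real.rpow_le_rpow (by positivity) _ hθ.le
      exact_mod_cast hi1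
    have h7 := hS1 (2 ^ i0) le_rfl
    have h8 : K / ((2:ℝ) ^ θ - 1) * ((2:ℝ) ^ i) ^ θ ≤ K / ((2:ℝ) ^ θ - 1) * (y : ℝ) ^ θ :=
      mul_le_mul_of_nonneg_left h6 hc
    have h8' : K * ((2:ℝ) ^ i) ^ θ ≤ K * (y : ℝ) ^ θ := mul_le_mul_of_nonneg_left h6 hK
    have h9 : S ≤ S * (y : ℝ) ^ θ := le_mul_of_one_le_right hS0 hy1
    have h10 : (S + (K / ((2:ℝ) ^ θ - 1) + K)) * (y : ℝ) ^ θ =
      S * (y : ℝ) ^ θ + K / ((2:ℝ) ^ θ - 1) * (y : ℝ) ^ θ + K * (y : ℝ) ^ θ := by ring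
    rw [h10]
    linarith

/-- from the grid to all points -/
theorem grid (X L y : ℕ) (R Mn : ℕ → ℝ) (δ q : ℝ) (hL : 1 ≤ L) (hy : X ≤ y) (hy2 : y ≤ 2 * X)
    (hR : ∀ a b, a ≤ b → R a ≤ R b) (hM : ∀ a b, a ≤ b → Mn a ≤ Mn b)
    (hML : ∀ a b, b ≤ a + L → Mn b ≤ Mn a + q)
    (h : ∀ t, t < X / L + 2 → |R (min (X + t * L) (2 * X)) - Mn (min (X + t * L) (2 * X))| ≤ δ) :
    |R y - Mn y| ≤ δ + q := by
  set t : ℕ := (y - X) / L with ht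
  have ht1 : t ≤ X / L := Nat.div_le_div_right (by omega)
  have h1 : t * L ≤ y - X := Nat.div_mul_le_self _ _
  have h2 : y - X < (t + 1) * L := by
    rw [ht, mul_comm]
    exact Nat.lt_mul_div_succ _ hL
  set y0 : ℕ := min (X + t * L) (2 * X) with hy0
  set y1 : ℕ := min (X + (t + 1) * L) (2 * X) with hy1
  have hy0y : y0 ≤ y := by
    rw [hy0]; exact (min_le_left _ _).trans (by omega)
  have hyy1 : y ≤ y1 := by
    rw [hy1]; exact le_min (by omega) hy2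
  have hy01 : y1 ≤ y0 + L := by
    rw [hy0, hy1, add_mul, one_mul]
    have hA : min (X + (t * L + L)) (2 * X) ≤ min (X + (t * L + L)) (2 * X + L) :=
      min_le_min_left _ (by omega)
    rw [← Nat.add_assoc, Nat.add_min_add_right] at hA
    rw [← Nat.add_assoc]
    exact hA
  have e0 := h t (by omega)
  have e1 := h (t + 1) (by omega)
  have m1 := hML y0 y1 hy01
  have m2 := hM _ _ hy0y
  have m3 := hM _ _ hyy1
  have n1 := hR _ _ hy0y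
  have n2 := hR _ _ hyy1
  rw [abs_le] at e0 e1 ⊢
  constructor <;> linarith [e0.1, e0.2, e1.1, e1.2]

/-- the number of `n ≥ 1` with `⌊α n^c⌋ = m` -/
noncomputable def rr (α c : ℝ) (m : ℕ) : ℕ :=
  ((Ico 1 (⌈((m : ℝ) + 1) / α⌉₊ + 1)).filter (fun n : ℕ => ⌊α * (n : ℝ) ^ c⌋₊ = m)).card

theorem bound {α c : ℝ} (hα : 0 < α) (hc : 1 ≤ c) {n m : ℕ} (hn : 1 ≤ n)
    (h : ⌊α * (n : ℝ) ^ c⌋₊ ≤ m) : (n : ℝ) < ((m : ℝ) + 1) / α := by
  have h1 : α * (n : ℝ) ^ c < m + 1 := by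
    have h2 := Nat.lt_floor_add_one (α * (n : ℝ) ^ c)
    have h3 : (⌊α * (n : ℝ) ^ c⌋₊ : ℝ) ≤ m := by exact_mod_cast h
    linarith
  have hn1 : (1 : ℝ) ≤ n := by exact_mod_cast hn
  have h4 : (n : ℝ) ≤ (n : ℝ) ^ c := by
    have := Real.rpow_le_rpow_of_exponent_le hn1 hc
    rwa [Real.rpow_one] at this
  rw [lt_div_iff₀ hα]
  nlinarith

theorem rr_eq {α c : ℝ} (hα : 0 < α) (hc : 1 ≤ c) {m B : ℕ}
    (hB : ∀ n : ℕ, 1 ≤ n → ⌊α * (n : ℝ) ^ c⌋₊ = m → n < B) :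
    ((Ico 1 B).filter (fun n : ℕ => ⌊α * (n : ℝ) ^ c⌋₊ = m)).card = rr α c m := by
  unfold rr
  congr 1
  ext n
  rw [mem_filter, mem_filter, mem_Ico, mem_Ico]
  constructor
  · rintro ⟨⟨h1, -⟩, h2⟩
    refine ⟨⟨h1, ?_⟩, h2⟩
    have h3 := bound hα hc h1 h2.le
    have h4 : (n : ℝ) < (⌈((m : ℝ) + 1) / α⌉₊ : ℝ) := h3.trans_le (Nat.le_ceil _)
    have h5 : n < ⌈((m : ℝ) + 1) / α⌉₊ := by exact_mod_cast h4
    omega
  · rintro ⟨⟨h1, -⟩, h2⟩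
    exact ⟨⟨h1, hB n h1 h2⟩, h2⟩

open Classical in
/-- the counting terms -/
noncomputable def ft (A : Set ℕ) (c α : ℝ) (m : ℕ) : ℝ := if m ∈ A then (rr α c m : ℝ) else 0

open Classical in
/-- the main terms -/
noncomputable def mt (A : Set ℕ) (c α : ℝ) (m : ℕ) : ℝ :=
  if m ∈ A then 1 / c * α ^ (-(1 / c)) * (m : ℝ) ^ (1 / c - 1) else 0

theorem mA_eq (A : Set ℕ) (c α : ℝ) (X y : ℕ) :
    mA c (AxA A X y) 0 α = ∑ m ∈ Ioc X y, mt A c α m := by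
  classical
  unfold mA AxA mt
  rw [Finset.sum_filter]
  simp only [add_zero]


theorem cA_eq (A : Set ℕ) {c α a1 : ℝ} (hc : 1 ≤ c) (ha1 : 0 < a1) (hα : a1 ≤ α) {X y : ℕ}
    (hX : 1 ≤ X) (hy : y ≤ 2 * X) :
    cA c (AxA A X y) (Ico 1 (⌈(4 * (X : ℝ) / a1) ^ (1 / c)⌉₊)) 0 1 α =
      ∑ m ∈ Ioc X y, ft A c α m := by
  classical
  have hα0 : 0 < α := ha1.trans_le hα
  unfold cA
  have hfl : ∀ k m : ℕ, ((m : ℝ) + 0 ≤ α * (k : ℝ) ^ c ∧ α * (k : ℝ) ^ c < m + 0 + 1) ↔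
      ⌊α * (k : ℝ) ^ c⌋₊ = m := by
    intro k m
    rw [add_zero, Nat.floor_eq_iff (by positivity)]
  simp only [hfl]
  have hswap : ∑ k ∈ Ico 1 (⌈(4 * (X : ℝ) / a1) ^ (1 / c)⌉₊),
      (((AxA A X y).filter (fun m : ℕ => ⌊α * (k : ℝ) ^ c⌋₊ = m)).card : ℝ) =
      ∑ m ∈ AxA A X y, (((Ico 1 (⌈(4 * (X : ℝ) / a1) ^ (1 / c)⌉₊)).filter
        (fun k : ℕ => ⌊α * (k : ℝ) ^ c⌋₊ = m)).card : ℝ) := by
    simp only [Finset.card_filter, Nat.cast_sum]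
    exact Finset.sum_comm
  rw [hswap]
  unfold AxA ft
  rw [Finset.sum_filter]
  refine Finset.sum_congr rfl fun m hm => ?_
  rw [mem_Ioc] at hm
  by_cases hA : m ∈ A
  · rw [if_pos hA, if_pos hA]
    congr 1
    apply rr_eq hα0 hc
    intro n hn hnm
    have h1 : α * (n : ℝ) ^ c < m + 1 := by
      have h2 := Nat.lt_floor_add_one (α * (n : ℝ) ^ c)
      rwa [hnm] at h2
    have h2 : (m : ℝ) + 1 ≤ 4 * X := by
      have : m + 1 ≤ 4 * X := by omega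
      exact_mod_cast this
    have h3 : (n : ℝ) ^ c < 4 * X / a1 := by
      rw [lt_div_iff₀ ha1]
      have h4 : 0 ≤ (n : ℝ) ^ c := by positivity
      nlinarith
    have h5 : (n : ℝ) < (4 * X / a1) ^ (1 / c) := by
      have hc0 : 0 < c := by linarith
      have h6 : ((n : ℝ) ^ c) ^ (1 / c) = n := by
        rw [← Real.rpow_mul (Nat.cast_nonneg n), mul_one_div_cancel hc0.ne', Real.rpow_one]
      rw [← h6]
      exact Real.rpow_lt_rpow (by positivity) h3 (by positivity)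
    have h7 : (n : ℝ) < (⌈(4 * (X : ℝ) / a1) ^ (1 / c)⌉₊ : ℝ) := h5.trans_le (Nat.le_ceil _)
    exact_mod_cast h7
  · rw [if_neg hA, if_neg hA]

theorem ft_nonneg (A : Set ℕ) (c α : ℝ) (m : ℕ) : 0 ≤ ft A c α m := by
  unfold ft
  split_ifs
  · positivity
  · exact le_rfl

theorem mt_nonneg (A : Set ℕ) {c α : ℝ} (hc : 1 ≤ c) (hα : 0 < α) (m : ℕ) : 0 ≤ mt A c α m := by
  unfold mt
  split_ifs
  · have : 0 ≤ c := by linarith
    positivity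
  · exact le_rfl

theorem mt_le (A : Set ℕ) {c α : ℝ} (hc : 1 ≤ c) (hα : 0 < α) {X m : ℕ} (hX : 1 ≤ X)
    (hm : X ≤ m) : mt A c α m ≤ α ^ (-(1 / c)) * (X : ℝ) ^ (1 / c - 1) := by
  have hX0 : (0 : ℝ) < X := by exact_mod_cast hX
  have hr : 0 ≤ α ^ (-(1 / c)) * (X : ℝ) ^ (1 / c - 1) := by positivity
  unfold mt
  split_ifs
  · have h1c : 1 / c ≤ 1 := by
      rw [div_le_one (by linarith)]; exact hc
    have h7 : (m : ℝ) ^ (1 / c - 1) ≤ (X : ℝ) ^ (1 / c - 1) :=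
      Real.rpow_le_rpow_of_nonpos hX0 (by exact_mod_cast hm) (by linarith)
    have h8 : 0 ≤ (m : ℝ) ^ (1 / c - 1) := by positivity
    have h9 : 0 ≤ α ^ (-(1 / c)) := by positivity
    calc 1 / c * α ^ (-(1 / c)) * (m : ℝ) ^ (1 / c - 1)
        ≤ 1 * α ^ (-(1 / c)) * (X : ℝ) ^ (1 / c - 1) := by gcongr
      _ = _ := by rw [one_mul]
  · exact hr

theorem sum_mono {f : ℕ → ℝ} (hf : ∀ m, 0 ≤ f m) (X : ℕ) (a b : ℕ) (h : a ≤ b) :
    ∑ m ∈ Ioc X a, f m ≤ ∑ m ∈ Ioc X b, f m :=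
  Finset.sum_le_sum_of_subset_of_nonneg (Finset.Ioc_subset_Ioc_right h) (fun _ _ _ => hf _)

theorem sum_inc {f : ℕ → ℝ} (hf : ∀ m, 0 ≤ f m) {X L : ℕ} {u : ℝ} (hu : 0 ≤ u)
    (hfu : ∀ m, X ≤ m → f m ≤ u) (a b : ℕ) (h : b ≤ a + L) :
    ∑ m ∈ Ioc X b, f m ≤ ∑ m ∈ Ioc X a, f m + L * u := by
  classical
  have h1 : Ioc X b ⊆ Ioc X a ∪ (Ioc X b \ Ioc X a) := by
    intro m hm
    rw [Finset.mem_union, Finset.mem_sdiff]
    by_cases h : m ∈ Ioc X a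
    · exact Or.inl h
    · exact Or.inr ⟨hm, h⟩
  have h2 := Finset.sum_le_sum_of_subset_of_nonneg h1 (f := f) (fun _ _ _ => hf _)
  rw [Finset.sum_union Finset.disjoint_sdiff] at h2
  refine h2.trans (add_le_add le_rfl ?_)
  have h3 : ∑ m ∈ Ioc X b \ Ioc X a, f m ≤ (Ioc X b \ Ioc X a).card • u := by
    apply Finset.sum_le_card_nsmul
    intro m hm
    rw [Finset.mem_sdiff, mem_Ioc] at hm
    exact hfu m (by omega)
  refine h3.trans ?_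
  rw [nsmul_eq_mul]
  apply mul_le_mul_of_nonneg_right _ hu
  have h4 : Ioc X b \ Ioc X a ⊆ Ioc a b := by
    intro m hm
    rw [Finset.mem_sdiff, mem_Ioc, mem_Ioc] at hm
    rw [mem_Ioc]
    omega
  have h5 := Finset.card_le_card h4
  rw [Nat.card_Ioc] at h5
  have : (Ioc X b \ Ioc X a).card ≤ L := by omega
  exact_mod_cast this

/-- the counting function and `nA` -/
theorem nA_close (A : Set ℕ) {c α : ℝ} (hc : 1 ≤ c) (hα : 0 < α) (N : ℕ) :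
    (nA A c α N : ℝ) ≤ ∑ m ∈ Ioc 0 ⌊α * (N : ℝ) ^ c⌋₊, ft A c α m ∧
      ∑ m ∈ Ioc 0 ⌊α * (N : ℝ) ^ c⌋₊, ft A c α m ≤ nA A c α N + (1 / α + 1) := by
  classical
  set y := ⌊α * (N : ℝ) ^ c⌋₊ with hy
  set B : ℕ := max (N + 1) (⌈((y : ℝ) + 1) / α⌉₊ + 1) with hB
  have hBN : N + 1 ≤ B := le_max_left _ _
  have hBn : ∀ n : ℕ, 1 ≤ n → ⌊α * (n : ℝ) ^ c⌋₊ ≤ y → n < B := by
    intro n hn h
    have h3 := bound hα hc hn h
    have h4 : (n : ℝ) < (⌈((y : ℝ) + 1) / α⌉₊ : ℝ) := h3.trans_le (Nat.le_ceil _)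
    have h5 : n < ⌈((y : ℝ) + 1) / α⌉₊ := by exact_mod_cast h4
    have h6 : ⌈((y : ℝ) + 1) / α⌉₊ + 1 ≤ B := le_max_right _ _
    omega
  set U : Finset ℕ := (Ico 1 B).filter (fun n : ℕ => ⌊α * (n : ℝ) ^ c⌋₊ ∈ AxA A 0 y) with hU
  set W : Finset ℕ := (Ico 1 (N + 1)).filter
    (fun n : ℕ => 1 ≤ ⌊α * (n : ℝ) ^ c⌋₊ ∧ ⌊α * (n : ℝ) ^ c⌋₊ ∈ A) with hW
  have hmemAx : ∀ m, m ∈ AxA A 0 y ↔ (0 < m ∧ m ≤ y) ∧ m ∈ A := by
    intro m
    unfold AxA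
    rw [mem_filter, mem_Ioc]
  have hsumU : ∑ m ∈ Ioc 0 y, ft A c α m = U.card := by
    have h1 : U.card = ∑ m ∈ AxA A 0 y,
        (U.filter (fun n : ℕ => ⌊α * (n : ℝ) ^ c⌋₊ = m)).card := by
      apply Finset.card_eq_sum_card_fiberwise
      intro n hn
      rw [Finset.mem_coe, hU, mem_filter] at hn
      exact hn.2
    rw [h1]
    push_cast
    unfold ft
    rw [← Finset.sum_filter]
    have h2 : (Ioc 0 y).filter (fun m => m ∈ A) = AxA A 0 y := by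
      unfold AxA
      congr
    rw [h2]
    refine Finset.sum_congr rfl fun m hm => ?_
    have hm2 := (hmemAx m).1 hm
    congr 1
    rw [← rr_eq hα hc (m := m) (B := B) (fun n hn h => hBn n hn (by rw [h]; exact hm2.1.2))]
    congr 1
    ext n
    rw [mem_filter, mem_filter, hU, mem_filter]
    constructor
    · rintro ⟨h3, h4⟩
      refine ⟨⟨h3, ?_⟩, h4⟩
      rw [h4]; exact hm
    · rintro ⟨⟨h3, -⟩, h4⟩
      exact ⟨h3, h4⟩
  have hnA : nA A c α N = W.card := by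
    unfold nA
    rw [← Set.ncard_coe_finset]
    congr 1
    ext n
    rw [Set.mem_ofPred_eq, Finset.mem_coe, hW, mem_filter, mem_Ico]
    constructor
    · rintro ⟨h1, h2, h3, h4⟩
      exact ⟨⟨h1, by omega⟩, h3, h4⟩
    · rintro ⟨⟨h1, h2⟩, h3, h4⟩
      exact ⟨h1, by omega, h3, h4⟩
  have hWU : W ⊆ U := by
    intro n hn
    rw [hW, mem_filter, mem_Ico] at hn
    rw [hU, mem_filter, mem_Ico, hmemAx]
    obtain ⟨⟨h1, h2⟩, h3, h4⟩ := hn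
    refine ⟨⟨h1, by omega⟩, ⟨by omega, ?_⟩, h4⟩
    apply Nat.floor_le_floor
    apply mul_le_mul_of_nonneg_left _ hα.le
    apply Real.rpow_le_rpow (by positivity) _ (by linarith)
    have : n ≤ N := by omega
    exact_mod_cast this
  have hdiff : U \ W ⊆ Ioc N (N + ⌊1 / α⌋₊) := by
    intro n hn
    rw [Finset.mem_sdiff, hU, mem_filter, mem_Ico, hmemAx, hW, mem_filter, mem_Ico] at hn
    obtain ⟨⟨⟨h1, -⟩, ⟨h2, h3⟩, h4⟩, h5⟩ := hn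
    have hnN : N < n := by
      by_contra hcon
      exact h5 ⟨⟨h1, by omega⟩, by omega, h4⟩
    rw [mem_Ioc]
    refine ⟨hnN, ?_⟩
    have hflo : ⌊α * (n : ℝ) ^ c⌋₊ ≤ ⌊α * (N : ℝ) ^ c⌋₊ := h3
    have h6 : α * (n : ℝ) ^ c < α * (N : ℝ) ^ c + 1 := by
      have h7 := Nat.lt_floor_add_one (α * (n : ℝ) ^ c)
      have h8 : (⌊α * (n : ℝ) ^ c⌋₊ : ℝ) ≤ ⌊α * (N : ℝ) ^ c⌋₊ := by exact_mod_cast hflo
      have h9 := Nat.floor_le (show 0 ≤ α * (N : ℝ) ^ c by positivity)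
      linarith
    obtain ⟨d, rfl⟩ : ∃ d, n = N + d := ⟨n - N, by omega⟩
    have hd : 1 ≤ d := by omega
    have h10 : (N : ℝ) ^ c + (d : ℝ) ^ c ≤ ((N : ℝ) + d) ^ c :=
      Real.add_rpow_le_rpow_add (by positivity) (by positivity) hc
    have hd1 : (1 : ℝ) ≤ d := by exact_mod_cast hd
    have h11 : (d : ℝ) ≤ (d : ℝ) ^ c := by
      have := Real.rpow_le_rpow_of_exponent_le hd1 hc
      rwa [Real.rpow_one] at this
    push_cast at h6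
    have h12 : (d : ℝ) ≤ 1 / α := by
      rw [le_div_iff₀ hα]
      nlinarith
    have h13 : d ≤ ⌊1 / α⌋₊ := Nat.le_floor h12
    omega
  have hcard : U.card ≤ W.card + ⌊1 / α⌋₊ := by
    have h1 := Finset.card_sdiff_add_card_eq_card hWU
    have h2 := Finset.card_le_card hdiff
    rw [Nat.card_Ioc] at h2
    omega
  rw [hsumU, hnA]
  constructor
  · exact_mod_cast Finset.card_le_card hWU
  · have h1 : (U.card : ℝ) ≤ W.card + (⌊1 / α⌋₊ : ℝ) := by exact_mod_cast hcard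
    have h2 := Nat.floor_le (show 0 ≤ 1 / α by positivity)
    linarith

end A13aux

open A13aux

theorem a13 : A13 := by
  intro c κ a1 a2 hc hκ hκ2 ha1 ha12 ha2 A α hαI hex
  obtain ⟨i1, hi1⟩ := hex
  have hc1 : 1 ≤ c := hc.le
  have hc0 : 0 < c := by linarith
  have hα : 0 < α := ha1.trans_le hαI.1
  have hκc : κ * c ≤ 1 / 8 := by
    have h1 : κ * (8 * c) ≤ 1 := by
      rwa [le_div_iff₀ (by positivity)] at hκ2
    linarith
  have hκ1 : κ ≤ 1 := by nlinarith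
  have hθ : 0 < 1 / c - κ / 4 := by
    have h1 : κ ≤ 1 / c / 8 := by
      refine hκ2.trans (le_of_eq ?_)
      field_simp
    have h2 : 0 < 1 / c := by positivity
    linarith
  set K : ℝ := 1 + 2 * α ^ (-(1 / c)) with hK
  have hK0 : 0 ≤ K := by positivity
  -- dyadic blocks
  have hblock : ∀ i : ℕ, i1 ≤ i → ∀ y : ℕ, 2 ^ i ≤ y → y ≤ 2 ^ (i + 1) →
      |∑ m ∈ Ioc (2 ^ i) y, (ft A c α m - mt A c α m)| ≤ K * ((2 : ℝ) ^ i) ^ (1 / c - κ / 4) := by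
    intro i hi y hy hy2
    have hnB := hi1 i hi
    set X : ℕ := 2 ^ i with hXdef
    have hX1 : 1 ≤ X := Nat.one_le_two_pow
    have hXp : (0 : ℝ) < X := by exact_mod_cast hX1
    have hX1' : (1 : ℝ) ≤ X := by exact_mod_cast hX1
    have hXc : (2 : ℝ) ^ i = (X : ℝ) := by rw [hXdef]; push_cast; rfl
    set T : ℕ := ⌈(X : ℝ) ^ (κ / 4)⌉₊ with hT
    have hT0 : (X : ℝ) ^ (κ / 4) ≤ T := Nat.le_ceil _
    have hT1 : (1 : ℝ) ≤ (X : ℝ) ^ (κ / 4) := Real.one_le_rpow hX1' (by linarith)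
    have hTp : 0 < T := by
      have : (0 : ℝ) < T := by linarith
      exact_mod_cast this
    set L : ℕ := X / T + 1 with hL
    have hXL : X / L < T := by
      rw [Nat.div_lt_iff_lt_mul (Nat.succ_pos _)]
      exact Nat.lt_mul_div_succ X hTp
    have hyX : y ≤ 2 * X := by
      rw [hXdef, mul_comm, ← pow_succ]; exact hy2
    have hgrid : ∀ t, t < X / L + 2 →
        |∑ m ∈ Ioc X (min (X + t * L) (2 * X)), ft A c α m -
          ∑ m ∈ Ioc X (min (X + t * L) (2 * X)), mt A c α m| ≤ (X : ℝ) ^ (1 / c - κ / 2) := by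
      intro t ht
      have htT : t ≤ T := by omega
      rw [← cA_eq A hc1 ha1 hαI.1 hX1 (min_le_right _ _), ← mA_eq]
      by_contra hcon
      apply hnB
      refine ⟨hαI, t, ?_, ?_⟩
      · rw [hXc]
        exact htT
      · rw [hXc]
        exact not_le.1 hcon
    have hu : 0 ≤ α ^ (-(1 / c)) * (X : ℝ) ^ (1 / c - 1) := by positivity
    have hfin := grid X L y (fun y => ∑ m ∈ Ioc X y, ft A c α m)
      (fun y => ∑ m ∈ Ioc X y, mt A c α m) _ (L * (α ^ (-(1 / c)) * (X : ℝ) ^ (1 / c - 1)))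
      (Nat.succ_le_succ (Nat.zero_le _)) hy hyX
      (sum_mono (ft_nonneg A c α) X) (sum_mono (mt_nonneg A hc1 hα) X)
      (sum_inc (mt_nonneg A hc1 hα) hu (fun m hm => mt_le A hc1 hα hX1 hm)) hgrid
    rw [Finset.sum_sub_distrib]
    refine hfin.trans ?_
    rw [hXc]
    have hε : (X : ℝ) ^ (1 / c - κ / 2) ≤ (X : ℝ) ^ (1 / c - κ / 4) := by
      apply Real.rpow_le_rpow_of_exponent_le hX1'
      linarith
    have hLX : (L : ℝ) * (X : ℝ) ^ (1 / c - 1) ≤ 2 * (X : ℝ) ^ (1 / c - κ / 4) := by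
      have h14 : (L : ℝ) ≤ 2 * (X : ℝ) ^ (1 - κ / 4) := by
        have h15 : ((X / T : ℕ) : ℝ) ≤ (X : ℝ) / (T : ℝ) := Nat.cast_div_le
        have h16 : (X : ℝ) / (T : ℝ) ≤ (X : ℝ) / (X : ℝ) ^ (κ / 4) := by gcongr
        have h17 : (X : ℝ) / (X : ℝ) ^ (κ / 4) = (X : ℝ) ^ (1 - κ / 4) := by
          rw [Real.rpow_sub hXp, Real.rpow_one]
        have h18 : (1 : ℝ) ≤ (X : ℝ) ^ (1 - κ / 4) := Real.one_le_rpow hX1' (by linarith)
        rw [hL]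
        push_cast
        linarith
      have h17 : 0 ≤ (X : ℝ) ^ (1 / c - 1) := Real.rpow_nonneg hXp.le _
      calc (L : ℝ) * (X : ℝ) ^ (1 / c - 1)
          ≤ 2 * (X : ℝ) ^ (1 - κ / 4) * (X : ℝ) ^ (1 / c - 1) := by gcongr
        _ = 2 * (X : ℝ) ^ (1 / c - κ / 4) := by
            rw [mul_assoc, ← Real.rpow_add hXp]
            congr 2; ring
    have h9 : 0 ≤ α ^ (-(1 / c)) := by positivity
    calc (X : ℝ) ^ (1 / c - κ / 2) + L * (α ^ (-(1 / c)) * (X : ℝ) ^ (1 / c - 1))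
        = (X : ℝ) ^ (1 / c - κ / 2) + α ^ (-(1 / c)) * (L * (X : ℝ) ^ (1 / c - 1)) := by ring
      _ ≤ (X : ℝ) ^ (1 / c - κ / 4) + α ^ (-(1 / c)) * (2 * (X : ℝ) ^ (1 / c - κ / 4)) :=
          add_le_add hε (mul_le_mul_of_nonneg_left hLX h9)
      _ = K * (X : ℝ) ^ (1 / c - κ / 4) := by rw [hK]; ring
  obtain ⟨C, hC0, hC⟩ := det (fun m => ft A c α m - mt A c α m) (1 / c - κ / 4) K hθ hK0 i1 hblock
  refine ⟨C * α ^ (1 / c - κ / 4) + (1 / α + 1), fun N hN => ?_⟩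
  obtain ⟨n1, n2⟩ := nA_close A hc1 hα N
  set y := ⌊α * (N : ℝ) ^ c⌋₊ with hy
  rw [mA_eq]
  have hN1 : (1 : ℝ) ≤ N := by exact_mod_cast hN
  have hexp : 0 ≤ 1 - c * κ / 4 := by nlinarith
  have hNe : (1 : ℝ) ≤ (N : ℝ) ^ (1 - c * κ / 4) := Real.one_le_rpow hN1 hexp
  have hα1 : 0 ≤ 1 / α + 1 := by positivity
  have hD : |∑ m ∈ Ioc 0 y, ft A c α m - ∑ m ∈ Ioc 0 y, mt A c α m| ≤
      C * α ^ (1 / c - κ / 4) * (N : ℝ) ^ (1 - c * κ / 4) := by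
    rcases Nat.eq_zero_or_pos y with h0 | h0
    · rw [h0]
      simp only [Finset.Ioc_self, Finset.sum_empty, sub_self, abs_zero]
      positivity
    · have h1 := hC y h0
      simp only [Finset.sum_sub_distrib] at h1
      refine h1.trans ?_
      have h2 : (y : ℝ) ≤ α * (N : ℝ) ^ c := Nat.floor_le (by positivity)
      have h3 : (y : ℝ) ^ (1 / c - κ / 4) ≤ (α * (N : ℝ) ^ c) ^ (1 / c - κ / 4) :=
        Real.rpow_le_rpow (by positivity) h2 hθ.le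
      have h4 : (α * (N : ℝ) ^ c) ^ (1 / c - κ / 4) =
          α ^ (1 / c - κ / 4) * (N : ℝ) ^ (1 - c * κ / 4) := by
        rw [Real.mul_rpow hα.le (by positivity), ← Real.rpow_mul (by positivity)]
        congr 2
        field_simp
      rw [h4] at h3
      rw [mul_assoc]
      exact mul_le_mul_of_nonneg_left h3 hC0
  have h5 : (C * α ^ (1 / c - κ / 4) + (1 / α + 1)) * (N : ℝ) ^ (1 - c * κ / 4) =
      C * α ^ (1 / c - κ / 4) * (N : ℝ) ^ (1 - c * κ / 4) +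
        (1 / α + 1) * (N : ℝ) ^ (1 - c * κ / 4) := by ring
  have h6 : 1 / α + 1 ≤ (1 / α + 1) * (N : ℝ) ^ (1 - c * κ / 4) :=
    le_mul_of_one_le_right hα1 hNe
  rw [h5]
  rw [abs_le] at hD ⊢
  constructor
  · linarith [hD.1]
  · linarith [hD.2]

end Pool.Agent.H706R2.PS
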