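import Pool.Agent.H706R2.PS.Defs

/-! Wave 3: amplitudes. `⌊α k^c⌋` for a fixed exponent `c` and all `α` outside a small set
(`c = 2`, `α = 1` : the squares). -/

open Finset MeasureTheory Filter

namespace Pool.Agent.H706R2.PS

open Pool.Agent.H469R2.NK (e)
open Pool.Agent.H438R2.DL (Fw AD)

/-- `log (m + b)` -/
noncomputable def lg (b : ℝ) (m : ℕ) : ℝ := Real.log ((m : ℝ) + b)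

/-- `c log k` -/
noncomputable def cl (c : ℝ) (k : ℕ) : ℝ := c * Real.log (k : ℝ)

/-- number of pairs `(k, m)`, `k ∈ K`, `m ∈ P` with `m + b ≤ α k^c < m + b + w` -/
noncomputable def cA (c : ℝ) (P K : Finset ℕ) (b w α : ℝ) : ℝ :=
  ∑ k ∈ K, ((P.filter (fun m : ℕ => (m : ℝ) + b ≤ α * (k : ℝ) ^ c ∧ α * (k : ℝ) ^ c < m + b + w)).card : ℝ)

/-- the main term -/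
noncomputable def mA (c : ℝ) (P : Finset ℕ) (b α : ℝ) : ℝ :=
  ∑ m ∈ P, (1 / c) * α ^ (-(1 / c)) * ((m : ℝ) + b) ^ (1 / c - 1)

noncomputable def ADa (c : ℝ) (P : Finset ℕ) (M : ℕ) (b s ω α : ℝ) : ℝ :=
  AD P (lg b) (Ico 1 M) (cl c) (-s) s ω (Real.log α)

/-- A3 (cf. T3 and `W_bound` of helper438) -/
def A3 : Prop := ∀ c : ℝ, 1 ≤ c → ∀ Q : ℕ, 1 ≤ Q → ∃ η : ℝ, 0 < η ∧ η ≤ 1 / 4 ∧ ∃ C : ℝ, 0 < C ∧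
  ∀ (M : ℕ) (ξ : ℝ), 2 ≤ M → 1 ≤ |ξ| → |ξ| ≤ (M : ℝ) ^ Q →
    ‖∑ k ∈ Ico 1 M, e (cl c k * ξ)‖ ≤ C * M * (1 / |ξ| + (M : ℝ) ^ (-η))

/-- A4 (cf. W4) -/
def A4 : Prop := ∀ (X : ℕ) (P : Finset ℕ) (b s : ℝ), 4 ≤ X → P ⊆ Ioc X (2 * X) → |b| ≤ 1 → 0 < s →
  ∫ u, (Fw P (lg b) s u) ^ 2 ≤ (P.card : ℝ) * (8 * X + 1 / s)

/-- A5 (cf. W5) -/
def A5 : Prop := ∀ (X M : ℕ) (P : Finset ℕ) (c α ω b : ℝ), 4 ≤ X → P ⊆ Ioc X (2 * X) → |b| ≤ 1 → 1 ≤ c →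
  0 < α → 0 < ω → ω ≤ 1 → 1 ≤ (((X : ℝ) - 1) / α) ^ (1 / c) * Real.exp (-ω / c) →
  ((2 * X + 1 : ℝ) / α) ^ (1 / c) ≤ M →
  |∑ k ∈ Ico 1 M, Fw P (lg b) ω (Real.log α + cl c k) - ∑ m ∈ P, (((m : ℝ) + b) / α) ^ (1 / c) / c| ≤
    P.card * (((2 * X + 1 : ℝ) / α) ^ (1 / c) * ω + 1 / ω)

/-- A6 (cf. W6) -/
def A6 : Prop := ∀ (P : Finset ℕ) (M : ℕ) (c α N1 N2 b w : ℝ), 4 ≤ N1 → N1 ≤ N2 →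
  (∀ m ∈ P, N1 < (m : ℝ) ∧ (m : ℝ) ≤ N2) → |b| ≤ 1 → 0 < w → w ≤ 2 → 0 < α → 1 ≤ c →
  (w / (N2 + 3)) * ∑ k ∈ Ico 1 M, Fw P (lg b) (w / (N2 + 3)) (Real.log α + (-(w / (N2 + 3))) + cl c k) ≤
      cA c P (Ico 1 M) b w α ∧
    cA c P (Ico 1 M) b w α ≤
      (w / (N1 - 1)) * ∑ k ∈ Ico 1 M, Fw P (lg b) (w / (N1 - 1)) (Real.log α + (-(w / (N1 - 1))) + cl c k)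

/-- A7 (cf. W7) -/
def A7 : Prop := ∀ (X M : ℕ) (P : Finset ℕ) (c α ω N1 N2 ρ b w : ℝ), 4 ≤ X → (X : ℝ) ≤ N1 → N1 ≤ N2 →
  N2 ≤ 2 * X → (∀ m ∈ P, N1 < (m : ℝ) ∧ (m : ℝ) ≤ N2) → |b| ≤ 1 → 0 < w → w ≤ 2 → 1 ≤ c → 0 < α →
  0 < ω → ω ≤ 1 → 1 ≤ (((X : ℝ) - 1) / α) ^ (1 / c) * Real.exp (-ω / c) →
  ((2 * X + 1 : ℝ) / α) ^ (1 / c) ≤ M →
  (∀ m ∈ P, |((m : ℝ) + b) / (N2 + 3) - 1| ≤ ρ ∧ |((m : ℝ) + b) / (N1 - 1) - 1| ≤ ρ) →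
  |cA c P (Ico 1 M) b w α - w * mA c P b α| ≤ (w / (N2 + 3)) * |ADa c P M b (w / (N2 + 3)) ω α| +
    (w / (N1 - 1)) * |ADa c P M b (w / (N1 - 1)) ω α| + ρ * (w * mA c P b α) +
    (w / (N1 - 1)) * (P.card * (((2 * X + 1 : ℝ) / α) ^ (1 / c) * ω + 1 / ω))

/-- A9 (cf. W9) -/
def A9 : Prop := ∀ (X M : ℕ) (P : Finset ℕ) (c b s ω Ξ0 Ξ1 η Y : ℝ), 4 ≤ X → 2 ≤ M → P ⊆ Ioc X (2 * X) →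
  |b| ≤ 1 → 0 < s → s ≤ ω → 0 ≤ Ξ0 → 2 * Real.pi * ω * Ξ0 ≤ 1 / 2 → 0 < Ξ1 → 0 < η →
  1 / s ≤ 16 * X →
  (∀ ξ : ℝ, Ξ0 ≤ |ξ| → |ξ| ≤ Ξ1 → ‖∑ k ∈ Ico 1 M, e (cl c k * ξ)‖ ≤ η * M) → 0 < Y →
  IntegrableOn (fun α => |ADa c P M b s ω α|) (Set.Icc Y (2 * Y)) ∧
  ∫ α in Set.Icc Y (2 * Y), |ADa c P M b s ω α| ≤
    2 * Y * (M * ((96 * Real.pi * ω * Ξ0 + 64 * η) * X + 3 * X / (s * √Ξ1)))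

/-- A10a (cf. W10a) -/
def A10a : Prop := ∀ (X M J : ℕ) (P : Finset ℕ) (c a1 a2 ω Ξ0 Ξ1 η b w : ℝ), 32 ≤ X → 2 ≤ M → 1 ≤ J → J ≤ X →
  P ⊆ Ioc X (2 * X) → |b| ≤ 1 → 1 / 2 ≤ w → w ≤ 2 → 1 ≤ c → 0 < a1 → a1 ≤ a2 → a2 ≤ 2 * a1 → 0 < ω → ω ≤ 1 →
  4 / (X : ℝ) ≤ ω → 1 ≤ (((X : ℝ) - 1) / a2) ^ (1 / c) * Real.exp (-ω / c) →
  ((2 * X + 1 : ℝ) / a1) ^ (1 / c) ≤ M →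
  0 ≤ Ξ0 → 2 * Real.pi * ω * Ξ0 ≤ 1 / 2 → 0 < Ξ1 → 0 < η →
  (∀ ξ : ℝ, Ξ0 ≤ |ξ| → |ξ| ≤ Ξ1 → ‖∑ k ∈ Ico 1 M, e (cl c k * ξ)‖ ≤ η * M) →
  IntegrableOn (fun α => |cA c P (Ico 1 M) b w α - w * mA c P b α|) (Set.Icc a1 a2) ∧
  ∫ α in Set.Icc a1 a2, |cA c P (Ico 1 M) b w α - w * mA c P b α| ≤
    4 * a1 * J * M * (1000 * Real.pi * ω * Ξ0 + 1000 * η + 3 * X / √Ξ1) +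
    (a2 - a1) * (64 / J * (2 * X / a1 : ℝ) ^ (1 / c) +
      J * (16 * ω * ((2 * X + 1 : ℝ) / a1) ^ (1 / c) + 16 / ω))

/-- A10b (cf. W10b) -/
def A10b : Prop := ∀ c : ℝ, 1 ≤ c → ∃ κ : ℝ, 0 < κ ∧ κ ≤ 1 / (8 * c) ∧ ∀ a1 a2 : ℝ, 0 < a1 → a1 ≤ a2 →
  a2 ≤ 2 * a1 → ∃ X0 : ℕ, ∀ X : ℕ, X0 ≤ X → ∀ P : Finset ℕ, P ⊆ Ioc X (2 * X) →
    ∀ b w : ℝ, |b| ≤ 1 → 1 / 2 ≤ w → w ≤ 2 →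
    IntegrableOn (fun α => |cA c P (Ico 1 (⌈(4 * X / a1 : ℝ) ^ (1 / c)⌉₊)) b w α - w * mA c P 0 α|) (Set.Icc a1 a2) ∧
    ∫ α in Set.Icc a1 a2, |cA c P (Ico 1 (⌈(4 * X / a1 : ℝ) ^ (1 / c)⌉₊)) b w α - w * mA c P 0 α| ≤
      (X : ℝ) ^ (1 / c - κ)

/-- A11: perturbation of the amplitude -/
def A11 : Prop := ∀ (X : ℕ) (P K : Finset ℕ) (c a1 α α' ε r : ℝ), 16 ≤ X → P ⊆ Ioc X (2 * X) → 1 ≤ c →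
  0 < a1 → a1 ≤ α → a1 ≤ α' → 0 < ε → ε ≤ 1 / 4 → 0 ≤ r → 4 * r * X ≤ ε * a1 → |α - α'| ≤ r →
  cA c P K ε (1 - 2 * ε) α' ≤ cA c P K 0 1 α ∧
    cA c P K 0 1 α ≤ cA c P K (-ε) (1 + 2 * ε) α' ∧
    |mA c P 0 α - mA c P 0 α'| ≤ ε * ((X : ℝ) / a1) ^ (1 / c)

/-- the points of the partial blocks -/
noncomputable def ypA (X T t : ℕ) : ℕ := min (X + t * (X / T + 1)) (2 * X)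

open Classical in
/-- elements of `A` in `(X, y]` -/
noncomputable def AxA (A : Set ℕ) (X y : ℕ) : Finset ℕ := (Ioc X y).filter (fun m => m ∈ A)

/-- the bad amplitudes at scale `X = 2^i` -/
def BadA (A : Set ℕ) (c κ a1 a2 : ℝ) (i : ℕ) : Set ℝ :=
  {α | α ∈ Set.Icc a1 a2 ∧ ∃ t : ℕ, t ≤ ⌈((2 : ℝ) ^ i) ^ (κ / 4)⌉₊ ∧
    ((2 : ℝ) ^ i) ^ (1 / c - κ / 2) <
      |cA c (AxA A (2 ^ i) (ypA (2 ^ i) ⌈((2 : ℝ) ^ i) ^ (κ / 4)⌉₊ t)) (Ico 1 (⌈(4 * (2 : ℝ) ^ i / a1) ^ (1 / c)⌉₊)) 0 1 α -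
        mA c (AxA A (2 ^ i) (ypA (2 ^ i) ⌈((2 : ℝ) ^ i) ^ (κ / 4)⌉₊ t)) 0 α|}

/-- A12: covering of the bad sets by few short intervals -/
def A12 : Prop := ∀ c : ℝ, 1 ≤ c → ∃ κ : ℝ, 0 < κ ∧ κ ≤ 1 / (8 * c) ∧
  ∀ a1 a2 : ℝ, 0 < a1 → a1 ≤ a2 → a2 ≤ 2 * a1 → ∃ i0 : ℕ, ∀ (A : Set ℕ) (i : ℕ), i0 ≤ i →
    ∃ S : Finset ℝ, (S.card : ℝ) ≤ ((2 : ℝ) ^ i) ^ (1 + 15 * κ / 8) ∧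
      BadA A c κ a1 a2 i ⊆ ⋃ x ∈ S, Set.Icc x (x + ((2 : ℝ) ^ i) ^ (-(1 + 31 * κ / 16)))

/-- number of `n ≤ N` (`n ≥ 1`) with `⌊α n^c⌋ ∈ A`, `⌊α n^c⌋ > 0` -/
noncomputable def nA (A : Set ℕ) (c α : ℝ) (N : ℕ) : ℕ :=
  ({n : ℕ | 1 ≤ n ∧ n ≤ N ∧ 1 ≤ ⌊α * (n : ℝ) ^ c⌋₊ ∧ ⌊α * (n : ℝ) ^ c⌋₊ ∈ A} : Set ℕ).ncard

/-- A13: outside the upper limit of the bad sets the law holds -/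
def A13 : Prop := ∀ (c κ a1 a2 : ℝ), 1 < c → 0 < κ → κ ≤ 1 / (8 * c) → 0 < a1 → a1 ≤ a2 → a2 ≤ 2 * a1 →
  ∀ (A : Set ℕ) (α : ℝ), α ∈ Set.Icc a1 a2 → (∃ i1 : ℕ, ∀ i : ℕ, i1 ≤ i → α ∉ BadA A c κ a1 a2 i) →
    ∃ C : ℝ, ∀ N : ℕ, 1 ≤ N →
      |(nA A c α N : ℝ) - mA c (AxA A 0 ⌊α * (N : ℝ) ^ c⌋₊) 0 α| ≤ C * (N : ℝ) ^ (1 - c * κ / 4)

/-- A15: final form -/
def A15 : Prop := ∀ c : ℝ, 1 < c → ∃ κ : ℝ, 0 < κ ∧ ∃ d : ℝ, d < 1 ∧ ∀ A : Set ℕ,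
  ∃ E : Set ℝ, dimH E ≤ ENNReal.ofReal d ∧ ∀ α : ℝ, 0 < α → α ∉ E →
    ∃ C : ℝ, ∀ N : ℕ, 1 ≤ N →
      |(nA A c α N : ℝ) - mA c (AxA A 0 ⌊α * (N : ℝ) ^ c⌋₊) 0 α| ≤ C * (N : ℝ) ^ (1 - κ)

end Pool.Agent.H706R2.PS
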