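import Pool.Agent.H706R2.PS.WDefs
import Pool.Agent.H706R2.PS.ADefs

/-! Task A15 (helper908). -/

open Finset MeasureTheory Filter

namespace Pool.Agent.H706R2.PS

theorem a15 (h12 : A12) (h13 : A13) (h14 : W14) : A15 := by
  intro c hc
  obtain ⟨κ, hκ0, hκ1, hκ⟩ := h12 c hc.le
  have hκle : κ ≤ 1 := by
    refine hκ1.trans ?_
    rw [div_le_one (by linarith)]
    linarith
  refine ⟨c * κ / 4, by positivity, 1 - κ / 64, by linarith, fun A => ?_⟩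
  have hpos : ∀ j : ℤ, (0 : ℝ) < (2 : ℝ) ^ j := fun j => zpow_pos (by norm_num) j
  have hdbl : ∀ j : ℤ, (2 : ℝ) ^ (j + 1) = 2 * (2 : ℝ) ^ j := fun j => by
    rw [zpow_add_one₀ (by norm_num)]
    ring
  have hle : ∀ j : ℤ, (2 : ℝ) ^ j ≤ (2 : ℝ) ^ (j + 1) := fun j => by
    rw [hdbl]
    linarith [hpos j]
  refine ⟨⋃ j : ℤ, {α : ℝ | ∀ i1 : ℕ, ∃ i : ℕ, i1 ≤ i ∧
    α ∈ BadA A c κ ((2 : ℝ) ^ j) ((2 : ℝ) ^ (j + 1)) i}, ?_, ?_⟩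
  · rw [dimH_iUnion]
    refine iSup_le fun j => ?_
    obtain ⟨i0, hi0⟩ := hκ _ _ (hpos j) (hle j) (hdbl j).le
    exact h14 κ _ hκ0 hκle ⟨i0, fun i hi => hi0 A i hi⟩
  · intro α hα hE
    obtain ⟨j, hj1, hj2⟩ := exists_mem_Ico_zpow hα (show (1 : ℝ) < 2 by norm_num)
    have hmem : α ∈ Set.Icc ((2 : ℝ) ^ j) ((2 : ℝ) ^ (j + 1)) := ⟨hj1, hj2.le⟩
    have hnot : ∃ i1 : ℕ, ∀ i : ℕ, i1 ≤ i →
        α ∉ BadA A c κ ((2 : ℝ) ^ j) ((2 : ℝ) ^ (j + 1)) i := by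
      by_contra hcon
      apply hE
      rw [Set.mem_iUnion]
      refine ⟨j, fun i1 => ?_⟩
      by_contra h
      apply hcon
      refine ⟨i1, fun i hi hb => h ⟨i, hi, hb⟩⟩
    exact h13 c κ _ _ hc hκ0 hκ1 (hpos j) (hle j) (hdbl j).le A α hmem hnot

end Pool.Agent.H706R2.PS
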