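import Pool.Agent.H706R2.PS.ADefs

/-! A5: the smooth count for amplitudes. -/

open Finset MeasureTheory Filter

namespace Pool.Agent.H706R2.PS

open Pool.Agent.H438R2.DL (Fw)

private lemma a5_exp_neg_le {d : ℝ} (hd : 0 ≤ d) : Real.exp (-d) ≤ 1 - d + d ^ 2 / 2 := by
  have h1 := Real.quadratic_le_exp_of_nonneg hd
  have h2 : 0 < 1 + d + d ^ 2 / 2 := by positivity
  have h3 : Real.exp (-d) ≤ 1 / (1 + d + d ^ 2 / 2) := by
    rw [Real.exp_neg, ← one_div]
    exact one_div_le_one_div_of_le h2 h1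
  refine h3.trans ?_
  rw [div_le_iff₀ h2]
  nlinarith [pow_nonneg hd 4, pow_nonneg hd 2, pow_nonneg hd 3]

/-- the number of integers in `[A, B)` -/
private lemma a5_card (M N : ℕ) (A B : ℝ) (hA : 0 ≤ A) (hAB : A ≤ B) (hM : (M : ℝ) ≤ A) (hN : B ≤ N) :
    |(((Ico M N).filter (fun k : ℕ => A ≤ (k : ℝ) ∧ (k : ℝ) < B)).card : ℝ) - (B - A)| ≤ 1 := by
  have h1 : (Ico M N).filter (fun k : ℕ => A ≤ (k : ℝ) ∧ (k : ℝ) < B) = Ico ⌈A⌉₊ ⌈B⌉₊ := by
    ext k
    rw [mem_filter, mem_Ico, mem_Ico, Nat.ceil_le, Nat.lt_ceil]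
    constructor
    · rintro ⟨_, h⟩; exact h
    · rintro ⟨h2, h3⟩
      refine ⟨⟨?_, ?_⟩, h2, h3⟩
      · exact_mod_cast hM.trans h2
      · exact_mod_cast h3.trans_le hN
  rw [h1, Nat.card_Ico]
  have h2 := Nat.ceil_lt_add_one hA
  have h3 := Nat.ceil_lt_add_one (hA.trans hAB)
  have h4 := Nat.le_ceil A
  have h5 := Nat.le_ceil B
  rw [Nat.cast_sub (Nat.ceil_mono hAB), abs_le]
  constructor <;> linarith

private lemma a5_iff {c α ω b : ℝ} {k m : ℕ} (hc : 1 ≤ c) (hα : 0 < α) (hk : 1 ≤ k)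
    (hm : 0 < (m : ℝ) + b) :
    (Real.log α + cl c k < lg b m ∧ lg b m ≤ Real.log α + cl c k + ω) ↔
      (Real.exp (Real.log (((m : ℝ) + b) / α) / c - ω / c) ≤ (k : ℝ) ∧
        (k : ℝ) < Real.exp (Real.log (((m : ℝ) + b) / α) / c)) := by
  have hk' : (0 : ℝ) < k := by exact_mod_cast hk
  have hc0 : 0 < c := by linarith
  unfold lg cl
  rw [Real.log_div hm.ne' hα.ne', ← Real.le_log_iff_exp_le hk', ← Real.log_lt_iff_lt_exp hk',
    ← sub_div, div_le_iff₀ hc0, lt_div_iff₀ hc0]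
  constructor
  · rintro ⟨h1, h2⟩
    constructor <;> linarith
  · rintro ⟨h1, h2⟩
    constructor <;> linarith

theorem a5 : A5 := by
  intro X M P c α ω b hX hP hb hc hα hω hω1 h3 hM
  have hX' : (4 : ℝ) ≤ X := by exact_mod_cast hX
  have hc0 : 0 < c := by linarith
  have hb' := abs_le.1 hb
  have hpos : ∀ m ∈ P, (X : ℝ) - 1 ≤ (m : ℝ) + b ∧ (m : ℝ) + b ≤ 2 * X + 1 := by
    intro m hm
    have hmX := mem_Ioc.1 (hP hm)
    have hm1 : (X : ℝ) < m := by exact_mod_cast hmX.1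
    have hm2 : (m : ℝ) ≤ 2 * X := by exact_mod_cast hmX.2
    constructor <;> linarith
  have h1 : (∑ k ∈ Ico 1 M, Fw P (lg b) ω (Real.log α + cl c k)) =
      ∑ m ∈ P, (1 / ω) * (((Ico 1 M).filter (fun k : ℕ =>
        Real.exp (Real.log (((m : ℝ) + b) / α) / c - ω / c) ≤ (k : ℝ) ∧
          (k : ℝ) < Real.exp (Real.log (((m : ℝ) + b) / α) / c))).card : ℝ) := by
    unfold Fw
    rw [← mul_sum, ← mul_sum]
    congr 1
    simp only [card_filter]
    push_cast
    rw [sum_comm]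
    refine sum_congr rfl fun m hm => sum_congr rfl fun k hk => ?_
    have hmX := hpos m hm
    simp only [a5_iff (ω := ω) hc hα (mem_Ico.1 hk).1 (by linarith : 0 < (m : ℝ) + b)]
  rw [h1, ← sum_sub_distrib]
  refine (abs_sum_le_sum_abs _ _).trans ?_
  rw [← nsmul_eq_mul, ← sum_const]
  refine sum_le_sum fun m hm => ?_
  obtain ⟨hm1, hm2⟩ := hpos m hm
  have hy0 : 0 < (m : ℝ) + b := by linarith
  have hya : 0 < ((m : ℝ) + b) / α := by positivity
  set t := Real.log (((m : ℝ) + b) / α) / c with ht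
  have hB : (((m : ℝ) + b) / α) ^ (1 / c) = Real.exp t := by
    rw [Real.rpow_def_of_pos hya, ht]
    congr 1
    ring
  set δ := ω / c with hδ
  have hδ0 : 0 ≤ δ := by positivity
  have hδω : δ ≤ ω := by
    rw [hδ]
    exact div_le_self hω.le hc
  have hAe : Real.exp (t - δ) = Real.exp t * Real.exp (-δ) := by
    rw [← Real.exp_add]; congr 1
  have hA1 : 1 ≤ Real.exp (t - δ) := by
    rw [hAe, ← hB]
    refine h3.trans ?_
    have e1 : -ω / c = -δ := by rw [hδ]; ring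
    rw [e1]
    apply mul_le_mul_of_nonneg_right _ (Real.exp_pos _).le
    apply Real.rpow_le_rpow
    · apply div_nonneg _ hα.le
      linarith
    · exact div_le_div_of_nonneg_right hm1 hα.le
    · positivity
  have hAB : Real.exp (t - δ) ≤ Real.exp t := by
    rw [Real.exp_le_exp]; linarith
  have hB2 : Real.exp t ≤ ((2 * X + 1 : ℝ) / α) ^ (1 / c) := by
    rw [← hB]
    exact Real.rpow_le_rpow hya.le (div_le_div_of_nonneg_right hm2 hα.le) (by positivity)
  have hcard := a5_card 1 M _ _ (by positivity) hAB (by exact_mod_cast hA1) (hB2.trans hM)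
  set n : ℝ := (((Ico 1 M).filter (fun k : ℕ =>
        Real.exp (t - δ) ≤ (k : ℝ) ∧ (k : ℝ) < Real.exp t)).card : ℝ) with hn
  have hδ3 : 1 - Real.exp (-δ) ≤ δ := by
    have := Real.add_one_le_exp (-δ); linarith
  have hδ4 : δ - δ ^ 2 / 2 ≤ 1 - Real.exp (-δ) := by
    have := a5_exp_neg_le hδ0; linarith
  have hδ5 : δ ^ 2 ≤ ω ^ 2 := pow_le_pow_left₀ hδ0 hδω 2
  have hkey : |1 - Real.exp (-δ) - δ| ≤ ω ^ 2 := by
    rw [abs_le]
    constructor
    · nlinarith [sq_nonneg δ]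
    · nlinarith [sq_nonneg ω]
  have e4 : 1 / ω * n - Real.exp t / c = (1 / ω) * (n - (Real.exp t - Real.exp (t - δ))) +
      (1 / ω) * (Real.exp t * (1 - Real.exp (-δ) - δ)) := by
    rw [hAe, hδ]
    field_simp
    ring
  rw [hB, e4]
  refine (abs_add_le _ _).trans ?_
  rw [abs_mul, abs_mul, abs_mul, abs_of_pos (Real.exp_pos t), abs_of_pos (by positivity : (0 : ℝ) < 1 / ω)]
  have h10 : 1 / ω * |n - (Real.exp t - Real.exp (t - δ))| ≤ 1 / ω * 1 :=
    mul_le_mul_of_nonneg_left hcard (by positivity)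
  have h11 : 1 / ω * (Real.exp t * |1 - Real.exp (-δ) - δ|) ≤
      ((2 * X + 1 : ℝ) / α) ^ (1 / c) * ω := by
    calc 1 / ω * (Real.exp t * |1 - Real.exp (-δ) - δ|)
        ≤ 1 / ω * (Real.exp t * ω ^ 2) := by
          apply mul_le_mul_of_nonneg_left _ (by positivity)
          exact mul_le_mul_of_nonneg_left hkey (Real.exp_pos t).le
      _ = Real.exp t * ω := by field_simp
      _ ≤ ((2 * X + 1 : ℝ) / α) ^ (1 / c) * ω := mul_le_mul_of_nonneg_right hB2 hω.le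
  linarith

end Pool.Agent.H706R2.PS
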