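import Pool.Agent.H706R2.PS.ADefs

/-! Task A6 (helper208, after W6 of helper86 and T6 of helper329): sandwich for amplitudes. -/

set_option autoImplicit false

open Finset MeasureTheory Filter

namespace Pool.Agent.H706R2.PS

open Pool.Agent.H438R2.DL (Fw AD)

namespace A6h

lemma diff_bounds {a w : ℝ} (ha : 0 < a) (hw : 0 < w) :
    w / (a + w) ≤ Real.log (a + w) - Real.log a ∧
      Real.log (a + w) - Real.log a ≤ w / a := by
  have haw : 0 < a + w := by linarith
  have h1 : Real.log (a + w) - Real.log a = Real.log ((a + w) / a) :=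
    (Real.log_div haw.ne' ha.ne').symm
  rw [h1]
  constructor
  · have := Real.one_sub_inv_le_log_of_pos (show 0 < (a + w) / a by positivity)
    have e : 1 - ((a + w) / a)⁻¹ = w / (a + w) := by
      rw [inv_div]
      field_simp
      ring
    linarith
  · have := Real.log_le_sub_one_of_pos (show 0 < (a + w) / a by positivity)
    have e : (a + w) / a - 1 = w / a := by field_simp; ring
    linarith

lemma sl_le {b w N2 : ℝ} (hb : 0 < b) (hw : 0 < w) (h : b + w ≤ N2 + 3) :
    w / (N2 + 3) ≤ Real.log (b + w) - Real.log b := by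
  refine le_trans ?_ (diff_bounds hb hw).1
  exact div_le_div_of_nonneg_left hw.le (by linarith) h

lemma su_ge {b w N1 : ℝ} (hN : 0 < N1 - 1) (hw : 0 < w) (h : N1 - 1 < b) :
    Real.log (b + w) - Real.log b ≤ w / (N1 - 1) := by
  refine (diff_bounds (hN.trans h) hw).2.trans ?_
  exact div_le_div_of_nonneg_left hw.le hN h.le

lemma log_eq {k c α : ℝ} (hk : 0 < k) (hα : 0 < α) :
    Real.log α + c * Real.log k = Real.log (α * k ^ c) := by
  rw [Real.log_mul hα.ne' (Real.rpow_pos_of_pos hk c).ne', Real.log_rpow hk]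

lemma l_le_iff {m k c α : ℝ} (hm : 0 < m) (hk : 0 < k) (hα : 0 < α) :
    Real.log m ≤ Real.log α + c * Real.log k ↔ m ≤ α * k ^ c := by
  have := Real.rpow_pos_of_pos hk c
  rw [log_eq hk hα, Real.log_le_log_iff hm (by positivity)]

lemma lt_l_iff {m k c α : ℝ} (hm : 0 < m) (hk : 0 < k) (hα : 0 < α) :
    Real.log α + c * Real.log k < Real.log m ↔ α * k ^ c < m := by
  rw [← not_le, l_le_iff hm hk hα, not_le]

lemma sFw {P K : Finset ℕ} {b s w c : ℝ} (hs : 0 < s) :
    s * ∑ k ∈ K, Fw P (lg b) s (w + -s + cl c k) =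
      ∑ k ∈ K, ((P.filter (fun m => w + cl c k - s < lg b m ∧ lg b m ≤ w + cl c k)).card : ℝ) := by
  rw [mul_sum]
  refine sum_congr rfl fun k _ => ?_
  unfold Fw
  rw [← mul_assoc, mul_one_div_cancel hs.ne', one_mul]
  congr 2
  refine filter_congr fun m _ => ?_
  have e1 : w + -s + cl c k = w + cl c k - s := by ring
  rw [e1, sub_add_cancel]

end A6h

open A6h in
theorem a6 : A6 := by
  intro P M c α N1 N2 b w hN1 hN12 hP hb hw hw2 hα hc
  obtain ⟨ha1, ha2⟩ := abs_le.1 hb
  have hsl : 0 < w / (N2 + 3) := by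
    have : 0 < N2 + 3 := by linarith
    positivity
  have hsu : 0 < w / (N1 - 1) := by
    have : 0 < N1 - 1 := by linarith
    positivity
  rw [sFw hsl, sFw hsu]
  unfold cA
  constructor
  · refine sum_le_sum fun k hk => ?_
    have hk3 : (1 : ℝ) ≤ k := by exact_mod_cast (mem_Ico.mp hk).1
    refine Nat.cast_le.mpr (card_le_card fun m hm => ?_)
    rw [mem_filter] at hm ⊢
    obtain ⟨hmP, h1, h2⟩ := hm
    obtain ⟨h3, h4⟩ := hP m hmP
    have hm1 : (0 : ℝ) < (m : ℝ) + b := by linarith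
    refine ⟨hmP, (l_le_iff hm1 (by linarith) hα).mp h2, ?_⟩
    refine (lt_l_iff (by linarith) (by linarith) hα).mp ?_
    have h5 := sl_le (N2 := N2) hm1 hw (by linarith)
    unfold cl lg at h1
    linarith
  · refine sum_le_sum fun k hk => ?_
    have hk3 : (1 : ℝ) ≤ k := by exact_mod_cast (mem_Ico.mp hk).1
    refine Nat.cast_le.mpr (card_le_card fun m hm => ?_)
    rw [mem_filter] at hm ⊢
    obtain ⟨hmP, h1, h2⟩ := hm
    obtain ⟨h3, h4⟩ := hP m hmP
    have hm1 : (0 : ℝ) < (m : ℝ) + b := by linarith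
    refine ⟨hmP, ?_, (l_le_iff hm1 (by linarith) hα).mpr h1⟩
    have h6 := (lt_l_iff (m := (m : ℝ) + b + w) (by linarith) (by linarith : (0 : ℝ) < k) hα).mpr h2
    have h5 := su_ge (b := (m : ℝ) + b) (N1 := N1) (by linarith) hw (by linarith)
    unfold cl lg
    linarith

end Pool.Agent.H706R2.PS
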