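import Pool.Agent.H706R2.PS.ADefs

/-! Task A7 (helper208, after W7): one piece. -/

open Finset MeasureTheory Filter

namespace Pool.Agent.H706R2.PS

open Pool.Agent.H469R2.NK (e)
open Pool.Agent.H438R2.DL (Fw AD)

theorem a7_split (c : ℝ) (P : Finset ℕ) (M : ℕ) (b s ω α : ℝ) :
    s * ∑ k ∈ Ico 1 M, Fw P (lg b) s (Real.log α + (-s) + cl c k) =
      s * ADa c P M b s ω α + s * ∑ k ∈ Ico 1 M, Fw P (lg b) ω (Real.log α + cl c k) := by
  unfold ADa AD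
  rw [sum_sub_distrib]
  ring

theorem a7_main (P : Finset ℕ) (b c s α ρ : ℝ) (hc : 1 ≤ c) (hα : 0 < α)
    (hP : ∀ m ∈ P, |s * ((m : ℝ) + b) - 1| ≤ ρ)
    (hm : ∀ m ∈ P, 0 < (m : ℝ) + b) :
    |s * ∑ m ∈ P, (((m : ℝ) + b) / α) ^ (1 / c) / c - mA c P b α| ≤ ρ * mA c P b α := by
  have hc0 : 0 < c := by linarith
  have h1 : s * ∑ m ∈ P, (((m : ℝ) + b) / α) ^ (1 / c) / c - mA c P b α =
      ∑ m ∈ P, (1 / c) * α ^ (-(1 / c)) * ((m : ℝ) + b) ^ (1 / c - 1) *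
        (s * ((m : ℝ) + b) - 1) := by
    unfold mA
    rw [mul_sum, ← sum_sub_distrib]
    refine sum_congr rfl fun m hmP => ?_
    have hm0 : (0 : ℝ) < (m : ℝ) + b := hm m hmP
    have h2 : ((m : ℝ) + b) ^ (1 / c) = ((m : ℝ) + b) ^ (1 / c - 1) * ((m : ℝ) + b) := by
      rw [Real.rpow_sub_one hm0.ne']
      field_simp
    have h3 : (((m : ℝ) + b) / α) ^ (1 / c) = ((m : ℝ) + b) ^ (1 / c) * α ^ (-(1 / c)) := by
      rw [Real.div_rpow hm0.le hα.le, Real.rpow_neg hα.le]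
      rfl
    rw [h3, h2]
    ring
  rw [h1]
  unfold mA
  rw [mul_sum]
  refine (abs_sum_le_sum_abs _ _).trans (sum_le_sum fun m hmP => ?_)
  have hm0 : (0 : ℝ) < (m : ℝ) + b := hm m hmP
  have h3 : 0 ≤ (1 / c) * α ^ (-(1 / c)) * ((m : ℝ) + b) ^ (1 / c - 1) := by positivity
  rw [abs_mul, abs_of_nonneg h3, mul_comm ρ]
  exact mul_le_mul_of_nonneg_left (hP m hmP) h3

theorem a7 (h5 : A5) (h6 : A6) : A7 := by
  intro X M P c α ω N1 N2 ρ b w hX hXN1 hN12 hN2 hP hb hw hw2 hc hα hω hω1 hbig hM hρ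
  have hX3 : (4 : ℝ) ≤ X := by exact_mod_cast hX
  have hb' := abs_le.1 hb
  have hPX : P ⊆ Ioc X (2 * X) := by
    intro m hm
    obtain ⟨h1, h2⟩ := hP m hm
    rw [mem_Ioc]
    constructor
    · have : (X : ℝ) < m := by linarith
      exact_mod_cast this
    · have : (m : ℝ) ≤ 2 * X := by linarith
      exact_mod_cast this
  have hm1 : ∀ m ∈ P, 0 < (m : ℝ) + b := fun m hm => by
    have := (hP m hm).1
    linarith [hb'.1]
  have hsm := h5 X M P c α ω b hX hPX hb hc hα hω hω1 hbig hM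
  obtain ⟨hlo, hup⟩ := h6 P M c α N1 N2 b w (by linarith) hN12 hP hb hw hw2 hα hc
  set E : ℝ := P.card * (((2 * X + 1 : ℝ) / α) ^ (1 / c) * ω + 1 / ω) with hE
  set Mω := ∑ k ∈ Ico 1 M, Fw P (lg b) ω (Real.log α + cl c k) with hMω
  have hE0 : 0 ≤ E := le_trans (abs_nonneg _) hsm
  have hN1 : (4 : ℝ) ≤ N1 := by linarith
  have hN2' : (4 : ℝ) ≤ N2 := by linarith
  have hq1 : 0 < N1 - 1 := by linarith
  have hq2 : 0 < N2 + 3 := by linarith
  have k1 := a7_main P b c (1 / (N2 + 3)) α ρ hc hα (fun m hm => by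
    have := (hρ m hm).1
    rwa [one_div, inv_mul_eq_div]) hm1
  have k2 := a7_main P b c (1 / (N1 - 1)) α ρ hc hα (fun m hm => by
    have := (hρ m hm).2
    rwa [one_div, inv_mul_eq_div]) hm1
  set Q := ∑ m ∈ P, (((m : ℝ) + b) / α) ^ (1 / c) / c with hQ
  set mw := mA c P b α with hmw
  have k1' : |(w / (N2 + 3)) * Q - w * mw| ≤ ρ * (w * mw) := by
    have h : (w / (N2 + 3)) * Q - w * mw = w * (1 / (N2 + 3) * Q - mw) := by ring
    rw [h, abs_mul, abs_of_pos hw]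
    calc w * |1 / (N2 + 3) * Q - mw| ≤ w * (ρ * mw) := mul_le_mul_of_nonneg_left k1 hw.le
      _ = _ := by ring
  have k2' : |(w / (N1 - 1)) * Q - w * mw| ≤ ρ * (w * mw) := by
    have h : (w / (N1 - 1)) * Q - w * mw = w * (1 / (N1 - 1) * Q - mw) := by ring
    rw [h, abs_mul, abs_of_pos hw]
    calc w * |1 / (N1 - 1) * Q - mw| ≤ w * (ρ * mw) := mul_le_mul_of_nonneg_left k2 hw.le
      _ = _ := by ring
  have hsu : 0 < w / (N1 - 1) := div_pos hw hq1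
  have hsl : 0 < w / (N2 + 3) := div_pos hw hq2
  have hslu : w / (N2 + 3) ≤ w / (N1 - 1) := div_le_div_of_nonneg_left hw.le hq1 (by linarith)
  rw [a7_split c P M b (w / (N2 + 3)) ω α] at hlo
  rw [a7_split c P M b (w / (N1 - 1)) ω α] at hup
  rw [← hMω] at hlo hup
  have e1 := abs_le.mp hsm
  have e2 := abs_le.mp k1'
  have e3 := abs_le.mp k2'
  have b1 : (w / (N1 - 1)) * Mω ≤ (w / (N1 - 1)) * Q + (w / (N1 - 1)) * E := by
    have := mul_le_mul_of_nonneg_left (show Mω ≤ Q + E by linarith [e1.2]) hsu.le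
    linarith
  have b2 : (w / (N2 + 3)) * Q - (w / (N2 + 3)) * E ≤ (w / (N2 + 3)) * Mω := by
    have := mul_le_mul_of_nonneg_left (show Q - E ≤ Mω by linarith [e1.1]) hsl.le
    linarith
  have b3 : (w / (N2 + 3)) * E ≤ (w / (N1 - 1)) * E := mul_le_mul_of_nonneg_right hslu hE0
  have b4 : (w / (N1 - 1)) * ADa c P M b (w / (N1 - 1)) ω α
      ≤ (w / (N1 - 1)) * |ADa c P M b (w / (N1 - 1)) ω α| :=
    mul_le_mul_of_nonneg_left (le_abs_self _) hsu.le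
  have b5 : -((w / (N2 + 3)) * |ADa c P M b (w / (N2 + 3)) ω α|)
      ≤ (w / (N2 + 3)) * ADa c P M b (w / (N2 + 3)) ω α := by
    have := mul_le_mul_of_nonneg_left (neg_abs_le (ADa c P M b (w / (N2 + 3)) ω α)) hsl.le
    linarith
  have b6 : 0 ≤ (w / (N2 + 3)) * |ADa c P M b (w / (N2 + 3)) ω α| :=
    mul_nonneg hsl.le (abs_nonneg _)
  have b7 : 0 ≤ (w / (N1 - 1)) * |ADa c P M b (w / (N1 - 1)) ω α| :=
    mul_nonneg hsu.le (abs_nonneg _)
  rw [abs_le]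
  constructor
  · linarith [e2.1, b2, b3, b5, b7, hlo]
  · linarith [e3.2, b1, b4, b6, hup]

end Pool.Agent.H706R2.PS
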