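import Pool.Agent.H706R2.PS.ADefs
import Pool.Agent.H438R2.DL.Est

/-! Task A9: integral of the averaged difference (amplitudes). -/

set_option autoImplicit false

open Finset MeasureTheory Filter

namespace Pool.Agent.H706R2.PS

open Pool.Agent.H469R2.NK (e)
open Pool.Agent.H438R2.DL (Fw AD)

theorem a9_sq (a b U R v : ℝ) (ha : 0 ≤ a) (hb : 0 ≤ b) (hU : 0 ≤ U) (hR : 24 * R ≤ 64 * U ^ 2)
    (hv : 0 ≤ v) :
    (a ^ 2 + b ^ 2) * (24 * R) + v ^ 2 ≤ ((8 * a + 8 * b) * U + v) ^ 2 := by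
  have h1 : a ^ 2 + b ^ 2 ≤ (a + b) ^ 2 := by nlinarith [mul_nonneg ha hb]
  have h2 : (a ^ 2 + b ^ 2) * (24 * R) ≤ (a + b) ^ 2 * (64 * U ^ 2) := by
    calc (a ^ 2 + b ^ 2) * (24 * R) ≤ (a ^ 2 + b ^ 2) * (64 * U ^ 2) :=
          mul_le_mul_of_nonneg_left hR (by positivity)
      _ ≤ (a + b) ^ 2 * (64 * U ^ 2) := mul_le_mul_of_nonneg_right h1 (by positivity)
  have h3 : 0 ≤ (8 * a + 8 * b) * U * v := by positivity
  nlinarith

theorem a9 (h : A4) : A9 := by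
  intro X M P c b s ω Ξ0 Ξ1 η Y hX hM hP hb hs hsω hΞ0 hωΞ hΞ1 hη hinv hW hY
  have hω : 0 < ω := hs.trans_le hsω
  have hXr : (4:ℝ) ≤ X := by exact_mod_cast hX
  have hMr : (2:ℝ) ≤ M := by exact_mod_cast hM
  have hpi := Real.pi_pos
  have hcardP : (P.card : ℝ) ≤ X := by
    have h1 := card_le_card hP
    rw [Nat.card_Ioc] at h1
    have h2 : P.card ≤ X := by omega
    exact_mod_cast h2
  have hcardK : ((Ico 1 M).card : ℝ) = M - 1 := by
    rw [Nat.card_Ico, Nat.cast_sub (by omega)]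
    norm_num
  have hM1 : ∀ τ : ℝ, s ≤ τ → ∫ u, (Fw P (lg b) τ u) ^ 2 ≤ X * (24 * X) := by
    intro τ hτ
    have hτ0 : 0 < τ := hs.trans_le hτ
    refine (h X P b τ hX hP hb hτ0).trans ?_
    have h1 : 1 / τ ≤ 16 * X := (one_div_le_one_div_of_le hs hτ).trans hinv
    have h2 : 8 * X + 1 / τ ≤ 24 * X := by linarith
    have h3 : 0 ≤ 8 * X + 1 / τ := by positivity
    exact mul_le_mul hcardP h2 h3 (by positivity)
  have hcore := Pool.Agent.H438R2.DL.core P (lg b) (Ico 1 M) (cl c) (o := -s) (τ := s) (ω := ω)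
    (Ξ0 := Ξ0) (Ξ1 := Ξ1) (η := 4 * η) (M := X * (24 * X)) hs hsω
    (by rw [abs_neg, abs_of_pos hs]; exact hsω) hΞ0 hωΞ hΞ1 (by positivity) (hM1 s le_rfl)
    (hM1 ω hsω) (by
      intro ξ h1 h2
      refine (hW ξ h1 h2).trans ?_
      rw [hcardK]
      nlinarith)
  set B : ℝ := M * ((96 * Real.pi * ω * Ξ0 + 64 * η) * X + 3 * X / (s * √Ξ1)) with hB
  have hsq : 0 < √Ξ1 := Real.sqrt_pos.mpr hΞ1
  have hB0 : 0 < B := by
    have h1 : 0 ≤ 96 * Real.pi * ω * Ξ0 := by positivity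
    have h2 : 0 < 3 * (X:ℝ) / (s * √Ξ1) := by positivity
    have h3 : 0 ≤ (96 * Real.pi * ω * Ξ0 + 64 * η) * X := by positivity
    rw [hB]
    positivity
  have hE : ∫ u, (AD P (lg b) (Ico 1 M) (cl c) (-s) s ω u) ^ 2 ≤ B ^ 2 := by
    refine hcore.trans ?_
    have hBsq : B ^ 2 = (M:ℝ) ^ 2 *
        ((96 * Real.pi * ω * Ξ0 + 64 * η) * X + 3 * X / (s * √Ξ1)) ^ 2 := by
      rw [hB]
      exact mul_pow _ _ _
    rw [hBsq]
    have h1 : ((Ico 1 M).card : ℝ) ^ 2 ≤ (M:ℝ) ^ 2 := by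
      rw [hcardK]
      exact pow_le_pow_left₀ (by linarith) (by linarith) 2
    refine mul_le_mul h1 ?_ (by positivity) (by positivity)
    have h2 : 2 * Real.pi * (P.card : ℝ) ^ 2 / (s ^ 2 * Ξ1) ≤ (3 * X / (s * √Ξ1)) ^ 2 := by
      rw [div_pow, mul_pow, mul_pow, Real.sq_sqrt hΞ1.le]
      have h3 : (P.card : ℝ) ^ 2 ≤ (X:ℝ) ^ 2 := pow_le_pow_left₀ (by positivity) hcardP 2
      have h4 : 2 * Real.pi ≤ 3 ^ 2 := by
        have := Real.pi_lt_d2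
        linarith
      have h5 : 2 * Real.pi * (P.card : ℝ) ^ 2 ≤ 3 ^ 2 * (X:ℝ) ^ 2 :=
        mul_le_mul h4 h3 (by positivity) (by positivity)
      gcongr
    have h6 := a9_sq (12 * Real.pi * ω * Ξ0) (8 * η) X (X * X) (3 * X / (s * √Ξ1))
      (by positivity) (by positivity) (by positivity) (by nlinarith) (by positivity)
    calc (4 * (6 * Real.pi * ω * Ξ0) ^ 2 + 4 * (4 * η) ^ 2) * (X * (24 * X)) +
          2 * Real.pi * (P.card : ℝ) ^ 2 / (s ^ 2 * Ξ1)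
        ≤ (4 * (6 * Real.pi * ω * Ξ0) ^ 2 + 4 * (4 * η) ^ 2) * (X * (24 * X)) +
          (3 * X / (s * √Ξ1)) ^ 2 := by linarith
      _ = ((12 * Real.pi * ω * Ξ0) ^ 2 + (8 * η) ^ 2) * (24 * (X * X)) +
          (3 * X / (s * √Ξ1)) ^ 2 := by ring
      _ ≤ _ := h6
      _ = _ := by ring
  have hgi : Integrable (fun u => (AD P (lg b) (Ico 1 M) (cl c) (-s) s ω u) ^ 2) := by
    have h4 := (Pool.Agent.H438R2.DL.AD_L2 P (lg b) (Ico 1 M) (cl c) (-s) s ω).integrable_norm_pow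
      (by norm_num)
    refine h4.congr (Filter.Eventually.of_forall fun u => ?_)
    simp [Complex.norm_real, Real.norm_eq_abs, sq_abs]
  have hfin := Pool.Agent.H438R2.DL.change (g := AD P (lg b) (Ico 1 M) (cl c) (-s) s ω)
    (Pool.Agent.H438R2.DL.AD_measurable P (lg b) (Ico 1 M) (cl c) (-s) s ω)
    (Pool.Agent.H438R2.DL.AD_bounded P (lg b) (Ico 1 M) (cl c) hs hω) hgi hY (by positivity) hE
  rw [Real.sqrt_sq hB0.le] at hfin
  exact hfin

end Pool.Agent.H706R2.PS
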