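import Pool.Agent.H706R2.PS.DDefs

/-! D2: lower density gives a lower bound for the main term. -/

open Finset MeasureTheory Filter

namespace Pool.Agent.H706R2.PS

namespace D2H

theorem Ax_zero (A : Set ℕ) : Ax A 0 0 = ∅ := by simp [Ax]

theorem abel (A : Set ℕ) (f : ℕ → ℝ) (n : ℕ) :
    ∑ m ∈ Ax A 0 n, f m = ((Ax A 0 n).card : ℝ) * f n +
      ∑ i ∈ range n, ((Ax A 0 i).card : ℝ) * (f i - f (i + 1)) := by
  classical
  induction n with
  | zero => simp [Ax_zero]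
  | succ n ih =>
    have hI : Ioc 0 (n + 1) = insert (n + 1) (Ioc 0 n) := by
      ext x; simp only [mem_Ioc, mem_insert]; omega
    have hnot : n + 1 ∉ Ax A 0 n := by
      simp [Ax]
    rw [sum_range_succ]
    by_cases hA : n + 1 ∈ A
    · have hAx : Ax A 0 (n + 1) = insert (n + 1) (Ax A 0 n) := by
        simp only [Ax, hI, filter_insert, if_pos hA]
      rw [hAx, sum_insert hnot, card_insert_of_notMem hnot, ih]
      push_cast
      ring
    · have hAx : Ax A 0 (n + 1) = Ax A 0 n := by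
        simp only [Ax, hI, filter_insert, if_neg hA]
      rw [hAx, ih]
      ring

theorem card_univ (n : ℕ) : (Ax Set.univ 0 n).card = n := by
  simp [Ax]

/-- Abel summation with a lower bound for the counting function -/
theorem abel_lower (A : Set ℕ) (f : ℕ → ℝ) (κ C0 : ℝ) (hC : 0 ≤ C0)
    (hf0 : ∀ m, 1 ≤ m → 0 ≤ f m) (hf : ∀ m, 1 ≤ m → f (m + 1) ≤ f m)
    (h : ∀ M : ℕ, κ * M - C0 ≤ ((Ax A 0 M).card : ℝ)) (n : ℕ) (hn : 1 ≤ n) :
    κ * ∑ m ∈ Ax Set.univ 0 n, f m - C0 * f 1 ≤ ∑ m ∈ Ax A 0 n, f m := by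
  have hind : ∀ k : ℕ, -(C0 * (f 1 - f (k + 1))) ≤
      ∑ i ∈ range (k + 1), (((Ax A 0 i).card : ℝ) - κ * i) * (f i - f (i + 1)) := by
    intro k
    induction k with
    | zero => simp [Ax_zero]
    | succ k ih =>
      rw [sum_range_succ]
      have h1 := h (k + 1)
      have h2 : 0 ≤ f (k + 1) - f (k + 1 + 1) := by
        have := hf (k + 1) (by omega)
        linarith
      have h3 : -C0 * (f (k + 1) - f (k + 1 + 1)) ≤
          (((Ax A 0 (k + 1)).card : ℝ) - κ * ((k + 1 : ℕ) : ℝ)) * (f (k + 1) - f (k + 1 + 1)) := by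
        apply mul_le_mul_of_nonneg_right _ h2
        linarith
      linarith
  obtain ⟨k, rfl⟩ : ∃ k, n = k + 1 := ⟨n - 1, by omega⟩
  rw [abel A f (k + 1), abel Set.univ f (k + 1)]
  simp only [card_univ]
  have h1 := hind k
  have h2 : ∑ i ∈ range (k + 1), (((Ax A 0 i).card : ℝ) - κ * i) * (f i - f (i + 1)) =
      ∑ i ∈ range (k + 1), ((Ax A 0 i).card : ℝ) * (f i - f (i + 1)) -
        κ * ∑ i ∈ range (k + 1), (i : ℝ) * (f i - f (i + 1)) := by
    rw [mul_sum, ← sum_sub_distrib]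
    apply sum_congr rfl
    intro i _
    ring
  rw [h2] at h1
  have h3 := h (k + 1)
  have h4 := hf0 (k + 1) (by omega)
  have h5 : (κ * ((k + 1 : ℕ) : ℝ) - C0) * f (k + 1) ≤ ((Ax A 0 (k + 1)).card : ℝ) * f (k + 1) :=
    mul_le_mul_of_nonneg_right h3 h4
  nlinarith

theorem pow_step (s : ℝ) (hs0 : 0 ≤ s) (hs1 : s ≤ 1) (m : ℕ) (hm : 1 ≤ m) :
    ((m : ℝ) + 1) ^ s - (m : ℝ) ^ s ≤ s * (m : ℝ) ^ (s - 1) := by
  have h0 : (0 : ℝ) < m := by exact_mod_cast hm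
  have e1 : ((m : ℝ) + 1) ^ s = (m : ℝ) ^ s * (1 + 1 / (m : ℝ)) ^ s := by
    rw [← Real.mul_rpow h0.le (by positivity)]
    congr 1
    field_simp
  have h1 : (1 + 1 / (m : ℝ)) ^ s ≤ 1 + s * (1 / (m : ℝ)) := by
    apply _root_.rpow_one_add_le_one_add_mul_self _ hs0 hs1
    have : 0 ≤ 1 / (m : ℝ) := by positivity
    linarith
  have e2 : (m : ℝ) ^ (s - 1) = (m : ℝ) ^ s / m := by
    rw [Real.rpow_sub h0, Real.rpow_one]
  have hp : 0 < (m : ℝ) ^ s := by positivity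
  rw [e1, e2]
  calc (m : ℝ) ^ s * (1 + 1 / (m : ℝ)) ^ s - (m : ℝ) ^ s
      ≤ (m : ℝ) ^ s * (1 + s * (1 / (m : ℝ))) - (m : ℝ) ^ s := by
        have := mul_le_mul_of_nonneg_left h1 hp.le
        linarith
    _ = s * ((m : ℝ) ^ s / m) := by ring

theorem sum_lower (s : ℝ) (hs0 : 0 ≤ s) (hs1 : s ≤ 1) (n : ℕ) :
    ((n : ℝ) + 1) ^ s - 1 ≤ ∑ m ∈ Ax Set.univ 0 n, s * (m : ℝ) ^ (s - 1) := by
  classical
  induction n with
  | zero => simp [Ax_zero]
  | succ n ih =>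
    have hI : Ioc 0 (n + 1) = insert (n + 1) (Ioc 0 n) := by
      ext x; simp only [mem_Ioc, mem_insert]; omega
    have hnot : n + 1 ∉ Ax Set.univ 0 n := by
      simp [Ax]
    have hAx : Ax Set.univ 0 (n + 1) = insert (n + 1) (Ax Set.univ 0 n) := by
      simp only [Ax, hI, filter_insert, if_pos (Set.mem_univ _)]
    rw [hAx, sum_insert hnot]
    have h1 := pow_step s hs0 hs1 (n + 1) (by omega)
    push_cast at h1 ⊢
    linarith

end D2H

open D2H in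
theorem d2 : D2 := by
  intro A c ν hc hν hA ε hε
  set s : ℝ := 1 / c with hs
  have hc0 : 0 < c := by linarith
  have hs0 : 0 < s := by positivity
  have hs1 : s ≤ 1 := by
    rw [hs, div_le_one hc0]
    exact hc.le
  have hfpos : ∀ m : ℕ, 0 ≤ s * (m : ℝ) ^ (s - 1) := fun m => by positivity
  rcases le_or_gt (ν - ε / 2) 0 with hκ | hκ
  · refine ⟨0, fun N _ => ?_⟩
    have h1 : (ν - ε) * N ≤ 0 := by
      have h2 : ν - ε ≤ 0 := by linarith
      exact mul_nonpos_of_nonpos_of_nonneg h2 (Nat.cast_nonneg _)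
    have h2 : 0 ≤ mainT (Ax A 0 ⌊(N : ℝ) ^ c⌋₊) c := by
      unfold mainT
      exact sum_nonneg fun m _ => hfpos m
    linarith
  · obtain ⟨M0, hM0⟩ := hA (ε / 2) (by positivity)
    set κ := ν - ε / 2 with hκd
    set C0 : ℝ := κ * M0 with hC0
    have hC0n : 0 ≤ C0 := by positivity
    have hlow : ∀ M : ℕ, κ * M - C0 ≤ ((Ax A 0 M).card : ℝ) := by
      intro M
      rcases le_or_gt M0 M with h | h
      · have := hM0 M h
        linarith
      · have h1 : κ * (M : ℝ) ≤ κ * M0 := by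
          apply mul_le_mul_of_nonneg_left _ hκ.le
          exact_mod_cast h.le
        have h2 : (0 : ℝ) ≤ ((Ax A 0 M).card : ℝ) := Nat.cast_nonneg _
        linarith
    obtain ⟨N1, hN1⟩ := exists_nat_ge ((κ + C0 * s) * 2 / ε)
    refine ⟨max N1 1, fun N hN => ?_⟩
    have hNN1 : N1 ≤ N := le_trans (le_max_left _ _) hN
    have hN1' : 1 ≤ N := le_trans (le_max_right _ _) hN
    have hNr : (1 : ℝ) ≤ N := by exact_mod_cast hN1'
    have hNc : (1 : ℝ) ≤ (N : ℝ) ^ c := Real.one_le_rpow hNr hc0.le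
    have hn1 : 1 ≤ ⌊(N : ℝ) ^ c⌋₊ := by
      rw [Nat.one_le_floor_iff]
      exact hNc
    have h1 := abel_lower A (fun m : ℕ => s * (m : ℝ) ^ (s - 1)) κ C0 hC0n
      (fun m _ => hfpos m)
      (by
        intro m hm
        have h0 : (0 : ℝ) < m := by exact_mod_cast hm
        apply mul_le_mul_of_nonneg_left _ hs0.le
        apply Real.rpow_le_rpow_of_nonpos h0
        · push_cast; linarith
        · linarith)
      hlow ⌊(N : ℝ) ^ c⌋₊ hn1
    have h2 := sum_lower s hs0.le hs1 ⌊(N : ℝ) ^ c⌋₊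
    have h3 : (N : ℝ) ≤ ((⌊(N : ℝ) ^ c⌋₊ : ℝ) + 1) ^ s := by
      have h4 : (N : ℝ) ^ c ≤ (⌊(N : ℝ) ^ c⌋₊ : ℝ) + 1 := (Nat.lt_floor_add_one _).le
      have h5 : ((N : ℝ) ^ c) ^ s = N := by
        rw [← Real.rpow_mul (by positivity), hs, mul_one_div_cancel hc0.ne', Real.rpow_one]
      calc (N : ℝ) = ((N : ℝ) ^ c) ^ s := h5.symm
        _ ≤ _ := Real.rpow_le_rpow (by positivity) h4 hs0.le
    have h4 : mainT (Ax A 0 ⌊(N : ℝ) ^ c⌋₊) c =
        ∑ m ∈ Ax A 0 ⌊(N : ℝ) ^ c⌋₊, s * (m : ℝ) ^ (s - 1) := rfl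
    rw [h4]
    have h5 : (κ + C0 * s) * 2 / ε ≤ N := hN1.trans (by exact_mod_cast hNN1)
    rw [div_le_iff₀ hε] at h5
    simp only [Nat.cast_one, Real.one_rpow, mul_one] at h1
    have h6 : κ * (N - 1) ≤ κ * ∑ m ∈ Ax Set.univ 0 ⌊(N : ℝ) ^ c⌋₊, s * (m : ℝ) ^ (s - 1) := by
      apply mul_le_mul_of_nonneg_left _ hκ.le
      linarith
    have h7 : (ν - ε) * N = κ * N - ε / 2 * N := by rw [hκd]; ring
    rw [h7]
    linarith

end Pool.Agent.H706R2.PS
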