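import Pool.Agent.H706R2.PS.DDefs

/-! D3: portmanteau for sequences. -/

open Finset MeasureTheory Filter

namespace Pool.Agent.H706R2.PS

universe u

open Classical in
theorem d3_card_le (K : ℕ) (t : ℝ) (h0 : 0 ≤ t) :
    (((Icc 1 K).filter (fun k : ℕ => (k : ℝ) < t)).card : ℝ) ≤ t := by
  have h1 : (Icc 1 K).filter (fun k : ℕ => (k : ℝ) < t) ⊆ Icc 1 ⌊t⌋₊ := by
    intro k hk
    rw [mem_filter, mem_Icc] at hk
    rw [mem_Icc]
    exact ⟨hk.1.1, Nat.le_floor hk.2.le⟩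
  have h2 := card_le_card h1
  rw [Nat.card_Icc, Nat.add_sub_cancel] at h2
  calc (((Icc 1 K).filter (fun k : ℕ => (k : ℝ) < t)).card : ℝ) ≤ (⌊t⌋₊ : ℝ) := by exact_mod_cast h2
    _ ≤ t := Nat.floor_le h0

open Classical in
theorem d3_card_ge (K : ℕ) (t : ℝ) (h1 : t ≤ K) :
    t - 1 ≤ (((Icc 1 K).filter (fun k : ℕ => (k : ℝ) < t)).card : ℝ) := by
  have h2 : Icc 1 (⌈t⌉₊ - 1) ⊆ (Icc 1 K).filter (fun k : ℕ => (k : ℝ) < t) := by
    intro k hk
    rw [mem_Icc] at hk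
    have h3 : k < ⌈t⌉₊ := by omega
    have h4 : (k : ℝ) < t := Nat.lt_ceil.1 h3
    rw [mem_filter, mem_Icc]
    refine ⟨⟨hk.1, ?_⟩, h4⟩
    have h5 : (k : ℝ) < K := lt_of_lt_of_le h4 h1
    exact_mod_cast h5.le
  have h3 := card_le_card h2
  rw [Nat.card_Icc, Nat.add_sub_cancel] at h3
  have h4 : t ≤ (⌈t⌉₊ : ℝ) := Nat.le_ceil t
  have h5 : (⌈t⌉₊ : ℝ) ≤ ((⌈t⌉₊ - 1 : ℕ) : ℝ) + 1 := by
    have : ⌈t⌉₊ ≤ (⌈t⌉₊ - 1) + 1 := by omega
    exact_mod_cast this
  have h6 : ((⌈t⌉₊ - 1 : ℕ) : ℝ) ≤ (((Icc 1 K).filter (fun k : ℕ => (k : ℝ) < t)).card : ℝ) := by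
    exact_mod_cast h3
  linarith

theorem d3_lower {X : Type u} [TopologicalSpace X] [MeasurableSpace X] [BorelSpace X]
    (μ : Measure X) [IsProbabilityMeasure μ] (z : ℕ → X)
    (h : ∀ U : Set X, IsOpen U → ∀ ε : ℝ, 0 < ε → ∃ N0 : ℕ, ∀ N : ℕ, N0 ≤ N →
      (μ.real U - ε) * N ≤ (({n : ℕ | 1 ≤ n ∧ n ≤ N ∧ z n ∈ U} : Set ℕ).ncard : ℝ))
    (g : X → ℝ) (hg : Continuous g) (g0 : ∀ x, 0 ≤ g x) (g1 : ∀ x, g x ≤ 1) (ε : ℝ) (hε : 0 < ε) :
    ∃ N0 : ℕ, ∀ N : ℕ, N0 ≤ N → ((∫ x, g x ∂μ) - ε) * N ≤ ∑ n ∈ Icc 1 N, g (z n) := by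
  classical
  obtain ⟨K, hK⟩ := exists_nat_gt (2 / ε)
  have hK0 : (0 : ℝ) < K := lt_trans (by positivity) hK
  have hK1 : 1 / (K : ℝ) < ε / 2 := by
    rw [div_lt_iff₀ hε] at hK
    rw [div_lt_iff₀ hK0]
    linarith
  have hUo : ∀ k : ℕ, IsOpen {x : X | (k : ℝ) < K * g x} := fun k =>
    isOpen_lt continuous_const (continuous_const.mul hg)
  choose N0 hN0 using fun k : ℕ => h {x : X | (k : ℝ) < K * g x} (hUo k) (ε / 2) (by linarith)
  refine ⟨∑ k ∈ Icc 1 K, N0 k, fun N hN => ?_⟩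
  -- integral
  have hint : (∫ x, g x ∂μ) ≤ 1 / K + (1 / K) * ∑ k ∈ Icc 1 K, μ.real {x : X | (k : ℝ) < K * g x} := by
    have h1 : ∀ x, g x ≤ 1 / K + (1 / K) * ∑ k ∈ Icc 1 K,
        Set.indicator {x : X | (k : ℝ) < K * g x} (fun _ => (1 : ℝ)) x := by
      intro x
      have h2 := d3_card_ge K (K * g x) (by
        have := mul_le_mul_of_nonneg_left (g1 x) hK0.le
        linarith)
      have h3 : ∑ k ∈ Icc 1 K, Set.indicator {x : X | (k : ℝ) < K * g x} (fun _ => (1 : ℝ)) x =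
          (((Icc 1 K).filter (fun k : ℕ => (k : ℝ) < K * g x)).card : ℝ) := by
        rw [card_filter]
        push_cast
        refine sum_congr rfl (fun k _ => ?_)
        simp only [Set.indicator_apply, Set.mem_setOf_eq]
      rw [h3]
      have h4 : 1 / (K : ℝ) + 1 / K * (((Icc 1 K).filter (fun k : ℕ => (k : ℝ) < K * g x)).card : ℝ) =
          (1 + (((Icc 1 K).filter (fun k : ℕ => (k : ℝ) < K * g x)).card : ℝ)) / K := by ring
      rw [h4, le_div_iff₀ hK0]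
      linarith
    have hgi : Integrable g μ := by
      refine Integrable.of_bound hg.measurable.aestronglyMeasurable 1 (ae_of_all _ fun x => ?_)
      rw [Real.norm_eq_abs, abs_of_nonneg (g0 x)]
      exact g1 x
    have hii : ∀ k : ℕ, Integrable (Set.indicator {x : X | (k : ℝ) < K * g x} (fun _ => (1 : ℝ))) μ :=
      fun k => (integrable_const (1 : ℝ)).indicator (hUo k).measurableSet
    have h5 : (∫ x, g x ∂μ) ≤ ∫ x, (1 / K + (1 / K) * ∑ k ∈ Icc 1 K,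
        Set.indicator {x : X | (k : ℝ) < K * g x} (fun _ => (1 : ℝ)) x) ∂μ := by
      refine integral_mono hgi ?_ h1
      exact (integrable_const _).add ((integrable_finset_sum _ (fun k _ => hii k)).const_mul _)
    refine h5.trans (le_of_eq ?_)
    rw [integral_add (integrable_const _) ((integrable_finset_sum _ (fun k _ => hii k)).const_mul _),
      integral_const, integral_const_mul, integral_finset_sum _ (fun k _ => hii k)]
    simp only [probReal_univ, smul_eq_mul, one_mul]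
    congr 2
    refine sum_congr rfl (fun k _ => ?_)
    rw [integral_indicator (hUo k).measurableSet]
    simp
  -- sums
  have hsum : (1 / K) * ∑ k ∈ Icc 1 K, (({n : ℕ | 1 ≤ n ∧ n ≤ N ∧ z n ∈ {x : X | (k : ℝ) < K * g x}} : Set ℕ).ncard : ℝ)
      ≤ ∑ n ∈ Icc 1 N, g (z n) := by
    have h1 : ∀ k : ℕ, (({n : ℕ | 1 ≤ n ∧ n ≤ N ∧ z n ∈ {x : X | (k : ℝ) < K * g x}} : Set ℕ).ncard : ℝ) =
        ∑ n ∈ Icc 1 N, if (k : ℝ) < K * g (z n) then (1 : ℝ) else 0 := by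
      intro k
      have h2 : ({n : ℕ | 1 ≤ n ∧ n ≤ N ∧ z n ∈ {x : X | (k : ℝ) < K * g x}} : Set ℕ) =
          (((Icc 1 N).filter (fun n : ℕ => (k : ℝ) < K * g (z n)) : Finset ℕ) : Set ℕ) := by
        ext n
        simp only [Set.mem_setOf_eq, coe_filter, mem_Icc]
        tauto
      rw [h2, Set.ncard_coe_finset, card_filter]
      push_cast
      rfl
    have h3 : ∑ k ∈ Icc 1 K, (({n : ℕ | 1 ≤ n ∧ n ≤ N ∧ z n ∈ {x : X | (k : ℝ) < K * g x}} : Set ℕ).ncard : ℝ) =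
        ∑ n ∈ Icc 1 N, (((Icc 1 K).filter (fun k : ℕ => (k : ℝ) < K * g (z n))).card : ℝ) := by
      simp only [h1]
      rw [sum_comm]
      refine sum_congr rfl (fun n _ => ?_)
      rw [card_filter]
      push_cast
      rfl
    rw [h3, mul_sum]
    refine sum_le_sum (fun n _ => ?_)
    have h4 := d3_card_le K (K * g (z n)) (mul_nonneg hK0.le (g0 _))
    rw [one_div, inv_mul_le_iff₀ hK0]
    exact h4
  have hlow : ∀ k ∈ Icc 1 K, (μ.real {x : X | (k : ℝ) < K * g x} - ε / 2) * N ≤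
      (({n : ℕ | 1 ≤ n ∧ n ≤ N ∧ z n ∈ {x : X | (k : ℝ) < K * g x}} : Set ℕ).ncard : ℝ) := by
    intro k hk
    refine hN0 k N (le_trans ?_ hN)
    exact single_le_sum (f := N0) (fun _ _ => Nat.zero_le _) hk
  have h6 := sum_le_sum hlow
  rw [← sum_mul, sum_sub_distrib, sum_const, Nat.card_Icc, Nat.add_sub_cancel, nsmul_eq_mul] at h6
  have h7 : (1 / (K : ℝ)) * ((∑ k ∈ Icc 1 K, μ.real {x : X | (k : ℝ) < K * g x} - K * (ε / 2)) * N) ≤
      ∑ n ∈ Icc 1 N, g (z n) :=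
    (mul_le_mul_of_nonneg_left h6 (by positivity)).trans hsum
  refine le_trans ?_ h7
  have h8 : (1 / (K : ℝ)) * ((∑ k ∈ Icc 1 K, μ.real {x : X | (k : ℝ) < K * g x} - K * (ε / 2)) * N) =
      ((1 / (K : ℝ)) * ∑ k ∈ Icc 1 K, μ.real {x : X | (k : ℝ) < K * g x} - ε / 2) * N := by
    field_simp
  rw [h8]
  exact mul_le_mul_of_nonneg_right (by linarith) (Nat.cast_nonneg N)

theorem d3 : D3.{u} := by
  intro X _ _ _ _ _ _ μ _ z h f hf hfs
  obtain ⟨C0, hC0⟩ := hfs.exists_bound_of_continuous hf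
  set C : ℝ := |C0| + 1 with hC
  have hCp : 0 < C := by positivity
  have hfC : ∀ x, |f x| ≤ C := fun x => by
    have h1 := hC0 x
    rw [Real.norm_eq_abs] at h1
    have h2 := le_abs_self C0
    linarith
  have hfi : Integrable f μ :=
    Integrable.of_bound hf.measurable.aestronglyMeasurable C (ae_of_all _ fun x => hfC x)
  have key : ∀ s : ℝ, (s = 1 ∨ s = -1) → ∀ ε : ℝ, 0 < ε → ∃ N0 : ℕ, ∀ N : ℕ, N0 ≤ N →
      (s * (∫ x, f x ∂μ) - ε) * N ≤ s * ∑ n ∈ Icc 1 N, f (z n) := by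
    intro s hs ε hε
    have hsf : ∀ x, |s * f x| ≤ C := fun x => by
      rcases hs with rfl | rfl
      · rw [one_mul]; exact hfC x
      · rw [neg_one_mul, abs_neg]; exact hfC x
    obtain ⟨N0, hN0⟩ := d3_lower μ z h (fun x => (s * f x + C) / (2 * C))
      (((continuous_const.mul hf).add continuous_const).div_const _)
      (fun x => by
        have := (abs_le.1 (hsf x)).1
        apply div_nonneg <;> linarith)
      (fun x => by
        have := (abs_le.1 (hsf x)).2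
        rw [div_le_one (by linarith)]
        linarith) (ε / (2 * C)) (by positivity)
    refine ⟨N0, fun N hN => ?_⟩
    have h1 := hN0 N hN
    rw [integral_div, integral_add (hfi.const_mul s) (integrable_const _), integral_const_mul,
      integral_const] at h1
    simp only [probReal_univ, smul_eq_mul, one_mul] at h1
    rw [← sum_div, sum_add_distrib, ← mul_sum, sum_const, Nat.card_Icc, Nat.add_sub_cancel,
      nsmul_eq_mul, ← sub_div, div_mul_eq_mul_div] at h1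
    have h2 := (div_le_div_iff_of_pos_right (by linarith : (0 : ℝ) < 2 * C)).1 h1
    linarith
  rw [Metric.tendsto_atTop]
  intro ε hε
  obtain ⟨N1, hN1⟩ := key 1 (Or.inl rfl) (ε / 2) (by linarith)
  obtain ⟨N2, hN2⟩ := key (-1) (Or.inr rfl) (ε / 2) (by linarith)
  refine ⟨N1 + N2 + 1, fun N hN => ?_⟩
  have hNp : (0 : ℝ) < N := by
    have : 0 < N := by omega
    exact_mod_cast this
  have h1 := hN1 N (by omega)
  have h2 := hN2 N (by omega)
  rw [Real.dist_eq, abs_lt]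
  have h3 : (1 / (N : ℝ)) * ∑ n ∈ Icc 1 N, f (z n) = (∑ n ∈ Icc 1 N, f (z n)) / N := by ring
  rw [h3]
  constructor
  · rw [lt_sub_iff_add_lt, lt_div_iff₀ hNp]
    nlinarith
  · rw [sub_lt_iff_lt_add, div_lt_iff₀ hNp]
    nlinarith

end Pool.Agent.H706R2.PS
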