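import Pool.Agent.H706R2.PS.DDefs

/-! # D4: equidistribution gives lower bounds for all open sets -/

open Finset MeasureTheory Filter

namespace Pool.Agent.H706R2.PS

theorem d4_sum_le {X : Type*} (U : Set X) (y : ℕ → X) (f : X → ℝ) (h1 : ∀ x, f x ≤ 1)
    (h0 : ∀ x, x ∉ U → f x = 0) (M : ℕ) :
    ∑ m ∈ Icc 1 M, f (y m) ≤ ((Ax {m : ℕ | y m ∈ U} 0 M).card : ℝ) := by
  classical
  have hI : Icc 1 M = Ioc 0 M := by
    ext m; simp [Finset.mem_Icc, Finset.mem_Ioc]; omega
  unfold Ax
  rw [hI, Finset.card_filter]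
  push_cast
  refine Finset.sum_le_sum fun m _ => ?_
  by_cases hm : y m ∈ U
  · rw [if_pos (show m ∈ {m : ℕ | y m ∈ U} from hm)]
    exact h1 _
  · rw [if_neg (show m ∉ {m : ℕ | y m ∈ U} from hm), h0 _ hm]

theorem d4 : D4 := by
  intro X _ _ _ _ _ _ μ _ y h U hU ε hε
  by_cases hs : μ.real U ≤ ε / 2
  · refine ⟨0, fun M _ => ?_⟩
    have h1 : (μ.real U - ε) * M ≤ 0 :=
      mul_nonpos_of_nonpos_of_nonneg (by linarith) (Nat.cast_nonneg M)
    exact h1.trans (Nat.cast_nonneg _)
  · push Not at hs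
    have hmetr : TopologicalSpace.MetrizableSpace X :=
      TopologicalSpace.metrizableSpace_of_t3_secondCountable X
    have hreg : μ.Regular := inferInstance
    have hr : ENNReal.ofReal (μ.real U - ε / 2) < μ U := by
      rw [ENNReal.ofReal_lt_iff_lt_toReal (by linarith) (measure_ne_top μ U)]
      show μ.real U - ε / 2 < μ.real U
      linarith
    obtain ⟨K, hKU, hK, hlt⟩ := hU.exists_lt_isCompact hr
    obtain ⟨f, hf1, hfc, hfU, hf01⟩ :=
      exists_continuousMap_one_of_isCompact_subset_isOpen hK hU hKU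
    have hKr : μ.real U - ε / 2 < μ.real K := by
      rwa [ENNReal.ofReal_lt_iff_lt_toReal (by linarith) (measure_ne_top μ K)] at hlt
    have hfint : Integrable (fun x => f x) μ :=
      f.continuous.integrable_of_hasCompactSupport hfc
    have hint : μ.real K ≤ ∫ x, f x ∂μ := by
      have h2 : ∫ x, (K.indicator (fun _ => (1 : ℝ))) x ∂μ = μ.real K := by
        rw [integral_indicator hK.isClosed.measurableSet]
        simp
      rw [← h2]
      refine integral_mono ?_ hfint fun x => ?_
      · exact (integrable_const (1 : ℝ)).indicator hK.isClosed.measurableSet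
      · by_cases hx : x ∈ K
        · rw [Set.indicator_of_mem hx, hf1 hx]; rfl
        · rw [Set.indicator_of_notMem hx]; exact (hf01 x).1
    have htend := h (fun x => f x) f.continuous hfc
    have hev := htend.eventually (lt_mem_nhds (show (∫ x, f x ∂μ) - ε / 2 < ∫ x, f x ∂μ by linarith))
    obtain ⟨M0, hM0⟩ := Filter.eventually_atTop.1 hev
    refine ⟨M0 + 1, fun M hM => ?_⟩
    have h3 := hM0 M (by omega)
    have hMpos : (0 : ℝ) < M := by
      have : 0 < M := by omega
      exact_mod_cast this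
    have h4 := d4_sum_le U y (fun x => f x) (fun x => (hf01 x).2)
      (fun x hx => image_eq_zero_of_notMem_tsupport fun hx2 => hx (hfU hx2)) M
    refine le_trans ?_ h4
    have h5 : μ.real U - ε ≤ (1 / (M : ℝ)) * ∑ m ∈ Icc 1 M, f (y m) := by linarith
    calc (μ.real U - ε) * M ≤ ((1 / (M : ℝ)) * ∑ m ∈ Icc 1 M, f (y m)) * M := by gcongr
      _ = ∑ m ∈ Icc 1 M, f (y m) := by field_simp

end Pool.Agent.H706R2.PS
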