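import Pool.Agent.H706R2.PS.DDefs

/-! D5: countably many open sets suffice for the portmanteau lower bounds. -/

open Finset MeasureTheory Filter

namespace Pool.Agent.H706R2.PS

universe u

theorem d5_ncard {X : Type u} (z : ℕ → X) (U V : Set X) (h : V ⊆ U) (N : ℕ) :
    (({n : ℕ | 1 ≤ n ∧ n ≤ N ∧ z n ∈ V} : Set ℕ).ncard : ℝ) ≤
      (({n : ℕ | 1 ≤ n ∧ n ≤ N ∧ z n ∈ U} : Set ℕ).ncard : ℝ) := by
  have hf : ({n : ℕ | 1 ≤ n ∧ n ≤ N ∧ z n ∈ U} : Set ℕ).Finite :=
    (Set.finite_Icc 1 N).subset (fun n hn => ⟨hn.1, hn.2.1⟩)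
  have hs : ({n : ℕ | 1 ≤ n ∧ n ≤ N ∧ z n ∈ V} : Set ℕ) ⊆ {n : ℕ | 1 ≤ n ∧ n ≤ N ∧ z n ∈ U} :=
    fun n hn => ⟨hn.1, hn.2.1, h hn.2.2⟩
  exact_mod_cast Set.ncard_le_ncard hs hf

theorem d5 : D5.{u} := by
  intro X _ _ _ _ μ _
  set b : Set (Set X) := insert ∅ (TopologicalSpace.countableBasis X) with hb
  have hbc : b.Countable := (TopologicalSpace.countable_countableBasis X).insert ∅
  have hbo : ∀ s ∈ b, IsOpen s := by
    intro s hs
    rcases hs with rfl | hs
    · exact isOpen_empty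
    · exact TopologicalSpace.isOpen_of_mem_countableBasis hs
  have hTc : (Set.sUnion '' {F : Set (Set X) | F.Finite ∧ F ⊆ b}).Countable :=
    (Set.countable_setOf_finite_subset hbc).image _
  have hTn : (Set.sUnion '' {F : Set (Set X) | F.Finite ∧ F ⊆ b}).Nonempty :=
    ⟨Set.sUnion ∅, ∅, ⟨Set.finite_empty, Set.empty_subset _⟩, rfl⟩
  obtain ⟨B, hB⟩ := hTc.exists_eq_range hTn
  refine ⟨B, fun j => ?_, fun z hz U hU ε hε => ?_⟩
  · have : B j ∈ Set.sUnion '' {F : Set (Set X) | F.Finite ∧ F ⊆ b} := by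
      rw [hB]; exact ⟨j, rfl⟩
    obtain ⟨F, hF, hFB⟩ := this
    rw [← hFB]
    exact isOpen_sUnion (fun s hs => hbo s (hF.2 hs))
  · set S : Set (Set X) := insert ∅ {s | s ∈ TopologicalSpace.countableBasis X ∧ s ⊆ U} with hS
    have hSb : S ⊆ b := by
      intro s hs
      rcases hs with rfl | hs
      · exact Set.mem_insert _ _
      · exact Set.mem_insert_of_mem _ hs.1
    have hSc : S.Countable := hbc.mono hSb
    obtain ⟨f, hf⟩ := hSc.exists_eq_range ⟨∅, Set.mem_insert _ _⟩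
    have hU' : ⋃ i, f i = U := by
      apply Set.Subset.antisymm
      · refine Set.iUnion_subset (fun i => ?_)
        have h1 : f i ∈ S := by rw [hf]; exact ⟨i, rfl⟩
        rcases h1 with h1 | h1
        · rw [h1]; exact Set.empty_subset _
        · exact h1.2
      · intro x hx
        obtain ⟨v, hv, hxv, hvU⟩ :=
          (TopologicalSpace.isBasis_countableBasis X).exists_subset_of_mem_open hx hU
        have h1 : v ∈ S := Set.mem_insert_of_mem _ ⟨hv, hvU⟩
        rw [hf] at h1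
        obtain ⟨i, hi⟩ := h1
        exact Set.mem_iUnion.2 ⟨i, by rw [hi]; exact hxv⟩
    have ht : Tendsto (fun k => μ.real (Set.accumulate f k)) atTop (nhds (μ.real U)) := by
      have h1 := tendsto_measure_iUnion_accumulate (μ := μ) (f := f)
      rw [hU'] at h1
      exact (ENNReal.tendsto_toReal (measure_ne_top μ U)).comp h1
    have h2 : ∀ᶠ k in atTop, μ.real U - ε / 2 < μ.real (Set.accumulate f k) :=
      ht.eventually (lt_mem_nhds (by linarith))
    obtain ⟨k, hk⟩ := h2.exists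
    have h3 : Set.accumulate f k ∈ Set.range B := by
      rw [← hB]
      refine ⟨f '' {i | i ≤ k}, ⟨(Set.finite_Iic k).image f, ?_⟩, ?_⟩
      · rintro s ⟨i, -, rfl⟩
        apply hSb
        rw [hf]
        exact ⟨i, rfl⟩
      · rw [Set.sUnion_image]
        rfl
    obtain ⟨j, hj⟩ := h3
    have hsub : B j ⊆ U := by
      rw [hj, ← hU']
      exact Set.iUnion₂_subset (fun i _ => Set.subset_iUnion f i)
    obtain ⟨N0, hN0⟩ := hz j (ε / 2) (by linarith)
    refine ⟨N0, fun N hN => ?_⟩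
    have h4 := hN0 N hN
    have h5 := d5_ncard z U (B j) hsub N
    rw [hj] at h4
    rw [hj] at h5
    have h6 : (0 : ℝ) ≤ N := Nat.cast_nonneg N
    have h7 : (μ.real U - ε) * N ≤ (μ.real (Set.accumulate f k) - ε / 2) * N :=
      mul_le_mul_of_nonneg_right (by linarith) h6
    linarith

end Pool.Agent.H706R2.PS
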