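import Pool.Agent.H706R2.PS.Defs

/-! Wave 4: equidistribution along the times `⌊n^α⌋`. -/

open Finset MeasureTheory Filter

namespace Pool.Agent.H706R2.PS

/-- D2: lower density of `A` gives a lower bound for the main term (Abel summation) -/
def D2 : Prop := ∀ (A : Set ℕ) (c ν : ℝ), 1 < c → 0 ≤ ν →
  (∀ ε : ℝ, 0 < ε → ∃ M0 : ℕ, ∀ M : ℕ, M0 ≤ M → (ν - ε) * M ≤ ((Ax A 0 M).card : ℝ)) →
  ∀ ε : ℝ, 0 < ε → ∃ N0 : ℕ, ∀ N : ℕ, N0 ≤ N → (ν - ε) * N ≤ mainT (Ax A 0 ⌊(N : ℝ) ^ c⌋₊) c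

/-- D3: portmanteau: lower bounds for all open sets give equidistribution -/
def D3.{u} : Prop := ∀ (X : Type u) [TopologicalSpace X] [SecondCountableTopology X] [T2Space X]
  [LocallyCompactSpace X] [MeasurableSpace X] [BorelSpace X] (μ : Measure X) [IsProbabilityMeasure μ] (z : ℕ → X),
  (∀ U : Set X, IsOpen U → ∀ ε : ℝ, 0 < ε → ∃ N0 : ℕ, ∀ N : ℕ, N0 ≤ N →
    (μ.real U - ε) * N ≤ (({n : ℕ | 1 ≤ n ∧ n ≤ N ∧ z n ∈ U} : Set ℕ).ncard : ℝ)) →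
  ∀ f : X → ℝ, Continuous f → HasCompactSupport f →
    Tendsto (fun N : ℕ => (1 / (N : ℝ)) * ∑ n ∈ Icc 1 N, f (z n)) atTop (nhds (∫ x, f x ∂μ))

/-- D4: equidistribution gives lower bounds for all open sets -/
def D4.{u} : Prop := ∀ (X : Type u) [TopologicalSpace X] [SecondCountableTopology X] [T2Space X]
  [LocallyCompactSpace X] [MeasurableSpace X] [BorelSpace X] (μ : Measure X) [IsProbabilityMeasure μ] (y : ℕ → X),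
  (∀ f : X → ℝ, Continuous f → HasCompactSupport f →
    Tendsto (fun M : ℕ => (1 / (M : ℝ)) * ∑ m ∈ Icc 1 M, f (y m)) atTop (nhds (∫ x, f x ∂μ))) →
  ∀ U : Set X, IsOpen U → ∀ ε : ℝ, 0 < ε → ∃ M0 : ℕ, ∀ M : ℕ, M0 ≤ M →
    (μ.real U - ε) * M ≤ ((Ax {m : ℕ | y m ∈ U} 0 M).card : ℝ)

/-- D5: countably many open sets suffice -/
def D5.{u} : Prop := ∀ (X : Type u) [TopologicalSpace X] [SecondCountableTopology X]
  [MeasurableSpace X] [BorelSpace X] (μ : Measure X) [IsProbabilityMeasure μ],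
  ∃ B : ℕ → Set X, (∀ j, IsOpen (B j)) ∧ ∀ z : ℕ → X,
    (∀ j : ℕ, ∀ ε : ℝ, 0 < ε → ∃ N0 : ℕ, ∀ N : ℕ, N0 ≤ N →
      (μ.real (B j) - ε) * N ≤ (({n : ℕ | 1 ≤ n ∧ n ≤ N ∧ z n ∈ B j} : Set ℕ).ncard : ℝ)) →
    ∀ U : Set X, IsOpen U → ∀ ε : ℝ, 0 < ε → ∃ N0 : ℕ, ∀ N : ℕ, N0 ≤ N →
      (μ.real U - ε) * N ≤ (({n : ℕ | 1 ≤ n ∧ n ≤ N ∧ z n ∈ U} : Set ℕ).ncard : ℝ)

end Pool.Agent.H706R2.PS
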