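import Pool.Agent.H438R2.DL.Core

/-! Piatetski-Shapiro sequences for almost every exponent: definitions and statements of the tasks. -/

open Finset MeasureTheory Filter

namespace Pool.Agent.H706R2.PS

open Pool.Agent.H469R2.NK (e)
open Pool.Agent.H438R2.DL (Fw AD)

/-- `log log m` -/
noncomputable def ll (m : ℕ) : ℝ := Real.log (Real.log (m : ℝ))

/-- number of pairs `(k, m)`, `k ∈ K`, `m ∈ P` with `m ≤ k^c < m + 1` -/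
noncomputable def cnt (P K : Finset ℕ) (c : ℝ) : ℝ :=
  ∑ k ∈ K, ((P.filter (fun m : ℕ => (m : ℝ) ≤ (k : ℝ) ^ c ∧ (k : ℝ) ^ c < m + 1)).card : ℝ)

/-- the main term -/
noncomputable def mainT (P : Finset ℕ) (c : ℝ) : ℝ := ∑ m ∈ P, (1 / c) * (m : ℝ) ^ (1 / c - 1)

/-- iterated differences -/
noncomputable def DD (F : ℝ → ℝ) : List ℕ → ℝ → ℝ
  | [], x => F x
  | l :: ls, x => DD F ls (x + l) - DD F ls x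

noncomputable def sl (N2 : ℝ) : ℝ := 1 / ((N2 + 1) * Real.log (N2 + 1))
noncomputable def su (N1 : ℝ) : ℝ := 1 / (N1 * Real.log N1)
noncomputable def ADc (P : Finset ℕ) (M : ℕ) (s ω c : ℝ) : ℝ :=
  AD P ll (Ico 3 M) ll (-s) s ω (Real.log c)

/-- T1: iterated differences of `log log` -/
def T1 : Prop := ∃ B : ℕ → ℝ, (∀ q, 1 ≤ B q) ∧ ∀ (l : ℕ) (ls : List ℕ) (N x : ℝ), 3 ≤ N → N ≤ x →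
  x + l + (ls.sum : ℕ) ≤ 3 * N →
  ((ls.length).factorial : ℝ) / ((3 * N) ^ (ls.length + 1) * Real.log (3 * N)) * ((l * ls.prod : ℕ)) ≤
      (-1) ^ (ls.length) * DD (fun y => Real.log (Real.log y)) (l :: ls) x ∧
    (-1) ^ (ls.length) * DD (fun y => Real.log (Real.log y)) (l :: ls) x ≤
      B ls.length / N ^ (ls.length + 1) * ((l * ls.prod : ℕ))

/-- T2: exponential sums `∑ e(Z log log n)` -/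
def T2 : Prop := ∀ Q : ℕ, 1 ≤ Q → ∃ η : ℝ, 0 < η ∧ η ≤ 1 ∧ ∃ C : ℝ, 0 < C ∧
  ∀ (N a L : ℕ) (Z : ℝ), 3 ≤ N → N ≤ a → L ≤ N → a + L + 1 ≤ 3 * N → 1 ≤ Z → Z ≤ (N : ℝ) ^ Q →
    ‖∑ n ∈ range L, e (Z * Real.log (Real.log (((a + n : ℕ)) : ℝ)))‖ ≤
      C * (N * Real.log N / Z + (N : ℝ) ^ (1 - η))

/-- T3: exponential sums over `[3, M)` -/
def T3 : Prop := ∀ Q : ℕ, 1 ≤ Q → ∃ η : ℝ, 0 < η ∧ η ≤ 1 / 4 ∧ ∃ C : ℝ, 0 < C ∧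
  ∀ (M : ℕ) (ξ : ℝ), 3 ≤ M → 1 ≤ |ξ| → |ξ| ≤ (M : ℝ) ^ Q →
    ‖∑ k ∈ Ico 3 M, e (ll k * ξ)‖ ≤ C * M * (Real.log M / |ξ| + (M : ℝ) ^ (-η))

/-- T4: second moment of `Fw` for the points `log log m` -/
def T4 : Prop := ∀ (X : ℕ) (P : Finset ℕ) (s : ℝ), 3 ≤ X → P ⊆ Ioc X (2 * X) → 0 < s →
  ∫ u, (Fw P ll s u) ^ 2 ≤ (P.card : ℝ) * (4 * X * Real.log (2 * X) + 1 / s)

/-- T5: the smooth count -/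
def T5 : Prop := ∀ (X M : ℕ) (P : Finset ℕ) (c ω : ℝ), 3 ≤ X → P ⊆ Ioc X (2 * X) → 1 ≤ c →
  0 < ω → ω ≤ 1 → 3 ≤ (X : ℝ) ^ (Real.exp (-ω) / c) → (2 * X : ℝ) ^ (1 / c) ≤ M →
  |∑ k ∈ Ico 3 M, Fw P ll ω (Real.log c + ll k) - ∑ m ∈ P, (m : ℝ) ^ (1 / c) * (Real.log m / c)| ≤
    P.card * ((2 * X : ℝ) ^ (1 / c) * Real.log (2 * X) ^ 2 * ω + 1 / ω)

/-- T6: sandwich -/
def T6 : Prop := ∀ (P : Finset ℕ) (M : ℕ) (c N1 N2 : ℝ), 3 ≤ N1 → N1 ≤ N2 →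
  (∀ m ∈ P, N1 < (m : ℝ) ∧ (m : ℝ) ≤ N2) → 0 < c →
  sl N2 * ∑ k ∈ Ico 3 M, Fw P ll (sl N2) (Real.log c + (-(sl N2)) + ll k) ≤ cnt P (Ico 3 M) c ∧
    cnt P (Ico 3 M) c ≤ su N1 * ∑ k ∈ Ico 3 M, Fw P ll (su N1) (Real.log c + (-(su N1)) + ll k)

/-- T7: one piece -/
def T7 : Prop := ∀ (X M : ℕ) (P : Finset ℕ) (c ω N1 N2 ρ : ℝ), 3 ≤ X → (X : ℝ) ≤ N1 → N1 ≤ N2 →
  N2 ≤ 2 * X → (∀ m ∈ P, N1 < (m : ℝ) ∧ (m : ℝ) ≤ N2) → 1 ≤ c → 0 < ω → ω ≤ 1 →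
  3 ≤ (X : ℝ) ^ (Real.exp (-ω) / c) → (2 * X : ℝ) ^ (1 / c) ≤ M →
  (∀ m ∈ P, |sl N2 * ((m : ℝ) * Real.log m) - 1| ≤ ρ ∧ |su N1 * ((m : ℝ) * Real.log m) - 1| ≤ ρ) →
  |cnt P (Ico 3 M) c - mainT P c| ≤ sl N2 * |ADc P M (sl N2) ω c| + su N1 * |ADc P M (su N1) ω c| +
    ρ * mainT P c + su N1 * (P.card * ((2 * X : ℝ) ^ (1 / c) * Real.log (2 * X) ^ 2 * ω + 1 / ω))

/-- T8: numerics for the pieces -/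
def T8 : Prop := ∀ (X J : ℕ) (m N1 N2 : ℝ), 3 ≤ X → 1 ≤ J → J ≤ X → (X : ℝ) ≤ N1 → N2 ≤ 2 * X →
  N2 = N1 + X / J → N1 < m → m ≤ N2 →
  |sl N2 * (m * Real.log m) - 1| ≤ 8 / J ∧ |su N1 * (m * Real.log m) - 1| ≤ 8 / J

/-- T9: integral of the averaged difference -/
def T9 : Prop := ∀ (X M : ℕ) (P : Finset ℕ) (s ω Ξ0 Ξ1 η Y : ℝ), 3 ≤ X → 4 ≤ M → P ⊆ Ioc X (2 * X) →
  0 < s → s ≤ ω → 0 ≤ Ξ0 → 2 * Real.pi * ω * Ξ0 ≤ 1 / 2 → 0 < Ξ1 → 0 < η →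
  1 / s ≤ 8 * X * Real.log (2 * X) →
  (∀ ξ : ℝ, Ξ0 ≤ |ξ| → |ξ| ≤ Ξ1 → ‖∑ k ∈ Ico 3 M, e (ll k * ξ)‖ ≤ η * M) → 0 < Y →
  IntegrableOn (fun c => |ADc P M s ω c|) (Set.Icc Y (2 * Y)) ∧
  ∫ c in Set.Icc Y (2 * Y), |ADc P M s ω c| ≤
    2 * Y * (M * ((48 * Real.pi * ω * Ξ0 + 32 * η) * (X * Real.log (2 * X)) + 3 * X / (s * √Ξ1)))

/-- T10a: all pieces, explicit parameters -/
def T10a : Prop := ∀ (X M J : ℕ) (P : Finset ℕ) (c1 c2 ω Ξ0 Ξ1 η : ℝ), 16 ≤ X → 4 ≤ M → 1 ≤ J → J ≤ X →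
  P ⊆ Ioc X (2 * X) → 1 ≤ c1 → c1 ≤ c2 → c2 ≤ 2 * c1 → 0 < ω → ω ≤ 1 →
  1 / (X * Real.log X) ≤ ω → 3 ≤ (X : ℝ) ^ (Real.exp (-ω) / c2) → (2 * X : ℝ) ^ (1 / c1) ≤ M →
  0 ≤ Ξ0 → 2 * Real.pi * ω * Ξ0 ≤ 1 / 2 → 0 < Ξ1 → 0 < η →
  (∀ ξ : ℝ, Ξ0 ≤ |ξ| → |ξ| ≤ Ξ1 → ‖∑ k ∈ Ico 3 M, e (ll k * ξ)‖ ≤ η * M) →
  IntegrableOn (fun c => |cnt P (Ico 3 M) c - mainT P c|) (Set.Icc c1 c2) ∧
  ∫ c in Set.Icc c1 c2, |cnt P (Ico 3 M) c - mainT P c| ≤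
    4 * c1 * J * M * (96 * Real.pi * ω * Ξ0 + 64 * η + 3 * X / √Ξ1) +
    (c2 - c1) * (8 / J * (X : ℝ) ^ (1 / c1) +
      J * (2 * Real.log (2 * X) * ω * (2 * X : ℝ) ^ (1 / c1) + 1 / ω))

/-- T10b: the `L¹` theorem with a power saving, uniformly in the set `P` -/
def T10b : Prop := ∀ C0 : ℝ, 1 ≤ C0 → ∃ κ : ℝ, 0 < κ ∧ κ ≤ 1 / (2 * C0) ∧ ∀ c1 c2 : ℝ, 1 ≤ c1 → c1 ≤ c2 → c2 ≤ C0 →
  1 / c1 - 1 / c2 ≤ κ → ∃ X0 : ℕ, ∀ X : ℕ, X0 ≤ X → ∀ P : Finset ℕ, P ⊆ Ioc X (2 * X) →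
    IntegrableOn (fun c => |cnt P (Ico 3 (⌈(4 * X : ℝ) ^ (1 / c1)⌉₊)) c - mainT P c|) (Set.Icc c1 c2) ∧
    ∫ c in Set.Icc c1 c2, |cnt P (Ico 3 (⌈(4 * X : ℝ) ^ (1 / c1)⌉₊)) c - mainT P c| ≤
      (X : ℝ) ^ (1 / c2 - κ)

open Classical in
/-- elements of `A` in `(X, y]` -/
noncomputable def Ax (A : Set ℕ) (X y : ℕ) : Finset ℕ := (Ioc X y).filter (fun m => m ∈ A)

open Classical in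
/-- number of `m ∈ A`, `X < m ≤ y`, of the form `⌊k^c⌋`, `k ≥ 1` -/
noncomputable def nPS (A : Set ℕ) (c : ℝ) (X y : ℕ) : ℝ :=
  (((Ax A X y).filter (fun m => ∃ k : ℕ, 1 ≤ k ∧ ⌊(k : ℝ) ^ c⌋₊ = m)).card : ℝ)

/-- T11a: `cnt` counts the values of the sequence -/
def T11a : Prop := ∀ (A : Set ℕ) (X y : ℕ) (c c1 : ℝ), 1 ≤ c1 → c1 ≤ c → (2 : ℝ) ^ c < X → y ≤ 2 * X →
  nPS A c X y = cnt (Ax A X y) (Ico 3 (⌈(4 * X : ℝ) ^ (1 / c1)⌉₊)) c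

/-- T11b: almost every exponent, dyadic blocks, all partial blocks -/
def T11b : Prop := ∀ C0 : ℝ, 1 ≤ C0 → ∃ κ : ℝ, 0 < κ ∧ κ ≤ 1 / (2 * C0) ∧ ∀ (A : Set ℕ) (c1 c2 : ℝ), 1 ≤ c1 → c1 ≤ c2 → c2 ≤ C0 →
  1 / c1 - 1 / c2 ≤ κ → ∀ᵐ c : ℝ, c ∈ Set.Icc c1 c2 → ∃ i0 : ℕ, ∀ i : ℕ, i0 ≤ i → ∀ y : ℕ, 2 ^ i ≤ y → y ≤ 2 ^ (i + 1) →
    |nPS A c (2 ^ i) y - mainT (Ax A (2 ^ i) y) c| ≤ 8 * ((2 : ℝ) ^ i) ^ (1 / c - κ / 4)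

/-- T11c: almost every exponent, all `x`, power saving -/
def T11c : Prop := ∀ A : Set ℕ, ∀ᵐ c : ℝ, 1 < c → ∃ κ : ℝ, 0 < κ ∧ ∃ C : ℝ, ∀ y : ℕ, 1 ≤ y →
    |nPS A c 0 y - mainT (Ax A 0 y) c| ≤ C * (y : ℝ) ^ (1 / c - κ)

/-- T12: main term for sets with the density of the primes -/
def T12 : Prop := ∀ (A : Set ℕ) (c : ℝ), 1 < c →
  Tendsto (fun n : ℕ => ((Ax A 0 n).card : ℝ) * Real.log n / n) atTop (nhds 1) →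
  Tendsto (fun n : ℕ => mainT (Ax A 0 n) c * Real.log n / (n : ℝ) ^ (1 / c)) atTop (nhds 1)

/-- T12b: prime number theorem for `{p}` and `{p - 1}` -/
def T12b : Prop :=
  Tendsto (fun n : ℕ => ((Ax {p : ℕ | p.Prime} 0 n).card : ℝ) * Real.log n / n) atTop (nhds 1) ∧
  Tendsto (fun n : ℕ => ((Ax {p : ℕ | (p + 1).Prime} 0 n).card : ℝ) * Real.log n / n) atTop (nhds 1)

end Pool.Agent.H706R2.PS
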