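import Pool.Agent.H706R2.PS.Defs

set_option autoImplicit false

open Finset

namespace Pool.Agent.H706R2.PS

theorem t11a_gap (c : ℝ) (hc : 1 ≤ c) (k k' : ℕ) (h : k < k') :
    (k : ℝ) ^ c + 1 ≤ (k' : ℝ) ^ c := by
  have h1 : (k : ℝ) ^ c + (1 : ℝ) ^ c ≤ ((k : ℝ) + 1) ^ c :=
    Real.add_rpow_le_rpow_add (by positivity) (by norm_num) hc
  rw [Real.one_rpow] at h1
  have h2 : (k : ℝ) + 1 ≤ k' := by exact_mod_cast h
  exact h1.trans (Real.rpow_le_rpow (by positivity) h2 (by linarith))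

theorem t11a : T11a := by
  classical
  intro A X y c c1 hc1 hc hX hy
  have hc' : 1 ≤ c := hc1.trans hc
  have hX2 : (2 : ℝ) < X := by
    have : (2 : ℝ) ^ (1 : ℝ) ≤ (2 : ℝ) ^ c := Real.rpow_le_rpow_of_exponent_le (by norm_num) hc'
    rw [Real.rpow_one] at this
    linarith
  have hfl : ∀ k m : ℕ, ⌊(k : ℝ) ^ c⌋₊ = m ↔ ((m : ℝ) ≤ (k : ℝ) ^ c ∧ (k : ℝ) ^ c < m + 1) :=
    fun k m => Nat.floor_eq_iff (by positivity)
  have huniq : ∀ k k' m : ℕ, ((m : ℝ) ≤ (k : ℝ) ^ c ∧ (k : ℝ) ^ c < m + 1) →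
      ((m : ℝ) ≤ (k' : ℝ) ^ c ∧ (k' : ℝ) ^ c < m + 1) → k = k' := by
    intro k k' m h h'
    rcases lt_trichotomy k k' with hlt | heq | hgt
    · have := t11a_gap c hc' k k' hlt
      linarith [h.1, h.2, h'.1, h'.2]
    · exact heq
    · have := t11a_gap c hc' k' k hgt
      linarith [h.1, h.2, h'.1, h'.2]
  have hmem : ∀ m ∈ Ax A X y, ∀ k : ℕ, ((m : ℝ) ≤ (k : ℝ) ^ c ∧ (k : ℝ) ^ c < m + 1) →
      k ∈ Ico 3 (⌈(4 * X : ℝ) ^ (1 / c1)⌉₊) := by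
    intro m hm k hk
    unfold Ax at hm
    rw [Finset.mem_filter, Finset.mem_Ioc] at hm
    have hm1 : (X : ℝ) < m := by exact_mod_cast hm.1.1
    have hm2 : (m : ℝ) ≤ 2 * X := by
      have : m ≤ 2 * X := hm.1.2.trans hy
      exact_mod_cast this
    rw [Finset.mem_Ico]
    constructor
    · by_contra hlt
      have hk2 : (k : ℝ) ≤ 2 := by
        have : k ≤ 2 := by omega
        exact_mod_cast this
      have : (k : ℝ) ^ c ≤ (2 : ℝ) ^ c := Real.rpow_le_rpow (by positivity) hk2 (by linarith)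
      linarith [hk.1]
    · by_contra hge
      have hge' : (⌈(4 * X : ℝ) ^ (1 / c1)⌉₊ : ℝ) ≤ k := by exact_mod_cast not_lt.mp hge
      have h1 : (4 * X : ℝ) ^ (1 / c1) ≤ k := (Nat.le_ceil _).trans hge'
      have h4X : (0 : ℝ) ≤ 4 * X := by positivity
      have h2 : (4 * X : ℝ) ≤ (k : ℝ) ^ c1 := by
        calc (4 * X : ℝ) = ((4 * X : ℝ) ^ (1 / c1)) ^ c1 := by
              rw [← Real.rpow_mul h4X, one_div, inv_mul_cancel₀ (by linarith), Real.rpow_one]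
          _ ≤ (k : ℝ) ^ c1 := Real.rpow_le_rpow (by positivity) h1 (by linarith)
      have hk1 : (1 : ℝ) ≤ k := by
        refine le_trans ?_ h1
        exact Real.one_le_rpow (by linarith) (by positivity)
      have h3 : (k : ℝ) ^ c1 ≤ (k : ℝ) ^ c := Real.rpow_le_rpow_of_exponent_le hk1 hc
      linarith [hk.2]
  unfold nPS cnt
  have hswap : ∑ k ∈ Ico 3 (⌈(4 * X : ℝ) ^ (1 / c1)⌉₊),
      (((Ax A X y).filter (fun m : ℕ => (m : ℝ) ≤ (k : ℝ) ^ c ∧ (k : ℝ) ^ c < m + 1)).card : ℝ) =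
      ∑ m ∈ Ax A X y, (((Ico 3 (⌈(4 * X : ℝ) ^ (1 / c1)⌉₊)).filter
        (fun k : ℕ => (m : ℝ) ≤ (k : ℝ) ^ c ∧ (k : ℝ) ^ c < m + 1)).card : ℝ) := by
    simp only [Finset.card_filter, Nat.cast_sum]
    exact Finset.sum_comm
  rw [hswap, Finset.card_filter, Nat.cast_sum]
  refine Finset.sum_congr rfl fun m hm => ?_
  by_cases hex : ∃ k : ℕ, 1 ≤ k ∧ ⌊(k : ℝ) ^ c⌋₊ = m
  · rw [if_pos hex]
    obtain ⟨k, -, hk⟩ := hex
    rw [hfl] at hk
    have : (Ico 3 (⌈(4 * X : ℝ) ^ (1 / c1)⌉₊)).filter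
        (fun k : ℕ => (m : ℝ) ≤ (k : ℝ) ^ c ∧ (k : ℝ) ^ c < m + 1) = {k} := by
      ext k'
      rw [Finset.mem_filter, Finset.mem_singleton]
      constructor
      · intro h'
        exact huniq k' k m h'.2 hk
      · rintro rfl
        exact ⟨hmem m hm k' hk, hk⟩
    rw [this, Finset.card_singleton]
  · rw [if_neg hex]
    have : (Ico 3 (⌈(4 * X : ℝ) ^ (1 / c1)⌉₊)).filter
        (fun k : ℕ => (m : ℝ) ≤ (k : ℝ) ^ c ∧ (k : ℝ) ^ c < m + 1) = ∅ := by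
      apply Finset.filter_false_of_mem
      intro k hk h
      apply hex
      rw [Finset.mem_Ico] at hk
      exact ⟨k, by omega, (hfl k m).mpr h⟩
    rw [this, Finset.card_empty]

end Pool.Agent.H706R2.PS
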