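import Pool.Agent.H706R2.PS.T13
import Pool.Agent.H706R2.PS.T11a

open Finset MeasureTheory Filter Topology

namespace Pool.Agent.H706R2.PS

lemma log_floor_ratio : Tendsto (fun x : ℝ => Real.log x / Real.log (⌊x⌋₊ : ℝ)) atTop (nhds 1) := by
  have h1 : Tendsto (fun x : ℝ => (⌊x⌋₊ : ℝ) / x) atTop (nhds 1) := tendsto_nat_floor_div_atTop
  have h2 : Tendsto (fun x : ℝ => Real.log ((⌊x⌋₊ : ℝ) / x)) atTop (nhds 0) := by
    have := (Real.continuousAt_log (x := 1) one_ne_zero).tendsto.comp h1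
    rw [Real.log_one] at this
    exact this
  have h3 : Tendsto (fun x : ℝ => Real.log (⌊x⌋₊ : ℝ)) atTop atTop :=
    Real.tendsto_log_atTop.comp (tendsto_natCast_atTop_atTop.comp tendsto_nat_floor_atTop)
  have h4 : Tendsto (fun x : ℝ => 1 - Real.log ((⌊x⌋₊ : ℝ) / x) / Real.log (⌊x⌋₊ : ℝ)) atTop (nhds (1 - 0)) :=
    tendsto_const_nhds.sub (h2.div_atTop h3)
  rw [sub_zero] at h4
  refine h4.congr' ?_
  filter_upwards [eventually_ge_atTop 2] with x hx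
  have hn : 2 ≤ ⌊x⌋₊ := Nat.le_floor (by exact_mod_cast hx)
  have hn' : (2 : ℝ) ≤ (⌊x⌋₊ : ℝ) := by exact_mod_cast hn
  have hl : 0 < Real.log (⌊x⌋₊ : ℝ) := Real.log_pos (by linarith)
  rw [Real.log_div (by linarith) (by linarith)]
  field_simp
  ring

/-- from integers to reals -/
lemma real_law {A : Set ℕ} {c : ℝ} (hc : 1 < c)
    (h : Tendsto (fun n : ℕ => nPS A c 0 n * Real.log n / (n : ℝ) ^ (1 / c)) atTop (nhds 1)) :
    Asymptotics.IsEquivalent atTop (fun x : ℝ => nPS A c 0 ⌊x⌋₊) (fun x : ℝ => x ^ (1 / c) / Real.log x) := by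
  have hne : ∀ᶠ x : ℝ in atTop, x ^ (1 / c) / Real.log x ≠ 0 := by
    filter_upwards [eventually_gt_atTop 1] with x hx
    have := Real.log_pos hx
    have : 0 < x ^ (1 / c) := Real.rpow_pos_of_pos (by linarith) _
    positivity
  rw [Asymptotics.isEquivalent_iff_tendsto_one hne]
  have h1 := h.comp (tendsto_nat_floor_atTop (α := ℝ))
  have h2 : Tendsto (fun x : ℝ => ((⌊x⌋₊ : ℝ) / x) ^ (1 / c)) atTop (nhds 1) := by
    have := (tendsto_nat_floor_div_atTop (R := ℝ)).rpow_const (p := 1 / c) (Or.inl one_ne_zero)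
    rwa [Real.one_rpow] at this
  have h3 := (h1.mul h2).mul log_floor_ratio
  rw [one_mul, one_mul] at h3
  refine h3.congr' ?_
  filter_upwards [eventually_ge_atTop 2] with x hx
  have hn : 2 ≤ ⌊x⌋₊ := Nat.le_floor (by exact_mod_cast hx)
  have hn' : (2 : ℝ) ≤ (⌊x⌋₊ : ℝ) := by exact_mod_cast hn
  have hl : 0 < Real.log (⌊x⌋₊ : ℝ) := Real.log_pos (by linarith)
  have hlx : 0 < Real.log x := Real.log_pos (by linarith)
  have hx0 : 0 < x := by linarith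
  have hp1 : 0 < x ^ (1 / c) := Real.rpow_pos_of_pos hx0 _
  have hp2 : 0 < (⌊x⌋₊ : ℝ) ^ (1 / c) := Real.rpow_pos_of_pos (by linarith) _
  simp only [Function.comp, Pi.div_apply]
  rw [Real.div_rpow (by linarith) hx0.le]
  field_simp

/-- number of `n ≤ N` with `⌊n^c⌋ ∈ A` -/
noncomputable def nN (A : Set ℕ) (c : ℝ) (N : ℕ) : ℕ :=
  ({n : ℕ | 1 ≤ n ∧ n ≤ N ∧ ⌊(n : ℝ) ^ c⌋₊ ∈ A} : Set ℕ).ncard

lemma floor_lt {c : ℝ} (hc : 1 ≤ c) {k k' : ℕ} (h : k < k') : ⌊(k : ℝ) ^ c⌋₊ < ⌊(k' : ℝ) ^ c⌋₊ := by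
  have h1 := t11a_gap c hc k k' h
  have h2 : (⌊(k : ℝ) ^ c⌋₊ : ℝ) ≤ (k : ℝ) ^ c := Nat.floor_le (by positivity)
  have h3 : ((⌊(k : ℝ) ^ c⌋₊ + 1 : ℕ) : ℝ) ≤ (k' : ℝ) ^ c := by push_cast; linarith
  have h4 := Nat.le_floor h3
  omega

lemma nN_eq (A : Set ℕ) {c : ℝ} (hc : 1 ≤ c) (N : ℕ) : (nN A c N : ℝ) = nPS A c 0 ⌊(N : ℝ) ^ c⌋₊ := by
  rw [nPS_eq]
  unfold nN
  congr 1
  refine Set.ncard_congr (fun n _ => ⌊(n : ℝ) ^ c⌋₊) ?_ ?_ ?_
  · rintro n ⟨h1, h2, h3⟩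
    refine ⟨h3, ?_, ?_, n, h1, rfl⟩
    · apply Nat.le_floor
      have : (1 : ℝ) ≤ n := by exact_mod_cast h1
      exact_mod_cast Real.one_le_rpow this (by linarith)
    · apply Nat.floor_le_floor
      exact Real.rpow_le_rpow (by positivity) (by exact_mod_cast h2) (by linarith)
  · rintro n n' _ _ h
    rcases lt_trichotomy n n' with h1 | h1 | h1
    · exact absurd h (floor_lt hc h1).ne
    · exact h1
    · exact absurd h (floor_lt hc h1).ne'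
  · rintro m ⟨h1, h2, h3, k, hk1, hk2⟩
    refine ⟨k, ⟨hk1, ?_, by rw [hk2]; exact h1⟩, hk2⟩
    by_contra hcon
    have := floor_lt hc (not_le.mp hcon)
    omega

/-- the law in terms of `n ≤ N` -/
lemma N_law {A : Set ℕ} {c : ℝ} (hc : 1 < c)
    (h : Tendsto (fun n : ℕ => nPS A c 0 n * Real.log n / (n : ℝ) ^ (1 / c)) atTop (nhds 1)) :
    Asymptotics.IsEquivalent atTop (fun N : ℕ => (nN A c N : ℝ)) (fun N : ℕ => (N : ℝ) / (c * Real.log N)) := by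
  have hT : Tendsto (fun N : ℕ => (N : ℝ) ^ c) atTop atTop :=
    (tendsto_rpow_atTop (by linarith)).comp tendsto_natCast_atTop_atTop
  have h1 := (real_law hc h).comp_tendsto hT
  have e1 : (fun x : ℝ => nPS A c 0 ⌊x⌋₊) ∘ (fun N : ℕ => (N : ℝ) ^ c) = fun N : ℕ => (nN A c N : ℝ) := by
    funext N
    simp only [Function.comp]
    rw [nN_eq A hc.le]
  have e2 : (fun x : ℝ => x ^ (1 / c) / Real.log x) ∘ (fun N : ℕ => (N : ℝ) ^ c) =
      fun N : ℕ => (N : ℝ) / (c * Real.log N) := by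
    funext N
    simp only [Function.comp]
    have hc0 : c ≠ 0 := by linarith
    rcases Nat.eq_zero_or_pos N with rfl | hN
    · rw [Nat.cast_zero, Real.zero_rpow hc0, Real.zero_rpow (by positivity)]
      simp
    · have hN' : (0 : ℝ) < N := by exact_mod_cast hN
      rw [← Real.rpow_mul hN'.le, mul_one_div_cancel hc0, Real.rpow_one, Real.log_rpow hN']
  rwa [e1, e2] at h1

/-- power saving in terms of `n ≤ N` -/
lemma N_power {A : Set ℕ} {c κ C : ℝ} (hc : 1 < c) (hκ : 0 < κ)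
    (h : ∀ y : ℕ, 1 ≤ y → |nPS A c 0 y - mainT (Ax A 0 y) c| ≤ C * (y : ℝ) ^ (1 / c - κ)) (N : ℕ) (hN : 1 ≤ N) :
    |(nN A c N : ℝ) - mainT (Ax A 0 ⌊(N : ℝ) ^ c⌋₊) c| ≤ |C| * (N : ℝ) ^ (1 - min (c * κ) 1) := by
  have hN' : (1 : ℝ) ≤ N := by exact_mod_cast hN
  have hNc : (1 : ℝ) ≤ (N : ℝ) ^ c := Real.one_le_rpow hN' (by linarith)
  have hy : 1 ≤ ⌊(N : ℝ) ^ c⌋₊ := Nat.le_floor (by exact_mod_cast hNc)
  have hy' : (1 : ℝ) ≤ (⌊(N : ℝ) ^ c⌋₊ : ℝ) := by exact_mod_cast hy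
  rw [nN_eq A hc.le]
  refine (h _ hy).trans ?_
  have h2 : ((⌊(N : ℝ) ^ c⌋₊ : ℕ) : ℝ) ^ (1 / c - κ) ≤ (N : ℝ) ^ (1 - min (c * κ) 1) := by
    rcases le_or_gt 0 (1 / c - κ) with h0 | h0
    · calc ((⌊(N : ℝ) ^ c⌋₊ : ℕ) : ℝ) ^ (1 / c - κ) ≤ ((N : ℝ) ^ c) ^ (1 / c - κ) :=
            Real.rpow_le_rpow (by positivity) (Nat.floor_le (by positivity)) h0
        _ = (N : ℝ) ^ (1 - c * κ) := by
            rw [← Real.rpow_mul (by linarith)]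
            congr 1
            field_simp
        _ ≤ _ := Real.rpow_le_rpow_of_exponent_le hN' (by linarith [min_le_left (c * κ) 1])
    · calc ((⌊(N : ℝ) ^ c⌋₊ : ℕ) : ℝ) ^ (1 / c - κ) ≤ 1 := Real.rpow_le_one_of_one_le_of_nonpos hy' h0.le
        _ ≤ _ := Real.one_le_rpow hN' (by linarith [min_le_right (c * κ) 1])
  calc C * ((⌊(N : ℝ) ^ c⌋₊ : ℕ) : ℝ) ^ (1 / c - κ) ≤ |C| * ((⌊(N : ℝ) ^ c⌋₊ : ℕ) : ℝ) ^ (1 / c - κ) := by
        gcongr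
        exact le_abs_self C
    _ ≤ _ := by gcongr

lemma sq_case (N : ℕ) : nN {m : ℕ | (m + 1).Prime} 2 N = ({n : ℕ | 1 ≤ n ∧ n ≤ N ∧ (n ^ 2 + 1).Prime} : Set ℕ).ncard := by
  unfold nN
  congr 1
  ext n
  have : ⌊(n : ℝ) ^ (2 : ℝ)⌋₊ = n ^ 2 := by
    rw [show (2 : ℝ) = ((2 : ℕ) : ℝ) by norm_num, Real.rpow_natCast]
    rw [← Nat.cast_pow, Nat.floor_natCast]
  simp only [Set.mem_setOf_eq, this]

end Pool.Agent.H706R2.PS
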