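import Pool.Agent.H706R2.PS.Defs

/-! Task T1: iterated differences of `log log`. -/

open Finset MeasureTheory Filter

namespace Pool.Agent.H706R2.PS

namespace T1aux

open Polynomial

/-- the polynomials of the derivatives of `log log` -/
noncomputable def pp : ℕ → ℝ[X]
  | 0 => X
  | j + 1 => C ((j : ℝ) + 1) * pp j + X ^ 2 * derivative (pp j)

lemma pp_coeff (j i : ℕ) : 0 ≤ (pp j).coeff i := by
  induction j generalizing i with
  | zero =>
    simp only [pp, coeff_X]
    split_ifs <;> norm_num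
  | succ j ih =>
    simp only [pp, coeff_add, coeff_C_mul, coeff_X_pow_mul']
    have h1 : 0 ≤ ((j : ℝ) + 1) * (pp j).coeff i := mul_nonneg (by positivity) (ih i)
    split_ifs with h
    · rw [coeff_derivative]
      have h2 : 0 ≤ (pp j).coeff (i - 2 + 1) * ((↑(i - 2) : ℝ) + 1) :=
        mul_nonneg (ih _) (by positivity)
      linarith
    · linarith

lemma pp_der_nonneg (j : ℕ) {y : ℝ} (hy : 0 ≤ y) : 0 ≤ (derivative (pp j)).eval y := by
  rw [eval_eq_sum_range]
  refine sum_nonneg fun i _ => mul_nonneg ?_ (by positivity)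
  rw [coeff_derivative]
  exact mul_nonneg (pp_coeff _ _) (by positivity)

lemma pp_le (j : ℕ) {y : ℝ} (hy : 0 ≤ y) (hy1 : y ≤ 1) : (pp j).eval y ≤ (pp j).eval 1 := by
  rw [eval_eq_sum_range, eval_eq_sum_range]
  refine sum_le_sum fun i _ => mul_le_mul_of_nonneg_left ?_ (pp_coeff _ _)
  exact pow_le_pow_left₀ hy hy1 i

lemma pp_ge (j : ℕ) {y : ℝ} (hy : 0 ≤ y) : (j.factorial : ℝ) * y ≤ (pp j).eval y := by
  induction j with
  | zero => simp [pp]
  | succ j ih =>
    simp only [pp, eval_add, eval_mul, eval_C, eval_pow, eval_X]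
    have h1 := pp_der_nonneg j hy
    rw [Nat.factorial_succ]
    push_cast
    have h2 : 0 ≤ y ^ 2 * (derivative (pp j)).eval y := mul_nonneg (by positivity) h1
    have h3 := mul_le_mul_of_nonneg_left ih (by positivity : (0 : ℝ) ≤ (j : ℝ) + 1)
    linarith

/-- the derivatives of `log log` up to the sign -/
noncomputable def GG (j : ℕ) (x : ℝ) : ℝ := (pp j).eval (Real.log x)⁻¹ / x ^ (j + 1)

lemma hasDerivAt_loglog {x : ℝ} (hx : 1 < x) :
    HasDerivAt (fun y => Real.log (Real.log y)) (GG 0 x) x := by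
  have hx0 : (0 : ℝ) < x := by linarith
  have hl : 0 < Real.log x := Real.log_pos hx
  have h := (Real.hasDerivAt_log hx0.ne').log hl.ne'
  refine h.congr_deriv ?_
  simp only [GG, pp, eval_X, zero_add, pow_one]
  field_simp

lemma hasDerivAt_GG (j : ℕ) {x : ℝ} (hx : 1 < x) : HasDerivAt (GG j) (-(GG (j + 1) x)) x := by
  have hx0 : (0 : ℝ) < x := by linarith
  have hl : 0 < Real.log x := Real.log_pos hx
  have h1 : HasDerivAt (fun y => (Real.log y)⁻¹) (-x⁻¹ / Real.log x ^ 2) x :=
    (Real.hasDerivAt_log hx0.ne').fun_inv hl.ne'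
  have h2 : HasDerivAt (fun y => (pp j).eval (Real.log y)⁻¹)
      ((derivative (pp j)).eval (Real.log x)⁻¹ * (-x⁻¹ / Real.log x ^ 2)) x :=
    HasDerivAt.comp (h₂ := fun z => (pp j).eval z) x ((pp j).hasDerivAt ((Real.log x)⁻¹)) h1
  have h3 : HasDerivAt (fun y : ℝ => y ^ (j + 1)) ((j + 1 : ℕ) * x ^ j) x := by
    have := hasDerivAt_pow (j + 1) x
    simpa using this
  have h4 := h2.div h3 (pow_pos hx0 _).ne'
  refine h4.congr_deriv ?_
  simp only [GG, pp, eval_add, eval_mul, eval_C, eval_pow, eval_X]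
  push_cast
  field_simp
  ring

lemma hasDerivAt_DD (F F' : ℝ → ℝ) (h : ∀ x : ℝ, 1 < x → HasDerivAt F (F' x) x) (ls : List ℕ)
    {x : ℝ} (hx : 1 < x) : HasDerivAt (DD F ls) (DD F' ls x) x := by
  induction ls generalizing x with
  | nil => exact h x hx
  | cons l ls ih =>
    have h1 : HasDerivAt (fun y => DD F ls (y + l)) (DD F' ls (x + l)) x := by
      have hxl : 1 < x + l := by
        have : (0 : ℝ) ≤ l := Nat.cast_nonneg l
        linarith
      exact (ih hxl).comp_add_const x (l : ℝ)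
    exact h1.sub (ih hx)

lemma DD_neg (F : ℝ → ℝ) (ls : List ℕ) (x : ℝ) : DD (fun y => -F y) ls x = -DD F ls x := by
  induction ls generalizing x with
  | nil => rfl
  | cons l ls ih => simp only [DD, ih]; ring

/-- mean value theorem -/
lemma DD_cons (F F' : ℝ → ℝ) (h : ∀ x : ℝ, 1 < x → HasDerivAt F (F' x) x) (l : ℕ) (hl : 0 < l)
    (ls : List ℕ) {x : ℝ} (hx : 1 < x) :
    ∃ ξ ∈ Set.Ioo x (x + l), DD F (l :: ls) x = l * DD F' ls ξ := by
  have hl' : (0 : ℝ) < l := by exact_mod_cast hl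
  obtain ⟨ξ, hξ, hξ2⟩ := exists_hasDerivAt_eq_slope (DD F ls) (DD F' ls) (a := x) (b := x + l)
    (by linarith)
    (fun y hy => (hasDerivAt_DD F F' h ls (by linarith [hy.1])).continuousAt.continuousWithinAt)
    (fun y hy => hasDerivAt_DD F F' h ls (by linarith [hy.1]))
  refine ⟨ξ, hξ, ?_⟩
  simp only [DD]
  rw [hξ2, add_sub_cancel_left]
  field_simp

lemma one_le_log {x : ℝ} (hx : 3 ≤ x) : 1 ≤ Real.log x := by
  rw [Real.le_log_iff_exp_le (by linarith)]
  exact (Real.exp_one_lt_d9.le.trans (by norm_num)).trans hx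

lemma GG_bounds (j : ℕ) {N x : ℝ} (hN : 3 ≤ N) (hx : N ≤ x) (hx3 : x ≤ 3 * N) :
    (j.factorial : ℝ) / ((3 * N) ^ (j + 1) * Real.log (3 * N)) ≤ GG j x ∧
      GG j x ≤ max 1 ((pp j).eval 1) / N ^ (j + 1) := by
  have hx0 : 0 < x := by linarith
  have hl : 1 ≤ Real.log x := one_le_log (by linarith)
  have hl3 : Real.log x ≤ Real.log (3 * N) := Real.log_le_log hx0 hx3
  have hy0 : 0 ≤ (Real.log x)⁻¹ := inv_nonneg.2 (by linarith)
  have hy1 : (Real.log x)⁻¹ ≤ 1 := inv_le_one_of_one_le₀ hl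
  constructor
  · have h1 := pp_ge j hy0
    have h2 : (j.factorial : ℝ) / (x ^ (j + 1) * Real.log x) ≤ GG j x := by
      unfold GG
      rw [div_le_div_iff₀ (by positivity) (by positivity)]
      have h3 : (j.factorial : ℝ) * x ^ (j + 1) =
          ((j.factorial : ℝ) * (Real.log x)⁻¹) * (x ^ (j + 1) * Real.log x) := by
        field_simp
      rw [h3]
      exact mul_le_mul_of_nonneg_right h1 (by positivity)
    refine le_trans ?_ h2
    have h4 : x ^ (j + 1) ≤ (3 * N) ^ (j + 1) := pow_le_pow_left₀ hx0.le hx3 _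
    have h5 : x ^ (j + 1) * Real.log x ≤ (3 * N) ^ (j + 1) * Real.log (3 * N) :=
      mul_le_mul h4 hl3 (by linarith) (by positivity)
    exact div_le_div_of_nonneg_left (by positivity) (by positivity) h5
  · unfold GG
    have h1 : (pp j).eval (Real.log x)⁻¹ ≤ max 1 ((pp j).eval 1) :=
      (pp_le j hy0 hy1).trans (le_max_right _ _)
    have h4 : N ^ (j + 1) ≤ x ^ (j + 1) := pow_le_pow_left₀ (by linarith) hx _
    have h5 : (0 : ℝ) < N ^ (j + 1) := pow_pos (by linarith) _
    exact div_le_div₀ (by positivity) h1 h5 h4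

lemma DD_GG_bounds (ls : List ℕ) : ∀ (j : ℕ) {N x : ℝ}, 3 ≤ N → N ≤ x →
    x + (ls.sum : ℕ) ≤ 3 * N →
    ((j + ls.length).factorial : ℝ) / ((3 * N) ^ (j + ls.length + 1) * Real.log (3 * N)) *
        (ls.prod : ℕ) ≤ (-1) ^ ls.length * DD (GG j) ls x ∧
      (-1) ^ ls.length * DD (GG j) ls x ≤
        max 1 ((pp (j + ls.length)).eval 1) / N ^ (j + ls.length + 1) * (ls.prod : ℕ) := by
  induction ls with
  | nil =>
    intro j N x hN hx hx3
    simp only [List.sum_nil, Nat.cast_zero, add_zero] at hx3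
    simpa [DD] using GG_bounds j hN hx hx3
  | cons l ls ih =>
    intro j N x hN hx hx3
    rw [List.sum_cons, Nat.cast_add] at hx3
    rcases Nat.eq_zero_or_pos l with rfl | hl
    · simp [DD]
    · obtain ⟨ξ, hξ, hξ2⟩ := DD_cons (GG j) (fun y => -(GG (j + 1) y))
        (fun y hy => hasDerivAt_GG j hy) l hl ls (x := x) (by linarith)
      have hl' : (0 : ℝ) < l := by exact_mod_cast hl
      have h := ih (j + 1) (N := N) (x := ξ) hN (by linarith [hξ.1]) (by linarith [hξ.2])
      rw [hξ2, DD_neg]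
      have e1 : (-1 : ℝ) ^ (l :: ls).length * (l * -DD (GG (j + 1)) ls ξ) =
          l * ((-1) ^ ls.length * DD (GG (j + 1)) ls ξ) := by
        rw [List.length_cons, pow_succ]; ring
      rw [e1, List.prod_cons, List.length_cons, Nat.cast_mul,
        show j + (ls.length + 1) = j + 1 + ls.length by omega]
      constructor
      · have := mul_le_mul_of_nonneg_left h.1 hl'.le
        refine le_trans (le_of_eq ?_) this
        ring
      · have := mul_le_mul_of_nonneg_left h.2 hl'.le
        refine le_trans this (le_of_eq ?_)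
        ring

end T1aux

open T1aux in
theorem t1 : T1 := by
  refine ⟨fun q => max 1 ((pp q).eval 1), fun q => le_max_left _ _, ?_⟩
  intro l ls N x hN hx hx3
  rcases Nat.eq_zero_or_pos l with rfl | hl
  · simp [DD]
  · obtain ⟨ξ, hξ, hξ2⟩ := DD_cons (fun y => Real.log (Real.log y)) (GG 0)
      (fun y hy => hasDerivAt_loglog hy) l hl ls (x := x) (by linarith)
    have hl' : (0 : ℝ) < l := by exact_mod_cast hl
    have h := DD_GG_bounds ls 0 (N := N) (x := ξ) hN (by linarith [hξ.1]) (by linarith [hξ.2])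
    rw [zero_add] at h
    rw [hξ2]
    have e1 : (-1 : ℝ) ^ ls.length * (l * DD (GG 0) ls ξ) =
        l * ((-1) ^ ls.length * DD (GG 0) ls ξ) := by ring
    rw [e1, Nat.cast_mul]
    constructor
    · have := mul_le_mul_of_nonneg_left h.1 hl'.le
      refine le_trans (le_of_eq ?_) this
      ring
    · have := mul_le_mul_of_nonneg_left h.2 hl'.le
      refine le_trans this (le_of_eq ?_)
      ring

end Pool.Agent.H706R2.PS
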