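import Pool.Agent.H706R2.PS.Defs

/-! T12: main term asymptotics -/

open Finset MeasureTheory Filter Asymptotics Topology

namespace Pool.Agent.H706R2.PS

namespace T12H

theorem Ax_zero (A : Set ℕ) : Ax A 0 0 = ∅ := by simp [Ax]

theorem abel (A : Set ℕ) (f : ℕ → ℝ) (n : ℕ) :
    ∑ m ∈ Ax A 0 n, f m = ((Ax A 0 n).card : ℝ) * f n +
      ∑ i ∈ range n, ((Ax A 0 i).card : ℝ) * (f i - f (i + 1)) := by
  classical
  induction n with
  | zero => simp [Ax_zero]
  | succ n ih =>
    have hI : Ioc 0 (n + 1) = insert (n + 1) (Ioc 0 n) := by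
      ext x; simp only [mem_Ioc, mem_insert]; omega
    have hnot : n + 1 ∉ Ax A 0 n := by
      simp [Ax]
    rw [sum_range_succ]
    by_cases hA : n + 1 ∈ A
    · have hAx : Ax A 0 (n + 1) = insert (n + 1) (Ax A 0 n) := by
        simp only [Ax, hI, filter_insert, if_pos hA]
      rw [hAx, sum_insert hnot, card_insert_of_notMem hnot, ih]
      push_cast
      ring
    · have hAx : Ax A 0 (n + 1) = Ax A 0 n := by
        simp only [Ax, hI, filter_insert, if_neg hA]
      rw [hAx, ih]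
      ring

/-- `n ((1 + 1/n)^r - 1) → r` -/
theorem lim1 (r : ℝ) : Tendsto (fun n : ℕ => (n : ℝ) * ((1 + 1 / (n : ℝ)) ^ r - 1)) atTop (𝓝 r) := by
  have h1 : HasDerivAt (fun x : ℝ => x ^ r) (r * 1 ^ (r - 1)) 1 :=
    Real.hasDerivAt_rpow_const (Or.inl one_ne_zero)
  rw [Real.one_rpow, mul_one] at h1
  have h2 := (hasDerivAt_iff_tendsto_slope_zero.1 h1)
  have h3 : Tendsto (fun n : ℕ => (1 / (n : ℝ))) atTop (𝓝[≠] 0) := by
    rw [tendsto_nhdsWithin_iff]
    refine ⟨tendsto_one_div_atTop_nhds_zero_nat, ?_⟩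
    filter_upwards [eventually_gt_atTop 0] with n hn
    have : (0 : ℝ) < n := by exact_mod_cast hn
    simp only [Set.mem_compl_iff, Set.mem_singleton_iff]
    positivity
  have h4 := h2.comp h3
  refine h4.congr' ?_
  filter_upwards [eventually_gt_atTop 0] with n hn
  simp [Function.comp]

/-- `n (log (n+1) - log n) → 1` -/
theorem lim2 : Tendsto (fun n : ℕ => (n : ℝ) * Real.log (1 + 1 / (n : ℝ))) atTop (𝓝 1) := by
  have h1 : HasDerivAt (fun x : ℝ => Real.log x) ((1 : ℝ)⁻¹) 1 :=
    Real.hasDerivAt_log one_ne_zero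
  rw [inv_one] at h1
  have h2 := (hasDerivAt_iff_tendsto_slope_zero.1 h1)
  have h3 : Tendsto (fun n : ℕ => (1 / (n : ℝ))) atTop (𝓝[≠] 0) := by
    rw [tendsto_nhdsWithin_iff]
    refine ⟨tendsto_one_div_atTop_nhds_zero_nat, ?_⟩
    filter_upwards [eventually_gt_atTop 0] with n hn
    have : (0 : ℝ) < n := by exact_mod_cast hn
    simp only [Set.mem_compl_iff, Set.mem_singleton_iff]
    positivity
  have h4 := h2.comp h3
  refine h4.congr' ?_
  filter_upwards [eventually_gt_atTop 0] with n hn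
  simp [Function.comp]

theorem log_tend : Tendsto (fun n : ℕ => Real.log (n : ℝ)) atTop atTop :=
  Real.tendsto_log_atTop.comp tendsto_natCast_atTop_atTop

theorem log_tend' : Tendsto (fun n : ℕ => Real.log ((n : ℝ) + 1)) atTop atTop :=
  Real.tendsto_log_atTop.comp (tendsto_atTop_add_const_right _ _ tendsto_natCast_atTop_atTop)

/-- the comparison function -/
noncomputable def G (s : ℝ) (n : ℕ) : ℝ := (n : ℝ) ^ s / Real.log n

theorem log_succ {n : ℕ} (hn : 0 < n) :
    Real.log ((n : ℝ) + 1) = Real.log n + Real.log (1 + 1 / (n : ℝ)) := by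
  have h0 : (0 : ℝ) < n := by exact_mod_cast hn
  rw [← Real.log_mul (by positivity) (by positivity)]
  congr 1
  field_simp

/-- `n (log n/log (n+1) - 1) → 0` -/
theorem lim3 : Tendsto (fun n : ℕ => (n : ℝ) * (Real.log n / Real.log ((n : ℝ) + 1) - 1))
    atTop (𝓝 0) := by
  have h1 : Tendsto (fun n : ℕ => -((n : ℝ) * Real.log (1 + 1 / (n : ℝ)) /
      Real.log ((n : ℝ) + 1))) atTop (𝓝 (-0)) :=
    (lim2.div_atTop log_tend').neg
  rw [neg_zero] at h1
  refine h1.congr' ?_
  filter_upwards [eventually_gt_atTop 1] with n hn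
  have h0 : (0 : ℝ) < n := by positivity
  have hl : 0 < Real.log ((n : ℝ) + 1) := Real.log_pos (by linarith)
  have := log_succ (n := n) (by omega)
  have e : Real.log n = Real.log ((n : ℝ) + 1) - Real.log (1 + 1 / (n : ℝ)) := by linarith
  rw [e]
  field_simp
  ring

theorem lim3' : Tendsto (fun n : ℕ => (Real.log n / Real.log ((n : ℝ) + 1)))
    atTop (𝓝 1) := by
  have h1 : Tendsto (fun n : ℕ => (1 / (n : ℝ)) *
      ((n : ℝ) * (Real.log n / Real.log ((n : ℝ) + 1) - 1)) + 1) atTop (𝓝 (0 * 0 + 1)) :=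
    (tendsto_one_div_atTop_nhds_zero_nat.mul lim3).add tendsto_const_nhds
  rw [zero_mul, zero_add] at h1
  refine h1.congr' ?_
  filter_upwards [eventually_gt_atTop 0] with n hn
  have h0 : (0 : ℝ) < n := by exact_mod_cast hn
  field_simp
  ring

theorem limG (s : ℝ) : Tendsto (fun n : ℕ => (G s (n + 1) - G s n) *
    ((n : ℝ) ^ (1 - s) * Real.log n)) atTop (𝓝 s) := by
  have h1 : Tendsto (fun n : ℕ => (n : ℝ) * ((1 + 1 / (n : ℝ)) ^ s - 1) *
      (Real.log n / Real.log ((n : ℝ) + 1)) +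
      (n : ℝ) * (Real.log n / Real.log ((n : ℝ) + 1) - 1)) atTop (𝓝 (s * 1 + 0)) :=
    ((lim1 s).mul lim3').add lim3
  rw [mul_one, add_zero] at h1
  refine h1.congr' ?_
  filter_upwards [eventually_gt_atTop 1] with n hn
  have h0 : (0 : ℝ) < n := by positivity
  have h1' : (1 : ℝ) < n := by exact_mod_cast hn
  have hl : 0 < Real.log ((n : ℝ) + 1) := Real.log_pos (by linarith)
  have hl' : 0 < Real.log (n : ℝ) := Real.log_pos h1'
  simp only [G]
  push_cast
  have e1 : ((n : ℝ) + 1) ^ s = (n : ℝ) ^ s * (1 + 1 / (n : ℝ)) ^ s := by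
    rw [← Real.mul_rpow h0.le (by positivity)]
    congr 1
    field_simp
  have e2 : (n : ℝ) ^ (1 - s) = n / (n : ℝ) ^ s := by
    rw [Real.rpow_sub h0, Real.rpow_one]
  have hp : 0 < (n : ℝ) ^ s := by positivity
  rw [e1, e2]
  field_simp
  ring

theorem limD (s : ℝ) : Tendsto (fun n : ℕ => (s * (n : ℝ) ^ (s - 1) -
    s * (((n + 1 : ℕ) : ℝ)) ^ (s - 1)) * (n : ℝ) ^ (2 - s)) atTop (𝓝 (s * (1 - s))) := by
  have h1 : Tendsto (fun n : ℕ => -s * ((n : ℝ) * ((1 + 1 / (n : ℝ)) ^ (s - 1) - 1)))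
      atTop (𝓝 (-s * (s - 1))) := (lim1 (s - 1)).const_mul _
  have e : -s * (s - 1) = s * (1 - s) := by ring
  rw [e] at h1
  refine h1.congr' ?_
  filter_upwards [eventually_gt_atTop 0] with n hn
  have h0 : (0 : ℝ) < n := by exact_mod_cast hn
  have e1 : (((n + 1 : ℕ) : ℝ)) ^ (s - 1) = (n : ℝ) ^ (s - 1) * (1 + 1 / (n : ℝ)) ^ (s - 1) := by
    rw [← Real.mul_rpow h0.le (by positivity)]
    congr 1
    push_cast
    field_simp
  have e2 : (n : ℝ) ^ (2 - s) * (n : ℝ) ^ (s - 1) = n := by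
    rw [← Real.rpow_add h0]
    have : 2 - s + (s - 1) = 1 := by ring
    rw [this, Real.rpow_one]
  rw [e1]
  calc -s * ((n : ℝ) * ((1 + 1 / (n : ℝ)) ^ (s - 1) - 1))
      = -s * (((n : ℝ) ^ (2 - s) * (n : ℝ) ^ (s - 1)) * ((1 + 1 / (n : ℝ)) ^ (s - 1) - 1)) := by
        rw [e2]
    _ = _ := by ring

theorem G_atTop {s : ℝ} (hs : 0 < s) : Tendsto (G s) atTop atTop := by
  have h1 : Tendsto (fun n : ℕ => Real.log (n : ℝ) / (n : ℝ) ^ s) atTop (𝓝 0) :=
    ((isLittleO_log_rpow_atTop hs).tendsto_div_nhds_zero).comp tendsto_natCast_atTop_atTop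
  have h2 : Tendsto (fun n : ℕ => Real.log (n : ℝ) / (n : ℝ) ^ s) atTop (𝓝[>] 0) := by
    rw [tendsto_nhdsWithin_iff]
    refine ⟨h1, ?_⟩
    filter_upwards [eventually_gt_atTop 1] with n hn
    have h1' : (1 : ℝ) < n := by exact_mod_cast hn
    have hl' : 0 < Real.log (n : ℝ) := Real.log_pos h1'
    have : 0 < (n : ℝ) ^ s := Real.rpow_pos_of_pos (by linarith) _
    exact div_pos hl' this
  have h3 := h2.inv_tendsto_nhdsGT_zero
  refine h3.congr ?_
  intro n
  simp only [Pi.inv_apply, G, inv_div]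

end T12H

open T12H in
theorem t12 : T12 := by
  classical
  intro A c hc hA
  set s : ℝ := 1 / c with hsdef
  have hs0 : 0 < s := by positivity
  have hs1 : s < 1 := by rw [hsdef, div_lt_one (by linarith)]; exact hc
  set a : ℕ → ℝ := fun n => ((Ax A 0 n).card : ℝ) with ha
  set f : ℕ → ℝ := fun n => s * (n : ℝ) ^ (s - 1) with hf
  have hmain : ∀ n, mainT (Ax A 0 n) c = a n * f n + ∑ i ∈ range n, a i * (f i - f (i + 1)) := by
    intro n
    exact abel A f n
  -- eventual monotonicity of G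
  have hGpos : ∀ᶠ n : ℕ in atTop, 0 < (G s (n + 1) - G s n) * ((n : ℝ) ^ (1 - s) * Real.log n) :=
    (limG s).eventually (lt_mem_nhds hs0)
  have hGpos' : ∀ᶠ n : ℕ in atTop, 0 < G s (n + 1) - G s n := by
    filter_upwards [hGpos, eventually_gt_atTop 1] with n hn hn1
    have h1' : (1 : ℝ) < n := by exact_mod_cast hn1
    have hl' : 0 < Real.log (n : ℝ) := Real.log_pos h1'
    have : 0 < (n : ℝ) ^ (1 - s) := Real.rpow_pos_of_pos (by linarith) _
    exact (pos_iff_pos_of_mul_pos hn).2 (by positivity)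
  obtain ⟨N0, hN0⟩ := eventually_atTop.1 hGpos'
  let g : ℕ → ℝ := fun i => if N0 ≤ i then G s (i + 1) - G s i else 0
  have hg0 : 0 ≤ g := by
    intro i
    simp only [g]
    split_ifs with h
    · exact (hN0 i h).le
    · exact le_rfl
  have hgsum : ∀ n, N0 ≤ n → ∑ i ∈ range n, g i = G s n - G s N0 := by
    intro n hn
    induction n, hn using Nat.le_induction with
    | base =>
      rw [sub_self]
      apply Finset.sum_eq_zero
      intro i hi
      have : ¬ N0 ≤ i := not_le.2 (mem_range.1 hi)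
      simp only [g, if_neg this]
    | succ n hn ih =>
      rw [sum_range_succ, ih]
      simp only [g, if_pos hn]
      ring
  have hgsum' : (fun n => ∑ i ∈ range n, g i) =ᶠ[atTop] fun n => G s n - G s N0 := by
    filter_upwards [eventually_ge_atTop N0] with n hn using hgsum n hn
  have hgtop : Tendsto (fun n => ∑ i ∈ range n, g i) atTop atTop := by
    refine Tendsto.congr' hgsum'.symm ?_
    exact tendsto_atTop_add_const_right _ _ (G_atTop hs0)
  -- ratio of the terms
  have hr1 : Tendsto (fun i : ℕ => a i * (f i - f (i + 1)) * ((i : ℝ) ^ (1 - s) * Real.log i)) atTop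
      (𝓝 (1 * (s * (1 - s)))) := by
    have h1 := hA.mul (limD s)
    refine h1.congr' ?_
    filter_upwards [eventually_gt_atTop 0] with n hn
    have h0 : (0 : ℝ) < n := by exact_mod_cast hn
    have e2 : (n : ℝ) ^ (2 - s) = n * (n : ℝ) ^ (1 - s) := by
      have : (2 : ℝ) - s = 1 + (1 - s) := by ring
      rw [this, Real.rpow_add h0, Real.rpow_one]
    simp only [ha, hf]
    rw [e2]
    field_simp
  rw [one_mul] at hr1
  have hr2 : Tendsto (fun i : ℕ => g i * ((i : ℝ) ^ (1 - s) * Real.log i)) atTop (𝓝 s) := by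
    refine (limG s).congr' ?_
    filter_upwards [eventually_ge_atTop N0] with n hn
    simp only [g, if_pos hn]
  have hr3 : Tendsto (fun i : ℕ => (a i * (f i - f (i + 1)) - (1 - s) * g i) / g i) atTop (𝓝 0) := by
    have h1 := (hr1.sub (hr2.const_mul (1 - s))).div hr2 hs0.ne'
    have e : (s * (1 - s) - (1 - s) * s) / s = 0 := by
      have : s * (1 - s) - (1 - s) * s = 0 := by ring
      rw [this, zero_div]
    rw [e] at h1
    refine h1.congr' ?_
    filter_upwards [eventually_gt_atTop 1] with n hn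
    have h1' : (1 : ℝ) < n := by exact_mod_cast hn
    have hl' : 0 < Real.log (n : ℝ) := Real.log_pos h1'
    have hp : 0 < (n : ℝ) ^ (1 - s) := Real.rpow_pos_of_pos (by linarith) _
    have hne : (n : ℝ) ^ (1 - s) * Real.log n ≠ 0 := by positivity
    simp only [Pi.sub_apply, Pi.div_apply]
    rw [← mul_assoc (1 - s), ← sub_mul, mul_div_mul_right _ _ hne]
  have hgne : ∀ᶠ i : ℕ in atTop, g i ≠ 0 := by
    filter_upwards [eventually_ge_atTop N0] with n hn
    simp only [g, if_pos hn]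
    exact (hN0 n hn).ne'
  have hlo : (fun i : ℕ => a i * (f i - f (i + 1)) - (1 - s) * g i) =o[atTop] g := by
    rw [isLittleO_iff_tendsto' (hgne.mono fun i hi h => absurd h hi)]
    exact hr3
  have hsum := hlo.sum_range hg0 hgtop
  have hsum' := hsum.tendsto_div_nhds_zero
  -- ratio of the sum of g and G
  have hGG : Tendsto (fun n => (∑ i ∈ range n, g i) / G s n) atTop (𝓝 1) := by
    have h1 : Tendsto (fun n => 1 - G s N0 / G s n) atTop (𝓝 (1 - 0)) :=
      tendsto_const_nhds.sub ((tendsto_const_nhds).div_atTop (G_atTop hs0))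
    rw [sub_zero] at h1
    refine h1.congr' ?_
    filter_upwards [hgsum', (G_atTop hs0).eventually_gt_atTop 0] with n hn hn1
    rw [hn, sub_div, div_self hn1.ne']
  have hT : Tendsto (fun n => (∑ i ∈ range n, a i * (f i - f (i + 1))) / G s n) atTop
      (𝓝 (1 - s)) := by
    have h1 := (hsum'.add_const (1 - s)).mul hGG
    rw [zero_add, mul_one] at h1
    refine h1.congr' ?_
    filter_upwards [hgtop.eventually_gt_atTop 0] with n hn
    rw [Finset.sum_sub_distrib, ← Finset.mul_sum]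
    have hne := hn.ne'
    field_simp
    ring
  have hF : Tendsto (fun n => a n * f n / G s n) atTop (𝓝 s) := by
    have h1 := hA.mul_const s
    rw [one_mul] at h1
    refine h1.congr' ?_
    filter_upwards [eventually_gt_atTop 1] with n hn
    have h1' : (1 : ℝ) < n := by exact_mod_cast hn
    have h0 : (0 : ℝ) < n := by linarith
    have hl' : 0 < Real.log (n : ℝ) := Real.log_pos h1'
    have hp : 0 < (n : ℝ) ^ s := Real.rpow_pos_of_pos (by linarith) _
    simp only [ha, hf, G]
    rw [Real.rpow_sub h0, Real.rpow_one]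
    field_simp
  have hfin := hF.add hT
  have e : s + (1 - s) = 1 := by ring
  rw [e] at hfin
  refine hfin.congr ?_
  intro n
  rw [hmain n, ← add_div]
  simp only [G]
  rw [div_div_eq_mul_div]

end Pool.Agent.H706R2.PS
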