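import Pool.Agent.H706R2.PS.Defs
import Pool.Agent.Helper923.PNT

/-! T12b: the prime number theorem for the sets `{p}` and `{p - 1}`. -/

open Finset MeasureTheory Filter

namespace Pool.Agent.H706R2.PS

namespace T12bh

lemma pnt_nat : Tendsto (fun n : ℕ => (Nat.primeCounting n : ℝ) * Real.log n / n) atTop
    (nhds 1) := by
  have h := Pool.Agent.Helper923.PNT.pi_tendsto.comp (tendsto_natCast_atTop_atTop (R := ℝ))
  refine h.congr fun n => ?_
  simp only [Function.comp, Nat.floor_natCast]

lemma card1 (n : ℕ) : (Ax {p : ℕ | p.Prime} 0 n).card = Nat.primeCounting n := by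
  classical
  unfold Nat.primeCounting Nat.primeCounting'
  rw [Nat.count_eq_card_filter_range]
  congr 1
  ext m
  simp only [Ax, Finset.mem_filter, Finset.mem_Ioc, Finset.mem_range]
  constructor
  · rintro ⟨⟨h1, h2⟩, h3⟩
    exact ⟨by omega, h3⟩
  · rintro ⟨h1, h2⟩
    exact ⟨⟨h2.pos, by omega⟩, h2⟩

lemma card2 (n : ℕ) : (Ax {p : ℕ | (p + 1).Prime} 0 n).card = Nat.primeCounting (n + 1) := by
  classical
  unfold Nat.primeCounting Nat.primeCounting'
  rw [Nat.count_eq_card_filter_range]
  apply Finset.card_bij (fun m _ => m + 1)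
  · intro m hm
    simp only [Ax, Finset.mem_filter, Finset.mem_Ioc] at hm
    rw [Finset.mem_filter, Finset.mem_range]
    exact ⟨by omega, hm.2⟩
  · intro a _ b _ hab
    omega
  · intro q hq
    rw [Finset.mem_filter, Finset.mem_range] at hq
    have h2 := hq.2.two_le
    refine ⟨q - 1, ?_, by omega⟩
    simp only [Ax, Finset.mem_filter, Finset.mem_Ioc]
    refine ⟨⟨by omega, by omega⟩, ?_⟩
    show (q - 1 + 1).Prime
    rw [Nat.sub_add_cancel (by omega)]
    exact hq.2

lemma step (n : ℕ) : Nat.primeCounting n ≤ Nat.primeCounting (n + 1) ∧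
    Nat.primeCounting (n + 1) ≤ Nat.primeCounting n + 1 := by
  constructor
  · exact Nat.monotone_primeCounting (Nat.le_succ n)
  · unfold Nat.primeCounting Nat.primeCounting'
    rw [Nat.count_succ]
    split_ifs <;> omega

lemma log_div : Tendsto (fun n : ℕ => Real.log n / n) atTop (nhds 0) := by
  have h := Real.isLittleO_log_id_atTop.tendsto_div_nhds_zero
  exact h.comp tendsto_natCast_atTop_atTop

end T12bh

open T12bh in
theorem t12b : T12b := by
  constructor
  · refine pnt_nat.congr fun n => ?_
    rw [card1]
  · have h1 : Tendsto (fun n : ℕ => (Nat.primeCounting n : ℝ) * Real.log n / n +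
        ((Nat.primeCounting (n + 1) : ℝ) - Nat.primeCounting n) * (Real.log n / n)) atTop
        (nhds (1 + 0)) := by
      apply pnt_nat.add
      apply squeeze_zero (g := fun n : ℕ => Real.log n / n) _ _ log_div
      · intro n
        have h2 : (Nat.primeCounting n : ℝ) ≤ Nat.primeCounting (n + 1) := by
          exact_mod_cast (step n).1
        have h3 : 0 ≤ Real.log n / n := div_nonneg (Real.log_natCast_nonneg n) (Nat.cast_nonneg n)
        exact mul_nonneg (by linarith) h3
      · intro n
        have h2 : (Nat.primeCounting (n + 1) : ℝ) ≤ Nat.primeCounting n + 1 := by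
          exact_mod_cast (step n).2
        have h3 : 0 ≤ Real.log n / n := div_nonneg (Real.log_natCast_nonneg n) (Nat.cast_nonneg n)
        calc ((Nat.primeCounting (n + 1) : ℝ) - Nat.primeCounting n) * (Real.log n / n)
            ≤ 1 * (Real.log n / n) := mul_le_mul_of_nonneg_right (by linarith) h3
          _ = _ := one_mul _
    rw [add_zero] at h1
    refine h1.congr fun n => ?_
    rw [card2]
    ring

end Pool.Agent.H706R2.PS
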