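import Pool.Agent.H706R2.PS.Defs

open Finset

namespace Pool.Agent.H706R2.PS

open Pool.Agent.H469R2.NK (e norm_e e_add e_zero conj_e)

/-- T3: exponential sums over `[3, M)` -/
theorem t3 (h : T2) : T3 := by
  intro Q hQ
  obtain ⟨η1, hη0, hη1, C2, hC2, hb⟩ := h (4 * Q) (by omega)
  set η2 : ℝ := min η1 (1 / 2) with hη2
  have hη2_0 : 0 < η2 := by rw [hη2]; positivity
  have hη2_1 : η2 ≤ 1 / 2 := min_le_right _ _
  have hη2_2 : η2 ≤ η1 := min_le_left _ _
  set η : ℝ := min η2 (1 / 4) with hη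
  have hη_0 : 0 < η := by rw [hη]; positivity
  have hη_1 : η ≤ 1 / 4 := min_le_right _ _
  have hη_2 : η ≤ η2 := min_le_left _ _
  refine ⟨η, hη_0, hη_1, 3 * C2 + 16, by positivity, ?_⟩
  intro M ξ hM hξ1 hξ2
  have hMR : (3 : ℝ) ≤ M := by exact_mod_cast hM
  have hM0 : (0 : ℝ) < M := by linarith
  have htriv : ∀ m : ℕ, ‖∑ k ∈ Ico 3 m, e (ll k * ξ)‖ ≤ m := by
    intro m
    refine (norm_sum_le _ _).trans ?_
    calc ∑ k ∈ Ico 3 m, ‖e (ll k * ξ)‖ = ∑ k ∈ Ico 3 m, (1 : ℝ) := sum_congr rfl fun k _ => norm_e _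
      _ = ((m - 3 : ℕ) : ℝ) := by simp
      _ ≤ m := by exact_mod_cast Nat.sub_le _ _
  have hlogM : 0 ≤ Real.log M := Real.log_nonneg (by linarith)
  have hξ0 : 0 < |ξ| := by linarith
  rcases lt_or_ge M 16 with h16 | h16
  · refine (htriv M).trans ?_
    have h1 : (M : ℝ)⁻¹ ≤ (M : ℝ) ^ (-η) := by
      rw [← Real.rpow_neg_one]
      exact Real.rpow_le_rpow_of_exponent_le (by linarith) (by linarith)
    have h2 : (M : ℝ) ≤ 16 := by exact_mod_cast h16.le
    have h3 : 0 ≤ Real.log M / |ξ| := by positivity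
    have h4 : (1 : ℝ) ≤ (3 * C2 + 16) * (Real.log M / |ξ| + (M : ℝ) ^ (-η)) := by
      have h5 : (1 : ℝ) ≤ 16 * (M : ℝ)⁻¹ := by
        rw [← div_eq_mul_inv, le_div_iff₀ hM0]; linarith
      nlinarith [mul_nonneg hC2.le h3, mul_nonneg hC2.le (Real.rpow_nonneg hM0.le (-η))]
    calc (M : ℝ) = M * 1 := (mul_one _).symm
      _ ≤ M * ((3 * C2 + 16) * (Real.log M / |ξ| + (M : ℝ) ^ (-η))) := by gcongr
      _ = _ := by ring
  · have h16' : (16 : ℝ) ≤ M := by exact_mod_cast h16
    -- reduce to positive `Z = |ξ|`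
    have hpos : ∀ S : Finset ℕ, ‖∑ k ∈ S, e (ll k * ξ)‖ =
        ‖∑ k ∈ S, e (|ξ| * Real.log (Real.log ((k : ℕ) : ℝ)))‖ := by
      intro S
      rcases le_or_gt 0 ξ with h | h
      · rw [abs_of_nonneg h]
        simp only [ll, mul_comm]
      · rw [abs_of_neg h]
        have : ∑ k ∈ S, e (-ξ * Real.log (Real.log ((k : ℕ) : ℝ))) =
            (starRingEnd ℂ) (∑ k ∈ S, e (ll k * ξ)) := by
          rw [map_sum]
          refine sum_congr rfl fun k _ => ?_
          rw [conj_e, ll]
          congr 1; ring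
        rw [this, Complex.norm_conj]
    set Z := |ξ| with hZ
    have hsq : (4 : ℝ) ≤ √M := by
      rw [show (4 : ℝ) = √16 by rw [show (16 : ℝ) = 4 ^ 2 by norm_num, Real.sqrt_sq (by norm_num)]]
      exact Real.sqrt_le_sqrt h16'
    have hsq2 : √(M : ℝ) * √(M : ℝ) = M := Real.mul_self_sqrt hM0.le
    have key : ∀ m : ℕ, m ≤ M → ‖∑ k ∈ Ico 3 m, e (ll k * ξ)‖ ≤
        √M + 4 + 3 * C2 * (m * Real.log M / Z + (m : ℝ) ^ (1 - η2)) := by
      intro m
      induction m using Nat.strong_induction_on with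
      | _ m ih =>
        intro hmM
        rcases le_or_gt (m : ℝ) (√M + 4) with hm | hm
        · refine (htriv m).trans (hm.trans ?_)
          have : 0 ≤ 3 * C2 * (m * Real.log M / Z + (m : ℝ) ^ (1 - η2)) := by positivity
          linarith
        · have hm8 : (8 : ℝ) < m := by linarith
          have hm9 : 9 ≤ m := by
            have : 8 < m := by exact_mod_cast hm8
            omega
          have hm9' : (9 : ℝ) ≤ m := by exact_mod_cast hm9
          obtain ⟨N, hN⟩ : ∃ N, N = (m + 1) / 2 := ⟨_, rfl⟩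
          have hN1 : m ≤ 2 * N := by omega
          have hN2 : 2 * N ≤ m + 1 := by omega
          have hN3 : N < m := by omega
          have hN4 : 3 ≤ N := by omega
          have hN1' : (m : ℝ) ≤ 2 * N := by exact_mod_cast hN1
          have hN2' : 2 * (N : ℝ) ≤ m + 1 := by exact_mod_cast hN2
          have hN4' : (3 : ℝ) ≤ N := by exact_mod_cast hN4
          have hN0 : (0 : ℝ) < N := by linarith
          have hIH := ih N hN3 (by omega)
          have hZN : Z ≤ (N : ℝ) ^ (4 * Q) := by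
            have h1 : √(M : ℝ) ≤ (N : ℝ) ^ 2 := by nlinarith
            have h2 : (M : ℝ) ≤ (N : ℝ) ^ 4 := by
              calc (M : ℝ) = √(M : ℝ) * √(M : ℝ) := hsq2.symm
                _ ≤ (N : ℝ) ^ 2 * (N : ℝ) ^ 2 := by gcongr
                _ = _ := by ring
            calc Z ≤ (M : ℝ) ^ Q := hξ2
              _ ≤ ((N : ℝ) ^ 4) ^ Q := by gcongr
              _ = _ := by rw [← pow_mul]
          have hT := hb N N (m - N) Z hN4 le_rfl (by omega) (by omega) hξ1 (by exact_mod_cast hZN)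
          have hsplit : ∑ k ∈ Ico 3 m, e (ll k * ξ) =
              ∑ k ∈ Ico 3 N, e (ll k * ξ) + ∑ k ∈ Ico N m, e (ll k * ξ) :=
            (sum_Ico_consecutive _ hN4 hN3.le).symm
          have h2 : ‖∑ k ∈ Ico N m, e (ll k * ξ)‖ ≤ C2 * (N * Real.log N / Z + (N : ℝ) ^ (1 - η1)) := by
            rw [hpos, sum_Ico_eq_sum_range]
            exact hT
          have h3 : C2 * (N * Real.log N / Z + (N : ℝ) ^ (1 - η1)) ≤
              C2 * (N * Real.log M / Z + (N : ℝ) ^ (1 - η2)) := by
            have h31 : Real.log N ≤ Real.log M := Real.log_le_log hN0 (by exact_mod_cast (by omega : N ≤ M))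
            have h32 : (N : ℝ) ^ (1 - η1) ≤ (N : ℝ) ^ (1 - η2) :=
              Real.rpow_le_rpow_of_exponent_le (by linarith) (by linarith)
            gcongr
          have h4 : (N : ℝ) ≤ 5 / 9 * m := by linarith
          have h5 : (N : ℝ) ^ (1 - η2) ≤ 3 / 4 * (m : ℝ) ^ (1 - η2) := by
            calc (N : ℝ) ^ (1 - η2) ≤ (5 / 9 * (m : ℝ)) ^ (1 - η2) :=
                  Real.rpow_le_rpow hN0.le h4 (by linarith)
              _ = (5 / 9 : ℝ) ^ (1 - η2) * (m : ℝ) ^ (1 - η2) :=
                  Real.mul_rpow (by norm_num) (by linarith)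
              _ ≤ 3 / 4 * (m : ℝ) ^ (1 - η2) := by
                  gcongr
                  calc (5 / 9 : ℝ) ^ (1 - η2) ≤ (5 / 9 : ℝ) ^ (1 / 2 : ℝ) :=
                        Real.rpow_le_rpow_of_exponent_ge (by norm_num) (by norm_num) (by linarith)
                    _ = √(5 / 9 : ℝ) := (Real.sqrt_eq_rpow _).symm
                    _ ≤ 3 / 4 := by
                        rw [Real.sqrt_le_left (by norm_num)]
                        norm_num
          have h6 : N * Real.log M / Z ≤ 3 / 4 * (m * Real.log M / Z) := by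
            have : N * Real.log M / Z ≤ (3 / 4 * m) * Real.log M / Z := by
              gcongr; linarith
            calc N * Real.log M / Z ≤ (3 / 4 * m) * Real.log M / Z := this
              _ = _ := by ring
          rw [hsplit]
          refine (norm_add_le _ _).trans ?_
          nlinarith [mul_le_mul_of_nonneg_left h5 hC2.le, mul_le_mul_of_nonneg_left h6 hC2.le]
    have hk := key M le_rfl
    refine hk.trans ?_
    have hMη : (M : ℝ) ^ (1 - η) = M * (M : ℝ) ^ (-η) := by
      rw [sub_eq_add_neg, Real.rpow_add hM0, Real.rpow_one]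
    have h7 : (M : ℝ) ^ (1 - η2) ≤ M * (M : ℝ) ^ (-η) := by
      rw [← hMη]
      exact Real.rpow_le_rpow_of_exponent_le (by linarith) (by linarith)
    have h8 : √(M : ℝ) ≤ M * (M : ℝ) ^ (-η) := by
      rw [← hMη, Real.sqrt_eq_rpow]
      exact Real.rpow_le_rpow_of_exponent_le (by linarith) (by linarith)
    have h9 : 0 ≤ M * Real.log M / Z := by positivity
    have h10 : (M : ℝ) * Real.log M / Z = M * (Real.log M / Z) := by ring
    have h11 : 0 ≤ (M : ℝ) * (M : ℝ) ^ (-η) := by positivity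
    calc √(M : ℝ) + 4 + 3 * C2 * (M * Real.log M / Z + (M : ℝ) ^ (1 - η2)) ≤
        2 * (M * (M : ℝ) ^ (-η)) + 3 * C2 * (M * Real.log M / Z + M * (M : ℝ) ^ (-η)) := by
          have : 3 * C2 * (M * Real.log M / Z + (M : ℝ) ^ (1 - η2)) ≤
            3 * C2 * (M * Real.log M / Z + M * (M : ℝ) ^ (-η)) := by gcongr
          linarith
      _ ≤ (3 * C2 + 16) * (M * Real.log M / Z + M * (M : ℝ) ^ (-η)) := by nlinarith
      _ = _ := by rw [h10]; ring

end Pool.Agent.H706R2.PS
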