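import Pool.Agent.H706R2.PS.Fin1
import Pool.Agent.H706R2.PS.T1
import Pool.Agent.H706R2.PS.T2
import Pool.Agent.H706R2.PS.T3
import Pool.Agent.H706R2.PS.T12
import Pool.Agent.H706R2.PS.T12b

open Finset MeasureTheory Filter Topology

namespace Pool.Agent.H706R2.PS

lemma t3_full : T3 := t3 (t2 t1)

/-- `π^α(x)`, the number of primes `p ≤ x` of the form `⌊k^α⌋`, in terms of `nPS` -/
lemma pi_eq (α : ℝ) {x : ℝ} (hx : 0 ≤ x) :
    (({p : ℕ | (p : ℝ) ≤ x ∧ p.Prime ∧ ∃ k : ℕ, 1 ≤ k ∧ ⌊(k : ℝ) ^ α⌋₊ = p} : Set ℕ).ncard : ℝ) =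
      nPS {p : ℕ | p.Prime} α 0 ⌊x⌋₊ := by
  rw [nPS_eq]
  congr 2
  ext p
  constructor
  · rintro ⟨h1, h2, h3⟩
    exact ⟨h2, h2.one_lt.le, (Nat.le_floor_iff hx).mpr h1, h3⟩
  · rintro ⟨h1, _, h3, h4⟩
    exact ⟨(Nat.le_floor_iff hx).mp h3, h1, h4⟩

/-- the asymptotic law for one exponent from the power saving estimate -/
lemma law_one {A : Set ℕ} {c κ C : ℝ} (hc1 : 1 < c) (hκ : 0 < κ)
    (hC : ∀ y : ℕ, 1 ≤ y → |nPS A c 0 y - mainT (Ax A 0 y) c| ≤ C * (y : ℝ) ^ (1 / c - κ))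
    (hA : Tendsto (fun n : ℕ => ((Ax A 0 n).card : ℝ) * Real.log n / n) atTop (nhds 1)) :
    Tendsto (fun n : ℕ => nPS A c 0 n * Real.log n / (n : ℝ) ^ (1 / c)) atTop (nhds 1) := by
  have h1 := t12 A c hc1 hA
  have h2 : Tendsto (fun n : ℕ => (nPS A c 0 n - mainT (Ax A 0 n) c) * Real.log n / (n : ℝ) ^ (1 / c))
      atTop (nhds 0) := by
    have h3 : Tendsto (fun n : ℕ => |C| * (Real.log n / (n : ℝ) ^ κ)) atTop (nhds 0) := by
      have := (isLittleO_log_rpow_atTop hκ).tendsto_div_nhds_zero.comp (tendsto_natCast_atTop_atTop (R := ℝ))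
      simpa using this.const_mul |C|
    refine squeeze_zero_norm' ?_ h3
    filter_upwards [eventually_ge_atTop 2] with n hn
    have hn1 : (1 : ℝ) ≤ n := by exact_mod_cast (by omega : 1 ≤ n)
    have hn0 : (0 : ℝ) < n := by linarith
    have hl : 0 ≤ Real.log n := Real.log_nonneg hn1
    rw [Real.norm_eq_abs, abs_div, abs_mul, abs_of_nonneg hl, abs_of_pos (Real.rpow_pos_of_pos hn0 _)]
    have h4 := hC n (by omega)
    have h5 : C * (n : ℝ) ^ (1 / c - κ) ≤ |C| * ((n : ℝ) ^ (1 / c) / (n : ℝ) ^ κ) := by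
      rw [Real.rpow_sub hn0]
      have : 0 ≤ (n : ℝ) ^ (1 / c) / (n : ℝ) ^ κ := by positivity
      nlinarith [le_abs_self C]
    have hp : 0 < (n : ℝ) ^ (1 / c) := Real.rpow_pos_of_pos hn0 _
    rw [div_le_iff₀ hp]
    calc |nPS A c 0 n - mainT (Ax A 0 n) c| * Real.log n ≤
        (|C| * ((n : ℝ) ^ (1 / c) / (n : ℝ) ^ κ)) * Real.log n := by
          gcongr
          exact h4.trans h5
      _ = _ := by ring
  have h3 := h2.add h1
  rw [zero_add] at h3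
  refine h3.congr fun n => ?_
  ring

/-- Piatetski-Shapiro primes: both forms of the law from the power saving estimate -/
lemma primes_one {c κ C : ℝ} (hc1 : 1 < c) (hκ : 0 < κ)
    (hC : ∀ y : ℕ, 1 ≤ y → |nPS {p : ℕ | p.Prime} c 0 y - mainT (Ax {p : ℕ | p.Prime} 0 y) c| ≤
      C * (y : ℝ) ^ (1 / c - κ)) :
    Asymptotics.IsEquivalent Filter.atTop
      (fun x : ℝ => (({p : ℕ | (p : ℝ) ≤ x ∧ p.Prime ∧ ∃ k : ℕ, 1 ≤ k ∧ ⌊(k : ℝ) ^ c⌋₊ = p} : Set ℕ).ncard : ℝ))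
      (fun x : ℝ => x ^ (1 / c) / Real.log x) := by
  have h1 := real_law hc1 (law_one hc1 hκ hC t12b.1)
  refine h1.congr_left ?_
  filter_upwards [eventually_ge_atTop 0] with x hx
  rw [pi_eq c hx]

lemma mainT_primes (y : ℕ) (c : ℝ) : mainT (Ax {p : ℕ | p.Prime} 0 y) c =
    ∑ p ∈ (Finset.Icc 1 y).filter Nat.Prime, (1 / c) * (p : ℝ) ^ (1 / c - 1) := by
  classical
  unfold mainT Ax
  apply Finset.sum_congr _ (fun _ _ => rfl)
  ext p
  simp only [mem_filter, mem_Ioc, mem_Icc]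
  constructor
  · rintro ⟨⟨h1, h2⟩, h3⟩; exact ⟨⟨h1, h2⟩, h3⟩
  · rintro ⟨⟨h1, h2⟩, h3⟩; exact ⟨⟨h1, h2⟩, h3⟩

end Pool.Agent.H706R2.PS
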