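import Pool.Agent.H706R2.PS.WDefs

/-! Task W10a: all pieces, explicit parameters, windows (helper677, adapted from T10a). -/

open Finset MeasureTheory Filter

namespace Pool.Agent.H706R2.PS

open Pool.Agent.H469R2.NK (e)
open Pool.Agent.H438R2.DL (Fw AD)

namespace W10aAux

/-- index of the piece containing `p` -/
noncomputable def jf (X J : ℕ) (p : ℕ) : ℕ := ⌈((p : ℝ) - X) * J / X⌉₊ - 1

/-- pieces of an arbitrary set -/
noncomputable def Pk (P : Finset ℕ) (X J j : ℕ) : Finset ℕ := P.filter (fun p => jf X J p = j)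

lemma jf_spec {X J p : ℕ} (hX : 0 < X) (hJ : 0 < J) (hp : p ∈ Ioc X (2 * X)) :
    jf X J p < J ∧ (X : ℝ) + (jf X J p) * (X / J) < p ∧ (p : ℝ) ≤ X + ((jf X J p : ℝ) + 1) * (X / J) := by
  have hX' : (0 : ℝ) < X := by exact_mod_cast hX
  have hJ' : (0 : ℝ) < J := by exact_mod_cast hJ
  rw [mem_Ioc] at hp
  obtain ⟨hp1, hp2⟩ := hp
  have hp1' : (X : ℝ) < p := by exact_mod_cast hp1
  have hp2' : (p : ℝ) ≤ 2 * X := by exact_mod_cast hp2
  set t : ℝ := ((p : ℝ) - X) * J / X with ht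
  have ht0 : 0 < t := by
    rw [ht]; apply div_pos (mul_pos (by linarith) hJ') hX'
  have htJ : t ≤ J := by
    rw [ht, div_le_iff₀ hX']; nlinarith
  have hc1 : 0 < ⌈t⌉₊ := Nat.ceil_pos.mpr ht0
  have hc2 : ⌈t⌉₊ ≤ J := Nat.ceil_le.mpr htJ
  have hj : jf X J p = ⌈t⌉₊ - 1 := rfl
  have hcast : ((⌈t⌉₊ - 1 : ℕ) : ℝ) = (⌈t⌉₊ : ℝ) - 1 := by
    rw [Nat.cast_sub hc1]; simp
  have h1 := Nat.ceil_lt_add_one ht0.le
  have h2 := Nat.le_ceil t
  have ep : (p : ℝ) = X + t * (X / J) := by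
    rw [ht]; field_simp; ring
  refine ⟨by omega, ?_, ?_⟩
  · rw [hj, hcast, ep]
    have : ((⌈t⌉₊ : ℝ) - 1) * (X / J) < t * (X / J) := by
      gcongr; linarith
    linarith
  · rw [hj, hcast, ep]
    have : t * (X / J) ≤ (((⌈t⌉₊ : ℝ) - 1) + 1) * (X / J) := by
      gcongr; linarith
    linarith

lemma cntw_split {P : Finset ℕ} {X J : ℕ} (hX : 0 < X) (hJ : 0 < J) (hP : P ⊆ Ioc X (2 * X))
    (K : Finset ℕ) (a w c : ℝ) :
    cntw P K a w c = ∑ j ∈ range J, cntw (Pk P X J j) K a w c := by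
  unfold cntw
  rw [sum_comm]
  refine sum_congr rfl fun k _ => ?_
  rw [card_eq_sum_card_fiberwise (f := jf X J) (t := range J) (fun p hp => by
    rw [mem_coe, mem_filter] at hp
    exact mem_coe.mpr (mem_range.mpr (jf_spec hX hJ (hP hp.1)).1))]
  push_cast
  refine sum_congr rfl fun j _ => ?_
  congr 2
  unfold Pk
  rw [filter_filter, filter_filter]
  apply filter_congr
  intro p _
  tauto

lemma mainw_split {P : Finset ℕ} {X J : ℕ} (hX : 0 < X) (hJ : 0 < J) (hP : P ⊆ Ioc X (2 * X))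
    (a c : ℝ) :
    mainw P a c = ∑ j ∈ range J, mainw (Pk P X J j) a c := by
  unfold mainw Pk
  rw [Finset.sum_fiberwise_of_maps_to (fun p hp => mem_range.mpr (jf_spec hX hJ (hP hp)).1)]

lemma cntw_measurable (P K : Finset ℕ) (a w : ℝ) : Measurable (cntw P K a w) := by
  unfold cntw
  refine Finset.measurable_sum _ fun k _ => ?_
  simp only [card_filter]
  push_cast
  refine Finset.measurable_sum _ fun p _ => ?_
  refine Measurable.ite ?_ measurable_const measurable_const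
  have h0 : Measurable (fun c : ℝ => (k : ℝ) ^ c) := measurable_const.pow measurable_id
  have h1 : MeasurableSet {c : ℝ | (p : ℝ) + a ≤ (k : ℝ) ^ c} :=
    measurableSet_le measurable_const h0
  have h2 : MeasurableSet {c : ℝ | (k : ℝ) ^ c < (p : ℝ) + a + w} :=
    measurableSet_lt h0 measurable_const
  exact h1.inter h2

lemma mainw_measurable (P : Finset ℕ) (a : ℝ) : Measurable (mainw P a) := by
  unfold mainw
  refine Finset.measurable_sum _ fun m _ => ?_
  have h1 : Measurable (fun c : ℝ => 1 / c) := by fun_prop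
  exact h1.mul (measurable_const.pow (h1.sub_const 1))

lemma card_P_le {P : Finset ℕ} {X : ℕ} (hP : P ⊆ Ioc X (2 * X)) : (P.card : ℝ) ≤ X := by
  have : P.card ≤ X := by
    refine (card_le_card hP).trans ?_
    rw [Nat.card_Ioc]; omega
  exact_mod_cast this

lemma mainw_le {P : Finset ℕ} {X : ℕ} (hX : 1 ≤ X) (hP : P ⊆ Ioc X (2 * X)) {a c c1 : ℝ}
    (ha : |a| ≤ 1) (hc1 : 1 ≤ c1) (hc : c1 ≤ c) : mainw P a c ≤ (2 * X : ℝ) ^ (1 / c1) := by
  have hX' : (1 : ℝ) ≤ X := by exact_mod_cast hX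
  have hX0 : (0 : ℝ) < X := by linarith
  have hc0 : (1 : ℝ) ≤ c := hc1.trans hc
  have h1c : 1 / c ≤ 1 := by rw [div_le_one (by linarith)]; exact hc0
  have h0c : 0 ≤ 1 / c := by positivity
  have ha1 : -1 ≤ a := (abs_le.mp ha).1
  have h1 : ∀ m ∈ P, (1 / c) * ((m : ℝ) + a) ^ (1 / c - 1) ≤ (X : ℝ) ^ (1 / c - 1) := by
    intro m hm
    have hm' := mem_Ioc.mp (hP hm)
    have hmX : (X : ℝ) + 1 ≤ m := by exact_mod_cast hm'.1
    have h2 : ((m : ℝ) + a) ^ (1 / c - 1) ≤ (X : ℝ) ^ (1 / c - 1) :=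
      Real.rpow_le_rpow_of_nonpos hX0 (by linarith) (by linarith)
    have h3 : 0 ≤ ((m : ℝ) + a) ^ (1 / c - 1) := Real.rpow_nonneg (by linarith) _
    calc (1 / c) * ((m : ℝ) + a) ^ (1 / c - 1) ≤ 1 * ((m : ℝ) + a) ^ (1 / c - 1) := by gcongr
      _ ≤ _ := by rw [one_mul]; exact h2
  calc mainw P a c ≤ ∑ _m ∈ P, (X : ℝ) ^ (1 / c - 1) := sum_le_sum h1
    _ = P.card * (X : ℝ) ^ (1 / c - 1) := by rw [sum_const, nsmul_eq_mul]
    _ ≤ X * (X : ℝ) ^ (1 / c - 1) := by
        have := card_P_le hP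
        gcongr
    _ = (X : ℝ) ^ (1 / c) := by
        rw [Real.rpow_sub hX0, Real.rpow_one]
        field_simp
    _ ≤ (X : ℝ) ^ (1 / c1) := by
        apply Real.rpow_le_rpow_of_exponent_le hX'
        apply one_div_le_one_div_of_le (by linarith) hc
    _ ≤ (2 * X : ℝ) ^ (1 / c1) := by
        apply Real.rpow_le_rpow hX0.le (by linarith) (by positivity)

lemma mainw_nonneg {P : Finset ℕ} {X : ℕ} (hX : 1 ≤ X) (hP : P ⊆ Ioc X (2 * X)) {a c : ℝ}
    (ha : |a| ≤ 1) (hc : 1 ≤ c) : 0 ≤ mainw P a c := by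
  unfold mainw
  refine sum_nonneg fun m hm => ?_
  have hm' := mem_Ioc.mp (hP hm)
  have hmX : (X : ℝ) + 1 ≤ m := by exact_mod_cast hm'.1
  have hX' : (1 : ℝ) ≤ X := by exact_mod_cast hX
  have ha1 : -1 ≤ a := (abs_le.mp ha).1
  have h3 : 0 ≤ ((m : ℝ) + a) ^ (1 / c - 1) := Real.rpow_nonneg (by linarith) _
  have h0c : 0 ≤ 1 / c := by positivity
  exact mul_nonneg h0c h3

lemma log_facts {X : ℕ} (hX : 32 ≤ X) : 1 ≤ Real.log X ∧ Real.log (2 * X) ≤ 2 * Real.log X ∧
    0 < Real.log (2 * X) ∧ Real.log (2 * X + 1) ≤ 2 * Real.log X ∧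
    Real.log (2 * X + 3) ≤ 2 * Real.log (2 * X) ∧ 0 < Real.log (2 * X + 1) ∧
    X * Real.log X ≤ 2 * ((X - 1) * Real.log (X - 1)) := by
  have hX' : (32 : ℝ) ≤ X := by exact_mod_cast hX
  have h1 : 1 ≤ Real.log X := by
    rw [Real.le_log_iff_exp_le (by linarith)]
    have := Real.exp_one_lt_d9
    linarith
  refine ⟨h1, ?_, ?_, ?_, ?_, ?_, ?_⟩
  · have : Real.log (2 * X) ≤ Real.log ((X : ℝ) ^ 2) := by
      apply Real.log_le_log (by linarith)
      nlinarith
    rw [Real.log_pow] at this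
    exact_mod_cast this
  · apply Real.log_pos; linarith
  · have : Real.log (2 * X + 1) ≤ Real.log ((X : ℝ) ^ 2) := by
      apply Real.log_le_log (by linarith)
      nlinarith
    rw [Real.log_pow] at this
    exact_mod_cast this
  · have : Real.log (2 * X + 3) ≤ Real.log ((2 * (X : ℝ)) ^ 2) := by
      apply Real.log_le_log (by linarith)
      nlinarith
    rw [Real.log_pow] at this
    exact_mod_cast this
  · apply Real.log_pos; linarith
  · have h4 : 3 * Real.log X ≤ 4 * Real.log (X - 1) := by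
      have : Real.log ((X : ℝ) ^ 3) ≤ Real.log (((X : ℝ) - 1) ^ 4) := by
        apply Real.log_le_log (by positivity)
        have h5 : ((X : ℝ) - 1) ^ 2 ≥ X * (X - 2) := by nlinarith
        have h6 : 0 ≤ (X : ℝ) * (X - 2) := by nlinarith
        have h7 : (X : ℝ) ≤ (X - 2) ^ 2 := by nlinarith
        calc (X : ℝ) ^ 3 = (X : ℝ) ^ 2 * (X : ℝ) := by ring
          _ ≤ (X : ℝ) ^ 2 * ((X : ℝ) - 2) ^ 2 := by gcongr
          _ = ((X : ℝ) * ((X : ℝ) - 2)) ^ 2 := by ring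
          _ ≤ (((X : ℝ) - 1) ^ 2) ^ 2 := by gcongr
          _ = _ := by ring
      rw [Real.log_pow, Real.log_pow] at this
      exact_mod_cast this
    have h8 : (0 : ℝ) ≤ X - 1 := by linarith
    have h9 : (X - 1) * (3 * Real.log X) ≤ (X - 1) * (4 * Real.log (X - 1)) := by gcongr
    nlinarith

lemma s_facts {X : ℕ} (hX : 32 ≤ X) {N w : ℝ} (h1 : (X : ℝ) - 1 ≤ N) (h2 : N ≤ 2 * X + 3)
    (hw1 : 1 / 2 ≤ w) (hw2 : w ≤ 2) :
    0 < w * (1 / (N * Real.log N)) ∧ w * (1 / (N * Real.log N)) ≤ 4 / (X * Real.log X) ∧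
    1 / (w * (1 / (N * Real.log N))) ≤ 16 * X * Real.log (2 * X) ∧
    w * (1 / (N * Real.log N)) * (X * Real.log (2 * X)) ≤ 8 := by
  have hX' : (32 : ℝ) ≤ X := by exact_mod_cast hX
  obtain ⟨hl1, hl2, hl3, hl4, hl5, hl6, hl7⟩ := log_facts hX
  have hw0 : 0 < w := by linarith
  have hlX1 : 0 < Real.log ((X : ℝ) - 1) := Real.log_pos (by linarith)
  have hlN : Real.log ((X : ℝ) - 1) ≤ Real.log N := Real.log_le_log (by linarith) h1
  have hlN2 : Real.log N ≤ 2 * Real.log (2 * X) :=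
    (Real.log_le_log (by linarith) h2).trans hl5
  have hN0 : 0 < N * Real.log N := mul_pos (by linarith) (by linarith)
  have hXN : ((X : ℝ) - 1) * Real.log ((X : ℝ) - 1) ≤ N * Real.log N := by
    apply mul_le_mul h1 hlN (by linarith) (by linarith)
  have hX0 : (0 : ℝ) < X * Real.log X := mul_pos (by linarith) (by linarith)
  have h3 : 1 / (N * Real.log N) ≤ 2 / (X * Real.log X) := by
    rw [div_le_div_iff₀ hN0 hX0]
    linarith
  have h4 : w * (1 / (N * Real.log N)) ≤ 4 / (X * Real.log X) := by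
    have h0 : 0 ≤ 1 / (N * Real.log N) := by positivity
    calc w * (1 / (N * Real.log N)) ≤ 2 * (2 / (X * Real.log X)) := by gcongr
      _ = 4 / (X * Real.log X) := by ring
  refine ⟨by positivity, h4, ?_, ?_⟩
  · have e : 1 / (w * (1 / (N * Real.log N))) = (1 / w) * (N * Real.log N) := by
      field_simp
    rw [e]
    have h5 : N ≤ 4 * X := by linarith
    have h6 : 1 / w ≤ 2 := by
      rw [div_le_iff₀ hw0]; linarith
    calc (1 / w) * (N * Real.log N) ≤ 2 * ((4 * X) * (2 * Real.log (2 * X))) := by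
          have : N * Real.log N ≤ (4 * X) * (2 * Real.log (2 * X)) :=
            mul_le_mul h5 hlN2 (by linarith) (by linarith)
          gcongr
      _ = _ := by ring
  · calc w * (1 / (N * Real.log N)) * (X * Real.log (2 * X)) ≤
        4 / (X * Real.log X) * (X * (2 * Real.log X)) := by
          apply mul_le_mul h4 _ (by positivity) (by positivity)
          gcongr
      _ = 8 := by
          field_simp
          norm_num

lemma ad_bound (h9 : W9) {X M : ℕ} {P : Finset ℕ} {c1 c2 ω Ξ0 Ξ1 η a s : ℝ} (hX : 32 ≤ X) (hM : 4 ≤ M)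
    (hP : P ⊆ Ioc X (2 * X)) (ha : |a| ≤ 1) (hc1 : 1 ≤ c1) (_hc12 : c1 ≤ c2) (hc2 : c2 ≤ 2 * c1) (hω : 0 < ω)
    (hΞ0 : 0 ≤ Ξ0) (hΞω : 2 * Real.pi * ω * Ξ0 ≤ 1 / 2) (hΞ1 : 0 < Ξ1) (hη : 0 < η)
    (hexp : ∀ ξ : ℝ, Ξ0 ≤ |ξ| → |ξ| ≤ Ξ1 → ‖∑ k ∈ Ico 3 M, e (ll k * ξ)‖ ≤ η * M)
    (hs0 : 0 < s) (hsω : s ≤ ω) (hs1 : 1 / s ≤ 16 * X * Real.log (2 * X))
    (hs2 : s * (X * Real.log (2 * X)) ≤ 8) :
    IntegrableOn (fun c => |ADw P M a s ω c|) (Set.Icc c1 c2) ∧
    s * ∫ c in Set.Icc c1 c2, |ADw P M a s ω c| ≤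
      2 * c1 * M * (1000 * Real.pi * ω * Ξ0 + 1000 * η + 3 * X / √Ξ1) := by
  obtain ⟨hi, hb⟩ := h9 X M P a s ω Ξ0 Ξ1 η c1 (by omega) hM hP ha hs0 hsω hΞ0 hΞω hΞ1 hη hs1 hexp
    (by linarith)
  have hsub : Set.Icc c1 c2 ⊆ Set.Icc c1 (2 * c1) := Set.Icc_subset_Icc le_rfl hc2
  refine ⟨hi.mono_set hsub, ?_⟩
  have h1 : ∫ c in Set.Icc c1 c2, |ADw P M a s ω c| ≤ ∫ c in Set.Icc c1 (2 * c1), |ADw P M a s ω c| :=
    setIntegral_mono_set hi (Filter.Eventually.of_forall fun _ => abs_nonneg _)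
      (Filter.Eventually.of_forall hsub)
  have hπ := Real.pi_pos
  have hΞs : 0 < √Ξ1 := Real.sqrt_pos.mpr hΞ1
  calc s * ∫ c in Set.Icc c1 c2, |ADw P M a s ω c|
      ≤ s * (2 * c1 * (M * ((96 * Real.pi * ω * Ξ0 + 64 * η) * (X * Real.log (2 * X)) +
          3 * X / (s * √Ξ1)))) := by
        gcongr
        exact h1.trans hb
    _ = 2 * c1 * M * ((96 * Real.pi * ω * Ξ0 + 64 * η) * (s * (X * Real.log (2 * X))) +
          3 * X / √Ξ1) := by
        field_simp
    _ ≤ 2 * c1 * M * ((96 * Real.pi * ω * Ξ0 + 64 * η) * 8 + 3 * X / √Ξ1) := by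
        gcongr
    _ ≤ _ := by
        have h5 : (96 * Real.pi * ω * Ξ0 + 64 * η) * 8 ≤ 1000 * Real.pi * ω * Ξ0 + 1000 * η := by
          have : 0 ≤ Real.pi * ω * Ξ0 := by positivity
          nlinarith
        gcongr

end W10aAux

open W10aAux

theorem w10a (h7 : W7) (h8 : W8) (h9 : W9) : W10a := by
  intro X M J P c1 c2 ω Ξ0 Ξ1 η a w hX hM hJ hJX hP ha hw1 hw2 hc1 hc12 hc2 hω hω1 hωX h3 h2M hΞ0 hΞω
    hΞ1 hη hexp
  have hX' : (32 : ℝ) ≤ X := by exact_mod_cast hX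
  have hX0 : (0 : ℝ) < X := by linarith
  have hJ' : (1 : ℝ) ≤ J := by exact_mod_cast hJ
  have hJ0 : (0 : ℝ) < J := by linarith
  have hw0 : 0 < w := by linarith
  obtain ⟨hl1, hl2, hl3, hl4, hl5, hl6, hl7⟩ := log_facts hX
  have hq : (0 : ℝ) ≤ X / J := by positivity
  set N1 : ℕ → ℝ := fun j => X + j * (X / J) with hN1
  set N2 : ℕ → ℝ := fun j => N1 j + X / J with hN2
  have hN1X : ∀ j, (X : ℝ) ≤ N1 j := fun j => by
    simp only [hN1]
    have : (0 : ℝ) ≤ j * (X / J) := by positivity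
    linarith
  have hN2X : ∀ j, j < J → N2 j ≤ 2 * X := fun j hj => by
    simp only [hN2, hN1]
    have hj' : (j : ℝ) + 1 ≤ J := by exact_mod_cast hj
    have : ((j : ℝ) + 1) * (X / J) ≤ J * (X / J) := by gcongr
    have e : (J : ℝ) * (X / J) = X := by field_simp
    linarith
  have hpiece : ∀ j, ∀ m ∈ Pk P X J j, N1 j < (m : ℝ) ∧ (m : ℝ) ≤ N2 j := fun j m hm => by
    obtain ⟨hmP, hmj⟩ := mem_filter.mp hm
    obtain ⟨_, ha, hb⟩ := jf_spec (X := X) (J := J) (by omega) (by omega) (hP hmP)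
    rw [hmj] at ha hb
    refine ⟨ha, hb.trans (le_of_eq ?_)⟩
    simp only [hN2, hN1]; ring
  have hPk : ∀ j, Pk P X J j ⊆ Ioc X (2 * X) := fun j => (filter_subset _ _).trans hP
  have hsu : ∀ j, j < J → 0 < w * suw (N1 j) ∧ w * suw (N1 j) ≤ 4 / (X * Real.log X) ∧
      1 / (w * suw (N1 j)) ≤ 16 * X * Real.log (2 * X) ∧
      w * suw (N1 j) * (X * Real.log (2 * X)) ≤ 8 := by
    intro j hj
    have h4 : N1 j - 1 ≤ 2 * X + 3 := by
      have := hN2X j hj
      simp only [hN2] at this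
      linarith
    have h5 : (X : ℝ) - 1 ≤ N1 j - 1 := by linarith [hN1X j]
    exact s_facts hX h5 h4 hw1 hw2
  have hsl : ∀ j, j < J → 0 < w * slw (N2 j) ∧ w * slw (N2 j) ≤ 4 / (X * Real.log X) ∧
      1 / (w * slw (N2 j)) ≤ 16 * X * Real.log (2 * X) ∧
      w * slw (N2 j) * (X * Real.log (2 * X)) ≤ 8 := by
    intro j hj
    have h4 : N2 j + 3 ≤ 2 * X + 3 := by linarith [hN2X j hj]
    have h5 : (X : ℝ) - 1 ≤ N2 j + 3 := by
      have := hN1X j
      simp only [hN2]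
      linarith
    exact s_facts hX h5 h4 hw1 hw2
  have hAl : ∀ j, j < J →
      IntegrableOn (fun c => |ADw (Pk P X J j) M a (w * slw (N2 j)) ω c|) (Set.Icc c1 c2) ∧
      w * slw (N2 j) * ∫ c in Set.Icc c1 c2, |ADw (Pk P X J j) M a (w * slw (N2 j)) ω c| ≤
        2 * c1 * M * (1000 * Real.pi * ω * Ξ0 + 1000 * η + 3 * X / √Ξ1) := by
    intro j hj
    obtain ⟨a1, a2, a3, a4⟩ := hsl j hj
    exact ad_bound h9 hX hM (hPk j) ha hc1 hc12 hc2 hω hΞ0 hΞω hΞ1 hη hexp a1 (a2.trans hωX) a3 a4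
  have hAu : ∀ j, j < J →
      IntegrableOn (fun c => |ADw (Pk P X J j) M a (w * suw (N1 j)) ω c|) (Set.Icc c1 c2) ∧
      w * suw (N1 j) * ∫ c in Set.Icc c1 c2, |ADw (Pk P X J j) M a (w * suw (N1 j)) ω c| ≤
        2 * c1 * M * (1000 * Real.pi * ω * Ξ0 + 1000 * η + 3 * X / √Ξ1) := by
    intro j hj
    obtain ⟨a1, a2, a3, a4⟩ := hsu j hj
    exact ad_bound h9 hX hM (hPk j) ha hc1 hc12 hc2 hω hΞ0 hΞω hΞ1 hη hexp a1 (a2.trans hωX) a3 a4
  -- the constant
  set Cst : ℝ := 64 / J * (2 * X : ℝ) ^ (1 / c1) +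
      J * (16 * Real.log (2 * X + 1) * ω * (2 * X + 1 : ℝ) ^ (1 / c1) + 4 / ω) with hCst
  set g : ℝ → ℝ := fun c => (∑ j ∈ range J, (w * slw (N2 j) * |ADw (Pk P X J j) M a (w * slw (N2 j)) ω c| +
      w * suw (N1 j) * |ADw (Pk P X J j) M a (w * suw (N1 j)) ω c|)) + Cst with hg
  have hpt : ∀ c ∈ Set.Icc c1 c2, |cntw P (Ico 3 M) a w c - w * mainw P a c| ≤ g c := by
    intro c hc
    have hc0 : 1 ≤ c := hc1.trans hc.1
    have e1 : cntw P (Ico 3 M) a w c - w * mainw P a c =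
        ∑ j ∈ range J, (cntw (Pk P X J j) (Ico 3 M) a w c - w * mainw (Pk P X J j) a c) := by
      rw [cntw_split (X := X) (J := J) (by omega) (by omega) hP, mainw_split (X := X) (J := J) (by omega) (by omega) hP,
        sum_sub_distrib, mul_sum]
    rw [e1]
    refine (abs_sum_le_sum_abs _ _).trans ?_
    have hpow3 : 3 ≤ ((X : ℝ) - 1) ^ (Real.exp (-ω) / c) := by
      refine h3.trans ?_
      apply Real.rpow_le_rpow_of_exponent_le (by linarith)
      apply div_le_div_of_nonneg_left (Real.exp_pos _).le (by linarith) hc.2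
    have hpowc : (2 * X + 1 : ℝ) ^ (1 / c) ≤ (2 * X + 1 : ℝ) ^ (1 / c1) := by
      apply Real.rpow_le_rpow_of_exponent_le (by linarith)
      apply one_div_le_one_div_of_le (by linarith) hc.1
    have h1 : ∀ j ∈ range J, |cntw (Pk P X J j) (Ico 3 M) a w c - w * mainw (Pk P X J j) a c| ≤
        (w * slw (N2 j) * |ADw (Pk P X J j) M a (w * slw (N2 j)) ω c| +
          w * suw (N1 j) * |ADw (Pk P X J j) M a (w * suw (N1 j)) ω c|) +
        (64 / J * mainw (Pk P X J j) a c +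
          (16 * Real.log (2 * X + 1) * ω * (2 * X + 1 : ℝ) ^ (1 / c1) + 4 / ω)) := by
      intro j hj
      have hj' := mem_range.mp hj
      have h7' := h7 X M (Pk P X J j) c ω (N1 j) (N2 j) (32 / J) a w (by omega) (hN1X j)
        (by simp only [hN2]; linarith) (hN2X j hj') (hpiece j) ha hw0 hw2 hc0 hω hω1 hpow3
        (hpowc.trans h2M) (fun m hm => h8 X J m (N1 j) (N2 j) a (by omega) hJ hJX (hN1X j) (hN2X j hj')
          rfl (hpiece j m hm).1 (hpiece j m hm).2 ha)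
      refine h7'.trans ?_
      obtain ⟨a1, a2, a3, a4⟩ := hsu j hj'
      have hcard : ((Pk P X J j).card : ℝ) ≤ X := card_P_le (hPk j)
      have h5 : w * suw (N1 j) * ((Pk P X J j).card * ((2 * X + 1 : ℝ) ^ (1 / c) * Real.log (2 * X + 1) ^ 2 * ω + 1 / ω)) ≤
          16 * Real.log (2 * X + 1) * ω * (2 * X + 1 : ℝ) ^ (1 / c1) + 4 / ω := by
        calc w * suw (N1 j) * ((Pk P X J j).card * ((2 * X + 1 : ℝ) ^ (1 / c) * Real.log (2 * X + 1) ^ 2 * ω + 1 / ω))
            ≤ 4 / (X * Real.log X) * (X * ((2 * X + 1 : ℝ) ^ (1 / c1) * Real.log (2 * X + 1) ^ 2 * ω + 1 / ω)) := by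
              gcongr
          _ = (4 / Real.log X) * ((2 * X + 1 : ℝ) ^ (1 / c1) * Real.log (2 * X + 1) ^ 2 * ω + 1 / ω) := by
              have : Real.log X ≠ 0 := by linarith
              field_simp
          _ = 4 * (Real.log (2 * X + 1) / Real.log X) * ((2 * X + 1 : ℝ) ^ (1 / c1) * Real.log (2 * X + 1) * ω) +
              4 * (1 / Real.log X) * (1 / ω) := by ring
          _ ≤ 4 * 4 * ((2 * X + 1 : ℝ) ^ (1 / c1) * Real.log (2 * X + 1) * ω) + 4 * 1 * (1 / ω) := by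
              have b1 : Real.log (2 * X + 1) / Real.log X ≤ 4 := by
                rw [div_le_iff₀ (by linarith)]; linarith
              have b2 : 1 / Real.log X ≤ 1 := by
                rw [div_le_one (by linarith)]; exact hl1
              gcongr
          _ = _ := by ring
      have h6 : 32 / J * (w * mainw (Pk P X J j) a c) ≤ 64 / J * mainw (Pk P X J j) a c := by
        have hm0 : 0 ≤ mainw (Pk P X J j) a c := mainw_nonneg (X := X) (by omega) (hPk j) ha hc0
        calc 32 / J * (w * mainw (Pk P X J j) a c) ≤ 32 / J * (2 * mainw (Pk P X J j) a c) := by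
              gcongr
          _ = _ := by ring
      linarith
    refine (sum_le_sum h1).trans ?_
    rw [sum_add_distrib, hg]
    simp only
    gcongr
    rw [sum_add_distrib, ← mul_sum, ← mainw_split (X := X) (J := J) (by omega) (by omega) hP, sum_const, card_range,
      nsmul_eq_mul, hCst]
    have := mainw_le (X := X) (by omega) hP ha hc1 hc.1
    gcongr
  have hgi : IntegrableOn g (Set.Icc c1 c2) := by
    refine Integrable.add ?_ (by
      show IntegrableOn (fun _ => Cst) (Set.Icc c1 c2)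
      exact integrableOn_const (by simp))
    refine integrable_finsetSum _ fun j hj => ?_
    have hj' := mem_range.mp hj
    exact ((hAl j hj').1.const_mul _).add ((hAu j hj').1.const_mul _)
  have hfm : Measurable (fun c => |cntw P (Ico 3 M) a w c - w * mainw P a c|) :=
    measurable_abs.comp ((cntw_measurable _ _ _ _).sub ((mainw_measurable _ _).const_mul _))
  have hfi : IntegrableOn (fun c => |cntw P (Ico 3 M) a w c - w * mainw P a c|) (Set.Icc c1 c2) := by
    refine Integrable.mono' hgi hfm.aestronglyMeasurable ?_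
    rw [ae_restrict_iff' measurableSet_Icc]
    refine Filter.Eventually.of_forall fun c hc => ?_
    rw [Real.norm_eq_abs, abs_abs]
    exact hpt c hc
  refine ⟨hfi, ?_⟩
  have h10 : ∫ c in Set.Icc c1 c2, |cntw P (Ico 3 M) a w c - w * mainw P a c| ≤ ∫ c in Set.Icc c1 c2, g c :=
    setIntegral_mono_on hfi hgi measurableSet_Icc hpt
  refine h10.trans ?_
  have e2 : ∫ c in Set.Icc c1 c2, g c =
      (∑ j ∈ range J, (w * slw (N2 j) * (∫ c in Set.Icc c1 c2, |ADw (Pk P X J j) M a (w * slw (N2 j)) ω c|) +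
        w * suw (N1 j) * ∫ c in Set.Icc c1 c2, |ADw (Pk P X J j) M a (w * suw (N1 j)) ω c|)) + (c2 - c1) * Cst := by
    rw [hg]
    simp only
    rw [integral_add]
    · congr 1
      · rw [integral_finsetSum]
        · refine sum_congr rfl fun j hj => ?_
          have hj' := mem_range.mp hj
          rw [integral_add ((hAl j hj').1.const_mul _) ((hAu j hj').1.const_mul _),
            integral_const_mul, integral_const_mul]
        · intro j hj
          have hj' := mem_range.mp hj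
          exact ((hAl j hj').1.const_mul _).add ((hAu j hj').1.const_mul _)
      · rw [setIntegral_const]
        simp [hc12]
    · refine integrable_finsetSum _ fun j hj => ?_
      have hj' := mem_range.mp hj
      exact ((hAl j hj').1.const_mul _).add ((hAu j hj').1.const_mul _)
    · show IntegrableOn (fun _ => Cst) (Set.Icc c1 c2)
      exact integrableOn_const (by simp)
  rw [e2]
  have h11 : ∑ j ∈ range J, (w * slw (N2 j) * (∫ c in Set.Icc c1 c2, |ADw (Pk P X J j) M a (w * slw (N2 j)) ω c|) +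
        w * suw (N1 j) * ∫ c in Set.Icc c1 c2, |ADw (Pk P X J j) M a (w * suw (N1 j)) ω c|) ≤
      4 * c1 * J * M * (1000 * Real.pi * ω * Ξ0 + 1000 * η + 3 * X / √Ξ1) := by
    calc _ ≤ ∑ _j ∈ range J, 4 * c1 * M * (1000 * Real.pi * ω * Ξ0 + 1000 * η + 3 * X / √Ξ1) := by
          refine sum_le_sum fun j hj => ?_
          have hj' := mem_range.mp hj
          have := (hAl j hj').2
          have := (hAu j hj').2
          linarith
      _ = _ := by rw [sum_const, card_range, nsmul_eq_mul]; ring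
  gcongr

end Pool.Agent.H706R2.PS
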