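import Pool.Agent.H706R2.PS.Defs

/-! T10b: choice of the parameters, the `L¹` theorem. -/

open Finset MeasureTheory Filter

namespace Pool.Agent.H706R2.PS

open Pool.Agent.H469R2.NK (e)
open Pool.Agent.H438R2.DL (Fw AD)

theorem t10b_ev (a B : ℝ) (ha : 0 < a) : ∀ᶠ X : ℕ in atTop, B ≤ (X : ℝ) ^ a :=
  ((tendsto_rpow_atTop ha).comp tendsto_natCast_atTop_atTop).eventually_ge_atTop B

theorem t10b_num {C0 C θ x c1 c2 J M l : ℝ} {E : ℝ} (hC0 : 1 ≤ C0) (hC : 0 < C) (hθ0 : 0 < θ)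
    (hθ2 : θ ≤ 1 / (16 * C0)) (hx : 16 ≤ x) (hc1 : 1 ≤ c1) (hc12 : c1 ≤ c2) (hc2 : c2 ≤ C0)
    (hdiff : 1 / c1 - 1 / c2 ≤ θ / 8) (hl0 : 0 ≤ l) (hl : l ≤ x ^ (θ / 8) / (θ / 8))
    (hJ0 : 1 ≤ J) (hJ1 : J ≤ x ^ (θ / 2)) (hJ2 : x ^ (θ / 2) ≤ 2 * J)
    (hM0 : 0 ≤ M) (hM : M ≤ 5 * x ^ (1 / c1)) (hE0 : 0 ≤ E)
    (hE : E ≤ (96 * Real.pi + 64 * C * (5 + l) + 3) * x ^ (-θ))
    (hfin : 20 * C0 * (96 * Real.pi + 4 + 320 * C) * (1 + 8 / θ) + C0 ≤ x ^ (θ / 8)) :
    4 * c1 * J * M * E + (c2 - c1) * (8 / J * x ^ (1 / c1) +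
      J * (2 * (1 + l) * x ^ (-(2 * θ)) * (2 * x ^ (1 / c1)) + x ^ (2 * θ))) ≤
    x ^ (1 / c2 - θ / 8) := by
  have hx0 : 0 < x := by linarith
  have hx1 : 1 ≤ x := by linarith
  have hc10 : 0 < c1 := by linarith
  have hc20 : 0 < c2 := by linarith
  have hC00 : 0 < C0 := by linarith
  have hpi := Real.pi_pos
  set L : ℝ := x ^ (1 / c1) with hL
  have hL0 : 0 < L := Real.rpow_pos_of_pos hx0 _
  set R : ℝ := x ^ (1 / c2 - θ / 8) with hR
  have hR0 : 0 < R := Real.rpow_pos_of_pos hx0 _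
  set q : ℝ := x ^ (-(θ / 4)) with hq
  have hq0 : 0 < q := Real.rpow_pos_of_pos hx0 _
  set p : ℝ := x ^ (-(θ / 2)) with hp
  have hp0 : 0 < p := Real.rpow_pos_of_pos hx0 _
  have hLP : L * p ≤ R * q := by
    rw [hL, hp, hR, hq, ← Real.rpow_add hx0, ← Real.rpow_add hx0]
    apply Real.rpow_le_rpow_of_exponent_le hx1
    linarith
  have h1c2 : 1 / C0 ≤ 1 / c2 := one_div_le_one_div_of_le hc20 hc2
  have hθC : θ * 16 ≤ 1 / C0 := by
    rw [le_div_iff₀ (by positivity)] at hθ2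
    rw [le_div_iff₀ hC00]
    linarith
  have h52 : x ^ (5 * θ / 2) ≤ R * q := by
    rw [hR, hq, ← Real.rpow_add hx0]
    apply Real.rpow_le_rpow_of_exponent_le hx1
    linarith
  -- first term
  have hA1 : 4 * c1 * J * M * E ≤
      20 * C0 * (96 * Real.pi + 64 * C * (5 + l) + 3) * (L * p) := by
    have h1 : 4 * c1 * J * M * E ≤ 4 * C0 * x ^ (θ / 2) * (5 * L) *
        ((96 * Real.pi + 64 * C * (5 + l) + 3) * x ^ (-θ)) := by
      have : c1 ≤ C0 := hc12.trans hc2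
      have : 0 < x ^ (θ / 2) := Real.rpow_pos_of_pos hx0 _
      gcongr
    have h2 : x ^ (θ / 2) * x ^ (-θ) = p := by
      rw [hp, ← Real.rpow_add hx0]
      congr 1
      ring
    refine h1.trans (le_of_eq ?_)
    rw [← h2]
    ring
  have hA2 : 8 / J * L ≤ 16 * (L * p) := by
    have h1 : 8 / J ≤ 16 * p := by
      rw [div_le_iff₀ (by linarith)]
      have h2 : p * x ^ (θ / 2) = 1 := by
        rw [hp, ← Real.rpow_add hx0]
        simp
      nlinarith
    calc 8 / J * L ≤ 16 * p * L := by gcongr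
      _ = 16 * (L * p) := by ring
  have hA3 : J * (2 * (1 + l) * x ^ (-(2 * θ)) * (2 * L)) ≤ 4 * (1 + l) * (L * p) := by
    have h1 : J * x ^ (-(2 * θ)) ≤ p := by
      calc J * x ^ (-(2 * θ)) ≤ x ^ (θ / 2) * x ^ (-(2 * θ)) := by
            have := Real.rpow_pos_of_pos hx0 (-(2 * θ))
            gcongr
        _ = x ^ (θ / 2 + -(2 * θ)) := (Real.rpow_add hx0 _ _).symm
        _ ≤ p := by
            rw [hp]
            apply Real.rpow_le_rpow_of_exponent_le hx1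
            linarith
    calc J * (2 * (1 + l) * x ^ (-(2 * θ)) * (2 * L)) =
          4 * (1 + l) * (L * (J * x ^ (-(2 * θ)))) := by ring
      _ ≤ 4 * (1 + l) * (L * p) := by gcongr
  have hA4 : J * x ^ (2 * θ) ≤ R * q := by
    calc J * x ^ (2 * θ) ≤ x ^ (θ / 2) * x ^ (2 * θ) := by
          have := Real.rpow_pos_of_pos hx0 (2 * θ)
          gcongr
      _ = x ^ (5 * θ / 2) := by
          rw [← Real.rpow_add hx0]
          congr 1
          ring
      _ ≤ R * q := h52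
  have hB : (c2 - c1) * (8 / J * L + J * (2 * (1 + l) * x ^ (-(2 * θ)) * (2 * L) + x ^ (2 * θ))) ≤
      C0 * (16 * (L * p) + (4 * (1 + l) * (L * p) + R * q)) := by
    have h1 : c2 - c1 ≤ C0 := by linarith
    have h0 : 0 ≤ c2 - c1 := by linarith
    rw [mul_add J]
    have h2 : 8 / J * L + (J * (2 * (1 + l) * x ^ (-(2 * θ)) * (2 * L)) + J * x ^ (2 * θ)) ≤
        16 * (L * p) + (4 * (1 + l) * (L * p) + R * q) := by linarith
    have h3 : 0 ≤ 16 * (L * p) + (4 * (1 + l) * (L * p) + R * q) := by positivity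
    calc (c2 - c1) * (8 / J * L +
          (J * (2 * (1 + l) * x ^ (-(2 * θ)) * (2 * L)) + J * x ^ (2 * θ))) ≤
          (c2 - c1) * (16 * (L * p) + (4 * (1 + l) * (L * p) + R * q)) := by gcongr
      _ ≤ C0 * (16 * (L * p) + (4 * (1 + l) * (L * p) + R * q)) := by gcongr
  set A : ℝ := 20 * C0 * (96 * Real.pi + 4 + 320 * C) with hA
  have hA0 : 0 < A := by positivity
  have hsum : 4 * c1 * J * M * E + (c2 - c1) * (8 / J * L +
      J * (2 * (1 + l) * x ^ (-(2 * θ)) * (2 * L) + x ^ (2 * θ))) ≤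
      (A * (1 + l) + C0) * (R * q) := by
    have h1 : 20 * C0 * (96 * Real.pi + 64 * C * (5 + l) + 3) * (L * p) +
        C0 * (16 * (L * p) + (4 * (1 + l) * (L * p) + R * q)) ≤
        A * (1 + l) * (L * p) + C0 * (R * q) := by
      have hLp : 0 < L * p := by positivity
      have h2 : 20 * C0 * (96 * Real.pi + 64 * C * (5 + l) + 3) + C0 * (16 + 4 * (1 + l)) ≤
          A * (1 + l) := by
        rw [hA]
        have h3 : 0 ≤ C0 * l := by positivity
        have h4 : 0 ≤ C0 * C * l := by positivity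
        have h5 : 0 ≤ C0 * Real.pi * l := by positivity
        nlinarith
      nlinarith
    have h2 : A * (1 + l) * (L * p) ≤ A * (1 + l) * (R * q) := by gcongr
    linarith
  refine hsum.trans ?_
  -- final comparison
  have ha0 : 0 < x ^ (θ / 8) := Real.rpow_pos_of_pos hx0 _
  have ha1 : 1 ≤ x ^ (θ / 8) := Real.one_le_rpow hx1 (by positivity)
  have hqa : q * x ^ (θ / 8) * x ^ (θ / 8) = 1 := by
    rw [hq, ← Real.rpow_add hx0, ← Real.rpow_add hx0]
    have : -(θ / 4) + θ / 8 + θ / 8 = 0 := by ring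
    rw [this, Real.rpow_zero]
  have hl' : l ≤ 8 / θ * x ^ (θ / 8) := by
    refine hl.trans (le_of_eq ?_)
    field_simp
  have h1 : A * (1 + l) + C0 ≤ (A * (1 + 8 / θ) + C0) * x ^ (θ / 8) := by
    have h2 : A * (1 + l) ≤ A * (x ^ (θ / 8) + 8 / θ * x ^ (θ / 8)) := by gcongr
    have h3 : C0 ≤ C0 * x ^ (θ / 8) := by nlinarith
    calc A * (1 + l) + C0 ≤ A * (x ^ (θ / 8) + 8 / θ * x ^ (θ / 8)) + C0 * x ^ (θ / 8) := by
          linarith
      _ = (A * (1 + 8 / θ) + C0) * x ^ (θ / 8) := by ring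
  calc (A * (1 + l) + C0) * (R * q) ≤
        (A * (1 + 8 / θ) + C0) * x ^ (θ / 8) * (R * q) := by gcongr
    _ ≤ x ^ (θ / 8) * x ^ (θ / 8) * (R * q) := by gcongr
    _ = (q * x ^ (θ / 8) * x ^ (θ / 8)) * R := by ring
    _ = R := by rw [hqa, one_mul]

theorem t10b (h3 : T3) (h10 : T10a) : T10b := by
  intro C0 hC0
  have hC00 : 0 < C0 := by linarith
  have hQ : 1 ≤ ⌈4 * C0⌉₊ := Nat.one_le_ceil_iff.mpr (by positivity)
  obtain ⟨η0, hη0, hη1, C, hC, h3'⟩ := h3 ⌈4 * C0⌉₊ hQ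
  obtain ⟨θ, hθ0, hθ1, hθ2⟩ : ∃ θ : ℝ, 0 < θ ∧ θ ≤ η0 / (4 * C0) ∧ θ ≤ 1 / (16 * C0) :=
    ⟨min (η0 / (4 * C0)) (1 / (16 * C0)), lt_min (by positivity) (by positivity),
      min_le_left _ _, min_le_right _ _⟩
  have hκ : θ / 8 ≤ 1 / (2 * C0) := by
    have h1 : 1 / (16 * C0) ≤ 1 / (2 * C0) :=
      one_div_le_one_div_of_le (by positivity) (by linarith)
    linarith
  have hθ3 : θ ≤ 1 / 16 := by
    refine hθ2.trans (one_div_le_one_div_of_le (by norm_num) (by linarith))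
  refine ⟨θ / 8, by positivity, hκ, ?_⟩
  intro c1 c2 hc1 hc12 hc2 hdiff
  have hc10 : 0 < c1 := by linarith
  have hc20 : 0 < c2 := by linarith
  have hev := ((eventually_ge_atTop 16).and
    ((t10b_ev (1 / (3 * C0)) 3 (by positivity)).and
    ((t10b_ev θ (4 * Real.pi) hθ0).and
    (t10b_ev (θ / 8) (20 * C0 * (96 * Real.pi + 4 + 320 * C) * (1 + 8 / θ) + C0)
      (by positivity)))))
  obtain ⟨X0, hX0⟩ := eventually_atTop.mp hev
  refine ⟨X0, fun X hX P hP => ?_⟩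
  obtain ⟨hX16, hX3, hXpi, hXfin⟩ := hX0 X hX
  set x : ℝ := (X : ℝ) with hxdef
  have hx16 : (16 : ℝ) ≤ x := by
    rw [hxdef]
    exact_mod_cast hX16
  have hx0 : 0 < x := by linarith
  have hx1 : 1 ≤ x := by linarith
  set M : ℕ := ⌈(4 * x) ^ (1 / c1)⌉₊ with hM
  have hL1 : 1 ≤ x ^ (1 / c1) := Real.one_le_rpow hx1 (by positivity)
  have hLx : x ^ (1 / c1) ≤ x := by
    calc x ^ (1 / c1) ≤ x ^ (1 : ℝ) := by
          apply Real.rpow_le_rpow_of_exponent_le hx1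
          rw [div_le_one hc10]
          exact hc1
      _ = x := Real.rpow_one x
  have hrp : ∀ b : ℝ, 1 ≤ b → (b * x) ^ (1 / c1) ≤ b * x ^ (1 / c1) := by
    intro b hb
    rw [Real.mul_rpow (by linarith) hx0.le]
    have : b ^ (1 / c1) ≤ b := by
      calc b ^ (1 / c1) ≤ b ^ (1 : ℝ) := by
            apply Real.rpow_le_rpow_of_exponent_le hb
            rw [div_le_one hc10]
            exact hc1
        _ = b := Real.rpow_one b
    gcongr
  have hMlow : (4 * x) ^ (1 / c1) ≤ (M : ℝ) := Nat.le_ceil _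
  have hMup : (M : ℝ) ≤ 5 * x ^ (1 / c1) := by
    have h1 : (M : ℝ) < (4 * x) ^ (1 / c1) + 1 := Nat.ceil_lt_add_one (by positivity)
    have h2 := hrp 4 (by norm_num)
    linarith
  have hMx : x ^ (1 / C0) ≤ (M : ℝ) := by
    calc x ^ (1 / C0) ≤ x ^ (1 / c1) := by
          apply Real.rpow_le_rpow_of_exponent_le hx1
          exact one_div_le_one_div_of_le hc10 (hc12.trans hc2)
      _ ≤ (4 * x) ^ (1 / c1) := by
          apply Real.rpow_le_rpow hx0.le (by linarith) (by positivity)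
      _ ≤ M := hMlow
  have hx27 : 27 ≤ x ^ (1 / C0) := by
    have h1 : x ^ (1 / C0) = (x ^ (1 / (3 * C0))) ^ (3 : ℕ) := by
      rw [← Real.rpow_natCast, ← Real.rpow_mul hx0.le]
      congr 1
      push_cast
      field_simp
    rw [h1]
    calc (27 : ℝ) = 3 ^ 3 := by norm_num
      _ ≤ (x ^ (1 / (3 * C0))) ^ (3 : ℕ) := by gcongr
  have hM27 : (27 : ℝ) ≤ M := hx27.trans hMx
  have hM4 : 4 ≤ M := by
    have : (4 : ℝ) ≤ M := by linarith
    exact_mod_cast this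
  have hM0 : (0 : ℝ) < M := by linarith
  set J : ℕ := ⌊x ^ (θ / 2)⌋₊ with hJ
  have hJx : 1 ≤ x ^ (θ / 2) := Real.one_le_rpow hx1 (by positivity)
  have hJ1 : 1 ≤ J := (Nat.one_le_floor_iff _).mpr hJx
  have hJup : (J : ℝ) ≤ x ^ (θ / 2) := Nat.floor_le (by positivity)
  have hJX : J ≤ X := by
    have h1 : (J : ℝ) ≤ x := by
      calc (J : ℝ) ≤ x ^ (θ / 2) := hJup
        _ ≤ x ^ (1 : ℝ) := Real.rpow_le_rpow_of_exponent_le hx1 (by linarith)
        _ = x := Real.rpow_one x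
    rw [hxdef] at h1
    exact Nat.cast_le.mp h1
  have hJ1' : (1 : ℝ) ≤ J := by exact_mod_cast hJ1
  have hJlow : x ^ (θ / 2) ≤ 2 * J := by
    have := Nat.lt_floor_add_one (x ^ (θ / 2))
    linarith
  have hlog0 : 0 ≤ Real.log x := Real.log_nonneg hx1
  have hlog1 : 1 ≤ Real.log x := by
    rw [Real.le_log_iff_exp_le hx0]
    have := Real.exp_one_lt_d9
    linarith
  have hlogM0 : 0 ≤ Real.log M := Real.log_nonneg (by linarith)
  have hlogM : Real.log M ≤ 4 + Real.log x := by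
    have h1 : (M : ℝ) ≤ 5 * x := by linarith
    calc Real.log M ≤ Real.log (5 * x) := Real.log_le_log hM0 h1
      _ = Real.log 5 + Real.log x := Real.log_mul (by norm_num) hx0.ne'
      _ ≤ 4 + Real.log x := by
          have := Real.log_le_sub_one_of_pos (show (0 : ℝ) < 5 by norm_num)
          linarith
  have hΞ0 : 0 < x ^ θ := Real.rpow_pos_of_pos hx0 _
  have hΞ1 : 1 ≤ x ^ θ := Real.one_le_rpow hx1 hθ0.le
  have hω0 : 0 < x ^ (-(2 * θ)) := Real.rpow_pos_of_pos hx0 _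
  have hωΞ : x ^ (-(2 * θ)) * x ^ θ = x ^ (-θ) := by
    rw [← Real.rpow_add hx0]
    congr 1
    ring
  have hMη : (M : ℝ) ^ (-η0) ≤ x ^ (-θ) := by
    calc (M : ℝ) ^ (-η0) ≤ (x ^ (1 / C0)) ^ (-η0) :=
          Real.rpow_le_rpow_of_nonpos (by positivity) hMx (by linarith)
      _ = x ^ (1 / C0 * -η0) := (Real.rpow_mul hx0.le _ _).symm
      _ ≤ x ^ (-θ) := by
          apply Real.rpow_le_rpow_of_exponent_le hx1
          have h1 : η0 / (4 * C0) ≤ η0 / C0 := by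
            apply div_le_div_of_nonneg_left hη0.le hC00 (by linarith)
          have h2 : 1 / C0 * -η0 = -(η0 / C0) := by ring
          rw [h2]
          linarith
  have hMη0 : 0 < (M : ℝ) ^ (-η0) := Real.rpow_pos_of_pos hM0 _
  set η : ℝ := C * (Real.log M / x ^ θ + (M : ℝ) ^ (-η0)) with hη
  have hηpos : 0 < η := by positivity
  have hηle : η ≤ C * (5 + Real.log x) * x ^ (-θ) := by
    have h1 : Real.log M / x ^ θ ≤ (4 + Real.log x) * x ^ (-θ) := by
      rw [Real.rpow_neg hx0.le, div_eq_mul_inv]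
      gcongr
    calc η ≤ C * ((4 + Real.log x) * x ^ (-θ) + x ^ (-θ)) := by
          rw [hη]
          gcongr
      _ = C * (5 + Real.log x) * x ^ (-θ) := by ring
  have hsqrt : √(x ^ 4) = x ^ 2 := by
    rw [show x ^ 4 = (x ^ 2) ^ 2 by ring]
    exact Real.sqrt_sq (by positivity)
  have hmain := h10 X M J P c1 c2 (x ^ (-(2 * θ))) (x ^ θ) (x ^ 4) η hX16 hM4 hJ1 hJX hP hc1 hc12
    (by
      have h1 : c2 * (1 / c1 - 1 / c2) ≤ C0 * (1 / (2 * C0)) := by
        have h2 : 0 ≤ 1 / c1 - 1 / c2 := by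
          have := one_div_le_one_div_of_le hc10 hc12
          linarith
        have h3 : 1 / c1 - 1 / c2 ≤ 1 / (2 * C0) := hdiff.trans hκ
        calc c2 * (1 / c1 - 1 / c2) ≤ C0 * (1 / c1 - 1 / c2) := by gcongr
          _ ≤ C0 * (1 / (2 * C0)) := by gcongr
      have h4 : C0 * (1 / (2 * C0)) = 1 / 2 := by field_simp
      have h5 : c2 * (1 / c1 - 1 / c2) = c2 / c1 - 1 := by field_simp
      rw [h4, h5] at h1
      have h6 : c2 / c1 ≤ 2 := by linarith
      rwa [div_le_iff₀ hc10] at h6)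
    hω0
    (by
      apply Real.rpow_le_one_of_one_le_of_nonpos hx1
      linarith)
    (by
      have h1 : x ^ (-(2 * θ)) ≥ x ^ (-1 : ℝ) :=
        Real.rpow_le_rpow_of_exponent_le hx1 (by linarith)
      have h2 : 1 / (x * Real.log x) ≤ x ^ (-1 : ℝ) := by
        rw [Real.rpow_neg_one, one_div]
        apply inv_anti₀ hx0
        nlinarith
      exact h2.trans h1)
    (by
      refine hX3.trans ?_
      apply Real.rpow_le_rpow_of_exponent_le hx1
      have h1 : x ^ (-(2 * θ)) ≤ 1 := by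
        apply Real.rpow_le_one_of_one_le_of_nonpos hx1
        linarith
      have h2 : 1 / 3 ≤ Real.exp (-(x ^ (-(2 * θ)))) := by
        calc (1 / 3 : ℝ) ≤ Real.exp (-1) := by
              rw [Real.exp_neg, one_div]
              apply inv_anti₀ (Real.exp_pos _)
              have := Real.exp_one_lt_d9
              linarith
          _ ≤ Real.exp (-(x ^ (-(2 * θ)))) := by
              apply Real.exp_le_exp.mpr
              linarith
      calc 1 / (3 * C0) = (1 / 3) / C0 := by field_simp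
        _ ≤ (1 / 3) / c2 := div_le_div_of_nonneg_left (by norm_num) hc20 hc2
        _ ≤ Real.exp (-(x ^ (-(2 * θ)))) / c2 := by gcongr)
    (by
      refine le_trans ?_ hMlow
      apply Real.rpow_le_rpow (by positivity) (by linarith) (by positivity))
    hΞ0.le
    (by
      have h1 : 2 * Real.pi * x ^ (-(2 * θ)) * x ^ θ = 2 * Real.pi * x ^ (-θ) := by
        rw [mul_assoc, hωΞ]
      rw [h1, Real.rpow_neg hx0.le, ← div_eq_mul_inv, div_le_iff₀ hΞ0]
      linarith)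
    (by positivity) hηpos
    (by
      intro ξ hξ1 hξ2
      have h1 : |ξ| ≤ (M : ℝ) ^ ⌈4 * C0⌉₊ := by
        refine hξ2.trans ?_
        have h2 : (4 : ℝ) * C0 ≤ ⌈4 * C0⌉₊ := Nat.le_ceil _
        calc x ^ 4 = x ^ (4 : ℝ) := by norm_cast
          _ ≤ x ^ (1 / C0 * (⌈4 * C0⌉₊ : ℝ)) := by
              apply Real.rpow_le_rpow_of_exponent_le hx1
              rw [one_div, ← div_eq_inv_mul, le_div_iff₀ hC00]
              exact h2
          _ = (x ^ (1 / C0)) ^ (⌈4 * C0⌉₊ : ℕ) := by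
              rw [Real.rpow_mul hx0.le, Real.rpow_natCast]
          _ ≤ (M : ℝ) ^ ⌈4 * C0⌉₊ := by gcongr
      have h2 := h3' M ξ (by omega) (hΞ1.trans hξ1) h1
      refine h2.trans ?_
      have hξ0 : 0 < |ξ| := lt_of_lt_of_le hΞ0 hξ1
      have h4 : Real.log M / |ξ| ≤ Real.log M / x ^ θ := by gcongr
      calc C * M * (Real.log M / |ξ| + (M : ℝ) ^ (-η0)) ≤
            C * M * (Real.log M / x ^ θ + (M : ℝ) ^ (-η0)) := by gcongr
        _ = η * M := by rw [hη]; ring)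
  refine ⟨hmain.1, hmain.2.trans ?_⟩
  set E : ℝ := 96 * Real.pi * x ^ (-(2 * θ)) * x ^ θ + 64 * η + 3 * x / √(x ^ 4) with hE
  have hE0 : 0 ≤ E := by
    have := Real.pi_pos
    positivity
  have hEle : E ≤ (96 * Real.pi + 64 * C * (5 + Real.log x) + 3) * x ^ (-θ) := by
    have h1 : 96 * Real.pi * x ^ (-(2 * θ)) * x ^ θ = 96 * Real.pi * x ^ (-θ) := by
      rw [mul_assoc, hωΞ]
    have h2 : 3 * x / √(x ^ 4) ≤ 3 * x ^ (-θ) := by
      rw [hsqrt]
      have h3 : 3 * x / x ^ 2 = 3 * x ^ (-1 : ℝ) := by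
        rw [Real.rpow_neg_one]
        field_simp
      rw [h3]
      have h4 : x ^ (-1 : ℝ) ≤ x ^ (-θ) :=
        Real.rpow_le_rpow_of_exponent_le hx1 (by linarith)
      linarith
    rw [hE, h1]
    have h5 : 64 * η ≤ 64 * (C * (5 + Real.log x) * x ^ (-θ)) := by linarith
    calc 96 * Real.pi * x ^ (-θ) + 64 * η + 3 * x / √(x ^ 4) ≤
          96 * Real.pi * x ^ (-θ) + 64 * (C * (5 + Real.log x) * x ^ (-θ)) + 3 * x ^ (-θ) := by
            linarith
      _ = (96 * Real.pi + 64 * C * (5 + Real.log x) + 3) * x ^ (-θ) := by ring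
  have hnum := t10b_num hC0 hC hθ0 hθ2 hx16 hc1 hc12 hc2 hdiff hlog0
    (Real.log_le_rpow_div hx0.le (by positivity)) hJ1' hJup hJlow hM0.le hMup hE0 hEle hXfin
  refine le_trans ?_ hnum
  have hlog2 : Real.log (2 * x) ≤ 1 + Real.log x := by
    rw [Real.log_mul (by norm_num) hx0.ne']
    have := Real.log_le_sub_one_of_pos (show (0 : ℝ) < 2 by norm_num)
    linarith
  have hlog20 : 0 ≤ Real.log (2 * x) := Real.log_nonneg (by linarith)
  have hω1 : 1 / x ^ (-(2 * θ)) = x ^ (2 * θ) := by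
    rw [Real.rpow_neg hx0.le]
    simp
  have hc0 : 0 ≤ c2 - c1 := by linarith
  rw [hω1]
  have h2x := hrp 2 (by norm_num)
  have h2x0 : 0 ≤ (2 * x) ^ (1 / c1) := by positivity
  gcongr

end Pool.Agent.H706R2.PS
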