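import Pool.Agent.H706R2.PS.WDefs
import Pool.Agent.H706R2.PS.T10b

/-! W10b: choice of the parameters, the `L¹` theorem for windows. -/

open Finset MeasureTheory Filter

namespace Pool.Agent.H706R2.PS

open Pool.Agent.H469R2.NK (e)
open Pool.Agent.H438R2.DL (Fw AD)

private theorem w10b_pow {u v s : ℝ} (hu : 1 ≤ u) (huv : u ≤ v) (hs0 : s ≤ 0) (hs1 : -1 ≤ s) :
    |u ^ s - v ^ s| ≤ (v - u) / v := by
  have hu0 : 0 < u := by linarith
  have hv0 : 0 < v := by linarith
  have h1 : v ^ s ≤ u ^ s := Real.rpow_le_rpow_of_nonpos hu0 huv hs0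
  rw [abs_of_nonneg (by linarith)]
  have h2 : u ^ s ≤ 1 := Real.rpow_le_one_of_one_le_of_nonpos hu hs0
  have h3 : v ^ s = u ^ s * (v / u) ^ s := by
    rw [← Real.mul_rpow hu0.le (by positivity)]
    congr 1
    field_simp
  have h4 : u / v ≤ (v / u) ^ s := by
    have h5 : (v / u) ^ (-1 : ℝ) ≤ (v / u) ^ s :=
      Real.rpow_le_rpow_of_exponent_le (by rw [one_le_div hu0]; exact huv) hs1
    rw [Real.rpow_neg_one, inv_div] at h5
    exact h5
  have h6 : 0 < u ^ s := Real.rpow_pos_of_pos hu0 _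
  have h7 : u / v ≤ 1 := (div_le_one hv0).2 huv
  have h8 : (v - u) / v = 1 - u / v := by field_simp
  rw [h3, h8]
  have h9 : u ^ s * (u / v) ≤ u ^ s * (v / u) ^ s := mul_le_mul_of_nonneg_left h4 h6.le
  nlinarith

private theorem w10b_sqrt {x : ℝ} (hx : 32 ≤ x) (hl : 1 ≤ Real.log x) :
    4 / (x * Real.log x) ≤ 1 / √x := by
  have hx0 : 0 < x := by linarith
  have h4 : √x * √x = x := Real.mul_self_sqrt hx0.le
  have h5 : 4 ≤ √x := by
    rw [Real.le_sqrt (by norm_num) hx0.le]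
    linarith
  have h6 : 0 < √x := by linarith
  rw [div_le_div_iff₀ (by positivity) h6]
  have h7 : 4 * √x ≤ √x * √x := mul_le_mul_of_nonneg_right h5 h6.le
  have h8 : x * 1 ≤ x * Real.log x := mul_le_mul_of_nonneg_left hl hx0.le
  linarith

private theorem w10b_main {X : ℕ} {P : Finset ℕ} {a c : ℝ} (hX : 2 ≤ X)
    (hP : P ⊆ Ioc X (2 * X)) (ha : |a| ≤ 1) (hc : 1 ≤ c) :
    |mainw P a c - mainT P c| ≤ 1 := by
  have hX0 : (2 : ℝ) ≤ X := by exact_mod_cast hX
  have hc0 : 0 < c := by linarith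
  have ha1 := abs_le.1 ha
  have h1c : 1 / c ≤ 1 := by rw [div_le_one hc0]; exact hc
  have h1c0 : 0 < 1 / c := by positivity
  have hterm : ∀ m ∈ P, |(1 / c) * ((m : ℝ) + a) ^ (1 / c - 1) - (1 / c) * (m : ℝ) ^ (1 / c - 1)| ≤
      1 / X := by
    intro m hm
    have hm1 : (X : ℝ) + 1 ≤ m := by
      have := (mem_Ioc.1 (hP hm)).1
      exact_mod_cast this
    have h0 : |((m : ℝ) + a) ^ (1 / c - 1) - (m : ℝ) ^ (1 / c - 1)| ≤ 1 / X := by
      rcases le_total 0 a with h | h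
      · have h2 := w10b_pow (u := (m : ℝ)) (v := (m : ℝ) + a) (s := 1 / c - 1) (by linarith)
          (by linarith) (by linarith) (by linarith)
        rw [abs_sub_comm]
        refine h2.trans ?_
        rw [div_le_div_iff₀ (by linarith) (by linarith)]
        nlinarith [ha1.2]
      · have h2 := w10b_pow (u := (m : ℝ) + a) (v := (m : ℝ)) (s := 1 / c - 1) (by linarith [ha1.1])
          (by linarith) (by linarith) (by linarith)
        refine h2.trans ?_
        rw [div_le_div_iff₀ (by linarith) (by linarith)]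
        nlinarith [ha1.1]
    rw [← mul_sub, abs_mul, abs_of_pos h1c0]
    have h9 := abs_nonneg (((m : ℝ) + a) ^ (1 / c - 1) - (m : ℝ) ^ (1 / c - 1))
    calc 1 / c * |((m : ℝ) + a) ^ (1 / c - 1) - (m : ℝ) ^ (1 / c - 1)| ≤
        1 * |((m : ℝ) + a) ^ (1 / c - 1) - (m : ℝ) ^ (1 / c - 1)| :=
          mul_le_mul_of_nonneg_right h1c h9
      _ ≤ 1 / X := by linarith
  unfold mainw mainT
  rw [← sum_sub_distrib]
  refine (abs_sum_le_sum_abs _ _).trans ((sum_le_sum hterm).trans ?_)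
  rw [sum_const, nsmul_eq_mul]
  have hcard : P.card ≤ X := by
    have := card_le_card hP
    rw [Nat.card_Ioc] at this
    omega
  have hcard' : (P.card : ℝ) ≤ X := by exact_mod_cast hcard
  rw [mul_one_div, div_le_one (by linarith)]
  exact hcard'

private theorem w10b_cmp {c1 c2 J M T l l2 p q L L2 L3 : ℝ} (hc1 : 1 ≤ c1) (hc12 : c1 ≤ c2)
    (hJ : 1 ≤ J) (hl : 0 ≤ l) (hl2 : 0 ≤ l2) (hll : l2 ≤ 2 + l)
    (hp : 1 ≤ p) (hq : 0 < q) (hL : 0 ≤ L) (hL2' : 0 ≤ L2) (hL2 : L2 ≤ 2 * L)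
    (hL3' : 0 ≤ L3) (hL3 : L3 ≤ 3 * L) :
    4 * c1 * J * M * T + (c2 - c1) * (64 / J * L2 + J * (16 * l2 * q * L3 + 4 * p)) +
      2 * (c2 - c1) ≤
    32 * (4 * c1 * J * M * (T / 32) + (c2 - c1) * (8 / J * L +
      J * (2 * (1 + l) * q * (2 * L) + p))) := by
  have hJ0 : 0 < J := by linarith
  have hc0 : 0 ≤ c2 - c1 := by linarith
  have t2 : 64 / J * L2 ≤ 32 * (8 / J * L) := by
    calc 64 / J * L2 ≤ 64 / J * (2 * L) :=
          mul_le_mul_of_nonneg_left hL2 (by positivity)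
      _ = 16 * (8 / J * L) := by ring
      _ ≤ 32 * (8 / J * L) := by
          have : 0 ≤ 8 / J * L := by positivity
          linarith
  have t3 : 16 * l2 * q * L3 ≤ 32 * (2 * (1 + l) * q * (2 * L)) := by
    calc 16 * l2 * q * L3 ≤ 16 * (2 + l) * q * (3 * L) := by
          apply mul_le_mul _ hL3 hL3' (by positivity)
          exact mul_le_mul_of_nonneg_right (by linarith) hq.le
      _ = (96 + 48 * l) * (q * L) := by ring
      _ ≤ (128 + 128 * l) * (q * L) :=
          mul_le_mul_of_nonneg_right (by linarith) (by positivity)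
      _ = 32 * (2 * (1 + l) * q * (2 * L)) := by ring
  have t4 : J * (4 * p) + 2 ≤ J * (32 * p) := by
    have : 1 ≤ J * p := by nlinarith
    nlinarith
  have h5 : J * (16 * l2 * q * L3) ≤ J * (32 * (2 * (1 + l) * q * (2 * L))) :=
    mul_le_mul_of_nonneg_left t3 hJ0.le
  have h6 : 64 / J * L2 + J * (16 * l2 * q * L3 + 4 * p) + 2 ≤
      32 * (8 / J * L + J * (2 * (1 + l) * q * (2 * L) + p)) := by
    linarith
  have h7 := mul_le_mul_of_nonneg_left h6 hc0
  have h8 : 32 * (4 * c1 * J * M * (T / 32)) = 4 * c1 * J * M * T := by ring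
  linarith

private theorem w10b_meas_cnt (P K : Finset ℕ) (a w : ℝ) : Measurable fun c => cntw P K a w c := by
  unfold cntw
  refine Finset.measurable_sum _ fun k _ => ?_
  have h : (fun c : ℝ => ((P.filter (fun m : ℕ => (m : ℝ) + a ≤ (k : ℝ) ^ c ∧
      (k : ℝ) ^ c < m + a + w)).card : ℝ)) = fun c : ℝ => ∑ m ∈ P,
        if (m : ℝ) + a ≤ (k : ℝ) ^ c ∧ (k : ℝ) ^ c < m + a + w then (1 : ℝ) else 0 := by
    funext c
    rw [card_filter]
    push_cast
    rfl
  rw [h]
  refine Finset.measurable_sum _ fun m _ => ?_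
  have hk : Measurable fun c : ℝ => (k : ℝ) ^ c := measurable_const.pow measurable_id
  exact Measurable.ite ((measurableSet_le measurable_const hk).inter
    (measurableSet_lt hk measurable_const)) measurable_const measurable_const

private theorem w10b_meas_main (P : Finset ℕ) : Measurable fun c => mainT P c := by
  unfold mainT
  refine Finset.measurable_sum _ fun m _ => ?_
  exact (measurable_const.div measurable_id).mul
    (measurable_const.pow ((measurable_const.div measurable_id).sub measurable_const))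

private theorem w10b_int {X : ℕ} {P K : Finset ℕ} {a w c1 c2 B : ℝ} (hX : 2 ≤ X)
    (hP : P ⊆ Ioc X (2 * X)) (ha : |a| ≤ 1) (hw0 : 0 ≤ w) (hw : w ≤ 2) (hc1 : 1 ≤ c1)
    (hc12 : c1 ≤ c2)
    (h : IntegrableOn (fun c => |cntw P K a w c - w * mainw P a c|) (Set.Icc c1 c2))
    (hB : ∫ c in Set.Icc c1 c2, |cntw P K a w c - w * mainw P a c| ≤ B) :
    IntegrableOn (fun c => |cntw P K a w c - w * mainT P c|) (Set.Icc c1 c2) ∧
    ∫ c in Set.Icc c1 c2, |cntw P K a w c - w * mainT P c| ≤ B + 2 * (c2 - c1) := by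
  have hle : ∀ c ∈ Set.Icc c1 c2, |cntw P K a w c - w * mainT P c| ≤
      |cntw P K a w c - w * mainw P a c| + 2 := by
    intro c hc
    have h1 : cntw P K a w c - w * mainT P c =
        (cntw P K a w c - w * mainw P a c) + w * (mainw P a c - mainT P c) := by ring
    rw [h1]
    refine (abs_add_le _ _).trans ?_
    have h2 : |w * (mainw P a c - mainT P c)| ≤ 2 := by
      rw [abs_mul, abs_of_nonneg hw0]
      have h3 := w10b_main (c := c) hX hP ha (hc1.trans hc.1)
      have h4 := abs_nonneg (mainw P a c - mainT P c)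
      nlinarith
    linarith
  have hconst : IntegrableOn (fun _ : ℝ => (2 : ℝ)) (Set.Icc c1 c2) :=
    integrableOn_const (by simp)
  have hg : IntegrableOn (fun c => |cntw P K a w c - w * mainw P a c| + 2) (Set.Icc c1 c2) :=
    h.add hconst
  have hm : Measurable fun c => |cntw P K a w c - w * mainT P c| :=
    ((w10b_meas_cnt P K a w).sub ((w10b_meas_main P).const_mul w)).abs
  have hint : IntegrableOn (fun c => |cntw P K a w c - w * mainT P c|) (Set.Icc c1 c2) := by
    refine Integrable.mono' hg hm.aestronglyMeasurable ?_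
    refine (ae_restrict_iff' measurableSet_Icc).2 (Filter.Eventually.of_forall fun c hc => ?_)
    rw [Real.norm_eq_abs, abs_abs]
    exact hle c hc
  refine ⟨hint, ?_⟩
  calc ∫ c in Set.Icc c1 c2, |cntw P K a w c - w * mainT P c| ≤
      ∫ c in Set.Icc c1 c2, (|cntw P K a w c - w * mainw P a c| + 2) :=
        setIntegral_mono_on hint hg measurableSet_Icc hle
    _ = (∫ c in Set.Icc c1 c2, |cntw P K a w c - w * mainw P a c|) +
        ∫ _ in Set.Icc c1 c2, (2 : ℝ) := integral_add h hconst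
    _ ≤ B + 2 * (c2 - c1) := by
        have h5 : ∫ _ in Set.Icc c1 c2, (2 : ℝ) = 2 * (c2 - c1) := by
          rw [setIntegral_const]
          simp [Real.volume_real_Icc_of_le hc12]
          ring
        rw [h5]
        linarith

theorem w10b (h3 : T3) (h10 : W10a) : W10b := by
  intro C0 hC0
  have hC00 : 0 < C0 := by linarith
  have hQ : 1 ≤ ⌈4 * C0⌉₊ := Nat.one_le_ceil_iff.mpr (by positivity)
  obtain ⟨η0, hη0, hη1, C, hC, h3'⟩ := h3 ⌈4 * C0⌉₊ hQ
  obtain ⟨θ, hθ0, hθ1, hθ2⟩ : ∃ θ : ℝ, 0 < θ ∧ θ ≤ η0 / (4 * C0) ∧ θ ≤ 1 / (16 * C0) :=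
    ⟨min (η0 / (4 * C0)) (1 / (16 * C0)), lt_min (by positivity) (by positivity),
      min_le_left _ _, min_le_right _ _⟩
  have hκ : θ / 16 ≤ 1 / (8 * C0) := by
    have h1 : 1 / (16 * C0) ≤ 1 / (8 * C0) :=
      one_div_le_one_div_of_le (by positivity) (by linarith)
    linarith
  have hθ3 : θ ≤ 1 / 16 := by
    refine hθ2.trans (one_div_le_one_div_of_le (by norm_num) (by linarith))
  refine ⟨θ / 16, by positivity, hκ, ?_⟩
  intro c1 c2 hc1 hc12 hc2 hdiff
  have hc10 : 0 < c1 := by linarith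
  have hc20 : 0 < c2 := by linarith
  have hev := ((eventually_ge_atTop 32).and
    ((t10b_ev (1 / (6 * C0)) 3 (by positivity)).and
    ((t10b_ev θ (4 * Real.pi) hθ0).and
    ((t10b_ev (θ / 8) (20 * C0 * (96 * Real.pi + 4 + 320 * C) * (1 + 8 / θ) + C0)
      (by positivity)).and (t10b_ev (θ / 16) 32 (by positivity))))))
  obtain ⟨X0, hX0⟩ := eventually_atTop.mp hev
  refine ⟨X0, fun X hX P hP a w ha hw1 hw2 => ?_⟩
  obtain ⟨hX32, hX3, hXpi, hXfin, hX32'⟩ := hX0 X hX
  set x : ℝ := (X : ℝ) with hxdef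
  have hx32 : (32 : ℝ) ≤ x := by
    rw [hxdef]
    exact_mod_cast hX32
  have hx16 : (16 : ℝ) ≤ x := by linarith
  have hx0 : 0 < x := by linarith
  have hx1 : 1 ≤ x := by linarith
  set M : ℕ := ⌈(4 * x) ^ (1 / c1)⌉₊ with hM
  have hL1 : 1 ≤ x ^ (1 / c1) := Real.one_le_rpow hx1 (by positivity)
  have hLx : x ^ (1 / c1) ≤ x := by
    calc x ^ (1 / c1) ≤ x ^ (1 : ℝ) := by
          apply Real.rpow_le_rpow_of_exponent_le hx1
          rw [div_le_one hc10]
          exact hc1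
      _ = x := Real.rpow_one x
  have hrp : ∀ b : ℝ, 1 ≤ b → (b * x) ^ (1 / c1) ≤ b * x ^ (1 / c1) := by
    intro b hb
    rw [Real.mul_rpow (by linarith) hx0.le]
    have : b ^ (1 / c1) ≤ b := by
      calc b ^ (1 / c1) ≤ b ^ (1 : ℝ) := by
            apply Real.rpow_le_rpow_of_exponent_le hb
            rw [div_le_one hc10]
            exact hc1
        _ = b := Real.rpow_one b
    gcongr
  have hMlow : (4 * x) ^ (1 / c1) ≤ (M : ℝ) := Nat.le_ceil _
  have hMup : (M : ℝ) ≤ 5 * x ^ (1 / c1) := by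
    have h1 : (M : ℝ) < (4 * x) ^ (1 / c1) + 1 := Nat.ceil_lt_add_one (by positivity)
    have h2 := hrp 4 (by norm_num)
    linarith
  have hMx : x ^ (1 / C0) ≤ (M : ℝ) := by
    calc x ^ (1 / C0) ≤ x ^ (1 / c1) := by
          apply Real.rpow_le_rpow_of_exponent_le hx1
          exact one_div_le_one_div_of_le hc10 (hc12.trans hc2)
      _ ≤ (4 * x) ^ (1 / c1) := by
          apply Real.rpow_le_rpow hx0.le (by linarith) (by positivity)
      _ ≤ M := hMlow
  have hx27 : 27 ≤ x ^ (1 / C0) := by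
    have h1 : x ^ (1 / C0) = (x ^ (1 / (6 * C0))) ^ (6 : ℕ) := by
      rw [← Real.rpow_natCast, ← Real.rpow_mul hx0.le]
      congr 1
      push_cast
      field_simp
    rw [h1]
    calc (27 : ℝ) ≤ 3 ^ 6 := by norm_num
      _ ≤ (x ^ (1 / (6 * C0))) ^ (6 : ℕ) := by gcongr
  have hM27 : (27 : ℝ) ≤ M := hx27.trans hMx
  have hM4 : 4 ≤ M := by
    have : (4 : ℝ) ≤ M := by linarith
    exact_mod_cast this
  have hM0 : (0 : ℝ) < M := by linarith
  set J : ℕ := ⌊x ^ (θ / 2)⌋₊ with hJ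
  have hJx : 1 ≤ x ^ (θ / 2) := Real.one_le_rpow hx1 (by positivity)
  have hJ1 : 1 ≤ J := (Nat.one_le_floor_iff _).mpr hJx
  have hJup : (J : ℝ) ≤ x ^ (θ / 2) := Nat.floor_le (by positivity)
  have hJX : J ≤ X := by
    have h1 : (J : ℝ) ≤ x := by
      calc (J : ℝ) ≤ x ^ (θ / 2) := hJup
        _ ≤ x ^ (1 : ℝ) := Real.rpow_le_rpow_of_exponent_le hx1 (by linarith)
        _ = x := Real.rpow_one x
    rw [hxdef] at h1
    exact Nat.cast_le.mp h1
  have hJ1' : (1 : ℝ) ≤ J := by exact_mod_cast hJ1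
  have hJlow : x ^ (θ / 2) ≤ 2 * J := by
    have := Nat.lt_floor_add_one (x ^ (θ / 2))
    linarith
  have hlog0 : 0 ≤ Real.log x := Real.log_nonneg hx1
  have hlog1 : 1 ≤ Real.log x := by
    rw [Real.le_log_iff_exp_le hx0]
    have := Real.exp_one_lt_d9
    linarith
  have hlogM0 : 0 ≤ Real.log M := Real.log_nonneg (by linarith)
  have hlogM : Real.log M ≤ 4 + Real.log x := by
    have h1 : (M : ℝ) ≤ 5 * x := by linarith
    calc Real.log M ≤ Real.log (5 * x) := Real.log_le_log hM0 h1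
      _ = Real.log 5 + Real.log x := Real.log_mul (by norm_num) hx0.ne'
      _ ≤ 4 + Real.log x := by
          have := Real.log_le_sub_one_of_pos (show (0 : ℝ) < 5 by norm_num)
          linarith
  have hΞ0 : 0 < x ^ θ := Real.rpow_pos_of_pos hx0 _
  have hΞ1 : 1 ≤ x ^ θ := Real.one_le_rpow hx1 hθ0.le
  have hω0 : 0 < x ^ (-(2 * θ)) := Real.rpow_pos_of_pos hx0 _
  have hωΞ : x ^ (-(2 * θ)) * x ^ θ = x ^ (-θ) := by
    rw [← Real.rpow_add hx0]
    congr 1
    ring
  have hMη : (M : ℝ) ^ (-η0) ≤ x ^ (-θ) := by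
    calc (M : ℝ) ^ (-η0) ≤ (x ^ (1 / C0)) ^ (-η0) :=
          Real.rpow_le_rpow_of_nonpos (by positivity) hMx (by linarith)
      _ = x ^ (1 / C0 * -η0) := (Real.rpow_mul hx0.le _ _).symm
      _ ≤ x ^ (-θ) := by
          apply Real.rpow_le_rpow_of_exponent_le hx1
          have h1 : η0 / (4 * C0) ≤ η0 / C0 := by
            apply div_le_div_of_nonneg_left hη0.le hC00 (by linarith)
          have h2 : 1 / C0 * -η0 = -(η0 / C0) := by ring
          rw [h2]
          linarith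
  have hMη0 : 0 < (M : ℝ) ^ (-η0) := Real.rpow_pos_of_pos hM0 _
  set η : ℝ := C * (Real.log M / x ^ θ + (M : ℝ) ^ (-η0)) with hη
  have hηpos : 0 < η := by positivity
  have hηle : η ≤ C * (5 + Real.log x) * x ^ (-θ) := by
    have h1 : Real.log M / x ^ θ ≤ (4 + Real.log x) * x ^ (-θ) := by
      rw [Real.rpow_neg hx0.le, div_eq_mul_inv]
      gcongr
    calc η ≤ C * ((4 + Real.log x) * x ^ (-θ) + x ^ (-θ)) := by
          rw [hη]
          gcongr
      _ = C * (5 + Real.log x) * x ^ (-θ) := by ring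
  have hsqrt : √(x ^ 4) = x ^ 2 := by
    rw [show x ^ 4 = (x ^ 2) ^ 2 by ring]
    exact Real.sqrt_sq (by positivity)
  have hmain := h10 X M J P c1 c2 (x ^ (-(2 * θ))) (x ^ θ) (x ^ 4) η a w hX32 hM4 hJ1 hJX hP ha
    hw1 hw2 hc1 hc12
    (by
      have h1 : c2 * (1 / c1 - 1 / c2) ≤ C0 * (1 / (8 * C0)) := by
        have h2 : 0 ≤ 1 / c1 - 1 / c2 := by
          have := one_div_le_one_div_of_le hc10 hc12
          linarith
        have h3 : 1 / c1 - 1 / c2 ≤ 1 / (8 * C0) := hdiff.trans hκ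
        calc c2 * (1 / c1 - 1 / c2) ≤ C0 * (1 / c1 - 1 / c2) := by gcongr
          _ ≤ C0 * (1 / (8 * C0)) := by gcongr
      have h4 : C0 * (1 / (8 * C0)) = 1 / 8 := by field_simp
      have h5 : c2 * (1 / c1 - 1 / c2) = c2 / c1 - 1 := by field_simp
      rw [h4, h5] at h1
      have h6 : c2 / c1 ≤ 2 := by linarith
      rwa [div_le_iff₀ hc10] at h6)
    hω0
    (by
      apply Real.rpow_le_one_of_one_le_of_nonpos hx1
      linarith)
    (by
      have h1 : x ^ (-(2 * θ)) ≥ x ^ (-(1 / 2) : ℝ) :=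
        Real.rpow_le_rpow_of_exponent_le hx1 (by linarith)
      have h2 : 4 / (x * Real.log x) ≤ x ^ (-(1 / 2) : ℝ) := by
        have h3 : x ^ (-(1 / 2) : ℝ) = 1 / √x := by
          rw [Real.rpow_neg hx0.le, ← Real.sqrt_eq_rpow, inv_eq_one_div]
        rw [h3]
        exact w10b_sqrt hx32 hlog1
      exact h2.trans h1)
    (by
      have hsq : x ^ (1 / 2 : ℝ) ≤ x - 1 := by
        rw [← Real.sqrt_eq_rpow, Real.sqrt_le_left (by linarith)]
        nlinarith
      have hx11 : 1 ≤ x - 1 := by linarith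
      have h00 : 3 ≤ (x - 1) ^ (1 / (3 * C0)) := by
        calc (3 : ℝ) ≤ x ^ (1 / (6 * C0)) := hX3
          _ = (x ^ (1 / 2 : ℝ)) ^ (1 / (3 * C0)) := by
              rw [← Real.rpow_mul hx0.le]
              congr 1
              field_simp
              norm_num
          _ ≤ (x - 1) ^ (1 / (3 * C0)) := by gcongr
      refine h00.trans ?_
      apply Real.rpow_le_rpow_of_exponent_le hx11
      have h1 : x ^ (-(2 * θ)) ≤ 1 := by
        apply Real.rpow_le_one_of_one_le_of_nonpos hx1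
        linarith
      have h2 : 1 / 3 ≤ Real.exp (-(x ^ (-(2 * θ)))) := by
        calc (1 / 3 : ℝ) ≤ Real.exp (-1) := by
              rw [Real.exp_neg, one_div]
              apply inv_anti₀ (Real.exp_pos _)
              have := Real.exp_one_lt_d9
              linarith
          _ ≤ Real.exp (-(x ^ (-(2 * θ)))) := by
              apply Real.exp_le_exp.mpr
              linarith
      calc 1 / (3 * C0) = (1 / 3) / C0 := by field_simp
        _ ≤ (1 / 3) / c2 := div_le_div_of_nonneg_left (by norm_num) hc20 hc2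
        _ ≤ Real.exp (-(x ^ (-(2 * θ)))) / c2 := by gcongr)
    (by
      refine le_trans ?_ hMlow
      apply Real.rpow_le_rpow (by positivity) (by linarith) (by positivity))
    hΞ0.le
    (by
      have h1 : 2 * Real.pi * x ^ (-(2 * θ)) * x ^ θ = 2 * Real.pi * x ^ (-θ) := by
        rw [mul_assoc, hωΞ]
      rw [h1, Real.rpow_neg hx0.le, ← div_eq_mul_inv, div_le_iff₀ hΞ0]
      linarith)
    (by positivity) hηpos
    (by
      intro ξ hξ1 hξ2
      have h1 : |ξ| ≤ (M : ℝ) ^ ⌈4 * C0⌉₊ := by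
        refine hξ2.trans ?_
        have h2 : (4 : ℝ) * C0 ≤ ⌈4 * C0⌉₊ := Nat.le_ceil _
        calc x ^ 4 = x ^ (4 : ℝ) := by norm_cast
          _ ≤ x ^ (1 / C0 * (⌈4 * C0⌉₊ : ℝ)) := by
              apply Real.rpow_le_rpow_of_exponent_le hx1
              rw [one_div, ← div_eq_inv_mul, le_div_iff₀ hC00]
              exact h2
          _ = (x ^ (1 / C0)) ^ (⌈4 * C0⌉₊ : ℕ) := by
              rw [Real.rpow_mul hx0.le, Real.rpow_natCast]
          _ ≤ (M : ℝ) ^ ⌈4 * C0⌉₊ := by gcongr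
      have h2 := h3' M ξ (by omega) (hΞ1.trans hξ1) h1
      refine h2.trans ?_
      have hξ0 : 0 < |ξ| := lt_of_lt_of_le hΞ0 hξ1
      have h4 : Real.log M / |ξ| ≤ Real.log M / x ^ θ := by gcongr
      calc C * M * (Real.log M / |ξ| + (M : ℝ) ^ (-η0)) ≤
            C * M * (Real.log M / x ^ θ + (M : ℝ) ^ (-η0)) := by gcongr
        _ = η * M := by rw [hη]; ring)
  obtain ⟨hI1, hI2⟩ := w10b_int (by omega) hP ha (by linarith) hw2 hc1 hc12 hmain.1 hmain.2
  refine ⟨hI1, hI2.trans ?_⟩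
  set E : ℝ := (1000 * Real.pi * x ^ (-(2 * θ)) * x ^ θ + 1000 * η + 3 * x / √(x ^ 4)) / 32 with hE
  have hE0 : 0 ≤ E := by
    have := Real.pi_pos
    positivity
  have hEle : E ≤ (96 * Real.pi + 64 * C * (5 + Real.log x) + 3) * x ^ (-θ) := by
    have h1 : 1000 * Real.pi * x ^ (-(2 * θ)) * x ^ θ = 1000 * Real.pi * x ^ (-θ) := by
      rw [mul_assoc, hωΞ]
    have h2 : 3 * x / √(x ^ 4) ≤ 3 * x ^ (-θ) := by
      rw [hsqrt]
      have h3 : 3 * x / x ^ 2 = 3 * x ^ (-1 : ℝ) := by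
        rw [Real.rpow_neg_one]
        field_simp
      rw [h3]
      have h4 : x ^ (-1 : ℝ) ≤ x ^ (-θ) :=
        Real.rpow_le_rpow_of_exponent_le hx1 (by linarith)
      linarith
    have hxθ0 : 0 < x ^ (-θ) := Real.rpow_pos_of_pos hx0 _
    have hpi := Real.pi_pos
    have hCl : 0 ≤ C * (5 + Real.log x) * x ^ (-θ) := by positivity
    have hpx : 0 ≤ Real.pi * x ^ (-θ) := by positivity
    rw [hE, h1]
    have h6 : (96 * Real.pi + 64 * C * (5 + Real.log x) + 3) * x ^ (-θ) =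
        96 * (Real.pi * x ^ (-θ)) + 64 * (C * (5 + Real.log x) * x ^ (-θ)) + 3 * x ^ (-θ) := by
      ring
    rw [h6]
    linarith
  have hnum := t10b_num hC0 hC hθ0 hθ2 hx16 hc1 hc12 hc2 (by linarith) hlog0
    (Real.log_le_rpow_div hx0.le (by positivity)) hJ1' hJup hJlow hM0.le hMup hE0 hEle hXfin
  have hfinal : 32 * x ^ (1 / c2 - θ / 8) ≤ x ^ (1 / c2 - θ / 16) := by
    have h1 : x ^ (1 / c2 - θ / 16) = x ^ (θ / 16) * x ^ (1 / c2 - θ / 8) := by
      rw [← Real.rpow_add hx0]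
      congr 1
      ring
    rw [h1]
    have h2 : 0 < x ^ (1 / c2 - θ / 8) := Real.rpow_pos_of_pos hx0 _
    gcongr
  refine le_trans ?_ ((mul_le_mul_of_nonneg_left hnum (by norm_num : (0 : ℝ) ≤ 32)).trans hfinal)
  have hlog2 : Real.log (2 * x + 1) ≤ 2 + Real.log x := by
    have h1 : Real.log (2 * x + 1) ≤ Real.log (3 * x) :=
      Real.log_le_log (by linarith) (by linarith)
    rw [Real.log_mul (by norm_num) hx0.ne'] at h1
    have := Real.log_le_sub_one_of_pos (show (0 : ℝ) < 3 by norm_num)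
    linarith
  have hlog20 : 0 ≤ Real.log (2 * x + 1) := Real.log_nonneg (by linarith)
  have hω1 : 4 / x ^ (-(2 * θ)) = 4 * x ^ (2 * θ) := by
    rw [Real.rpow_neg hx0.le]
    simp
  have hc0 : 0 ≤ c2 - c1 := by linarith
  rw [hω1]
  have h2x := hrp 2 (by norm_num)
  have h2x0 : 0 ≤ (2 * x) ^ (1 / c1) := by positivity
  have h3x : (2 * x + 1) ^ (1 / c1) ≤ 3 * x ^ (1 / c1) := by
    refine le_trans ?_ (hrp 3 (by norm_num))
    apply Real.rpow_le_rpow (by positivity) (by linarith) (by positivity)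
  have hL0 : 0 ≤ x ^ (1 / c1) := by positivity
  have hx2θ : 1 ≤ x ^ (2 * θ) := Real.one_le_rpow hx1 (by positivity)
  exact w10b_cmp hc1 hc12 hJ1' hlog0 hlog20 hlog2 hx2θ hω0 hL0 h2x0 h2x
    (Real.rpow_nonneg (by linarith) _) h3x

end Pool.Agent.H706R2.PS
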