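import Pool.Agent.H706R2.PS.WDefs

/-! W11: perturbation of the exponent -/

open Finset MeasureTheory Filter

namespace Pool.Agent.H706R2.PS

namespace W11H

theorem expo {x : ℝ} (hx : 1 ≤ x) {a b δ : ℝ} (hδ : |b - a| * Real.log x ≤ δ) (hδ1 : δ ≤ 1) :
    |x ^ b - x ^ a| ≤ x ^ a * (2 * δ) := by
  have hx0 : 0 < x := by linarith
  have hl : 0 ≤ Real.log x := Real.log_nonneg hx
  have e1 : x ^ b - x ^ a = x ^ a * (Real.exp (Real.log x * (b - a)) - 1) := by
    rw [← Real.rpow_def_of_pos hx0, mul_sub, mul_one, ← Real.rpow_add hx0]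
    congr 2
    ring
  have h1 : |Real.log x * (b - a)| ≤ δ := by
    rw [abs_mul, abs_of_nonneg hl, mul_comm]
    exact hδ
  have h2 := Real.abs_exp_sub_one_le (h1.trans hδ1)
  rw [e1, abs_mul, abs_of_pos (Real.rpow_pos_of_pos hx0 a)]
  apply mul_le_mul_of_nonneg_left _ (Real.rpow_pos_of_pos hx0 a).le
  linarith

theorem pert {X k : ℕ} (hX : 16 ≤ X) (hk : 1 ≤ k) {a b ε r : ℝ} (ha : 1 ≤ a) (hε : 0 < ε)
    (hε4 : ε ≤ 1 / 4)
    (hr : 0 ≤ r) (h : 32 * r * X * Real.log (4 * X) ≤ ε) (hab : |b - a| ≤ r)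
    (hka : (k : ℝ) ^ a ≤ 2 * X + 1) : |(k : ℝ) ^ b - (k : ℝ) ^ a| < ε := by
  have hXr : (16 : ℝ) ≤ X := by exact_mod_cast hX
  have hk1 : (1 : ℝ) ≤ k := by exact_mod_cast hk
  have hkle : (k : ℝ) ≤ 4 * X := by
    calc (k : ℝ) = (k : ℝ) ^ (1 : ℝ) := (Real.rpow_one _).symm
      _ ≤ (k : ℝ) ^ a := Real.rpow_le_rpow_of_exponent_le hk1 ha
      _ ≤ 2 * X + 1 := hka
      _ ≤ 4 * X := by linarith
  have hlog : Real.log k ≤ Real.log (4 * X) := Real.log_le_log (by linarith) hkle
  have hl4 : 0 ≤ Real.log (4 * X) := Real.log_nonneg (by linarith)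
  have hδ : |b - a| * Real.log k ≤ r * Real.log (4 * X) :=
    mul_le_mul hab hlog (Real.log_nonneg hk1) hr
  have hrl : 0 ≤ r * Real.log (4 * X) := by positivity
  have hδX : 32 * X * (r * Real.log (4 * X)) ≤ ε := by
    calc _ = 32 * r * X * Real.log (4 * X) := by ring
      _ ≤ ε := h
  have hδ1 : r * Real.log (4 * X) ≤ 1 := by nlinarith
  have h1 := expo hk1 hδ hδ1
  have h2 : (k : ℝ) ^ a * (2 * (r * Real.log (4 * X))) ≤ (3 * X) * (2 * (r * Real.log (4 * X))) := by
    apply mul_le_mul_of_nonneg_right _ (by positivity)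
    linarith
  have h3 : (3 * X) * (2 * (r * Real.log (4 * X))) ≤ 6 / 32 * ε := by linarith
  calc _ ≤ _ := h1
    _ ≤ _ := h2
    _ ≤ 6 / 32 * ε := h3
    _ < ε := by linarith

end W11H

open W11H in
theorem w11 : W11 := by
  intro X P c1 c c' ε r hX hP hc1 hc hc' hε hε4 hr h hcc
  have hXr : (16 : ℝ) ≤ X := by exact_mod_cast hX
  have hmX : ∀ m ∈ P, (X : ℝ) < m ∧ (m : ℝ) ≤ 2 * X := by
    intro m hm
    have := mem_Ioc.1 (hP hm)
    exact ⟨by exact_mod_cast this.1, by exact_mod_cast this.2⟩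
  have hcc' : |c' - c| ≤ r := by rw [abs_sub_comm]; exact hcc
  refine ⟨?_, ?_, ?_⟩
  · unfold cntw cnt
    apply sum_le_sum
    intro k hk
    have hk3 := (mem_Ico.1 hk).1
    have : (P.filter (fun m : ℕ => (m : ℝ) + ε ≤ (k : ℝ) ^ c' ∧ (k : ℝ) ^ c' < m + ε + (1 - 2 * ε))) ⊆
        P.filter (fun m : ℕ => (m : ℝ) ≤ (k : ℝ) ^ c ∧ (k : ℝ) ^ c < m + 1) := by
      intro m hm
      rw [mem_filter] at hm ⊢
      obtain ⟨hmP, h1, h2⟩ := hm
      have hm2 := (hmX m hmP).2
      have h3 := pert hX (by omega : 1 ≤ k) (by linarith : 1 ≤ c') hε hε4 hr h hcc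
        (by linarith : (k : ℝ) ^ c' ≤ 2 * X + 1)
      rw [abs_lt] at h3
      exact ⟨hmP, by linarith, by linarith⟩
    exact_mod_cast card_le_card this
  · unfold cntw cnt
    apply sum_le_sum
    intro k hk
    have hk3 := (mem_Ico.1 hk).1
    have : (P.filter (fun m : ℕ => (m : ℝ) ≤ (k : ℝ) ^ c ∧ (k : ℝ) ^ c < m + 1)) ⊆
        P.filter (fun m : ℕ => (m : ℝ) + -ε ≤ (k : ℝ) ^ c' ∧ (k : ℝ) ^ c' < m + -ε + (1 + 2 * ε)) := by
      intro m hm
      rw [mem_filter] at hm ⊢
      obtain ⟨hmP, h1, h2⟩ := hm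
      have hm2 := (hmX m hmP).2
      have h3 := pert hX (by omega : 1 ≤ k) (by linarith : 1 ≤ c) hε hε4 hr h hcc'
        (by linarith : (k : ℝ) ^ c ≤ 2 * X + 1)
      rw [abs_lt] at h3
      exact ⟨hmP, by linarith, by linarith⟩
    exact_mod_cast card_le_card this
  · have hl4 : 0 ≤ Real.log (4 * X) := Real.log_nonneg (by linarith)
    have hl1 : 1 ≤ Real.log (4 * X) := by
      rw [Real.le_log_iff_exp_le (by linarith)]
      have := Real.exp_one_lt_d9
      linarith
    set q : ℝ := (X : ℝ) ^ (1 / c1 - 1) with hq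
    have hq0 : 0 < q := Real.rpow_pos_of_pos (by linarith) _
    have hrl : 0 ≤ r * Real.log (4 * X) := by positivity
    have hδX : 32 * X * (r * Real.log (4 * X)) ≤ ε := by
      calc _ = 32 * r * X * Real.log (4 * X) := by ring
        _ ≤ ε := h
    have hδ1 : r * Real.log (4 * X) ≤ 1 := by nlinarith
    have hc0 : 0 < c := by linarith
    have hc0' : 0 < c' := by linarith
    have hss : |1 / c - 1 / c'| ≤ r := by
      have e : 1 / c - 1 / c' = (c' - c) / (c * c') := by field_simp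
      rw [e, abs_div, abs_of_pos (by positivity : 0 < c * c')]
      rw [div_le_iff₀ (by positivity)]
      have : 1 ≤ c * c' := by nlinarith
      nlinarith
    have hterm : ∀ m ∈ P, |(1 / c) * (m : ℝ) ^ (1 / c - 1) - (1 / c') * (m : ℝ) ^ (1 / c' - 1)| ≤
        q * (3 * (r * Real.log (4 * X))) := by
      intro m hm
      obtain ⟨hm1, hm2⟩ := hmX m hm
      have hm0 : (1 : ℝ) ≤ m := by linarith
      have hlog : Real.log m ≤ Real.log (4 * X) := Real.log_le_log (by linarith) (by linarith)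
      have hpow : ∀ d : ℝ, c1 ≤ d → (m : ℝ) ^ (1 / d - 1) ≤ q := by
        intro d hd
        have hd0 : 0 < d := by linarith
        have h1 : 1 / d ≤ 1 / c1 := one_div_le_one_div_of_le (by linarith) hd
        have h2 : 1 / c1 ≤ 1 := by rw [div_le_one (by linarith)]; exact hc1
        calc (m : ℝ) ^ (1 / d - 1) ≤ (m : ℝ) ^ (1 / c1 - 1) :=
              Real.rpow_le_rpow_of_exponent_le hm0 (by linarith)
          _ ≤ (X : ℝ) ^ (1 / c1 - 1) :=
              Real.rpow_le_rpow_of_nonpos (by linarith) hm1.le (by linarith)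
      have h3 : |(m : ℝ) ^ (1 / c - 1) - (m : ℝ) ^ (1 / c' - 1)| ≤
          (m : ℝ) ^ (1 / c' - 1) * (2 * (r * Real.log (4 * X))) := by
        apply expo hm0 _ hδ1
        have e : 1 / c - 1 - (1 / c' - 1) = 1 / c - 1 / c' := by ring
        rw [e]
        exact mul_le_mul hss hlog (Real.log_nonneg hm0) hr
      have e : (1 / c) * (m : ℝ) ^ (1 / c - 1) - (1 / c') * (m : ℝ) ^ (1 / c' - 1) =
          (1 / c - 1 / c') * (m : ℝ) ^ (1 / c - 1) +
            (1 / c') * ((m : ℝ) ^ (1 / c - 1) - (m : ℝ) ^ (1 / c' - 1)) := by ring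
      rw [e]
      have hmp : ∀ d : ℝ, 0 ≤ (m : ℝ) ^ d := fun d => Real.rpow_nonneg (by linarith) _
      have hc1' : 1 / c' ≤ 1 := by rw [div_le_one hc0']; linarith
      calc _ ≤ |(1 / c - 1 / c') * (m : ℝ) ^ (1 / c - 1)| +
            |(1 / c') * ((m : ℝ) ^ (1 / c - 1) - (m : ℝ) ^ (1 / c' - 1))| := abs_add_le _ _
        _ ≤ r * q + 1 * (q * (2 * (r * Real.log (4 * X)))) := by
            rw [abs_mul, abs_mul, abs_of_nonneg (hmp _), abs_of_pos (by positivity : 0 < 1 / c')]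
            apply add_le_add
            · exact mul_le_mul hss (hpow c hc) (hmp _) hr
            · apply mul_le_mul hc1' _ (abs_nonneg _) zero_le_one
              refine h3.trans ?_
              exact mul_le_mul_of_nonneg_right (hpow c' hc') (by positivity)
        _ ≤ q * (3 * (r * Real.log (4 * X))) := by
            have : r * q ≤ q * (r * Real.log (4 * X)) := by
              have h5 : r ≤ r * Real.log (4 * X) := le_mul_of_one_le_right hr hl1
              calc r * q ≤ (r * Real.log (4 * X)) * q := mul_le_mul_of_nonneg_right h5 hq0.le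
                _ = _ := by ring
            linarith
    have hcard : (P.card : ℝ) ≤ X := by
      have h1 := card_le_card hP
      rw [Nat.card_Ioc] at h1
      have : P.card ≤ X := by omega
      exact_mod_cast this
    have hXq : (X : ℝ) * q = (X : ℝ) ^ (1 / c1) := by
      rw [hq, Real.rpow_sub (by linarith), Real.rpow_one]
      field_simp
    unfold mainT
    rw [← sum_sub_distrib]
    calc |∑ m ∈ P, ((1 / c) * (m : ℝ) ^ (1 / c - 1) - (1 / c') * (m : ℝ) ^ (1 / c' - 1))|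
        ≤ ∑ m ∈ P, |(1 / c) * (m : ℝ) ^ (1 / c - 1) - (1 / c') * (m : ℝ) ^ (1 / c' - 1)| :=
          abs_sum_le_sum_abs _ _
      _ ≤ ∑ m ∈ P, q * (3 * (r * Real.log (4 * X))) := sum_le_sum hterm
      _ = P.card * (q * (3 * (r * Real.log (4 * X)))) := by rw [sum_const, nsmul_eq_mul]
      _ ≤ X * (q * (3 * (r * Real.log (4 * X)))) :=
          mul_le_mul_of_nonneg_right hcard (by positivity)
      _ = (3 * (r * Real.log (4 * X))) * (X : ℝ) ^ (1 / c1) := by rw [← hXq]; ring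
      _ ≤ ε / X * (X : ℝ) ^ (1 / c1) := by
          apply mul_le_mul_of_nonneg_right _ (Real.rpow_nonneg (by linarith) _)
          rw [le_div_iff₀ (by linarith)]
          have : 0 ≤ X * (r * Real.log (4 * X)) := by positivity
          linarith

end Pool.Agent.H706R2.PS
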