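import Pool.Agent.H706R2.PS.WDefs

/-! W12: covering of the bad sets by few short intervals. (helper965) -/

open Finset MeasureTheory Filter

namespace Pool.Agent.H706R2.PS

/-- counting the cells which meet `B` -/
private lemma w12_cells (c1 c2 r : ℝ) (h12 : c1 ≤ c2) (hr : 0 < r) (B V : Set ℝ)
    (hB : B ⊆ Set.Icc c1 c2)
    (hV : ∀ c ∈ B, ∀ c' ∈ Set.Icc c1 c2, |c - c'| ≤ r → c' ∈ V) :
    ∃ S : Finset ℝ, ((S.card : ℝ) - 1) * r ≤ (volume.restrict (Set.Icc c1 c2)).real V ∧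
      B ⊆ ⋃ x ∈ S, Set.Icc x (x + r) := by
  classical
  set J : ℕ := ⌊(c2 - c1) / r⌋₊ with hJ
  set Ce : ℕ → Set ℝ := fun j => Set.Ico (c1 + j * r) (c1 + (j + 1) * r) with hCe
  set JB : Finset ℕ := (range (J + 1)).filter (fun j => ∃ c ∈ B, c ∈ Ce j) with hJB
  have hJle : c1 + J * r ≤ c2 := by
    have h1 : (J : ℝ) ≤ (c2 - c1) / r := Nat.floor_le (div_nonneg (by linarith) hr.le)
    rw [le_div_iff₀ hr] at h1
    linarith
  refine ⟨JB.image (fun j : ℕ => c1 + j * r), ?_, ?_⟩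
  · -- the cells except the last one are contained in `V`
    have hsub : ∀ j ∈ JB.erase J, Ce j ⊆ V ∩ Set.Icc c1 c2 := by
      intro j hj c' hc'
      obtain ⟨hjJ, hj2⟩ := Finset.mem_erase.1 hj
      obtain ⟨hj3, c, hcB, hcj⟩ := Finset.mem_filter.1 hj2
      have hj4 : j + 1 ≤ J := by
        have := Finset.mem_range.1 hj3
        omega
      have hj5 : ((j : ℝ) + 1) ≤ J := by exact_mod_cast hj4
      have hc'1 : c1 + j * r ≤ c' := hc'.1
      have hc'2 : c' < c1 + (j + 1) * r := hc'.2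
      have hj0 : (0 : ℝ) ≤ j * r := by positivity
      have hj6 : ((j : ℝ) + 1) * r ≤ J * r := mul_le_mul_of_nonneg_right hj5 hr.le
      have hIcc : c' ∈ Set.Icc c1 c2 := ⟨by linarith, by linarith⟩
      refine ⟨hV c hcB c' hIcc ?_, hIcc⟩
      have hc1 : c1 + j * r ≤ c := hcj.1
      have hc2 : c < c1 + (j + 1) * r := hcj.2
      rw [abs_le]
      constructor <;> linarith
    have hdisj : (↑(JB.erase J) : Set ℕ).PairwiseDisjoint Ce := by
      intro a _ b _ hab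
      rw [Function.onFun, Set.disjoint_left]
      rintro y ⟨hy1, hy2⟩ ⟨hy3, hy4⟩
      rcases lt_or_gt_of_ne hab with h | h
      · have h1 : ((a : ℝ) + 1) ≤ b := by exact_mod_cast h
        have h2 := mul_le_mul_of_nonneg_right h1 hr.le
        linarith
      · have h1 : ((b : ℝ) + 1) ≤ a := by exact_mod_cast h
        have h2 := mul_le_mul_of_nonneg_right h1 hr.le
        linarith
    have hm : ∀ b ∈ JB.erase J, MeasurableSet (Ce b) := fun b _ => measurableSet_Ico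
    have h1 : (volume.restrict (Set.Icc c1 c2)).real (⋃ b ∈ JB.erase J, Ce b) =
        ∑ _j ∈ JB.erase J, r := by
      rw [measureReal_biUnion_finset hdisj hm]
      apply Finset.sum_congr rfl
      intro j hj
      rw [measureReal_restrict_apply (hm j hj),
        Set.inter_eq_left.2 fun y hy => (hsub j hj hy).2, hCe]
      simp only
      rw [Real.volume_real_Ico_of_le (by linarith)]
      ring
    rw [Finset.sum_const, nsmul_eq_mul] at h1
    have h2 : (volume.restrict (Set.Icc c1 c2)).real (⋃ b ∈ JB.erase J, Ce b) ≤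
        (volume.restrict (Set.Icc c1 c2)).real V := by
      refine measureReal_mono ?_ (measure_ne_top _ _)
      intro y hy
      rw [Set.mem_iUnion₂] at hy
      obtain ⟨j, hj, hy⟩ := hy
      exact (hsub j hj hy).1
    have h3 : ((JB.image (fun j : ℕ => c1 + j * r)).card : ℝ) - 1 ≤ ((JB.erase J).card : ℝ) := by
      have h4 : (JB.image (fun j : ℕ => c1 + j * r)).card ≤ JB.card := Finset.card_image_le
      have h5 : JB.card ≤ (JB.erase J).card + 1 :=
      Nat.le_add_of_sub_le Finset.pred_card_le_card_erase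
      have h6 : ((JB.image (fun j : ℕ => c1 + j * r)).card : ℝ) ≤ ((JB.erase J).card : ℝ) + 1 := by
        exact_mod_cast h4.trans h5
      linarith
    calc _ ≤ ((JB.erase J).card : ℝ) * r := mul_le_mul_of_nonneg_right h3 hr.le
      _ ≤ _ := by rw [← h1]; exact h2
  · intro c hc
    have hc1 := (hB hc).1
    have hc2 := (hB hc).2
    have h0 : 0 ≤ (c - c1) / r := div_nonneg (by linarith) hr.le
    have hj1 : (⌊(c - c1) / r⌋₊ : ℝ) * r ≤ c - c1 := by
      rw [← le_div_iff₀ hr]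
      exact Nat.floor_le h0
    have hj2 : c - c1 < ((⌊(c - c1) / r⌋₊ : ℝ) + 1) * r := by
      rw [← div_lt_iff₀ hr]
      exact Nat.lt_floor_add_one _
    have hjJ : ⌊(c - c1) / r⌋₊ ≤ J :=
      Nat.floor_le_floor (div_le_div_of_nonneg_right (by linarith) hr.le)
    rw [Set.mem_iUnion₂]
    refine ⟨c1 + (⌊(c - c1) / r⌋₊ : ℝ) * r, ?_, ?_⟩
    · rw [Finset.mem_image]
      refine ⟨⌊(c - c1) / r⌋₊, ?_, rfl⟩
      rw [hJB, Finset.mem_filter, Finset.mem_range]
      refine ⟨by omega, c, hc, ?_⟩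
      rw [hCe]
      exact ⟨by linarith, by linarith⟩
    · constructor <;> linarith

/-- Markov's inequality -/
private lemma w12_markov (c1 c2 : ℝ) (F : ℝ → ℝ) (hF : ∀ c, 0 ≤ F c)
    (hi : IntegrableOn F (Set.Icc c1 c2)) (I l : ℝ) (hl : 0 < l)
    (hI : ∫ c in Set.Icc c1 c2, F c ≤ I) :
    (volume.restrict (Set.Icc c1 c2)).real {c | l ≤ F c} ≤ I / l := by
  have h := mul_meas_ge_le_integral_of_nonneg (μ := volume.restrict (Set.Icc c1 c2))
    (Filter.Eventually.of_forall hF) hi l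
  rw [le_div_iff₀ hl, mul_comm]
  exact h.trans hI

/-- the main term is small -/
private lemma w12_main (X : ℕ) (hX : 1 ≤ X) (P : Finset ℕ) (hP : P ⊆ Ioc X (2 * X)) (c1 c : ℝ)
    (h1 : 1 ≤ c1) (hc : c1 ≤ c) : 0 ≤ mainT P c ∧ mainT P c ≤ (X : ℝ) ^ (1 / c1) := by
  have hX0 : (0 : ℝ) < X := by exact_mod_cast hX
  have hX1 : (1 : ℝ) ≤ X := by exact_mod_cast hX
  have hc0 : 0 < c := by linarith
  have hc1' : 1 / c ≤ 1 := by
    rw [div_le_one hc0]
    linarith
  unfold mainT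
  constructor
  · exact Finset.sum_nonneg fun m _ => by positivity
  · have hcard : P.card ≤ X := by
      have := Finset.card_le_card hP
      rw [Nat.card_Ioc] at this
      omega
    calc ∑ m ∈ P, (1 / c) * (m : ℝ) ^ (1 / c - 1) ≤ ∑ _m ∈ P, (X : ℝ) ^ (1 / c - 1) := by
          apply Finset.sum_le_sum
          intro m hm
          have hm1 : X < m := (Finset.mem_Ioc.1 (hP hm)).1
          have hm2 : (X : ℝ) ≤ m := by exact_mod_cast hm1.le
          have h2 : (m : ℝ) ^ (1 / c - 1) ≤ (X : ℝ) ^ (1 / c - 1) :=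
            Real.rpow_le_rpow_of_nonpos hX0 hm2 (by linarith)
          have h3 : (0 : ℝ) ≤ (m : ℝ) ^ (1 / c - 1) := by positivity
          calc (1 / c) * (m : ℝ) ^ (1 / c - 1) ≤ 1 * (m : ℝ) ^ (1 / c - 1) :=
                mul_le_mul_of_nonneg_right hc1' h3
            _ ≤ _ := by rw [one_mul]; exact h2
      _ = (P.card : ℝ) * (X : ℝ) ^ (1 / c - 1) := by rw [Finset.sum_const, nsmul_eq_mul]
      _ ≤ (X : ℝ) * (X : ℝ) ^ (1 / c - 1) := by
          apply mul_le_mul_of_nonneg_right _ (by positivity)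
          exact_mod_cast hcard
      _ = (X : ℝ) ^ (1 / c) := by
          rw [Real.rpow_sub hX0, Real.rpow_one]
          field_simp
      _ ≤ (X : ℝ) ^ (1 / c1) := by
          apply Real.rpow_le_rpow_of_exponent_le hX1
          exact one_div_le_one_div_of_le (by linarith) hc

/-- large powers of two -/
private lemma w12_large (κ : ℝ) (hκ : 0 < κ) (X0 : ℕ) : ∃ i0 : ℕ, ∀ i : ℕ, i0 ≤ i →
    X0 ≤ 2 ^ i ∧ 16 ≤ 2 ^ i ∧
    32 * Real.log (4 * (2 : ℝ) ^ i) ≤ ((2 : ℝ) ^ i) ^ (3 * κ / 16) ∧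
    13 ≤ ((2 : ℝ) ^ i) ^ (3 * κ / 16) := by
  have h1 : ∀ᶠ x : ℝ in atTop, Real.log x ≤ 1 / 64 * x ^ (3 * κ / 16) := by
    have h := (isLittleO_log_rpow_atTop (show 0 < 3 * κ / 16 by positivity)).def
      (show (0 : ℝ) < 1 / 64 by norm_num)
    filter_upwards [h, eventually_ge_atTop 1] with x hx hx1
    rw [Real.norm_of_nonneg (Real.log_nonneg hx1),
      Real.norm_of_nonneg (Real.rpow_nonneg (by linarith) _)] at hx
    exact hx
  have h2 : ∀ᶠ x : ℝ in atTop, 13 ≤ x ^ (3 * κ / 16) :=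
    (tendsto_rpow_atTop (show 0 < 3 * κ / 16 by positivity)).eventually_ge_atTop 13
  have h3 := (h1.and (h2.and ((eventually_ge_atTop (16 : ℝ)).and (eventually_ge_atTop (X0 : ℝ)))))
  have h4 := (tendsto_pow_atTop_atTop_of_one_lt (show (1 : ℝ) < 2 by norm_num)).eventually h3
  obtain ⟨i0, hi0⟩ := eventually_atTop.1 h4
  refine ⟨i0, fun i hi => ?_⟩
  obtain ⟨a1, a2, a3, a4⟩ := hi0 i hi
  refine ⟨by exact_mod_cast a4, by exact_mod_cast a3, ?_, a2⟩
  have hx0 : (0 : ℝ) < 2 ^ i := by positivity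
  have h5 : Real.log (4 * (2 : ℝ) ^ i) ≤ 2 * Real.log ((2 : ℝ) ^ i) := by
    rw [Real.log_mul (by norm_num) hx0.ne']
    have : Real.log 4 ≤ Real.log ((2 : ℝ) ^ i) := Real.log_le_log (by norm_num) (by linarith)
    linarith
  linarith

/-- W12 -/
theorem w12 (h10 : W10b) (h11 : W11) : W12 := by
  classical
  intro C0 hC0
  obtain ⟨κ, hκ, hκC, h⟩ := h10 C0 hC0
  refine ⟨κ, hκ, hκC, fun c1 c2 h1 h12 h2 h3 => ?_⟩
  obtain ⟨X0, hX0⟩ := h c1 c2 h1 h12 h2 h3
  obtain ⟨i0, hi0⟩ := w12_large κ hκ X0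
  refine ⟨i0, fun A i hi => ?_⟩
  obtain ⟨hXX0, hX16, hlog, h13⟩ := hi0 i hi
  have hXc : (((2 ^ i : ℕ)) : ℝ) = (2 : ℝ) ^ i := by push_cast; rfl
  set X : ℕ := 2 ^ i with hX
  set x : ℝ := (2 : ℝ) ^ i with hx
  have hx16 : (16 : ℝ) ≤ x := by rw [← hXc]; exact_mod_cast hX16
  have hx0 : 0 < x := by linarith
  have hx1 : 1 ≤ x := by linarith
  have hκ1 : κ ≤ 1 / 8 := by
    refine hκC.trans ?_
    apply one_div_le_one_div_of_le (by norm_num)
    linarith
  set T : ℕ := ⌈x ^ (κ / 4)⌉₊ with hT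
  set K : Finset ℕ := Ico 3 (⌈(4 * x) ^ (1 / c1)⌉₊) with hK
  set P : ℕ → Finset ℕ := fun t => Ax A X (yp X T t) with hPd
  have hP : ∀ t, P t ⊆ Ioc X (2 * X) := by
    intro t m hm
    rw [hPd] at hm
    unfold Ax at hm
    have h4 := Finset.mem_Ioc.1 (Finset.mem_filter.1 hm).1
    rw [Finset.mem_Ioc]
    refine ⟨h4.1, h4.2.trans ?_⟩
    unfold yp
    exact min_le_right _ _
  set ε : ℝ := x ^ (-(7 * κ / 4)) with hε
  set r : ℝ := x ^ (-(1 + 31 * κ / 16)) with hr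
  set lam : ℝ := x ^ (1 / c2 - κ / 2) with hlam
  have hε0 : 0 < ε := Real.rpow_pos_of_pos hx0 _
  have hr0 : 0 < r := Real.rpow_pos_of_pos hx0 _
  have hlam0 : 0 < lam := Real.rpow_pos_of_pos hx0 _
  have h13' : 13 ≤ x ^ (κ / 4) :=
    h13.trans (Real.rpow_le_rpow_of_exponent_le hx1 (by linarith))
  have hε4 : ε ≤ 1 / 4 := by
    have h4 : 13 ≤ x ^ (7 * κ / 4) :=
      h13.trans (Real.rpow_le_rpow_of_exponent_le hx1 (by linarith))
    rw [hε, Real.rpow_neg hx0.le, ← one_div]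
    exact one_div_le_one_div_of_le (by norm_num) (by linarith)
  have hrε : 32 * r * X * Real.log (4 * X) ≤ ε := by
    rw [hXc]
    have e1 : r * x = x ^ (-(31 * κ / 16)) := by
      rw [hr, ← Real.rpow_add_one hx0.ne']
      congr 1
      ring
    have e2 : ε = x ^ (-(31 * κ / 16)) * x ^ (3 * κ / 16) := by
      rw [hε, ← Real.rpow_add hx0]
      congr 1
      ring
    have e3 : 32 * r * x * Real.log (4 * x) = x ^ (-(31 * κ / 16)) * (32 * Real.log (4 * x)) := by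
      rw [← e1]
      ring
    rw [e3, e2]
    exact mul_le_mul_of_nonneg_left hlog (Real.rpow_nonneg hx0.le _)
  -- the error terms
  have herr : 3 * (ε * x ^ (1 / c1)) ≤ lam / 2 := by
    have e1 : ε * x ^ (1 / c1) ≤ x ^ (1 / c2 - 3 * κ / 4) := by
      rw [hε, ← Real.rpow_add hx0]
      exact Real.rpow_le_rpow_of_exponent_le hx1 (by linarith)
    have e2 : lam = x ^ (1 / c2 - 3 * κ / 4) * x ^ (κ / 4) := by
      rw [hlam, ← Real.rpow_add hx0]
      congr 1
      ring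
    have e3 : 0 < x ^ (1 / c2 - 3 * κ / 4) := Real.rpow_pos_of_pos hx0 _
    rw [e2]
    nlinarith
  -- the two integrated functions
  have hint : ∀ (t : ℕ) (a w : ℝ), |a| ≤ 1 → 1 / 2 ≤ w → w ≤ 2 →
      (volume.restrict (Set.Icc c1 c2)).real
        {c | lam / 2 ≤ |cntw (P t) K a w c - w * mainT (P t) c|} ≤ 2 * x ^ (-(κ / 2)) := by
    intro t a w ha hw1 hw2
    obtain ⟨g1, g2⟩ := hX0 X hXX0 (P t) (hP t) a w ha hw1 hw2
    rw [hXc] at g1 g2
    have g3 := w12_markov c1 c2 _ (fun c => abs_nonneg _) g1 _ (lam / 2) (by positivity) g2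
    refine g3.trans (le_of_eq ?_)
    rw [hlam, div_div_eq_mul_div, mul_comm (x ^ (1 / c2 - κ)) 2, mul_div_assoc, ← Real.rpow_sub hx0]
    congr 2
    ring
  set V : Set ℝ := ⋃ t ∈ range (T + 1),
    ({c | lam / 2 ≤ |cntw (P t) K (-ε) (1 + 2 * ε) c - (1 + 2 * ε) * mainT (P t) c|} ∪
      {c | lam / 2 ≤ |cntw (P t) K ε (1 - 2 * ε) c - (1 - 2 * ε) * mainT (P t) c|}) with hV
  have hVm : (volume.restrict (Set.Icc c1 c2)).real V ≤ 12 * x ^ (-(κ / 4)) := by
    have a1 : (volume.restrict (Set.Icc c1 c2)).real V ≤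
        ∑ _t ∈ range (T + 1), 4 * x ^ (-(κ / 2)) := by
      refine (measureReal_biUnion_finset_le _ _).trans (Finset.sum_le_sum fun t _ => ?_)
      refine (measureReal_union_le _ _).trans ?_
      have b1 := hint t (-ε) (1 + 2 * ε) (by rw [abs_neg, abs_of_pos hε0]; linarith)
        (by linarith) (by linarith)
      have b2 := hint t ε (1 - 2 * ε) (by rw [abs_of_pos hε0]; linarith)
        (by linarith) (by linarith)
      linarith
    rw [Finset.sum_const, Finset.card_range, nsmul_eq_mul] at a1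
    refine a1.trans ?_
    have a2 : (T : ℝ) < x ^ (κ / 4) + 1 := Nat.ceil_lt_add_one (Real.rpow_nonneg hx0.le _)
    have a3 : ((T + 1 : ℕ) : ℝ) ≤ 3 * x ^ (κ / 4) := by
      push_cast
      linarith
    have a4 : x ^ (κ / 4) * x ^ (-(κ / 2)) = x ^ (-(κ / 4)) := by
      rw [← Real.rpow_add hx0]
      congr 1
      ring
    have a5 : 0 < x ^ (-(κ / 2)) := Real.rpow_pos_of_pos hx0 _
    calc ((T + 1 : ℕ) : ℝ) * (4 * x ^ (-(κ / 2)))
        ≤ (3 * x ^ (κ / 4)) * (4 * x ^ (-(κ / 2))) :=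
          mul_le_mul_of_nonneg_right a3 (by positivity)
      _ = 12 * (x ^ (κ / 4) * x ^ (-(κ / 2))) := by ring
      _ = 12 * x ^ (-(κ / 4)) := by rw [a4]
  -- bad exponents
  have hbad : ∀ c ∈ Bad A κ c1 c2 i, ∀ c' ∈ Set.Icc c1 c2, |c - c'| ≤ r → c' ∈ V := by
    rintro c ⟨hc, t, ht, hct⟩ c' hc' hcc
    have hct' : lam < |cnt (P t) K c - mainT (P t) c| := hct
    have ht' : t ≤ T := ht
    obtain ⟨g1, g2, g3⟩ := h11 X (P t) c1 c c' ε r hX16 (hP t) h1 hc.1 hc'.1 hε0 hε4 hr0.le hrε hcc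
    rw [hXc] at g1 g2 g3
    obtain ⟨m1, m2⟩ := w12_main X (by omega) (P t) (hP t) c1 c' h1 hc'.1
    rw [hXc] at m2
    have hy0 : 0 < x ^ (1 / c1) := Real.rpow_pos_of_pos hx0 _
    have g4 : |mainT (P t) c - mainT (P t) c'| ≤ ε * x ^ (1 / c1) := by
      refine g3.trans (mul_le_mul_of_nonneg_right ?_ hy0.le)
      exact div_le_self hε0.le hx1
    have m3 : ε * mainT (P t) c' ≤ ε * x ^ (1 / c1) := mul_le_mul_of_nonneg_left m2 hε0.le
    have m4 : 0 ≤ ε * mainT (P t) c' := mul_nonneg hε0.le m1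
    obtain ⟨g5, g6⟩ := abs_le.1 g4
    rw [hV, Set.mem_iUnion₂]
    refine ⟨t, Finset.mem_range.2 (by omega), ?_⟩
    rcases lt_abs.1 hct' with hpos | hneg
    · left
      show lam / 2 ≤ |cntw (P t) K (-ε) (1 + 2 * ε) c' - (1 + 2 * ε) * mainT (P t) c'|
      refine le_trans ?_ (le_abs_self _)
      have g2' : cnt (P t) K c ≤ cntw (P t) K (-ε) (1 + 2 * ε) c' := g2
      linarith
    · right
      show lam / 2 ≤ |cntw (P t) K ε (1 - 2 * ε) c' - (1 - 2 * ε) * mainT (P t) c'|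
      refine le_trans ?_ (neg_le_abs _)
      have g1' : cntw (P t) K ε (1 - 2 * ε) c' ≤ cnt (P t) K c := g1
      linarith
  obtain ⟨S, hS1, hS2⟩ := w12_cells c1 c2 r h12 hr0 (Bad A κ c1 c2 i) V (fun c hc => hc.1) hbad
  refine ⟨S, ?_, hS2⟩
  have e1 : ((S.card : ℝ) - 1) * r ≤ 12 * x ^ (-(κ / 4)) := hS1.trans hVm
  have e2 : 12 * x ^ (-(κ / 4)) = 12 * x ^ (1 + 27 * κ / 16) * r := by
    rw [hr, mul_assoc, ← Real.rpow_add hx0]
    congr 2
    ring
  rw [e2] at e1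
  have e3 : (S.card : ℝ) - 1 ≤ 12 * x ^ (1 + 27 * κ / 16) := le_of_mul_le_mul_right e1 hr0
  have e4 : 1 ≤ x ^ (1 + 27 * κ / 16) := Real.one_le_rpow hx1 (by positivity)
  have e5 : x ^ (1 + 15 * κ / 8) = x ^ (1 + 27 * κ / 16) * x ^ (3 * κ / 16) := by
    rw [← Real.rpow_add hx0]
    congr 1
    ring
  rw [e5]
  nlinarith

end Pool.Agent.H706R2.PS
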