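import Pool.Agent.H706R2.PS.Defs

/-! T11b: Borel–Cantelli over dyadic blocks. -/

open Finset MeasureTheory Filter

namespace Pool.Agent.H706R2.PS

namespace T11baux

theorem Ax_mono (A : Set ℕ) (X : ℕ) {y y' : ℕ} (h : y ≤ y') : Ax A X y ⊆ Ax A X y' := by
  classical
  intro m hm
  unfold Ax at hm ⊢
  rw [Finset.mem_filter, Finset.mem_Ioc] at hm ⊢
  exact ⟨⟨hm.1.1, hm.1.2.trans h⟩, hm.2⟩

theorem nPS_mono (A : Set ℕ) (c : ℝ) (X : ℕ) {y y' : ℕ} (h : y ≤ y') :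
    nPS A c X y ≤ nPS A c X y' := by
  classical
  unfold nPS
  exact_mod_cast Finset.card_le_card (Finset.filter_subset_filter _ (Ax_mono A X h))

theorem mainT_mono {P P' : Finset ℕ} (c : ℝ) (hc : 1 ≤ c) (h : P ⊆ P') :
    mainT P c ≤ mainT P' c := by
  unfold mainT
  apply Finset.sum_le_sum_of_subset_of_nonneg h
  intro m _ _
  have : 0 ≤ 1 / c := by positivity
  exact mul_nonneg this (Real.rpow_nonneg (Nat.cast_nonneg m) _)

theorem mainT_le (A : Set ℕ) (X L : ℕ) {y y' : ℕ} (c : ℝ) (hX : 1 ≤ X) (hc : 1 ≤ c)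
    (hy : y' ≤ y + L) :
    mainT (Ax A X y') c ≤ mainT (Ax A X y) c + L * (X : ℝ) ^ (1 / c - 1) := by
  classical
  have hcov : mainT (Ax A X y') c ≤ mainT (Ax A X y) c + mainT (Ax A X y' \ Ax A X y) c := by
    have h1 : mainT (Ax A X y') c ≤ mainT (Ax A X y ∪ (Ax A X y' \ Ax A X y)) c := by
      apply mainT_mono c hc
      intro m hm
      rw [Finset.mem_union, Finset.mem_sdiff]
      by_cases h : m ∈ Ax A X y
      · exact Or.inl h
      · exact Or.inr ⟨hm, h⟩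
    refine h1.trans (le_of_eq ?_)
    unfold mainT
    exact Finset.sum_union Finset.disjoint_sdiff
  refine hcov.trans (by
    gcongr
    unfold mainT
    have hcard : ((Ax A X y' \ Ax A X y).card : ℝ) ≤ L := by
      have h2 : Ax A X y' \ Ax A X y ⊆ Ioc y y' := by
        intro m hm
        rw [Finset.mem_sdiff] at hm
        have h3 := hm.1
        have h4 := hm.2
        unfold Ax at h3 h4
        rw [Finset.mem_filter, Finset.mem_Ioc] at h3
        rw [Finset.mem_filter, Finset.mem_Ioc] at h4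
        rw [Finset.mem_Ioc]
        refine ⟨?_, h3.1.2⟩
        by_contra h5
        exact h4 ⟨⟨h3.1.1, not_lt.1 h5⟩, h3.2⟩
      have h6 := Finset.card_le_card h2
      rw [Nat.card_Ioc] at h6
      have : (Ax A X y' \ Ax A X y).card ≤ L := by omega
      exact_mod_cast this
    have hterm : ∀ m ∈ Ax A X y' \ Ax A X y, 1 / c * (m : ℝ) ^ (1 / c - 1) ≤
        (X : ℝ) ^ (1 / c - 1) := by
      intro m hm
      have h3 := (Finset.mem_sdiff.1 hm).1
      unfold Ax at h3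
      rw [Finset.mem_filter, Finset.mem_Ioc] at h3
      have hX0 : (0 : ℝ) < X := by exact_mod_cast hX
      have hmX : (X : ℝ) ≤ m := by exact_mod_cast h3.1.1.le
      have h1c : 1 / c ≤ 1 := by
        rw [div_le_one (by linarith)]; exact hc
      have h7 : (m : ℝ) ^ (1 / c - 1) ≤ (X : ℝ) ^ (1 / c - 1) :=
        Real.rpow_le_rpow_of_nonpos hX0 hmX (by linarith)
      have h8 : 0 ≤ (m : ℝ) ^ (1 / c - 1) := Real.rpow_nonneg (Nat.cast_nonneg m) _
      calc 1 / c * (m : ℝ) ^ (1 / c - 1) ≤ 1 * (m : ℝ) ^ (1 / c - 1) := by gcongr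
        _ ≤ (X : ℝ) ^ (1 / c - 1) := by rw [one_mul]; exact h7
    refine (Finset.sum_le_card_nsmul _ _ _ hterm).trans ?_
    rw [nsmul_eq_mul]
    have : 0 ≤ (X : ℝ) ^ (1 / c - 1) := Real.rpow_nonneg (Nat.cast_nonneg X) _
    gcongr)

/-- from the grid to all points -/
theorem det (A : Set ℕ) (X L y : ℕ) (c δ : ℝ) (hX : 1 ≤ X) (hL : 1 ≤ L) (hc : 1 ≤ c) (hy : X ≤ y)
    (hy2 : y ≤ 2 * X)
    (h : ∀ t, t < X / L + 2 → |nPS A c X (min (X + t * L) (2 * X)) -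
      mainT (Ax A X (min (X + t * L) (2 * X))) c| ≤ δ) :
    |nPS A c X y - mainT (Ax A X y) c| ≤ δ + L * (X : ℝ) ^ (1 / c - 1) := by
  set t : ℕ := (y - X) / L with ht
  have ht1 : t ≤ X / L := Nat.div_le_div_right (by omega)
  have h1 : t * L ≤ y - X := Nat.div_mul_le_self _ _
  have h2 : y - X < (t + 1) * L := by
    rw [ht, mul_comm]
    exact Nat.lt_mul_div_succ _ hL
  set y0 : ℕ := min (X + t * L) (2 * X) with hy0
  set y1 : ℕ := min (X + (t + 1) * L) (2 * X) with hy1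
  have hy0y : y0 ≤ y := by
    rw [hy0]; exact (min_le_left _ _).trans (by omega)
  have hyy1 : y ≤ y1 := by
    rw [hy1]; exact le_min (by omega) hy2
  have hy01 : y1 ≤ y0 + L := by
    rw [hy0, hy1, add_mul, one_mul]
    have hA : min (X + (t * L + L)) (2 * X) ≤ min (X + (t * L + L)) (2 * X + L) :=
      min_le_min_left _ (by omega)
    rw [← Nat.add_assoc, Nat.add_min_add_right] at hA
    rw [← Nat.add_assoc]
    exact hA
  have e0 := h t (by omega)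
  have e1 := h (t + 1) (by omega)
  have m1 := mainT_le A X L (y := y0) (y' := y1) c hX hc hy01
  have m2 := mainT_mono c hc (Ax_mono A X hy0y)
  have m3 := mainT_mono c hc (Ax_mono A X hyy1)
  have n1 := nPS_mono A c X hy0y
  have n2 := nPS_mono A c X hyy1
  rw [abs_le] at e0 e1 ⊢
  constructor <;> linarith [e0.1, e0.2, e1.1, e1.2]

theorem Ax_sub (A : Set ℕ) (X y : ℕ) (hy : y ≤ 2 * X) : Ax A X y ⊆ Ioc X (2 * X) := by
  classical
  intro m hm
  unfold Ax at hm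
  rw [Finset.mem_filter, Finset.mem_Ioc] at hm
  rw [Finset.mem_Ioc]
  exact ⟨hm.1.1, hm.1.2.trans hy⟩

end T11baux

open T11baux

theorem t11b (h10 : T10b) (h11 : T11a) : T11b := by
  intro C0 hC0
  obtain ⟨κ, hκ, hκ2, H⟩ := h10 C0 hC0
  refine ⟨κ, hκ, hκ2, ?_⟩
  intro A c1 c2 h1 h12 h2 h3
  obtain ⟨X0, HX⟩ := H c1 c2 h1 h12 h2 h3
  have hκ1 : κ ≤ 1 := by
    have : 1 / (2 * C0) ≤ 1 := by
      rw [div_le_one (by linarith)]; linarith
    linarith
  -- the error functions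
  let D : ℕ → ℕ → ℝ → ℝ := fun X y c =>
    cnt (Ax A X y) (Ico 3 (⌈(4 * X : ℝ) ^ (1 / c1)⌉₊)) c - mainT (Ax A X y) c
  let L : ℕ → ℕ := fun X => ⌈(X : ℝ) ^ (1 - κ / 4)⌉₊
  let g : ℕ → ℕ → ℕ := fun X t => min (X + t * L X) (2 * X)
  let ε : ℕ → ℝ := fun X => (X : ℝ) ^ (1 / c2 - κ / 2)
  let E : ℕ → ℕ → Set ℝ := fun X t => {c | ε X ≤ |D X (g X t) c|}
  let B : ℕ → Set ℝ := fun X => ⋃ t ∈ range (X / L X + 2), E X t
  let μ : Measure ℝ := volume.restrict (Set.Icc c1 c2)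
  have hμfin : IsFiniteMeasure μ := by
    constructor
    simp only [μ, Measure.restrict_apply MeasurableSet.univ, Set.univ_inter]
    exact measure_Icc_lt_top
  have hL1 : ∀ X : ℕ, 1 ≤ X → 1 ≤ L X := by
    intro X hX
    have : (0 : ℝ) < (X : ℝ) ^ (1 - κ / 4) := Real.rpow_pos_of_pos (by exact_mod_cast hX) _
    exact Nat.one_le_iff_ne_zero.2 (Nat.ceil_pos.2 this).ne'
  -- Markov
  have hE : ∀ X : ℕ, X0 ≤ X → 1 ≤ X → ∀ t, μ (E X t) ≤ ENNReal.ofReal ((X : ℝ) ^ (-(κ / 2))) := by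
    intro X hX hX1 t
    have hXp : (0 : ℝ) < X := by exact_mod_cast hX1
    obtain ⟨hI, hb⟩ := HX X hX (Ax A X (g X t)) (Ax_sub A X _ (min_le_right _ _))
    have hm := mul_meas_ge_le_integral_of_nonneg (μ := μ) (f := fun c => |D X (g X t) c|)
      (Filter.Eventually.of_forall fun c => abs_nonneg _) hI (ε X)
    have hεp : 0 < ε X := Real.rpow_pos_of_pos hXp _
    have h4 : ε X * μ.real (E X t) ≤ (X : ℝ) ^ (1 / c2 - κ) := hm.trans hb
    have h5 : μ.real (E X t) ≤ (X : ℝ) ^ (-(κ / 2)) := by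
      have h6 : (X : ℝ) ^ (1 / c2 - κ) = ε X * (X : ℝ) ^ (-(κ / 2)) := by
        simp only [ε]
        rw [← Real.rpow_add hXp]
        congr 1; ring
      rw [h6] at h4
      exact le_of_mul_le_mul_left h4 hεp
    rw [← ofReal_measureReal (μ := μ) (s := E X t)]
    exact ENNReal.ofReal_le_ofReal h5
  have hB : ∀ X : ℕ, X0 ≤ X → 1 ≤ X → μ (B X) ≤ ENNReal.ofReal (3 * (X : ℝ) ^ (-(κ / 4))) := by
    intro X hX hX1
    have hXp : (0 : ℝ) < X := by exact_mod_cast hX1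
    have hX1' : (1 : ℝ) ≤ X := by exact_mod_cast hX1
    have hcount : ((X / L X + 2 : ℕ) : ℝ) ≤ 3 * (X : ℝ) ^ (κ / 4) := by
      have h7 : ((X / L X : ℕ) : ℝ) ≤ (X : ℝ) / (L X : ℝ) := Nat.cast_div_le
      have h8 : (X : ℝ) ^ (1 - κ / 4) ≤ (L X : ℝ) := Nat.le_ceil _
      have h9 : (0 : ℝ) < (X : ℝ) ^ (1 - κ / 4) := Real.rpow_pos_of_pos hXp _
      have h10 : (X : ℝ) / (L X : ℝ) ≤ (X : ℝ) / (X : ℝ) ^ (1 - κ / 4) := by gcongr
      have h11 : (X : ℝ) / (X : ℝ) ^ (1 - κ / 4) = (X : ℝ) ^ (κ / 4) := by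
        rw [div_eq_iff h9.ne', ← Real.rpow_add hXp]
        have : κ / 4 + (1 - κ / 4) = 1 := by ring
        rw [this, Real.rpow_one]
      have h12 : (1 : ℝ) ≤ (X : ℝ) ^ (κ / 4) := Real.one_le_rpow hX1' (by positivity)
      push_cast
      linarith
    calc μ (B X) ≤ ∑ t ∈ range (X / L X + 2), μ (E X t) := measure_biUnion_finset_le _ _
      _ ≤ ∑ t ∈ range (X / L X + 2), ENNReal.ofReal ((X : ℝ) ^ (-(κ / 2))) :=
          Finset.sum_le_sum fun t _ => hE X hX hX1 t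
      _ = ENNReal.ofReal (((X / L X + 2 : ℕ) : ℝ) * (X : ℝ) ^ (-(κ / 2))) := by
          rw [Finset.sum_const, Finset.card_range, nsmul_eq_mul,
            ENNReal.ofReal_mul (Nat.cast_nonneg _), ENNReal.ofReal_natCast]
      _ ≤ ENNReal.ofReal (3 * (X : ℝ) ^ (-(κ / 4))) := by
          apply ENNReal.ofReal_le_ofReal
          have h13 : (0 : ℝ) ≤ (X : ℝ) ^ (-(κ / 2)) := Real.rpow_nonneg hXp.le _
          calc ((X / L X + 2 : ℕ) : ℝ) * (X : ℝ) ^ (-(κ / 2))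
              ≤ 3 * (X : ℝ) ^ (κ / 4) * (X : ℝ) ^ (-(κ / 2)) := by gcongr
            _ = 3 * (X : ℝ) ^ (-(κ / 4)) := by
                rw [mul_assoc, ← Real.rpow_add hXp]
                congr 2; ring
  -- Borel–Cantelli
  obtain ⟨i1, hi1⟩ : ∃ i1 : ℕ, X0 ≤ 2 ^ i1 := ⟨X0, Nat.lt_two_pow_self.le⟩
  have hX2 : ∀ n : ℕ, X0 ≤ 2 ^ (n + i1) := fun n =>
    hi1.trans (Nat.pow_le_pow_right (by norm_num) (by omega))
  have hsum : ∑' n : ℕ, μ (B (2 ^ (n + i1))) ≠ ⊤ := by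
    have hr0 : (0 : ℝ) < (2 : ℝ) ^ (-(κ / 4)) := Real.rpow_pos_of_pos (by norm_num) _
    have hr1 : (2 : ℝ) ^ (-(κ / 4)) < 1 :=
      Real.rpow_lt_one_of_one_lt_of_neg (by norm_num) (by linarith)
    have hs : Summable (fun n : ℕ => 3 * (((2 : ℝ) ^ (-(κ / 4))) ^ i1) *
        ((2 : ℝ) ^ (-(κ / 4))) ^ n) :=
      (summable_geometric_of_lt_one hr0.le hr1).mul_left _
    refine ne_top_of_le_ne_top hs.tsum_ofReal_ne_top ?_
    apply ENNReal.tsum_le_tsum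
    intro n
    refine (hB (2 ^ (n + i1)) (hX2 n) Nat.one_le_two_pow).trans (le_of_eq ?_)
    congr 1
    push_cast
    rw [← Real.rpow_natCast 2 (n + i1), ← Real.rpow_mul (by norm_num), mul_comm ((n + i1 : ℕ) : ℝ),
      Real.rpow_mul (by norm_num), Real.rpow_natCast, pow_add]
    ring
  have hBC := ae_eventually_notMem hsum
  have hBC2 : ∀ᵐ c ∂(volume : Measure ℝ), c ∈ Set.Icc c1 c2 →
      ∀ᶠ n in atTop, c ∉ B (2 ^ (n + i1)) := by
    rw [← ae_restrict_iff' measurableSet_Icc]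
    exact hBC
  filter_upwards [hBC2] with c hc hcI
  obtain ⟨n0, hn0⟩ := Filter.eventually_atTop.1 (hc hcI)
  obtain ⟨k0, hk0⟩ := exists_nat_gt c
  refine ⟨max (n0 + i1) k0, ?_⟩
  intro i hi y hy hy2
  have hin : n0 + i1 ≤ i := (le_max_left _ _).trans hi
  have hik : k0 ≤ i := (le_max_right _ _).trans hi
  obtain ⟨n, rfl⟩ : ∃ n, i = n + i1 := ⟨i - i1, by omega⟩
  have hnB := hn0 n (by omega)
  set X : ℕ := 2 ^ (n + i1) with hXdef
  have hX1 : 1 ≤ X := Nat.one_le_two_pow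
  have hXp : (0 : ℝ) < X := by exact_mod_cast hX1
  have hX1' : (1 : ℝ) ≤ X := by exact_mod_cast hX1
  have hXc : (X : ℝ) = (2 : ℝ) ^ (n + i1) := by rw [hXdef]; push_cast; rfl
  have hc1 : 1 ≤ c := h1.trans hcI.1
  have hc0 : 0 < c := by linarith
  have h2c : (2 : ℝ) ^ c < X := by
    rw [hXc, ← Real.rpow_natCast 2 (n + i1)]
    apply Real.rpow_lt_rpow_of_exponent_lt (by norm_num)
    have : (k0 : ℝ) ≤ ((n + i1 : ℕ) : ℝ) := by exact_mod_cast hik
    linarith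
  have hgrid : ∀ t, t < X / L X + 2 → |nPS A c X (min (X + t * L X) (2 * X)) -
      mainT (Ax A X (min (X + t * L X) (2 * X))) c| ≤ ε X := by
    intro t ht
    rw [h11 A X _ c c1 h1 hcI.1 h2c (min_le_right _ _)]
    by_contra hcon
    apply hnB
    simp only [B, Set.mem_iUnion]
    refine ⟨t, Finset.mem_range.2 ht, ?_⟩
    exact (not_le.1 hcon).le
  have hyX : y ≤ 2 * X := by
    rw [hXdef, mul_comm, ← pow_succ]; exact hy2
  have hfin := det A X (L X) y c (ε X) hX1 (hL1 X hX1) hc1 hy hyX hgrid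
  refine hfin.trans ?_
  rw [← hXc]
  have hε : ε X ≤ (X : ℝ) ^ (1 / c - κ / 4) := by
    apply Real.rpow_le_rpow_of_exponent_le hX1'
    have : 1 / c2 ≤ 1 / c := one_div_le_one_div_of_le hc0 hcI.2
    linarith
  have hLX : (L X : ℝ) * (X : ℝ) ^ (1 / c - 1) ≤ 2 * (X : ℝ) ^ (1 / c - κ / 4) := by
    have h14 : (L X : ℝ) ≤ 2 * (X : ℝ) ^ (1 - κ / 4) := by
      have h15 : (L X : ℝ) < (X : ℝ) ^ (1 - κ / 4) + 1 :=
        Nat.ceil_lt_add_one (Real.rpow_nonneg hXp.le _)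
      have h16 : (1 : ℝ) ≤ (X : ℝ) ^ (1 - κ / 4) := Real.one_le_rpow hX1' (by linarith)
      linarith
    have h17 : 0 ≤ (X : ℝ) ^ (1 / c - 1) := Real.rpow_nonneg hXp.le _
    calc (L X : ℝ) * (X : ℝ) ^ (1 / c - 1)
        ≤ 2 * (X : ℝ) ^ (1 - κ / 4) * (X : ℝ) ^ (1 / c - 1) := by gcongr
      _ = 2 * (X : ℝ) ^ (1 / c - κ / 4) := by
          rw [mul_assoc, ← Real.rpow_add hXp]
          congr 2; ring
  have h18 : 0 ≤ (X : ℝ) ^ (1 / c - κ / 4) := Real.rpow_nonneg hXp.le _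
  linarith

end Pool.Agent.H706R2.PS
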