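import Pool.Agent.H706R2.PS.WDefs
import Pool.Agent.H706R2.PS.T11b

/-! W13 (helper485): outside the upper limit of the bad sets the law holds on dyadic blocks. -/

open Finset MeasureTheory Filter

namespace Pool.Agent.H706R2.PS

open T11baux

theorem w13 (h11 : T11a) : W13 := by
  intro C0 κ c1 c2 hC0 hκ hκ2 h1 h12 h2 h3 A c hcI hex
  obtain ⟨i1, hi1⟩ := hex
  have hκ1 : κ ≤ 1 := by
    have : 1 / (8 * C0) ≤ 1 := by
      rw [div_le_one (by linarith)]; linarith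
    linarith
  obtain ⟨k0, hk0⟩ := exists_nat_gt c
  refine ⟨max i1 k0, ?_⟩
  intro i hi y hy hy2
  have hii : i1 ≤ i := (le_max_left _ _).trans hi
  have hik : k0 ≤ i := (le_max_right _ _).trans hi
  have hnB := hi1 i hii
  set X : ℕ := 2 ^ i with hXdef
  have hX1 : 1 ≤ X := Nat.one_le_two_pow
  have hXp : (0 : ℝ) < X := by exact_mod_cast hX1
  have hX1' : (1 : ℝ) ≤ X := by exact_mod_cast hX1
  have hXc : (2 : ℝ) ^ i = (X : ℝ) := by rw [hXdef]; push_cast; rfl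
  have hc1 : 1 ≤ c := h1.trans hcI.1
  have hc0 : 0 < c := by linarith
  have h2c : (2 : ℝ) ^ c < X := by
    rw [← hXc, ← Real.rpow_natCast 2 i]
    apply Real.rpow_lt_rpow_of_exponent_lt (by norm_num)
    have : (k0 : ℝ) ≤ (i : ℝ) := by exact_mod_cast hik
    linarith
  set T : ℕ := ⌈(X : ℝ) ^ (κ / 4)⌉₊ with hT
  have hT0 : (X : ℝ) ^ (κ / 4) ≤ T := Nat.le_ceil _
  have hT1 : (1 : ℝ) ≤ (X : ℝ) ^ (κ / 4) := Real.one_le_rpow hX1' (by linarith)
  have hTp : 0 < T := by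
    have : (0 : ℝ) < T := by linarith
    exact_mod_cast this
  set L : ℕ := X / T + 1 with hL
  have hXL : X / L < T := by
    rw [Nat.div_lt_iff_lt_mul (Nat.succ_pos _)]
    exact Nat.lt_mul_div_succ X hTp
  have hgrid : ∀ t, t < X / L + 2 → |nPS A c X (min (X + t * L) (2 * X)) -
      mainT (Ax A X (min (X + t * L) (2 * X))) c| ≤ (X : ℝ) ^ (1 / c2 - κ / 2) := by
    intro t ht
    have htT : t ≤ T := by omega
    rw [h11 A X _ c c1 h1 hcI.1 h2c (min_le_right _ _)]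
    by_contra hcon
    apply hnB
    refine ⟨hcI, t, ?_, ?_⟩
    · rw [hXc]
      exact htT
    · rw [hXc]
      exact not_le.1 hcon
  have hyX : y ≤ 2 * X := by
    rw [hXdef, mul_comm, ← pow_succ]; exact hy2
  have hfin := det A X L y c _ hX1 (Nat.succ_le_succ (Nat.zero_le _)) hc1 hy hyX hgrid
  refine hfin.trans ?_
  rw [hXc]
  have hε : (X : ℝ) ^ (1 / c2 - κ / 2) ≤ (X : ℝ) ^ (1 / c - κ / 4) := by
    apply Real.rpow_le_rpow_of_exponent_le hX1'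
    have : 1 / c2 ≤ 1 / c := one_div_le_one_div_of_le hc0 hcI.2
    linarith
  have hLX : (L : ℝ) * (X : ℝ) ^ (1 / c - 1) ≤ 2 * (X : ℝ) ^ (1 / c - κ / 4) := by
    have h14 : (L : ℝ) ≤ 2 * (X : ℝ) ^ (1 - κ / 4) := by
      have h15 : ((X / T : ℕ) : ℝ) ≤ (X : ℝ) / (T : ℝ) := Nat.cast_div_le
      have h16 : (X : ℝ) / (T : ℝ) ≤ (X : ℝ) / (X : ℝ) ^ (κ / 4) := by gcongr
      have h17 : (X : ℝ) / (X : ℝ) ^ (κ / 4) = (X : ℝ) ^ (1 - κ / 4) := by
        rw [Real.rpow_sub hXp, Real.rpow_one]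
      have h18 : (1 : ℝ) ≤ (X : ℝ) ^ (1 - κ / 4) := Real.one_le_rpow hX1' (by linarith)
      rw [hL]
      push_cast
      linarith
    have h17 : 0 ≤ (X : ℝ) ^ (1 / c - 1) := Real.rpow_nonneg hXp.le _
    calc (L : ℝ) * (X : ℝ) ^ (1 / c - 1)
        ≤ 2 * (X : ℝ) ^ (1 - κ / 4) * (X : ℝ) ^ (1 / c - 1) := by gcongr
      _ = 2 * (X : ℝ) ^ (1 / c - κ / 4) := by
          rw [mul_assoc, ← Real.rpow_add hXp]
          congr 2; ring
  have h18 : 0 ≤ (X : ℝ) ^ (1 / c - κ / 4) := Real.rpow_nonneg hXp.le _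
  linarith

end Pool.Agent.H706R2.PS
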