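import Pool.Agent.H706R2.PS.WDefs

/-! W4: second moment of `Fw` for the points `log log (m + a)`. -/

open Finset MeasureTheory Filter

namespace Pool.Agent.H706R2.PS

open Pool.Agent.H438R2.DL (Fw AD)

namespace W4x

lemma Fw_real {ι : Type*} (P : Finset ι) (x : ι → ℝ) (s u : ℝ) :
    Fw P x s u = ∑ p ∈ P, (1 / s) * Set.indicator (Set.Ico (x p - s) (x p)) (fun _ => (1 : ℝ)) u := by
  classical
  unfold Fw
  rw [← Finset.mul_sum, Finset.card_filter]
  push_cast
  congr 1
  refine Finset.sum_congr rfl fun p _ => ?_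
  by_cases h : u < x p ∧ x p ≤ u + s
  · rw [if_pos h, Set.indicator_of_mem]
    rw [Set.mem_Ico]; constructor <;> linarith [h.1, h.2]
  · rw [if_neg h, Set.indicator_of_notMem]
    rw [Set.mem_Ico]; intro h'; apply h; constructor <;> linarith [h'.1, h'.2]

/-- second moment of `Fw` bounded by the number of close pairs -/
lemma Fw_sq_le {ι : Type*} (P : Finset ι) (x : ι → ℝ) {s : ℝ} (hs : 0 < s) :
    ∫ u, (Fw P x s u) ^ 2 ≤ (1 / s) * (((P ×ˢ P).filter (fun i => |x i.1 - x i.2| < s)).card : ℝ) := by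
  classical
  have h1 : ∀ u, (Fw P x s u) ^ 2 = ∑ i ∈ P ×ˢ P, (1 / s ^ 2) *
      Set.indicator (Set.Ico (x i.1 - s) (x i.1) ∩ Set.Ico (x i.2 - s) (x i.2)) (fun _ => (1 : ℝ)) u := by
    intro u
    rw [Fw_real, sq, Finset.sum_mul_sum, Finset.sum_product]
    refine Finset.sum_congr rfl fun p _ => Finset.sum_congr rfl fun q _ => ?_
    simp only [Set.indicator_apply, Set.mem_inter_iff]
    by_cases h1 : u ∈ Set.Ico (x p - s) (x p) <;> by_cases h2 : u ∈ Set.Ico (x q - s) (x q) <;>
      simp [h1, h2] <;> field_simp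
  simp only [h1]
  have hmeas : ∀ i : ι × ι, MeasurableSet (Set.Ico (x i.1 - s) (x i.1) ∩ Set.Ico (x i.2 - s) (x i.2)) :=
    fun i => measurableSet_Ico.inter measurableSet_Ico
  have hvol : ∀ i : ι × ι, volume (Set.Ico (x i.1 - s) (x i.1) ∩ Set.Ico (x i.2 - s) (x i.2)) ≤ ENNReal.ofReal s := by
    intro i
    refine (measure_mono Set.inter_subset_left).trans ?_
    rw [Real.volume_Ico]
    simp
  rw [integral_finsetSum]
  · rw [Finset.card_filter]
    push_cast
    rw [Finset.mul_sum]
    refine Finset.sum_le_sum fun i _ => ?_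
    rw [integral_const_mul, integral_indicator_const _ (hmeas i), smul_eq_mul, mul_one]
    by_cases h : |x i.1 - x i.2| < s
    · rw [if_pos h]
      have h2 : volume.real (Set.Ico (x i.1 - s) (x i.1) ∩ Set.Ico (x i.2 - s) (x i.2)) ≤ s := by
        unfold Measure.real
        exact ENNReal.toReal_le_of_le_ofReal hs.le (hvol i)
      calc 1 / s ^ 2 * volume.real (Set.Ico (x i.1 - s) (x i.1) ∩ Set.Ico (x i.2 - s) (x i.2)) ≤
          1 / s ^ 2 * s := by gcongr
        _ = 1 / s * 1 := by field_simp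
    · rw [if_neg h]
      have h2 : Set.Ico (x i.1 - s) (x i.1) ∩ Set.Ico (x i.2 - s) (x i.2) = ∅ := by
        ext u
        simp only [Set.mem_inter_iff, Set.mem_Ico, Set.mem_empty_iff_false, iff_false]
        rintro ⟨⟨h3, h4⟩, h5, h6⟩
        apply h
        rw [abs_lt]
        constructor <;> linarith
      rw [h2]
      simp
  · intro i _
    apply Integrable.const_mul
    rw [integrable_indicator_iff (hmeas i)]
    refine integrableOn_const (lt_of_le_of_lt (hvol i) ENNReal.ofReal_lt_top).ne (by simp)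

lemma num {X : ℝ} (hX : 4 ≤ X) :
    (2 * X + 1) * Real.log (2 * X + 1) ≤ 4 * X * Real.log (2 * X) := by
  have h2X : (0 : ℝ) < 2 * X := by linarith
  have h1 : Real.log (2 * X + 1) ≤ Real.log (2 * X) + 1 / (2 * X) := by
    have h : (2 * X + 1) = (2 * X) * (1 + 1 / (2 * X)) := by field_simp
    rw [h, Real.log_mul h2X.ne' (by positivity)]
    have := Real.log_le_sub_one_of_pos (show (0 : ℝ) < 1 + 1 / (2 * X) by positivity)
    linarith
  have h2 : 1 ≤ Real.log (2 * X) := by
    rw [Real.le_log_iff_exp_le h2X]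
    linarith [Real.exp_one_lt_d9]
  have h3 : (2 * X + 1) * Real.log (2 * X + 1) ≤ (2 * X + 1) * (Real.log (2 * X) + 1 / (2 * X)) := by
    gcongr
  have h4 : (2 * X + 1) * (Real.log (2 * X) + 1 / (2 * X)) =
      2 * X * Real.log (2 * X) + Real.log (2 * X) + 1 + 1 / (2 * X) := by
    field_simp
    ring
  have h5 : 1 / (2 * X) ≤ 1 := by
    rw [div_le_one h2X]; linarith
  nlinarith

theorem main {X : ℕ} {P : Finset ℕ} {a : ℝ} (hX : 4 ≤ X) (hP : P ⊆ Ioc X (2 * X)) (ha : |a| ≤ 1)
    {s : ℝ} (hs : 0 < s) :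
    ∫ u, (Fw P (lla a) s u) ^ 2 ≤ (P.card : ℝ) * (8 * X * Real.log (2 * X) + 1 / s) := by
  refine (Fw_sq_le P _ hs).trans ?_
  have hX3 : (4 : ℝ) ≤ X := by exact_mod_cast hX
  have hX' : (0 : ℝ) < X := by linarith
  have hlog : 0 < Real.log (2 * X) := Real.log_pos (by linarith)
  rw [abs_le] at ha
  have hlog1 : 0 < Real.log (2 * X + 1) := Real.log_pos (by linarith)
  have hcard : (((P ×ˢ P).filter (fun i => |lla a i.1 - lla a i.2| < s)).card : ℝ) ≤
      P.card * (8 * X * Real.log (2 * X) * s + 1) := by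
    rw [card_filter, sum_product]
    push_cast
    rw [← nsmul_eq_mul, ← sum_const]
    refine sum_le_sum fun p hp => ?_
    have hp1 := mem_Ioc.mp (hP hp)
    have hp0 : (X : ℝ) < p := by exact_mod_cast hp1.1
    have hp2 : (p : ℝ) ≤ 2 * X := by exact_mod_cast hp1.2
    have h1 : (∑ q ∈ P, if |lla a p - lla a q| < s then (1 : ℝ) else 0) =
        ((P.filter (fun q : ℕ => |lla a p - lla a q| < s)).card : ℝ) := by
      rw [card_filter]; push_cast; rfl
    rw [h1]
    set R : ℝ := 4 * X * Real.log (2 * X) * s with hR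
    have hsub : (P.filter (fun q : ℕ => |lla a p - lla a q| < s)).image (fun q : ℕ => (q : ℤ)) ⊆
        Finset.Icc ⌈(p : ℝ) - R⌉ ⌊(p : ℝ) + R⌋ := by
      intro z hz
      rw [mem_image] at hz
      obtain ⟨q, hq, rfl⟩ := hz
      rw [mem_filter] at hq
      obtain ⟨hqP, hq⟩ := hq
      have hq1 := mem_Ioc.mp (hP hqP)
      have hq0 : (X : ℝ) < q := by exact_mod_cast hq1.1
      have hq2 : (q : ℝ) ≤ 2 * X := by exact_mod_cast hq1.2
      rw [abs_lt] at hq
      unfold lla at hq
      have key : ∀ b d : ℝ, (X : ℝ) - 1 < b → (X : ℝ) - 1 < d → b ≤ 2 * X + 1 →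
          Real.log (Real.log b) - Real.log (Real.log d) < s → b - d ≤ R := by
        intro a b ha hb haX hab
        have hla : 0 < Real.log a := Real.log_pos (by linarith)
        have hlb : 0 < Real.log b := Real.log_pos (by linarith)
        have ha0 : 0 < a := by linarith
        have hb0 : 0 < b := by linarith
        have h1 : 1 - (Real.log a / Real.log b)⁻¹ ≤ Real.log (Real.log a / Real.log b) :=
          Real.one_sub_inv_le_log_of_pos (by positivity)
        rw [Real.log_div hla.ne' hlb.ne', inv_div] at h1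
        have h2 : 1 - Real.log b / Real.log a < s := lt_of_le_of_lt h1 hab
        have h3 : Real.log a - Real.log b = (1 - Real.log b / Real.log a) * Real.log a := by
          field_simp
        have h4 : Real.log a ≤ Real.log (2 * X + 1) := Real.log_le_log ha0 haX
        have h5 : Real.log a - Real.log b ≤ s * Real.log (2 * X + 1) := by
          rw [h3]
          calc (1 - Real.log b / Real.log a) * Real.log a ≤ s * Real.log a := by gcongr
            _ ≤ s * Real.log (2 * X + 1) := by gcongr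
        have h6 : 1 - (a / b)⁻¹ ≤ Real.log (a / b) :=
          Real.one_sub_inv_le_log_of_pos (by positivity)
        rw [Real.log_div ha0.ne' hb0.ne', inv_div] at h6
        have h7 : 1 - b / a ≤ s * Real.log (2 * X + 1) := h6.trans h5
        have h8 : a - b = (1 - b / a) * a := by field_simp
        rw [h8, hR]
        calc (1 - b / a) * a ≤ (s * Real.log (2 * X + 1)) * a := by gcongr
          _ ≤ (s * Real.log (2 * X + 1)) * (2 * X + 1) := by gcongr
          _ = ((2 * X + 1) * Real.log (2 * X + 1)) * s := by ring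
          _ ≤ (4 * X * Real.log (2 * X)) * s := by
            have := num hX3
            gcongr
      have k1 := key (p + a) (q + a) (by linarith) (by linarith) (by linarith) (by linarith)
      have k2 := key (q + a) (p + a) (by linarith) (by linarith) (by linarith) (by linarith)
      rw [Finset.mem_Icc, Int.ceil_le, Int.le_floor]
      push_cast
      constructor <;> linarith
    have h2 := card_le_card hsub
    rw [card_image_of_injective _ Nat.cast_injective, Int.card_Icc] at h2
    have h3 : ((⌊(p : ℝ) + R⌋ + 1 - ⌈(p : ℝ) - R⌉).toNat : ℝ) ≤ 2 * R + 1 := by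
      have h4 : (⌊(p : ℝ) + R⌋ : ℝ) ≤ p + R := Int.floor_le _
      have h5 : (p : ℝ) - R ≤ ⌈(p : ℝ) - R⌉ := Int.le_ceil _
      have hR0 : 0 ≤ R := by rw [hR]; positivity
      rcases le_or_gt 0 (⌊(p : ℝ) + R⌋ + 1 - ⌈(p : ℝ) - R⌉) with h6 | h6
      · have h7 : ((⌊(p : ℝ) + R⌋ + 1 - ⌈(p : ℝ) - R⌉).toNat : ℝ) =
            ((⌊(p : ℝ) + R⌋ + 1 - ⌈(p : ℝ) - R⌉ : ℤ) : ℝ) := by
          have := Int.toNat_of_nonneg h6
          exact_mod_cast this
        rw [h7]; push_cast; linarith
      · rw [Int.toNat_of_nonpos h6.le]; simp; positivity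
    have h4 : ((P.filter (fun q : ℕ => |lla a p - lla a q| < s)).card : ℝ) ≤
        ((⌊(p : ℝ) + R⌋ + 1 - ⌈(p : ℝ) - R⌉).toNat : ℝ) := by exact_mod_cast h2
    refine h4.trans (h3.trans (le_of_eq ?_))
    rw [hR]; ring
  calc 1 / s * (((P ×ˢ P).filter (fun i => |lla a i.1 - lla a i.2| < s)).card : ℝ) ≤
      1 / s * (P.card * (8 * X * Real.log (2 * X) * s + 1)) := by gcongr
    _ = _ := by field_simp

end W4x

theorem w4 : W4 := fun _ _ _ _ hX hP ha hs => W4x.main hX hP ha hs

end Pool.Agent.H706R2.PS
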