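import Pool.Agent.H706R2.PS.WDefs

/-! Task W6 (helper86, after T6 of helper329): sandwich for windows. -/

set_option autoImplicit false

open Finset MeasureTheory Filter

namespace Pool.Agent.H706R2.PS

open Pool.Agent.H438R2.DL (Fw AD)

namespace W6h

lemma diff_bounds {a w : ℝ} (ha : 1 < a) (hw : 0 < w) :
    w / ((a + w) * Real.log (a + w)) ≤ Real.log (Real.log (a + w)) - Real.log (Real.log a) ∧
      Real.log (Real.log (a + w)) - Real.log (Real.log a) ≤ w / (a * Real.log a) := by
  have hA : 0 < Real.log a := Real.log_pos ha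
  have hB : 0 < Real.log (a + w) := Real.log_pos (by linarith)
  have ha0 : 0 < a := by linarith
  have haw : 0 < a + w := by linarith
  have h1 : Real.log (a + w) - Real.log a = Real.log ((a + w) / a) :=
    (Real.log_div haw.ne' ha0.ne').symm
  have h2 : Real.log ((a + w) / a) ≤ w / a := by
    have := Real.log_le_sub_one_of_pos (show 0 < (a + w) / a by positivity)
    have e : (a + w) / a - 1 = w / a := by field_simp; ring
    linarith
  have h3 : w / (a + w) ≤ Real.log ((a + w) / a) := by
    have := Real.one_sub_inv_le_log_of_pos (show 0 < (a + w) / a by positivity)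
    have e : 1 - ((a + w) / a)⁻¹ = w / (a + w) := by
      rw [inv_div]
      field_simp
      ring
    linarith
  have h4 : Real.log (Real.log (a + w)) - Real.log (Real.log a) =
      Real.log (Real.log (a + w) / Real.log a) := (Real.log_div hB.ne' hA.ne').symm
  have hr : 0 < Real.log (a + w) / Real.log a := by positivity
  rw [h4]
  constructor
  · have h5 := Real.one_sub_inv_le_log_of_pos hr
    have e : 1 - (Real.log (a + w) / Real.log a)⁻¹ =
        (Real.log (a + w) - Real.log a) / Real.log (a + w) := by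
      rw [inv_div]
      field_simp
    refine le_trans ?_ h5
    rw [e, h1, le_div_iff₀ hB]
    have e2 : w / ((a + w) * Real.log (a + w)) * Real.log (a + w) = w / (a + w) := by
      field_simp
    rw [e2]
    exact h3
  · have h5 := Real.log_le_sub_one_of_pos hr
    have e : Real.log (a + w) / Real.log a - 1 =
        (Real.log (a + w) - Real.log a) / Real.log a := by
      field_simp
    refine h5.trans ?_
    rw [e, h1, div_le_iff₀ hA]
    have e2 : w / (a * Real.log a) * Real.log a = w / a := by
      field_simp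
    rw [e2]
    exact h2

lemma sl_le {b w N2 : ℝ} (hb : 1 < b) (hw : 0 < w) (h : b + w ≤ N2 + 3) :
    w * slw N2 ≤ Real.log (Real.log (b + w)) - Real.log (Real.log b) := by
  refine le_trans ?_ (diff_bounds hb hw).1
  unfold slw
  have h1 : 0 < Real.log (b + w) := Real.log_pos (by linarith)
  have h2 : Real.log (b + w) ≤ Real.log (N2 + 3) := Real.log_le_log (by linarith) h
  have h3 : (b + w) * Real.log (b + w) ≤ (N2 + 3) * Real.log (N2 + 3) :=
    mul_le_mul h h2 h1.le (by linarith)
  have h4 : 0 < (b + w) * Real.log (b + w) := mul_pos (by linarith) h1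
  rw [mul_one_div]
  exact div_le_div_of_nonneg_left hw.le h4 h3

lemma su_ge {b w N1 : ℝ} (hN : 1 < N1 - 1) (hw : 0 < w) (h : N1 - 1 < b) :
    Real.log (Real.log (b + w)) - Real.log (Real.log b) ≤ w * suw N1 := by
  refine (diff_bounds (hN.trans h) hw).2.trans ?_
  unfold suw
  have h1 : 0 < Real.log (N1 - 1) := Real.log_pos hN
  have h2 : Real.log (N1 - 1) ≤ Real.log b := Real.log_le_log (by linarith) h.le
  have h3 : (N1 - 1) * Real.log (N1 - 1) ≤ b * Real.log b :=
    mul_le_mul h.le h2 h1.le (by linarith)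
  have h4 : 0 < (N1 - 1) * Real.log (N1 - 1) := mul_pos (by linarith) h1
  rw [mul_one_div]
  exact div_le_div_of_nonneg_left hw.le h4 h3

lemma ll_le_iff {m k c : ℝ} (hm : 1 < m) (hk : 1 < k) (hc : 0 < c) :
    Real.log (Real.log m) ≤ Real.log c + Real.log (Real.log k) ↔ m ≤ k ^ c := by
  have hA : 0 < Real.log m := Real.log_pos hm
  have hB : 0 < Real.log k := Real.log_pos hk
  have hk0 : 0 < k := by linarith
  rw [← Real.log_mul hc.ne' hB.ne', Real.log_le_log_iff hA (by positivity),
    ← Real.log_rpow hk0, Real.log_le_log_iff (by linarith) (Real.rpow_pos_of_pos hk0 c)]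

lemma lt_ll_iff {m k c : ℝ} (hm : 1 < m) (hk : 1 < k) (hc : 0 < c) :
    Real.log c + Real.log (Real.log k) < Real.log (Real.log m) ↔ k ^ c < m := by
  rw [← not_le, ll_le_iff hm hk hc, not_le]

lemma sFw {P K : Finset ℕ} {a s w : ℝ} (hs : 0 < s) :
    s * ∑ k ∈ K, Fw P (lla a) s (w + -s + ll k) =
      ∑ k ∈ K, ((P.filter (fun m => w + ll k - s < lla a m ∧ lla a m ≤ w + ll k)).card : ℝ) := by
  rw [mul_sum]
  refine sum_congr rfl fun k _ => ?_
  unfold Fw
  rw [← mul_assoc, mul_one_div_cancel hs.ne', one_mul]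
  congr 2
  refine filter_congr fun m _ => ?_
  have e1 : w + -s + ll k = w + ll k - s := by ring
  rw [e1, sub_add_cancel]

end W6h

open W6h in
theorem w6 : W6 := by
  intro P M c N1 N2 a w hN1 hN12 hP ha hw hw2 hc
  obtain ⟨ha1, ha2⟩ := abs_le.1 ha
  have hsl : 0 < w * slw N2 := by
    unfold slw
    have : 0 < Real.log (N2 + 3) := Real.log_pos (by linarith)
    have : 0 < N2 + 3 := by linarith
    positivity
  have hsu : 0 < w * suw N1 := by
    unfold suw
    have : 0 < Real.log (N1 - 1) := Real.log_pos (by linarith)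
    have : 0 < N1 - 1 := by linarith
    positivity
  rw [sFw hsl, sFw hsu]
  unfold cntw
  constructor
  · refine sum_le_sum fun k hk => ?_
    have hk3 : (3 : ℝ) ≤ k := by exact_mod_cast (mem_Ico.mp hk).1
    refine Nat.cast_le.mpr (card_le_card fun m hm => ?_)
    rw [mem_filter] at hm ⊢
    obtain ⟨hmP, h1, h2⟩ := hm
    obtain ⟨h3, h4⟩ := hP m hmP
    have hm1 : (1 : ℝ) < (m : ℝ) + a := by linarith
    refine ⟨hmP, (ll_le_iff hm1 (by linarith) hc).mp h2, ?_⟩
    refine (lt_ll_iff (by linarith) (by linarith) hc).mp ?_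
    have h5 := sl_le (N2 := N2) hm1 hw (by linarith)
    unfold ll lla at h1
    linarith
  · refine sum_le_sum fun k hk => ?_
    have hk3 : (3 : ℝ) ≤ k := by exact_mod_cast (mem_Ico.mp hk).1
    refine Nat.cast_le.mpr (card_le_card fun m hm => ?_)
    rw [mem_filter] at hm ⊢
    obtain ⟨hmP, h1, h2⟩ := hm
    obtain ⟨h3, h4⟩ := hP m hmP
    have hm1 : (1 : ℝ) < (m : ℝ) + a := by linarith
    refine ⟨hmP, ?_, (ll_le_iff hm1 (by linarith) hc).mpr h1⟩
    have h6 := (lt_ll_iff (m := (m : ℝ) + a + w) (by linarith) (by linarith : (1 : ℝ) < k) hc).mpr h2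
    have h5 := su_ge (b := (m : ℝ) + a) (N1 := N1) (by linarith) hw (by linarith)
    unfold ll lla
    linarith

end Pool.Agent.H706R2.PS
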