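import Pool.Agent.H706R2.PS.WDefs

open Finset MeasureTheory Filter

namespace Pool.Agent.H706R2.PS

open Pool.Agent.H469R2.NK (e)
open Pool.Agent.H438R2.DL (Fw AD)

theorem w7_split (P : Finset ℕ) (M : ℕ) (a s ω c : ℝ) :
    s * ∑ k ∈ Ico 3 M, Fw P (lla a) s (Real.log c + (-s) + ll k) =
      s * ADw P M a s ω c + s * ∑ k ∈ Ico 3 M, Fw P (lla a) ω (Real.log c + ll k) := by
  unfold ADw AD
  rw [sum_sub_distrib]
  ring

theorem w7_main (P : Finset ℕ) (a c s ρ : ℝ) (hc : 1 ≤ c)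
    (hP : ∀ m ∈ P, |s * (((m : ℝ) + a) * Real.log ((m : ℝ) + a)) - 1| ≤ ρ)
    (hm : ∀ m ∈ P, 0 < (m : ℝ) + a) :
    |s * ∑ m ∈ P, ((m : ℝ) + a) ^ (1 / c) * (Real.log ((m : ℝ) + a) / c) - mainw P a c|
      ≤ ρ * mainw P a c := by
  have hc0 : 0 < c := by linarith
  have h1 : s * ∑ m ∈ P, ((m : ℝ) + a) ^ (1 / c) * (Real.log ((m : ℝ) + a) / c) - mainw P a c =
      ∑ m ∈ P, (1 / c) * ((m : ℝ) + a) ^ (1 / c - 1) *
        (s * (((m : ℝ) + a) * Real.log ((m : ℝ) + a)) - 1) := by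
    unfold mainw
    rw [mul_sum, ← sum_sub_distrib]
    refine sum_congr rfl fun m hmP => ?_
    have hm0 : (0 : ℝ) < (m : ℝ) + a := hm m hmP
    have h2 : ((m : ℝ) + a) ^ (1 / c) = ((m : ℝ) + a) ^ (1 / c - 1) * ((m : ℝ) + a) := by
      rw [Real.rpow_sub_one hm0.ne']
      field_simp
    rw [h2]
    ring
  rw [h1]
  unfold mainw
  rw [mul_sum]
  refine (abs_sum_le_sum_abs _ _).trans (sum_le_sum fun m hmP => ?_)
  have hm0 : (0 : ℝ) < (m : ℝ) + a := hm m hmP
  have h3 : 0 ≤ (1 / c) * ((m : ℝ) + a) ^ (1 / c - 1) := by positivity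
  rw [abs_mul, abs_of_nonneg h3, mul_comm ρ]
  exact mul_le_mul_of_nonneg_left (hP m hmP) h3

theorem w7 (h5 : W5) (h6 : W6) : W7 := by
  intro X M P c ω N1 N2 ρ a w hX hXN1 hN12 hN2 hP ha hw hw2 hc hω hω1 hbig hM hρ
  have hX3 : (4 : ℝ) ≤ X := by exact_mod_cast hX
  have ha' := abs_le.1 ha
  have hPX : P ⊆ Ioc X (2 * X) := by
    intro m hm
    obtain ⟨h1, h2⟩ := hP m hm
    rw [mem_Ioc]
    constructor
    · have : (X : ℝ) < m := by linarith
      exact_mod_cast this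
    · have : (m : ℝ) ≤ 2 * X := by linarith
      exact_mod_cast this
  have hm1 : ∀ m ∈ P, 0 < (m : ℝ) + a := fun m hm => by
    have := (hP m hm).1
    linarith [ha'.1]
  have hsm := h5 X M P c ω a hX hPX ha hc hω hω1 hbig hM
  obtain ⟨hlo, hup⟩ := h6 P M c N1 N2 a w (by linarith) hN12 hP ha hw hw2 (by linarith)
  set E : ℝ := P.card * ((2 * X + 1 : ℝ) ^ (1 / c) * Real.log (2 * X + 1) ^ 2 * ω + 1 / ω) with hE
  set Mω := ∑ k ∈ Ico 3 M, Fw P (lla a) ω (Real.log c + ll k) with hMω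
  have hE0 : 0 ≤ E := le_trans (abs_nonneg _) hsm
  have hN1 : (4 : ℝ) ≤ N1 := by linarith
  have hN2' : (4 : ℝ) ≤ N2 := by linarith
  have hl1 : 0 < Real.log (N1 - 1) := Real.log_pos (by linarith)
  have hl2 : 0 < Real.log (N2 + 3) := Real.log_pos (by linarith)
  have hsu0 : 0 < suw N1 := by
    unfold suw
    have : 0 < N1 - 1 := by linarith
    positivity
  have hsl0 : 0 < slw N2 := by
    unfold slw
    have : 0 < N2 + 3 := by linarith
    positivity
  have hslu0 : slw N2 ≤ suw N1 := by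
    unfold slw suw
    have : 0 < N1 - 1 := by linarith
    apply one_div_le_one_div_of_le (by positivity)
    apply mul_le_mul (by linarith) (Real.log_le_log (by linarith) (by linarith)) hl1.le (by linarith)
  have k1 := w7_main P a c (slw N2) ρ hc (fun m hm => (hρ m hm).1) hm1
  have k2 := w7_main P a c (suw N1) ρ hc (fun m hm => (hρ m hm).2) hm1
  set Q := ∑ m ∈ P, ((m : ℝ) + a) ^ (1 / c) * (Real.log ((m : ℝ) + a) / c) with hQ
  set mw := mainw P a c with hmw
  have k1' : |(w * slw N2) * Q - w * mw| ≤ ρ * (w * mw) := by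
    have h : (w * slw N2) * Q - w * mw = w * (slw N2 * Q - mw) := by ring
    rw [h, abs_mul, abs_of_pos hw]
    calc w * |slw N2 * Q - mw| ≤ w * (ρ * mw) := mul_le_mul_of_nonneg_left k1 hw.le
      _ = _ := by ring
  have k2' : |(w * suw N1) * Q - w * mw| ≤ ρ * (w * mw) := by
    have h : (w * suw N1) * Q - w * mw = w * (suw N1 * Q - mw) := by ring
    rw [h, abs_mul, abs_of_pos hw]
    calc w * |suw N1 * Q - mw| ≤ w * (ρ * mw) := mul_le_mul_of_nonneg_left k2 hw.le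
      _ = _ := by ring
  have hsu : 0 < w * suw N1 := mul_pos hw hsu0
  have hsl : 0 < w * slw N2 := mul_pos hw hsl0
  have hslu : w * slw N2 ≤ w * suw N1 := mul_le_mul_of_nonneg_left hslu0 hw.le
  rw [w7_split P M a (w * slw N2) ω c] at hlo
  rw [w7_split P M a (w * suw N1) ω c] at hup
  rw [← hMω] at hlo hup
  have e1 := abs_le.mp hsm
  have e2 := abs_le.mp k1'
  have e3 := abs_le.mp k2'
  have b1 : (w * suw N1) * Mω ≤ (w * suw N1) * Q + (w * suw N1) * E := by
    have := mul_le_mul_of_nonneg_left (show Mω ≤ Q + E by linarith [e1.2]) hsu.le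
    linarith
  have b2 : (w * slw N2) * Q - (w * slw N2) * E ≤ (w * slw N2) * Mω := by
    have := mul_le_mul_of_nonneg_left (show Q - E ≤ Mω by linarith [e1.1]) hsl.le
    linarith
  have b3 : (w * slw N2) * E ≤ (w * suw N1) * E := mul_le_mul_of_nonneg_right hslu hE0
  have b4 : (w * suw N1) * ADw P M a (w * suw N1) ω c
      ≤ (w * suw N1) * |ADw P M a (w * suw N1) ω c| :=
    mul_le_mul_of_nonneg_left (le_abs_self _) hsu.le
  have b5 : -((w * slw N2) * |ADw P M a (w * slw N2) ω c|)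
      ≤ (w * slw N2) * ADw P M a (w * slw N2) ω c := by
    have := mul_le_mul_of_nonneg_left (neg_abs_le (ADw P M a (w * slw N2) ω c)) hsl.le
    linarith
  have b6 : 0 ≤ (w * slw N2) * |ADw P M a (w * slw N2) ω c| := mul_nonneg hsl.le (abs_nonneg _)
  have b7 : 0 ≤ (w * suw N1) * |ADw P M a (w * suw N1) ω c| := mul_nonneg hsu.le (abs_nonneg _)
  rw [abs_le]
  constructor
  · linarith [e2.1, b2, b3, b5, b7, hlo]
  · linarith [e3.2, b1, b4, b6, hup]

end Pool.Agent.H706R2.PS
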