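import Pool.Agent.H706R2.PS.Defs

/-! Task T8: numerics for the pieces. -/

open Finset MeasureTheory Filter

namespace Pool.Agent.H706R2.PS

namespace T8x

theorem diff_le {a b : ℝ} (ha : 1 ≤ a) (hab : a ≤ b) :
    b * Real.log b - a * Real.log a ≤ (b - a) * (Real.log b + 1) := by
  have ha0 : 0 < a := by linarith
  have hb0 : 0 < b := by linarith
  have h1 : Real.log b - Real.log a = Real.log (b / a) := (Real.log_div hb0.ne' ha0.ne').symm
  have h2 : Real.log (b / a) ≤ b / a - 1 := Real.log_le_sub_one_of_pos (by positivity)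
  have h3 : a * (Real.log b - Real.log a) ≤ b - a := by
    rw [h1]
    calc a * Real.log (b / a) ≤ a * (b / a - 1) := mul_le_mul_of_nonneg_left h2 ha0.le
      _ = b - a := by field_simp
  nlinarith

theorem diff_nonneg {a b : ℝ} (ha : 1 ≤ a) (hab : a ≤ b) :
    a * Real.log a ≤ b * Real.log b := by
  have h1 : Real.log a ≤ Real.log b := Real.log_le_log (by linarith) hab
  have h2 : 0 ≤ Real.log a := Real.log_nonneg ha
  exact mul_le_mul hab h1 h2 (by linarith)

theorem log_three : 1.09 < Real.log 3 := by
  have h : Real.exp 1.09 < 3 := by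
    have h1 : Real.exp 1 < 2.7182818286 := Real.exp_one_lt_d9
    have h2 : Real.exp 0.09 ≤ 1.1 := by
      have := Real.exp_bound' (x := 0.09) (by norm_num) (by norm_num) (n := 3) (by norm_num)
      norm_num [Finset.sum_range_succ, Nat.factorial] at this
      norm_num
      linarith
    have h3 : (1.09 : ℝ) = 1 + 0.09 := by norm_num
    rw [h3, Real.exp_add]
    have h4 : 0 < Real.exp 0.09 := Real.exp_pos _
    nlinarith
  exact (Real.lt_log_iff_exp_lt (by norm_num)).2 h

end T8x

open T8x in
theorem t8 : T8 := by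
  intro X J m N1 N2 hX hJ hJX hXN hN2 hN hm1 hm2
  have hXr : (3 : ℝ) ≤ X := by exact_mod_cast hX
  have hJr : (1 : ℝ) ≤ J := by exact_mod_cast hJ
  have hJXr : (J : ℝ) ≤ X := by exact_mod_cast hJX
  have hJ0 : (0 : ℝ) < J := by linarith
  have hX0 : (0 : ℝ) < X := by linarith
  have hl3 := log_three
  have hlX : Real.log 3 ≤ Real.log X := Real.log_le_log (by norm_num) hXr
  have hN1 : (1 : ℝ) ≤ N1 := by linarith
  have hm : (1 : ℝ) ≤ m := by linarith
  have hJinv : (0 : ℝ) < 1 / J := by positivity
  constructor
  · -- lower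
    have hb : m ≤ N2 + 1 := by linarith
    have d1 := diff_le hm hb
    have d2 := diff_nonneg hm hb
    have hN23 : (3 : ℝ) ≤ N2 + 1 := by linarith
    have hlog : 1 ≤ Real.log (N2 + 1) := by
      have : Real.log 3 ≤ Real.log (N2 + 1) := Real.log_le_log (by norm_num) hN23
      linarith
    have hpos : 0 < (N2 + 1) * Real.log (N2 + 1) := by
      have : 0 < N2 + 1 := by linarith
      have : 0 < Real.log (N2 + 1) := by linarith
      positivity
    have e1 : sl N2 * (m * Real.log m) - 1 =
        -(((N2 + 1) * Real.log (N2 + 1) - m * Real.log m) / ((N2 + 1) * Real.log (N2 + 1))) := by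
      unfold sl
      field_simp
      ring
    rw [e1, abs_neg, abs_of_nonneg (div_nonneg (by linarith) hpos.le), div_le_iff₀ hpos]
    have h1 : N2 + 1 - m ≤ X / J + 1 := by linarith
    have h2 : (N2 + 1 - m) * (Real.log (N2 + 1) + 1) ≤ (X / J + 1) * (2 * Real.log (N2 + 1)) := by
      refine mul_le_mul h1 (by linarith) (by linarith) (by positivity)
    have h3 : (X : ℝ) / J + 1 ≤ 2 * X / J := by
      rw [le_div_iff₀ hJ0, add_mul, div_mul_cancel₀ _ hJ0.ne']
      linarith
    have h4 : (X / J + 1) * (2 * Real.log (N2 + 1)) ≤ (2 * X / J) * (2 * Real.log (N2 + 1)) :=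
      mul_le_mul_of_nonneg_right h3 (by linarith)
    have h5 : (2 * X / J) * (2 * Real.log (N2 + 1)) ≤
        8 / J * ((N2 + 1) * Real.log (N2 + 1)) := by
      have h6 : 2 * (X : ℝ) / J * (2 * Real.log (N2 + 1)) =
          1 / J * Real.log (N2 + 1) * (4 * X) := by ring
      have h7 : 8 / (J : ℝ) * ((N2 + 1) * Real.log (N2 + 1)) =
          1 / J * Real.log (N2 + 1) * (8 * (N2 + 1)) := by ring
      rw [h6, h7]
      refine mul_le_mul_of_nonneg_left ?_ (mul_nonneg hJinv.le (by linarith))
      have : (X : ℝ) ≤ N2 := by linarith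
      linarith
    linarith
  · -- upper
    have d1 := diff_le hN1 hm1.le
    have d2 := diff_nonneg hN1 hm1.le
    have hlog1 : 1 ≤ Real.log N1 := by
      have : Real.log X ≤ Real.log N1 := Real.log_le_log hX0 hXN
      linarith
    have hpos : 0 < N1 * Real.log N1 := by
      have : 0 < N1 := by linarith
      have : 0 < Real.log N1 := by linarith
      positivity
    have e1 : su N1 * (m * Real.log m) - 1 =
        (m * Real.log m - N1 * Real.log N1) / (N1 * Real.log N1) := by
      unfold su
      field_simp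
    rw [e1, abs_of_nonneg (div_nonneg (by linarith) hpos.le), div_le_iff₀ hpos]
    have h1 : m - N1 ≤ X / J := by linarith
    have hlm : Real.log m + 1 ≤ 3 * Real.log N1 := by
      have h2 : Real.log m ≤ Real.log (2 * N1) := by
        refine Real.log_le_log (by linarith) ?_
        linarith
      rw [Real.log_mul (by norm_num) (by linarith)] at h2
      have h3 := Real.log_two_lt_d9
      have h4 : Real.log X ≤ Real.log N1 := Real.log_le_log hX0 hXN
      linarith
    have hlm0 : 0 ≤ Real.log m := Real.log_nonneg hm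
    have h2 : (m - N1) * (Real.log m + 1) ≤ (X / J) * (3 * Real.log N1) :=
      mul_le_mul h1 hlm (by linarith) (by positivity)
    have h5 : (X / J) * (3 * Real.log N1) ≤ 8 / J * (N1 * Real.log N1) := by
      have h6 : (X : ℝ) / J * (3 * Real.log N1) = 1 / J * Real.log N1 * (3 * X) := by ring
      have h7 : 8 / (J : ℝ) * (N1 * Real.log N1) = 1 / J * Real.log N1 * (8 * N1) := by ring
      rw [h6, h7]
      refine mul_le_mul_of_nonneg_left ?_ (mul_nonneg hJinv.le (by linarith))
      linarith
    linarith

end Pool.Agent.H706R2.PS
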