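import Pool.Agent.H706R2.PS.WDefs
import Pool.Agent.H706R2.PS.T8

/-! Task W8: numerics for the pieces, windows. -/

open Finset MeasureTheory Filter

namespace Pool.Agent.H706R2.PS

open T8x in
theorem w8 : W8 := by
  intro X J m N1 N2 a hX hJ hJX hXN hN2 hN hm1 hm2 ha
  obtain ⟨ha1, ha2⟩ := abs_le.1 ha
  have hXr : (16 : ℝ) ≤ X := by exact_mod_cast hX
  have hJr : (1 : ℝ) ≤ J := by exact_mod_cast hJ
  have hJXr : (J : ℝ) ≤ X := by exact_mod_cast hJX
  have hJ0 : (0 : ℝ) < J := by linarith
  have hX0 : (0 : ℝ) < X := by linarith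
  have hl3 := log_three
  have hJinv : (0 : ℝ) < 1 / J := by positivity
  have hXJ : (1 : ℝ) ≤ X / J := by
    rw [le_div_iff₀ hJ0]
    linarith
  have hXJ' : (X : ℝ) / J ≤ X := by
    rw [div_le_iff₀ hJ0]
    nlinarith
  set y : ℝ := m + a with hy
  have hy1 : (1 : ℝ) ≤ y := by linarith
  constructor
  · -- lower
    have hb : y ≤ N2 + 3 := by linarith
    have d1 := diff_le hy1 hb
    have d2 := diff_nonneg hy1 hb
    have hN23 : (3 : ℝ) ≤ N2 + 3 := by linarith
    have hlog : 1 ≤ Real.log (N2 + 3) := by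
      have : Real.log 3 ≤ Real.log (N2 + 3) := Real.log_le_log (by norm_num) hN23
      linarith
    have hpos : 0 < (N2 + 3) * Real.log (N2 + 3) := by
      have : 0 < N2 + 3 := by linarith
      have : 0 < Real.log (N2 + 3) := by linarith
      positivity
    have e1 : slw N2 * (y * Real.log y) - 1 =
        -(((N2 + 3) * Real.log (N2 + 3) - y * Real.log y) / ((N2 + 3) * Real.log (N2 + 3))) := by
      unfold slw
      field_simp
      ring
    rw [e1, abs_neg, abs_of_nonneg (div_nonneg (by linarith) hpos.le), div_le_iff₀ hpos]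
    have h1 : N2 + 3 - y ≤ X / J + 4 := by linarith
    have h2 : (N2 + 3 - y) * (Real.log (N2 + 3) + 1) ≤ (X / J + 4) * (2 * Real.log (N2 + 3)) := by
      refine mul_le_mul h1 (by linarith) (by linarith) (by positivity)
    have h3 : (X : ℝ) / J + 4 ≤ 5 * (X / J) := by linarith
    have h4 : (X / J + 4) * (2 * Real.log (N2 + 3)) ≤ (5 * (X / J)) * (2 * Real.log (N2 + 3)) :=
      mul_le_mul_of_nonneg_right h3 (by linarith)
    have h5 : (5 * (X / J)) * (2 * Real.log (N2 + 3)) ≤
        32 / J * ((N2 + 3) * Real.log (N2 + 3)) := by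
      have h6 : 5 * ((X : ℝ) / J) * (2 * Real.log (N2 + 3)) =
          1 / J * Real.log (N2 + 3) * (10 * X) := by ring
      have h7 : 32 / (J : ℝ) * ((N2 + 3) * Real.log (N2 + 3)) =
          1 / J * Real.log (N2 + 3) * (32 * (N2 + 3)) := by ring
      rw [h6, h7]
      refine mul_le_mul_of_nonneg_left ?_ (mul_nonneg hJinv.le (by linarith))
      linarith
    linarith
  · -- upper
    have hn1 : (1 : ℝ) ≤ N1 - 1 := by linarith
    have hn15 : (15 : ℝ) ≤ N1 - 1 := by linarith
    have hyn : N1 - 1 ≤ y := by linarith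
    have d1 := diff_le hn1 hyn
    have d2 := diff_nonneg hn1 hyn
    have hlog1 : 2 ≤ Real.log (N1 - 1) := by
      have h9 : Real.log (9 : ℝ) ≤ Real.log (N1 - 1) := Real.log_le_log (by norm_num) (by linarith)
      have h99 : Real.log (9 : ℝ) = 2 * Real.log 3 := by
        rw [show (9 : ℝ) = 3 ^ 2 by norm_num, Real.log_pow]
        norm_num
      linarith
    have hpos : 0 < (N1 - 1) * Real.log (N1 - 1) := by
      have : 0 < N1 - 1 := by linarith
      have : 0 < Real.log (N1 - 1) := by linarith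
      positivity
    have e1 : suw N1 * (y * Real.log y) - 1 =
        (y * Real.log y - (N1 - 1) * Real.log (N1 - 1)) / ((N1 - 1) * Real.log (N1 - 1)) := by
      unfold suw
      field_simp
    rw [e1, abs_of_nonneg (div_nonneg (by linarith) hpos.le), div_le_iff₀ hpos]
    have h1 : y - (N1 - 1) ≤ 3 * (X / J) := by linarith
    have hlm : Real.log y + 1 ≤ 3 * Real.log (N1 - 1) := by
      have h2 : Real.log y ≤ Real.log (4 * (N1 - 1)) := by
        refine Real.log_le_log (by linarith) ?_
        linarith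
      rw [Real.log_mul (by norm_num) (by linarith)] at h2
      have h44 : Real.log (4 : ℝ) = 2 * Real.log 2 := by
        rw [show (4 : ℝ) = 2 ^ 2 by norm_num, Real.log_pow]
        norm_num
      have h3 := Real.log_two_lt_d9
      linarith
    have hlm0 : 0 ≤ Real.log y := Real.log_nonneg hy1
    have h2 : (y - (N1 - 1)) * (Real.log y + 1) ≤ (3 * (X / J)) * (3 * Real.log (N1 - 1)) :=
      mul_le_mul h1 hlm (by linarith) (by positivity)
    have h5 : (3 * (X / J)) * (3 * Real.log (N1 - 1)) ≤ 32 / J * ((N1 - 1) * Real.log (N1 - 1)) := by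
      have h6 : 3 * ((X : ℝ) / J) * (3 * Real.log (N1 - 1)) = 1 / J * Real.log (N1 - 1) * (9 * X) := by ring
      have h7 : 32 / (J : ℝ) * ((N1 - 1) * Real.log (N1 - 1)) =
          1 / J * Real.log (N1 - 1) * (32 * (N1 - 1)) := by ring
      rw [h6, h7]
      refine mul_le_mul_of_nonneg_left ?_ (mul_nonneg hJinv.le (by linarith))
      linarith
    linarith

end Pool.Agent.H706R2.PS
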