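import Pool.Agent.H706R2.PS.Fin2
import Pool.Agent.H706R2.PS.W4
import Pool.Agent.H706R2.PS.W5
import Pool.Agent.H706R2.PS.W6
import Pool.Agent.H706R2.PS.W7
import Pool.Agent.H706R2.PS.W8
import Pool.Agent.H706R2.PS.W9
import Pool.Agent.H706R2.PS.W10a
import Pool.Agent.H706R2.PS.W10b
import Pool.Agent.H706R2.PS.W11
import Pool.Agent.H706R2.PS.W12
import Pool.Agent.H706R2.PS.W13
import Pool.Agent.H706R2.PS.W14
import Pool.Agent.H706R2.PS.W15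

open Finset MeasureTheory Filter Topology

namespace Pool.Agent.H706R2.PS

/-- the law for arbitrary sets outside exceptional sets of exponents of dimension `< 1` -/
theorem w15_full : W15 := w15 (w12 (w10b t3_full (w10a (w7 w5 w6) w8 (w9 w4))) w11) (w13 t11a) w14

lemma nN_primes (c : ℝ) (N : ℕ) : nN {m : ℕ | (m + 1).Prime} c N =
    ({n : ℕ | 1 ≤ n ∧ n ≤ N ∧ (⌊(n : ℝ) ^ c⌋₊ + 1).Prime} : Set ℕ).ncard := rfl

/-- the primes in the family `⌊n^c⌋ + 1` -/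
lemma primes_shift {c κ C : ℝ} (hc1 : 1 < c) (hκ : 0 < κ)
    (hC : ∀ y : ℕ, 1 ≤ y → |nPS {p : ℕ | (p + 1).Prime} c 0 y - mainT (Ax {p : ℕ | (p + 1).Prime} 0 y) c| ≤
      C * (y : ℝ) ^ (1 / c - κ)) :
    Asymptotics.IsEquivalent Filter.atTop
      (fun N : ℕ => (({n : ℕ | 1 ≤ n ∧ n ≤ N ∧ (⌊(n : ℝ) ^ c⌋₊ + 1).Prime} : Set ℕ).ncard : ℝ))
      (fun N : ℕ => (N : ℝ) / (c * Real.log N)) := by
  have h1 := law_one (A := {p : ℕ | (p + 1).Prime}) hc1 hκ hC t12b.2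
  have h2 := N_law (A := {p : ℕ | (p + 1).Prime}) hc1 h1
  have e1 : (fun N : ℕ => (nN {p : ℕ | (p + 1).Prime} c N : ℝ)) =
      fun N : ℕ => (({n : ℕ | 1 ≤ n ∧ n ≤ N ∧ (⌊(n : ℝ) ^ c⌋₊ + 1).Prime} : Set ℕ).ncard : ℝ) := by
    funext N
    rw [nN_primes]
  rw [e1] at h2
  exact h2

lemma mainT_shift (A : Set ℕ) [DecidablePred (· ∈ A)] (y : ℕ) (c : ℝ) : mainT (Ax {m : ℕ | m + 1 ∈ A} 0 y) c =
    ∑ m ∈ (Finset.Icc 1 y).filter (fun m => m + 1 ∈ A), (1 / c) * (m : ℝ) ^ (1 / c - 1) := by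
  classical
  unfold mainT Ax
  apply Finset.sum_congr _ (fun _ _ => rfl)
  ext p
  simp only [mem_filter, mem_Ioc, mem_Icc]
  constructor
  · rintro ⟨⟨h1, h2⟩, h3⟩; exact ⟨⟨h1, h2⟩, h3⟩
  · rintro ⟨⟨h1, h2⟩, h3⟩; exact ⟨⟨h1, h2⟩, h3⟩

end Pool.Agent.H706R2.PS
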