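import Pool.Agent.H706R2.PS.Fin2
import Pool.Agent.H706R2.PS.ADefs

open Finset MeasureTheory Filter Topology

namespace Pool.Agent.H706R2.PS

/-- from integers to reals, general functions -/
lemma real_gen {f : ℕ → ℝ} {c : ℝ}
    (h : Tendsto (fun n : ℕ => f n * Real.log n / (n : ℝ) ^ (1 / c)) atTop (nhds 1)) :
    Asymptotics.IsEquivalent atTop (fun x : ℝ => f ⌊x⌋₊) (fun x : ℝ => x ^ (1 / c) / Real.log x) := by
  have hne : ∀ᶠ x : ℝ in atTop, x ^ (1 / c) / Real.log x ≠ 0 := by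
    filter_upwards [eventually_gt_atTop 1] with x hx
    have := Real.log_pos hx
    have : 0 < x ^ (1 / c) := Real.rpow_pos_of_pos (by linarith) _
    positivity
  rw [Asymptotics.isEquivalent_iff_tendsto_one hne]
  have h1 := h.comp (tendsto_nat_floor_atTop (α := ℝ))
  have h2 : Tendsto (fun x : ℝ => ((⌊x⌋₊ : ℝ) / x) ^ (1 / c)) atTop (nhds 1) := by
    have := (tendsto_nat_floor_div_atTop (R := ℝ)).rpow_const (p := 1 / c) (Or.inl one_ne_zero)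
    rwa [Real.one_rpow] at this
  have h3 := (h1.mul h2).mul log_floor_ratio
  rw [one_mul, one_mul] at h3
  refine h3.congr' ?_
  filter_upwards [eventually_ge_atTop 2] with x hx
  have hn : 2 ≤ ⌊x⌋₊ := Nat.le_floor (by exact_mod_cast hx)
  have hn' : (2 : ℝ) ≤ (⌊x⌋₊ : ℝ) := by exact_mod_cast hn
  have hl : 0 < Real.log (⌊x⌋₊ : ℝ) := Real.log_pos (by linarith)
  have hlx : 0 < Real.log x := Real.log_pos (by linarith)
  have hx0 : 0 < x := by linarith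
  have hp1 : 0 < x ^ (1 / c) := Real.rpow_pos_of_pos hx0 _
  have hp2 : 0 < (⌊x⌋₊ : ℝ) ^ (1 / c) := Real.rpow_pos_of_pos (by linarith) _
  simp only [Function.comp, Pi.div_apply]
  rw [Real.div_rpow (by linarith) hx0.le]
  field_simp

lemma mA_eq (A : Set ℕ) (c α : ℝ) (y : ℕ) :
    mA c (AxA A 0 y) 0 α = α ^ (-(1 / c)) * mainT (Ax A 0 y) c := by
  unfold mA mainT
  rw [mul_sum]
  have : AxA A 0 y = Ax A 0 y := rfl
  rw [this]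
  refine sum_congr rfl fun m _ => ?_
  rw [add_zero]
  ring

/-- asymptotics of the main term along `⌊α N^c⌋` -/
lemma mA_law {A : Set ℕ} {c α : ℝ} (hc : 1 < c) (hα : 0 < α)
    (hA : Tendsto (fun n : ℕ => ((Ax A 0 n).card : ℝ) * Real.log n / n) atTop (nhds 1)) :
    Tendsto (fun N : ℕ => mA c (AxA A 0 ⌊α * (N : ℝ) ^ c⌋₊) 0 α * (c * Real.log N) / N) atTop (nhds 1) := by
  have hc0 : 0 < c := by linarith
  have h1 := t12 A c hc hA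
  have h2 := real_gen (f := fun n => mainT (Ax A 0 n) c) h1
  have hT : Tendsto (fun N : ℕ => α * (N : ℝ) ^ c) atTop atTop :=
    ((tendsto_rpow_atTop hc0).comp tendsto_natCast_atTop_atTop).const_mul_atTop hα
  have h3 := h2.comp_tendsto hT
  have hlogN : Tendsto (fun N : ℕ => Real.log (N : ℝ)) atTop atTop :=
    Real.tendsto_log_atTop.comp tendsto_natCast_atTop_atTop
  have hne : ∀ᶠ N : ℕ in atTop, ((fun x : ℝ => x ^ (1 / c) / Real.log x) ∘ fun N : ℕ => α * (N : ℝ) ^ c) N ≠ 0 := by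
    filter_upwards [hT.eventually_gt_atTop 1] with N hN
    simp only [Function.comp]
    have := Real.log_pos hN
    have : 0 < (α * (N : ℝ) ^ c) ^ (1 / c) := Real.rpow_pos_of_pos (by linarith) _
    positivity
  rw [Asymptotics.isEquivalent_iff_tendsto_one hne] at h3
  -- `c log N / (log α + c log N) → 1`
  have h4 : Tendsto (fun N : ℕ => 1 - Real.log α / (Real.log α + c * Real.log N)) atTop (nhds (1 - 0)) := by
    refine tendsto_const_nhds.sub (tendsto_const_nhds.div_atTop ?_)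
    exact tendsto_const_nhds.add_atTop (hlogN.const_mul_atTop hc0)
  rw [sub_zero] at h4
  have h5 := h3.mul h4
  rw [one_mul] at h5
  refine h5.congr' ?_
  filter_upwards [eventually_ge_atTop 2, hT.eventually_gt_atTop 1] with N hN hN1
  have hN0 : (0 : ℝ) < N := by positivity
  have hl : 0 < Real.log (α * (N : ℝ) ^ c) := Real.log_pos hN1
  have e1 : Real.log (α * (N : ℝ) ^ c) = Real.log α + c * Real.log N := by
    rw [Real.log_mul hα.ne' (Real.rpow_pos_of_pos hN0 _).ne', Real.log_rpow hN0]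
  have e2 : (α * (N : ℝ) ^ c) ^ (1 / c) = α ^ (1 / c) * N := by
    rw [Real.mul_rpow hα.le (by positivity), ← Real.rpow_mul hN0.le, mul_one_div_cancel hc0.ne', Real.rpow_one]
  have e3 : α ^ (-(1 / c)) = (α ^ (1 / c))⁻¹ := Real.rpow_neg hα.le _
  have hp : 0 < α ^ (1 / c) := Real.rpow_pos_of_pos hα _
  rw [e1] at hl
  simp only [Function.comp, Pi.div_apply]
  rw [mA_eq, e1, e2, e3]
  field_simp
  ring

/-- the count without the condition `⌊α n^c⌋ ≥ 1` -/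
lemma count_all (B : Set ℕ) {c α : ℝ} (hc : 0 < c) (hα : 0 < α) (N : ℕ) :
    |(({n : ℕ | 1 ≤ n ∧ n ≤ N ∧ ⌊α * (n : ℝ) ^ c⌋₊ ∈ B} : Set ℕ).ncard : ℝ) - nA B c α N| ≤
      ⌈(1 / α) ^ (1 / c)⌉₊ := by
  set D : ℕ := ⌈(1 / α) ^ (1 / c)⌉₊ with hD
  have hfin : ({n : ℕ | 1 ≤ n ∧ n ≤ N ∧ ⌊α * (n : ℝ) ^ c⌋₊ ∈ B} : Set ℕ).Finite :=
    (Set.finite_Iic N).subset fun n hn => hn.2.1
  have hsub : ({n : ℕ | 1 ≤ n ∧ n ≤ N ∧ 1 ≤ ⌊α * (n : ℝ) ^ c⌋₊ ∧ ⌊α * (n : ℝ) ^ c⌋₊ ∈ B} : Set ℕ) ⊆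
      {n : ℕ | 1 ≤ n ∧ n ≤ N ∧ ⌊α * (n : ℝ) ^ c⌋₊ ∈ B} := fun n hn => ⟨hn.1, hn.2.1, hn.2.2.2⟩
  have h1 : nA B c α N ≤ ({n : ℕ | 1 ≤ n ∧ n ≤ N ∧ ⌊α * (n : ℝ) ^ c⌋₊ ∈ B} : Set ℕ).ncard :=
    Set.ncard_le_ncard hsub hfin
  have h2 : ({n : ℕ | 1 ≤ n ∧ n ≤ N ∧ ⌊α * (n : ℝ) ^ c⌋₊ ∈ B} : Set ℕ) ⊆
      {n : ℕ | 1 ≤ n ∧ n ≤ N ∧ 1 ≤ ⌊α * (n : ℝ) ^ c⌋₊ ∧ ⌊α * (n : ℝ) ^ c⌋₊ ∈ B} ∪ (Finset.range D : Set ℕ) := by
    rintro n ⟨h3, h4, h5⟩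
    by_cases h6 : 1 ≤ ⌊α * (n : ℝ) ^ c⌋₊
    · exact Or.inl ⟨h3, h4, h6, h5⟩
    · right
      rw [Finset.mem_coe, Finset.mem_range]
      rw [Nat.one_le_floor_iff, not_le] at h6
      have h7 : (n : ℝ) ^ c < 1 / α := by rw [lt_div_iff₀ hα]; linarith
      have h8 : (n : ℝ) < (1 / α) ^ (1 / c) := by
        calc (n : ℝ) = ((n : ℝ) ^ c) ^ (1 / c) := by
              rw [← Real.rpow_mul (by positivity), mul_one_div_cancel hc.ne', Real.rpow_one]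
          _ < _ := Real.rpow_lt_rpow (by positivity) h7 (by positivity)
      exact_mod_cast h8.trans_le (Nat.le_ceil _)
  have h3 : ({n : ℕ | 1 ≤ n ∧ n ≤ N ∧ ⌊α * (n : ℝ) ^ c⌋₊ ∈ B} : Set ℕ).ncard ≤ nA B c α N + D := by
    have hfin2 : ({n : ℕ | 1 ≤ n ∧ n ≤ N ∧ 1 ≤ ⌊α * (n : ℝ) ^ c⌋₊ ∧ ⌊α * (n : ℝ) ^ c⌋₊ ∈ B} : Set ℕ).Finite :=
      hfin.subset hsub
    refine (Set.ncard_le_ncard h2 (hfin2.union (Finset.finite_toSet _))).trans ?_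
    refine (Set.ncard_union_le _ _).trans ?_
    rw [Set.ncard_coe_finset, Finset.card_range]
    exact le_rfl
  have h1' : (nA B c α N : ℝ) ≤ (({n : ℕ | 1 ≤ n ∧ n ≤ N ∧ ⌊α * (n : ℝ) ^ c⌋₊ ∈ B} : Set ℕ).ncard : ℝ) := by
    exact_mod_cast h1
  have h3' : (({n : ℕ | 1 ≤ n ∧ n ≤ N ∧ ⌊α * (n : ℝ) ^ c⌋₊ ∈ B} : Set ℕ).ncard : ℝ) ≤ nA B c α N + D := by
    exact_mod_cast h3
  rw [abs_le]
  constructor <;> linarith [Nat.cast_nonneg (α := ℝ) D]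

/-- final form with the count of all `n ≤ N` -/
lemma final_count {B : Set ℕ} {c α κ C : ℝ} (hc : 0 < c) (hα : 0 < α) (hκ1 : κ ≤ 1)
    (h : ∀ N : ℕ, 1 ≤ N →
      |(nA B c α N : ℝ) - mA c (AxA B 0 ⌊α * (N : ℝ) ^ c⌋₊) 0 α| ≤ C * (N : ℝ) ^ (1 - κ)) :
    ∃ C' : ℝ, ∀ N : ℕ, 1 ≤ N →
      |(({n : ℕ | 1 ≤ n ∧ n ≤ N ∧ ⌊α * (n : ℝ) ^ c⌋₊ ∈ B} : Set ℕ).ncard : ℝ) -
        mA c (AxA B 0 ⌊α * (N : ℝ) ^ c⌋₊) 0 α| ≤ C' * (N : ℝ) ^ (1 - κ) := by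
  refine ⟨(⌈(1 / α) ^ (1 / c)⌉₊ : ℝ) + C, fun N hN => ?_⟩
  have h1 := count_all B hc hα N
  have h2 := h N hN
  have hN' : (1 : ℝ) ≤ N := by exact_mod_cast hN
  have h3 : (1 : ℝ) ≤ (N : ℝ) ^ (1 - κ) := Real.one_le_rpow hN' (by linarith)
  have h4 : (⌈(1 / α) ^ (1 / c)⌉₊ : ℝ) ≤ (⌈(1 / α) ^ (1 / c)⌉₊ : ℝ) * (N : ℝ) ^ (1 - κ) :=
    le_mul_of_one_le_right (by positivity) h3
  have h5 := abs_sub_le (({n : ℕ | 1 ≤ n ∧ n ≤ N ∧ ⌊α * (n : ℝ) ^ c⌋₊ ∈ B} : Set ℕ).ncard : ℝ)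
    (nA B c α N : ℝ) (mA c (AxA B 0 ⌊α * (N : ℝ) ^ c⌋₊) 0 α)
  rw [add_mul]
  linarith

/-- asymptotics of the count from the power saving -/
lemma count_law {B : Set ℕ} {c α κ C : ℝ} (hc : 1 < c) (hα : 0 < α) (hκ : 0 < κ)
    (hB : Tendsto (fun n : ℕ => ((Ax B 0 n).card : ℝ) * Real.log n / n) atTop (nhds 1))
    (h : ∀ N : ℕ, 1 ≤ N →
      |(({n : ℕ | 1 ≤ n ∧ n ≤ N ∧ ⌊α * (n : ℝ) ^ c⌋₊ ∈ B} : Set ℕ).ncard : ℝ) -
        mA c (AxA B 0 ⌊α * (N : ℝ) ^ c⌋₊) 0 α| ≤ C * (N : ℝ) ^ (1 - κ)) :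
    Asymptotics.IsEquivalent atTop
      (fun N : ℕ => (({n : ℕ | 1 ≤ n ∧ n ≤ N ∧ ⌊α * (n : ℝ) ^ c⌋₊ ∈ B} : Set ℕ).ncard : ℝ))
      (fun N : ℕ => (N : ℝ) / (c * Real.log N)) := by
  have hc0 : 0 < c := by linarith
  have hne : ∀ᶠ N : ℕ in atTop, (N : ℝ) / (c * Real.log N) ≠ 0 := by
    filter_upwards [eventually_ge_atTop 2] with N hN
    have h1 : (1 : ℝ) < N := by exact_mod_cast hN
    have := Real.log_pos h1
    positivity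
  rw [Asymptotics.isEquivalent_iff_tendsto_one hne]
  have h1 := mA_law (A := B) hc hα hB
  have h2 : Tendsto (fun N : ℕ => ((({n : ℕ | 1 ≤ n ∧ n ≤ N ∧ ⌊α * (n : ℝ) ^ c⌋₊ ∈ B} : Set ℕ).ncard : ℝ) -
        mA c (AxA B 0 ⌊α * (N : ℝ) ^ c⌋₊) 0 α) * (c * Real.log N) / N) atTop (nhds 0) := by
    have h3 : Tendsto (fun n : ℕ => (|C| * c) * (Real.log n / (n : ℝ) ^ κ)) atTop (nhds 0) := by
      have := (isLittleO_log_rpow_atTop hκ).tendsto_div_nhds_zero.comp (tendsto_natCast_atTop_atTop (R := ℝ))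
      simpa using this.const_mul (|C| * c)
    refine squeeze_zero_norm' ?_ h3
    filter_upwards [eventually_ge_atTop 2] with n hn
    have hn1 : (1 : ℝ) ≤ n := by exact_mod_cast (by omega : 1 ≤ n)
    have hn0 : (0 : ℝ) < n := by linarith
    have hl : 0 ≤ Real.log n := Real.log_nonneg hn1
    rw [Real.norm_eq_abs, abs_div, abs_mul, abs_of_nonneg (mul_nonneg hc0.le hl), abs_of_pos hn0]
    have h4 := h n (by omega)
    have h5 : C * (n : ℝ) ^ (1 - κ) ≤ |C| * (n / (n : ℝ) ^ κ) := by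
      rw [Real.rpow_sub hn0, Real.rpow_one]
      have : 0 ≤ (n : ℝ) / (n : ℝ) ^ κ := by positivity
      nlinarith [le_abs_self C]
    rw [div_le_iff₀ hn0]
    calc _ ≤ (|C| * (n / (n : ℝ) ^ κ)) * (c * Real.log n) := by
          apply mul_le_mul_of_nonneg_right (h4.trans h5) (mul_nonneg hc0.le hl)
      _ = _ := by ring
  have h3 := h2.add h1
  rw [zero_add] at h3
  refine h3.congr' ?_
  filter_upwards [eventually_ge_atTop 2] with N hN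
  have hN1 : (1 : ℝ) < N := by exact_mod_cast hN
  have hl := Real.log_pos hN1
  simp only [Pi.div_apply]
  field_simp
  ring

lemma mA_shift (A : Set ℕ) [DecidablePred (· ∈ A)] (y : ℕ) (c α : ℝ) : mA c (AxA {m : ℕ | m + 1 ∈ A} 0 y) 0 α =
    ∑ m ∈ (Finset.Icc 1 y).filter (fun m => m + 1 ∈ A), (1 / c) * α ^ (-(1 / c)) * (m : ℝ) ^ (1 / c - 1) := by
  classical
  unfold mA AxA
  have : ∀ m : ℕ, (m : ℝ) + 0 = m := fun m => add_zero _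
  simp only [this]
  apply Finset.sum_congr _ (fun _ _ => rfl)
  ext p
  simp only [mem_filter, mem_Ioc, mem_Icc]
  constructor
  · rintro ⟨⟨h1, h2⟩, h3⟩; exact ⟨⟨h1, h2⟩, h3⟩
  · rintro ⟨⟨h1, h2⟩, h3⟩; exact ⟨⟨h1, h2⟩, h3⟩

end Pool.Agent.H706R2.PS
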