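import Pool.Agent.H706R2.PS.Fin3
import Pool.Agent.H706R2.PS.DDefs

open Finset MeasureTheory Filter Topology

namespace Pool.Agent.H706R2.PS

/-- lower density of `A` is inherited along `⌊n^c⌋` -/
lemma lower_inherit (hD2 : D2) {A : Set ℕ} {c κ C ν : ℝ} (hc : 1 < c) (hκ : 0 < κ) (hν : 0 ≤ ν)
    (h : ∀ y : ℕ, 1 ≤ y → |nPS A c 0 y - mainT (Ax A 0 y) c| ≤ C * (y : ℝ) ^ (1 / c - κ))
    (hA : ∀ ε : ℝ, 0 < ε → ∃ M0 : ℕ, ∀ M : ℕ, M0 ≤ M → (ν - ε) * M ≤ ((Ax A 0 M).card : ℝ)) :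
    ∀ ε : ℝ, 0 < ε → ∃ N0 : ℕ, ∀ N : ℕ, N0 ≤ N → (ν - ε) * N ≤ (nN A c N : ℝ) := by
  intro ε hε
  obtain ⟨N1, hN1⟩ := hD2 A c ν hc hν hA (ε / 2) (by positivity)
  have hmin : 0 < min (c * κ) 1 := lt_min (by nlinarith) one_pos
  have hT3 : Filter.Tendsto (fun N : ℕ => (N : ℝ) ^ (min (c * κ) 1)) Filter.atTop Filter.atTop :=
    (tendsto_rpow_atTop hmin).comp tendsto_natCast_atTop_atTop
  obtain ⟨N2, hN2⟩ := (hT3.eventually_ge_atTop (2 * |C| / ε)).exists_forall_of_atTop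
  refine ⟨max (max N1 N2) 1, fun N hN => ?_⟩
  have h1 : N1 ≤ N := (le_max_left _ _).trans ((le_max_left _ _).trans hN)
  have h2 : N2 ≤ N := (le_max_right _ _).trans ((le_max_left _ _).trans hN)
  have h3 : 1 ≤ N := (le_max_right _ _).trans hN
  have hNpos : (0 : ℝ) < N := by exact_mod_cast h3
  have hm := hN1 N h1
  have hp := N_power hc hκ h N h3
  have hq := hN2 N h2
  have herr : |C| * (N : ℝ) ^ (1 - min (c * κ) 1) ≤ ε / 2 * N := by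
    rw [Real.rpow_sub hNpos, Real.rpow_one, ← mul_div_assoc, div_le_iff₀ (by positivity)]
    have h4 : |C| ≤ ε / 2 * (N : ℝ) ^ (min (c * κ) 1) := by
      rw [div_le_iff₀ hε] at hq
      linarith
    calc |C| * N ≤ (ε / 2 * (N : ℝ) ^ (min (c * κ) 1)) * N := by gcongr
      _ = _ := by ring
  have h5 := (abs_le.mp hp).1
  have h6 : (ν - ε) * N = (ν - ε / 2) * N - ε / 2 * N := by ring
  linarith

/-- **Equidistribution along the times `⌊n^α⌋`.** -/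
theorem equi.{u} (hD2 : D2) (hD3 : D3.{u}) (hD4 : D4.{u}) (hD5 : D5.{u}) : ∀ C0 : ℝ, 1 ≤ C0 → ∃ d : ℝ, d < 1 ∧
    ∀ (X : Type u) [TopologicalSpace X] [SecondCountableTopology X] [T2Space X]
      [LocallyCompactSpace X] [MeasurableSpace X] [BorelSpace X] (μ : Measure X) [IsProbabilityMeasure μ]
      (y : ℕ → X),
    (∀ f : X → ℝ, Continuous f → HasCompactSupport f →
      Tendsto (fun N : ℕ => (1 / (N : ℝ)) * ∑ n ∈ Icc 1 N, f (y n)) atTop (nhds (∫ x, f x ∂μ))) →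
    ∃ E : Set ℝ, dimH E ≤ ENNReal.ofReal d ∧ ∀ α : ℝ, 1 < α → α ≤ C0 → α ∉ E →
      ∀ f : X → ℝ, Continuous f → HasCompactSupport f →
        Tendsto (fun N : ℕ => (1 / (N : ℝ)) * ∑ n ∈ Icc 1 N, f (y ⌊(n : ℝ) ^ α⌋₊)) atTop
          (nhds (∫ x, f x ∂μ)) := by
  intro C0 hC0
  obtain ⟨κ, hκ, d, hd, h⟩ := w15_full C0 hC0
  refine ⟨d, hd, ?_⟩
  intro X _ _ _ _ _ _ μ _ y hy
  obtain ⟨B, hB, hB2⟩ := hD5 X μ
  choose E hE hlaw using fun j : ℕ => h {m : ℕ | y m ∈ B j}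
  refine ⟨⋃ j, E j, ?_, ?_⟩
  · rw [dimH_iUnion]
    exact iSup_le hE
  intro α hα1 hα2 hαE
  refine hD3 X μ (fun n => y ⌊(n : ℝ) ^ α⌋₊) ?_
  refine hB2 (fun n => y ⌊(n : ℝ) ^ α⌋₊) ?_
  intro j
  have hαj : α ∉ E j := fun hj => hαE (Set.mem_iUnion.mpr ⟨j, hj⟩)
  obtain ⟨C, hC⟩ := hlaw j α hα1 hα2 hαj
  have h1 := lower_inherit hD2 hα1 hκ (measureReal_nonneg (μ := μ) (s := B j)) hC
    (hD4 X μ y hy (B j) (hB j))
  exact h1

end Pool.Agent.H706R2.PS
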