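import Pool.Agent.H706R2.PS.ADefs

/-! Wave 5: equidistribution along the real times `β n^c` (`c = 2`: squares), all `β` outside a small set. -/

open Finset MeasureTheory Filter

namespace Pool.Agent.H706R2.PS

/-- S2: the sampling law for bounded functions -/
def S2 : Prop := ∀ c : ℝ, 1 < c → ∃ d : ℝ, d < 1 ∧ ∀ w : ℕ → ℝ, (∃ K : ℝ, ∀ m, |w m| ≤ K) →
  ∃ E : Set ℝ, dimH E ≤ ENNReal.ofReal d ∧ ∀ β : ℝ, 0 < β → β ∉ E →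
    Tendsto (fun N : ℕ => (1 / (N : ℝ)) * (∑ n ∈ Icc 1 N, w ⌊β * (n : ℝ) ^ c⌋₊ -
      ∑ m ∈ Icc 1 ⌊β * (N : ℝ) ^ c⌋₊, (1 / c) * β ^ (-(1 / c)) * (m : ℝ) ^ (1 / c - 1) * w m)) atTop (nhds 0)

/-- S3: Abel summation -/
def S3 : Prop := ∀ (c β L δ : ℝ) (w : ℕ → ℝ), 1 < c → 0 < β → 0 < δ → (∃ K : ℝ, ∀ m, |w m| ≤ K) →
  (∃ M0 : ℕ, ∀ M : ℕ, M0 ≤ M → |(1 / (M : ℝ)) * ∑ m ∈ Icc 1 M, w m - L| ≤ δ) →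
  ∃ N0 : ℕ, ∀ N : ℕ, N0 ≤ N →
    |(1 / (N : ℝ)) * ∑ m ∈ Icc 1 ⌊β * (N : ℝ) ^ c⌋₊, (1 / c) * β ^ (-(1 / c)) * (m : ℝ) ^ (1 / c - 1) * w m - L| ≤
      2 * δ

/-- S4: Riemann sums -/
def S4 : Prop := ∀ (F : ℝ → ℝ) (L : ℝ) (q : ℕ) (δ : ℝ), 1 ≤ q → 0 < δ → Continuous F →
  (∀ s t : ℝ, 0 ≤ s → 0 ≤ t → |s - t| ≤ 1 / q → |F s - F t| ≤ δ) →
  Tendsto (fun T : ℝ => (1 / T) * ∫ t in (0 : ℝ)..T, F t) atTop (nhds L) →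
  ∃ M0 : ℕ, ∀ M : ℕ, M0 ≤ M → |(1 / (M : ℝ)) * ∑ m ∈ Icc 1 M, F ((m : ℝ) / q) - L| ≤ 2 * δ

/-- S5: averages of a bounded uniformly continuous function at the times `β n^c` -/
def S5 : Prop := ∀ c : ℝ, 1 < c → ∃ d : ℝ, d < 1 ∧ ∀ (F : ℝ → ℝ) (L : ℝ), Continuous F →
  (∃ K : ℝ, ∀ t, |F t| ≤ K) →
  (∀ δ : ℝ, 0 < δ → ∃ q : ℕ, 1 ≤ q ∧ ∀ s t : ℝ, 0 ≤ s → 0 ≤ t → |s - t| ≤ 1 / q → |F s - F t| ≤ δ) →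
  Tendsto (fun T : ℝ => (1 / T) * ∫ t in (0 : ℝ)..T, F t) atTop (nhds L) →
  ∃ E : Set ℝ, dimH E ≤ ENNReal.ofReal d ∧ ∀ β : ℝ, 0 < β → β ∉ E →
    Tendsto (fun N : ℕ => (1 / (N : ℝ)) * ∑ n ∈ Icc 1 N, F (β * (n : ℝ) ^ c)) atTop (nhds L)

/-- S6: Urysohn functions -/
def S6.{u} : Prop := ∀ (X : Type u) [TopologicalSpace X] [SecondCountableTopology X] [T2Space X]
  [LocallyCompactSpace X] [MeasurableSpace X] [BorelSpace X] (μ : Measure X) [IsProbabilityMeasure μ]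
  (U : Set X) (ε : ℝ), IsOpen U → 0 < ε →
  ∃ f : X → ℝ, Continuous f ∧ HasCompactSupport f ∧ (∀ x, 0 ≤ f x ∧ f x ≤ 1) ∧ (∀ x, x ∉ U → f x = 0) ∧
    μ.real U - ε ≤ ∫ x, f x ∂μ

/-- S8: uniform continuity along a flow -/
def S8.{u} : Prop := ∀ (X : Type u) [TopologicalSpace X] [T2Space X] [LocallyCompactSpace X]
  (φ : ℝ → X → X), Continuous (fun p : ℝ × X => φ p.1 p.2) → (∀ s t x, φ (s + t) x = φ s (φ t x)) →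
  (∀ x, φ 0 x = x) → ∀ f : X → ℝ, Continuous f → HasCompactSupport f → ∀ δ : ℝ, 0 < δ →
    ∃ q : ℕ, 1 ≤ q ∧ ∀ (x : X) (s : ℝ), |s| ≤ 1 / q → |f (φ s x) - f x| ≤ δ

end Pool.Agent.H706R2.PS
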