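import Pool.Agent.H706R2.PS.DDefs
import Pool.Agent.H706R2.PS.SDefs

open Finset MeasureTheory Filter Topology

namespace Pool.Agent.H706R2.PS

/-- **Equidistribution along the times `β n^c`** -/
theorem flow.{u} (hD3 : D3.{u}) (hD5 : D5.{u}) (hS5 : S5) (hS6 : S6.{u}) (hS8 : S8.{u}) :
    ∀ c : ℝ, 1 < c → ∃ d : ℝ, d < 1 ∧
    ∀ (X : Type u) [TopologicalSpace X] [SecondCountableTopology X] [T2Space X]
      [LocallyCompactSpace X] [MeasurableSpace X] [BorelSpace X] (μ : Measure X) [IsProbabilityMeasure μ]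
      (φ : ℝ → X → X), Continuous (fun p : ℝ × X => φ p.1 p.2) →
      (∀ s t x, φ (s + t) x = φ s (φ t x)) → (∀ x, φ 0 x = x) → ∀ x : X,
    (∀ f : X → ℝ, Continuous f → HasCompactSupport f →
      Tendsto (fun T : ℝ => (1 / T) * ∫ t in (0 : ℝ)..T, f (φ t x)) atTop (nhds (∫ z, f z ∂μ))) →
    ∃ E : Set ℝ, dimH E ≤ ENNReal.ofReal d ∧ ∀ β : ℝ, 0 < β → β ∉ E →
      ∀ f : X → ℝ, Continuous f → HasCompactSupport f →
        Tendsto (fun N : ℕ => (1 / (N : ℝ)) * ∑ n ∈ Icc 1 N, f (φ (β * (n : ℝ) ^ c) x)) atTop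
          (nhds (∫ z, f z ∂μ)) := by
  intro c hc
  obtain ⟨d, hd, h⟩ := hS5 c hc
  refine ⟨d, hd, ?_⟩
  intro X _ _ _ _ _ _ μ _ φ hφ hadd hzero x hx
  obtain ⟨B, hB, hB2⟩ := hD5 X μ
  choose g hgc hgs hg01 hg0 hgi using fun (jk : ℕ × ℕ) =>
    hS6 X μ (B jk.1) (1 / ((jk.2 : ℝ) + 1)) (hB jk.1) (by positivity)
  have hF : ∀ jk : ℕ × ℕ, ∃ E : Set ℝ, dimH E ≤ ENNReal.ofReal d ∧ ∀ β : ℝ, 0 < β → β ∉ E →
      Tendsto (fun N : ℕ => (1 / (N : ℝ)) * ∑ n ∈ Icc 1 N, (fun t : ℝ => g jk (φ t x)) (β * (n : ℝ) ^ c)) atTop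
        (nhds (∫ z, g jk z ∂μ)) := by
    intro jk
    refine h (fun t : ℝ => g jk (φ t x)) (∫ z, g jk z ∂μ) ?_ ?_ ?_ ?_
    · exact (hgc jk).comp (hφ.comp (Continuous.prodMk continuous_id continuous_const))
    · refine ⟨1, fun t => ?_⟩
      have := hg01 jk (φ t x)
      rw [abs_le]
      constructor <;> linarith [this.1, this.2]
    · intro δ hδ
      obtain ⟨q, hq, hq2⟩ := hS8 X φ hφ hadd hzero (g jk) (hgc jk) (hgs jk) δ hδ
      refine ⟨q, hq, fun s t _ _ hst => ?_⟩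
      have h1 : φ s x = φ (s - t) (φ t x) := by
        rw [← hadd]
        congr 1
        ring
      have h2 := hq2 (φ t x) (s - t) hst
      show |g jk (φ s x) - g jk (φ t x)| ≤ δ
      rw [h1]
      exact h2
    · exact hx (g jk) (hgc jk) (hgs jk)
  choose E hE hlaw using hF
  refine ⟨⋃ jk, E jk, ?_, ?_⟩
  · rw [dimH_iUnion]
    exact iSup_le hE
  intro β hβ hβE
  refine hD3 X μ (fun n => φ (β * (n : ℝ) ^ c) x) ?_
  refine hB2 (fun n => φ (β * (n : ℝ) ^ c) x) ?_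
  intro j ε hε
  obtain ⟨k, hk⟩ := exists_nat_one_div_lt (half_pos hε)
  have hnot : β ∉ E (j, k) := fun hh => hβE (Set.mem_iUnion.2 ⟨(j, k), hh⟩)
  have hlim := hlaw (j, k) β hβ hnot
  have hev := (hlim.eventually (eventually_gt_nhds (show (∫ z, g (j, k) z ∂μ) - ε / 2 < ∫ z, g (j, k) z ∂μ by linarith))).exists_forall_of_atTop
  obtain ⟨N0, hN0⟩ := hev
  refine ⟨max N0 1, fun N hN => ?_⟩
  have h1 := hN0 N ((le_max_left _ _).trans hN)
  have hN1 : 1 ≤ N := (le_max_right _ _).trans hN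
  have hNpos : (0 : ℝ) < N := by exact_mod_cast hN1
  have hint := hgi (j, k)
  have hsum : ∑ n ∈ Icc 1 N, g (j, k) (φ (β * (n : ℝ) ^ c) x) ≤
      (({n : ℕ | 1 ≤ n ∧ n ≤ N ∧ φ (β * (n : ℝ) ^ c) x ∈ B j} : Set ℕ).ncard : ℝ) := by
    classical
    have e1 : ({n : ℕ | 1 ≤ n ∧ n ≤ N ∧ φ (β * (n : ℝ) ^ c) x ∈ B j} : Set ℕ) =
        (((Icc 1 N).filter (fun n : ℕ => φ (β * (n : ℝ) ^ c) x ∈ B j) : Finset ℕ) : Set ℕ) := by
      ext n
      simp [and_assoc]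
    rw [e1, Set.ncard_coe_finset, Finset.card_filter]
    push_cast
    refine Finset.sum_le_sum fun n _ => ?_
    by_cases hm : φ (β * (n : ℝ) ^ c) x ∈ B j
    · simp only [hm, if_true]
      exact (hg01 (j, k) _).2
    · simp only [hm, if_false]
      exact (hg0 (j, k) _ hm).le
  have h2 : (μ.real (B j) - ε) * N ≤ ((∫ z, g (j, k) z ∂μ) - ε / 2) * N := by
    refine mul_le_mul_of_nonneg_right ?_ hNpos.le
    simp only at hint
    linarith
  have h3 : ((∫ z, g (j, k) z ∂μ) - ε / 2) * N ≤ ∑ n ∈ Icc 1 N, g (j, k) (φ (β * (n : ℝ) ^ c) x) := by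
    have h4 := h1.le
    simp only at h4
    rw [one_div, inv_mul_eq_div, le_div_iff₀ hNpos] at h4
    exact h4
  exact h2.trans (h3.trans hsum)

end Pool.Agent.H706R2.PS
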