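import Pool.Agent.H706R2.PS.SDefs

/-! The sampling law for bounded functions. -/

open Finset MeasureTheory Filter

namespace Pool.Agent.H706R2.PS

/-- the weights -/
noncomputable def s2_a (c β : ℝ) (m : ℕ) : ℝ := (1 / c) * β ^ (-(1 / c)) * (m : ℝ) ^ (1 / c - 1)

/-- the difference of the two sums -/
noncomputable def s2_Phi (c β : ℝ) (w : ℕ → ℝ) (N : ℕ) : ℝ :=
  ∑ n ∈ Icc 1 N, w ⌊β * (n : ℝ) ^ c⌋₊ - ∑ m ∈ Icc 1 ⌊β * (N : ℝ) ^ c⌋₊, s2_a c β m * w m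

theorem s2_a_nonneg {c β : ℝ} (hc : 1 < c) (hβ : 0 < β) (m : ℕ) : 0 ≤ s2_a c β m := by
  unfold s2_a
  have : 0 < c := by linarith
  positivity

theorem s2_Phi_sum {ι : Type} (c β : ℝ) (s : Finset ι) (b : ι → ℝ) (v : ι → ℕ → ℝ) (N : ℕ) :
    s2_Phi c β (fun m => ∑ i ∈ s, b i * v i m) N = ∑ i ∈ s, b i * s2_Phi c β (v i) N := by
  unfold s2_Phi
  simp only [mul_sub, Finset.sum_sub_distrib, Finset.mul_sum]
  congr 1
  · rw [Finset.sum_comm]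
  · rw [Finset.sum_comm]
    refine Finset.sum_congr rfl fun i _ => Finset.sum_congr rfl fun m _ => by ring

theorem s2_Phi_sub {c β : ℝ} (hc : 1 < c) (hβ : 0 < β) (u v : ℕ → ℝ) (δ : ℝ)
    (h : ∀ m, |u m - v m| ≤ δ) (N : ℕ) :
    |s2_Phi c β u N - s2_Phi c β v N| ≤ δ * (N + ∑ m ∈ Icc 1 ⌊β * (N : ℝ) ^ c⌋₊, s2_a c β m) := by
  have e : s2_Phi c β u N - s2_Phi c β v N =
      ∑ n ∈ Icc 1 N, (u ⌊β * (n : ℝ) ^ c⌋₊ - v ⌊β * (n : ℝ) ^ c⌋₊) -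
        ∑ m ∈ Icc 1 ⌊β * (N : ℝ) ^ c⌋₊, s2_a c β m * (u m - v m) := by
    unfold s2_Phi
    simp only [mul_sub, Finset.sum_sub_distrib]
    ring
  rw [e]
  have h1 : |∑ n ∈ Icc 1 N, (u ⌊β * (n : ℝ) ^ c⌋₊ - v ⌊β * (n : ℝ) ^ c⌋₊)| ≤ δ * N := by
    refine (Finset.abs_sum_le_sum_abs _ _).trans ?_
    have h0 : ∑ n ∈ Icc 1 N, |u ⌊β * (n : ℝ) ^ c⌋₊ - v ⌊β * (n : ℝ) ^ c⌋₊| ≤
        ∑ _n ∈ Icc 1 N, δ := Finset.sum_le_sum fun n _ => h _
    refine h0.trans ?_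
    simp [mul_comm]
  have h2 : |∑ m ∈ Icc 1 ⌊β * (N : ℝ) ^ c⌋₊, s2_a c β m * (u m - v m)| ≤
      δ * ∑ m ∈ Icc 1 ⌊β * (N : ℝ) ^ c⌋₊, s2_a c β m := by
    refine (Finset.abs_sum_le_sum_abs _ _).trans ?_
    rw [Finset.mul_sum]
    refine Finset.sum_le_sum fun m _ => ?_
    rw [abs_mul, abs_of_nonneg (s2_a_nonneg hc hβ m), mul_comm]
    exact mul_le_mul_of_nonneg_right (h m) (s2_a_nonneg hc hβ m)
  refine (abs_sub _ _).trans ?_
  rw [mul_add]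
  exact add_le_add h1 h2

open Classical in
theorem s2_ind {c β : ℝ} (hc : 1 < c) (hβ : 0 < β) (A : Set ℕ) (N : ℕ) :
    |s2_Phi c β (A.indicator 1) N -
      ((nA A c β N : ℝ) - mA c (AxA A 0 ⌊β * (N : ℝ) ^ c⌋₊) 0 β)| ≤ (⌊1 / β⌋₊ : ℝ) := by
  have e1 : ∑ n ∈ Icc 1 N, (A.indicator (1 : ℕ → ℝ)) ⌊β * (n : ℝ) ^ c⌋₊ =
      (((Icc 1 N).filter fun n : ℕ => ⌊β * (n : ℝ) ^ c⌋₊ ∈ A).card : ℝ) := by
    rw [Finset.card_filter]
    push_cast
    refine Finset.sum_congr rfl fun n _ => ?_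
    rw [Set.indicator_apply]
    rfl
  have e2 : nA A c β N =
      ((Icc 1 N).filter fun n : ℕ => 1 ≤ ⌊β * (n : ℝ) ^ c⌋₊ ∧ ⌊β * (n : ℝ) ^ c⌋₊ ∈ A).card := by
    unfold nA
    rw [← Set.ncard_coe_finset]
    congr 1
    ext n
    simp only [Set.mem_ofPred_eq, Finset.coe_filter, Finset.mem_Icc]
    tauto
  have e3 : ∑ m ∈ Icc 1 ⌊β * (N : ℝ) ^ c⌋₊, s2_a c β m * (A.indicator (1 : ℕ → ℝ)) m =
      mA c (AxA A 0 ⌊β * (N : ℝ) ^ c⌋₊) 0 β := by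
    unfold mA AxA
    rw [Finset.sum_filter]
    refine Finset.sum_congr rfl fun m _ => ?_
    rw [Set.indicator_apply]
    unfold s2_a
    by_cases hm : m ∈ A
    · simp [hm]
    · simp [hm]
  unfold s2_Phi
  rw [e1, e2, e3]
  set S1 := (Icc 1 N).filter fun n : ℕ => ⌊β * (n : ℝ) ^ c⌋₊ ∈ A with hS1
  set S2 := (Icc 1 N).filter fun n : ℕ => 1 ≤ ⌊β * (n : ℝ) ^ c⌋₊ ∧ ⌊β * (n : ℝ) ^ c⌋₊ ∈ A with hS2
  have i1 : S2.card ≤ S1.card := by
    refine Finset.card_le_card fun n hn => ?_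
    rw [hS2, Finset.mem_filter] at hn
    rw [hS1, Finset.mem_filter]
    exact ⟨hn.1, hn.2.2⟩
  have i2 : S1.card ≤ S2.card + ⌊1 / β⌋₊ := by
    have hsub : S1 ⊆ S2 ∪ Icc 1 ⌊1 / β⌋₊ := by
      intro n hn
      rw [hS1, Finset.mem_filter] at hn
      rw [Finset.mem_union, hS2, Finset.mem_filter]
      by_cases h1 : 1 ≤ ⌊β * (n : ℝ) ^ c⌋₊
      · exact Or.inl ⟨hn.1, h1, hn.2⟩
      · right
        have hn1 : 1 ≤ n := (Finset.mem_Icc.1 hn.1).1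
        have hn1' : (1 : ℝ) ≤ n := by exact_mod_cast hn1
        rw [Finset.mem_Icc]
        refine ⟨hn1, ?_⟩
        have h0 : ⌊β * (n : ℝ) ^ c⌋₊ = 0 := by omega
        rw [Nat.floor_eq_zero] at h0
        have h2 : (n : ℝ) ≤ (n : ℝ) ^ c := by
          have := Real.rpow_le_rpow_of_exponent_le hn1' hc.le
          rwa [Real.rpow_one] at this
        have h3 : β * n < 1 := lt_of_le_of_lt (mul_le_mul_of_nonneg_left h2 hβ.le) h0
        refine Nat.le_floor ?_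
        rw [le_div_iff₀ hβ]
        linarith [mul_comm β (n : ℝ)]
    have := (Finset.card_le_card hsub).trans (Finset.card_union_le _ _)
    simpa using this
  have i1' : (S2.card : ℝ) ≤ S1.card := by exact_mod_cast i1
  have i2' : (S1.card : ℝ) ≤ S2.card + ⌊1 / β⌋₊ := by exact_mod_cast i2
  rw [abs_le]
  constructor
  · linarith [Nat.cast_nonneg (α := ℝ) ⌊1 / β⌋₊]
  · linarith

theorem s2_lim {c β κ : ℝ} (hc : 1 < c) (hβ : 0 < β) (hκ : 0 < κ) (A : Set ℕ) (C : ℝ)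
    (h : ∀ N : ℕ, 1 ≤ N →
      |(nA A c β N : ℝ) - mA c (AxA A 0 ⌊β * (N : ℝ) ^ c⌋₊) 0 β| ≤ C * (N : ℝ) ^ (1 - κ)) :
    Tendsto (fun N : ℕ => (1 / (N : ℝ)) * s2_Phi c β (A.indicator 1) N) atTop (nhds 0) := by
  have h1 : Tendsto (fun N : ℕ => (⌊1 / β⌋₊ : ℝ) * (1 / (N : ℝ)) + C * (N : ℝ) ^ (-κ)) atTop
      (nhds 0) := by
    have a1 : Tendsto (fun N : ℕ => (⌊1 / β⌋₊ : ℝ) * (1 / (N : ℝ))) atTop
        (nhds ((⌊1 / β⌋₊ : ℝ) * 0)) :=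
      tendsto_one_div_atTop_nhds_zero_nat.const_mul _
    have a2 : Tendsto (fun N : ℕ => C * (N : ℝ) ^ (-κ)) atTop (nhds (C * 0)) :=
      ((tendsto_rpow_neg_atTop hκ).comp tendsto_natCast_atTop_atTop).const_mul C
    simpa using a1.add a2
  refine squeeze_zero_norm' ?_ h1
  filter_upwards [eventually_ge_atTop 1] with N hN
  have hN' : (0 : ℝ) < N := by exact_mod_cast hN
  rw [Real.norm_eq_abs, abs_mul, abs_of_pos (by positivity : (0 : ℝ) < 1 / N)]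
  have h2 := s2_ind hc hβ A N
  have h3 := h N hN
  have h4 : |s2_Phi c β (A.indicator 1) N| ≤ (⌊1 / β⌋₊ : ℝ) + C * (N : ℝ) ^ (1 - κ) := by
    have := abs_sub_abs_le_abs_sub (s2_Phi c β (A.indicator 1) N)
      ((nA A c β N : ℝ) - mA c (AxA A 0 ⌊β * (N : ℝ) ^ c⌋₊) 0 β)
    linarith
  have h5 : (N : ℝ) ^ (1 - κ) = N * (N : ℝ) ^ (-κ) := by
    rw [sub_eq_add_neg, Real.rpow_add hN', Real.rpow_one]
  rw [h5] at h4
  calc 1 / (N : ℝ) * |s2_Phi c β (A.indicator 1) N|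
      ≤ 1 / (N : ℝ) * ((⌊1 / β⌋₊ : ℝ) + C * (N * (N : ℝ) ^ (-κ))) :=
        mul_le_mul_of_nonneg_left h4 (by positivity)
    _ = (⌊1 / β⌋₊ : ℝ) * (1 / (N : ℝ)) + C * (N : ℝ) ^ (-κ) := by
        field_simp

theorem s2 (h : A15) : S2 := by
  intro c hc
  obtain ⟨κ, hκ, d, hd, hA⟩ := h c hc
  refine ⟨d, hd, fun w ⟨K, hK⟩ => ?_⟩
  choose E hE hE' using hA
  let A : ℕ → ℤ → Set ℕ := fun j i => {m | ⌊(j : ℝ) * w m⌋ = i}
  refine ⟨⋃ j, ⋃ i, E (A j i), ?_, fun β hβ hβE => ?_⟩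
  · rw [dimH_iUnion]
    refine iSup_le fun j => ?_
    rw [dimH_iUnion]
    exact iSup_le fun i => hE _
  have hlim : ∀ j i, Tendsto (fun N : ℕ => (1 / (N : ℝ)) * s2_Phi c β ((A j i).indicator 1) N)
      atTop (nhds 0) := by
    intro j i
    have hn : β ∉ E (A j i) := fun hh => hβE (Set.mem_iUnion.2 ⟨j, Set.mem_iUnion.2 ⟨i, hh⟩⟩)
    obtain ⟨C, hC⟩ := hE' (A j i) β hβ hn
    exact s2_lim hc hβ hκ _ C hC
  have hA0 : A 0 0 = Set.univ := by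
    ext m
    simp [A]
  have hW : ∀ᶠ N : ℕ in atTop, 0 < (N : ℝ) ∧
      ∑ m ∈ Icc 1 ⌊β * (N : ℝ) ^ c⌋₊, s2_a c β m ≤ 2 * N := by
    have h0 := hlim 0 0
    rw [hA0, Metric.tendsto_nhds] at h0
    filter_upwards [h0 1 one_pos, eventually_ge_atTop 1] with N hN hN1
    have hN' : (0 : ℝ) < N := by exact_mod_cast hN1
    refine ⟨hN', ?_⟩
    rw [Real.dist_eq, sub_zero, abs_mul, abs_of_pos (by positivity : (0 : ℝ) < 1 / N)] at hN
    have h1 : |s2_Phi c β (Set.univ.indicator 1) N| < N := by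
      rw [one_div, inv_mul_lt_iff₀ hN'] at hN
      simpa using hN
    have h2 : s2_Phi c β (Set.univ.indicator 1) N =
        N - ∑ m ∈ Icc 1 ⌊β * (N : ℝ) ^ c⌋₊, s2_a c β m := by
      unfold s2_Phi
      simp
    rw [h2, abs_lt] at h1
    linarith [h1.1]
  show Tendsto (fun N : ℕ => (1 / (N : ℝ)) * s2_Phi c β w N) atTop (nhds 0)
  rw [Metric.tendsto_nhds]
  intro ε hε
  obtain ⟨j, hj⟩ := exists_nat_gt (6 / ε)
  have hj0 : (0 : ℝ) < j := lt_trans (by positivity) hj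
  set B : ℤ := ⌈(j : ℝ) * K⌉ with hB
  have hwj : ∀ m, ∑ i ∈ Icc (-B) B, ((i : ℝ) / j) * (A j i).indicator (1 : ℕ → ℝ) m =
      (⌊(j : ℝ) * w m⌋ : ℝ) / j := by
    intro m
    have hmem : ⌊(j : ℝ) * w m⌋ ∈ Icc (-B) B := by
      have hk := abs_le.1 (hK m)
      have hle : (j : ℝ) * K ≤ (B : ℝ) := Int.le_ceil _
      rw [Finset.mem_Icc]
      constructor
      · rw [Int.le_floor]
        push_cast
        have := mul_le_mul_of_nonneg_left hk.1 hj0.le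
        linarith
      · have h1 : (⌊(j : ℝ) * w m⌋ : ℝ) ≤ B := by
          have := mul_le_mul_of_nonneg_left hk.2 hj0.le
          linarith [Int.floor_le ((j : ℝ) * w m)]
        exact_mod_cast h1
    rw [Finset.sum_eq_single_of_mem _ hmem]
    · have : m ∈ A j ⌊(j : ℝ) * w m⌋ := rfl
      rw [Set.indicator_of_mem this]
      simp
    · intro i _ hi
      have : m ∉ A j i := fun hh => hi hh.symm
      rw [Set.indicator_of_notMem this, mul_zero]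
  have hclose : ∀ m, |w m - ∑ i ∈ Icc (-B) B, ((i : ℝ) / j) * (A j i).indicator (1 : ℕ → ℝ) m| ≤
      1 / j := by
    intro m
    rw [hwj m]
    have h1 := Int.floor_le ((j : ℝ) * w m)
    have h2 := Int.lt_floor_add_one ((j : ℝ) * w m)
    have h3 : w m - (⌊(j : ℝ) * w m⌋ : ℝ) / j = ((j : ℝ) * w m - ⌊(j : ℝ) * w m⌋) / j := by
      field_simp
    rw [h3, abs_div, abs_of_pos hj0, abs_of_nonneg (by linarith)]
    exact div_le_div_of_nonneg_right (by linarith) hj0.le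
  have hlimj : Tendsto (fun N : ℕ => (1 / (N : ℝ)) *
      s2_Phi c β (fun m => ∑ i ∈ Icc (-B) B, ((i : ℝ) / j) * (A j i).indicator (1 : ℕ → ℝ) m) N)
      atTop (nhds 0) := by
    have h1 : Tendsto (fun N : ℕ => ∑ i ∈ Icc (-B) B, ((i : ℝ) / j) *
        ((1 / (N : ℝ)) * s2_Phi c β ((A j i).indicator 1) N)) atTop
        (nhds (∑ i ∈ Icc (-B) B, ((i : ℝ) / j) * 0)) :=
      tendsto_finsetSum _ fun i _ => (hlim j i).const_mul _
    simp only [mul_zero, Finset.sum_const_zero] at h1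
    refine h1.congr fun N => ?_
    rw [s2_Phi_sum, Finset.mul_sum]
    refine Finset.sum_congr rfl fun i _ => by ring
  rw [Metric.tendsto_nhds] at hlimj
  filter_upwards [hW, hlimj (ε / 2) (by positivity)] with N hN1 hN2
  obtain ⟨hN', hWN⟩ := hN1
  rw [Real.dist_eq, sub_zero] at hN2 ⊢
  have h1 := s2_Phi_sub hc hβ w
    (fun m => ∑ i ∈ Icc (-B) B, ((i : ℝ) / j) * (A j i).indicator (1 : ℕ → ℝ) m) (1 / j) hclose N
  have h2 : |(1 / (N : ℝ)) * s2_Phi c β w N - (1 / (N : ℝ)) *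
      s2_Phi c β (fun m => ∑ i ∈ Icc (-B) B, ((i : ℝ) / j) * (A j i).indicator (1 : ℕ → ℝ) m) N| ≤
      3 / j := by
    rw [← mul_sub, abs_mul, abs_of_pos (by positivity : (0 : ℝ) < 1 / N)]
    calc 1 / (N : ℝ) * |s2_Phi c β w N - s2_Phi c β (fun m => ∑ i ∈ Icc (-B) B,
          ((i : ℝ) / j) * (A j i).indicator (1 : ℕ → ℝ) m) N|
        ≤ 1 / (N : ℝ) * (1 / j * (N + 2 * N)) := by
          refine mul_le_mul_of_nonneg_left (h1.trans ?_) (by positivity)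
          exact mul_le_mul_of_nonneg_left (by linarith) (by positivity)
      _ = 3 / j := by
          field_simp
          ring
  have h3 : 3 / (j : ℝ) < ε / 2 := by
    rw [div_lt_iff₀ hj0]
    rw [div_lt_iff₀ hε] at hj
    linarith
  have h4 := abs_sub_abs_le_abs_sub ((1 / (N : ℝ)) * s2_Phi c β w N) ((1 / (N : ℝ)) *
      s2_Phi c β (fun m => ∑ i ∈ Icc (-B) B, ((i : ℝ) / j) * (A j i).indicator (1 : ℕ → ℝ) m) N)
  linarith

end Pool.Agent.H706R2.PS
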