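import Pool.Agent.H706R2.PS.SDefs

/-! Task S3 (helper622): Abel summation. -/

set_option autoImplicit false

open Finset MeasureTheory Filter

namespace Pool.Agent.H706R2.PS

/-- Abel summation with a decreasing weight. -/
private theorem s3_abel (a v : ℕ → ℝ) (δ C0 : ℝ)
    (hanti : ∀ m, 1 ≤ m → a (m + 1) ≤ a m)
    (hW : ∀ M : ℕ, |∑ m ∈ Icc 1 M, v m| ≤ δ * M + C0) (y : ℕ) (hy : 1 ≤ y) :
    |∑ m ∈ Icc 1 y, a m * v m - a y * ∑ m ∈ Icc 1 y, v m| ≤
      δ * (∑ m ∈ Icc 1 y, a m - a y * y) + C0 * (a 1 - a y) := by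
  induction y, hy using Nat.le_induction with
  | base => simp
  | succ y hy ih =>
    rw [Finset.sum_Icc_succ_top (by omega), Finset.sum_Icc_succ_top (by omega),
      Finset.sum_Icc_succ_top (by omega)]
    have h1 : ∑ m ∈ Icc 1 y, a m * v m + a (y + 1) * v (y + 1) -
        a (y + 1) * (∑ m ∈ Icc 1 y, v m + v (y + 1)) =
        (∑ m ∈ Icc 1 y, a m * v m - a y * ∑ m ∈ Icc 1 y, v m) +
          (a y - a (y + 1)) * ∑ m ∈ Icc 1 y, v m := by ring
    rw [h1]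
    have h2 : 0 ≤ a y - a (y + 1) := sub_nonneg.2 (hanti y hy)
    have h3 : |(a y - a (y + 1)) * ∑ m ∈ Icc 1 y, v m| ≤ (a y - a (y + 1)) * (δ * y + C0) := by
      rw [abs_mul, abs_of_nonneg h2]
      exact mul_le_mul_of_nonneg_left (hW y) h2
    calc _ ≤ _ := abs_add_le _ _
      _ ≤ (δ * (∑ m ∈ Icc 1 y, a m - a y * y) + C0 * (a 1 - a y)) +
          (a y - a (y + 1)) * (δ * y + C0) := add_le_add ih h3
      _ = _ := by push_cast; ring

private theorem s3_abel' (a v : ℕ → ℝ) (δ C0 : ℝ) (hC0 : 0 ≤ C0) (ha : ∀ m, 1 ≤ m → 0 ≤ a m)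
    (hanti : ∀ m, 1 ≤ m → a (m + 1) ≤ a m)
    (hW : ∀ M : ℕ, |∑ m ∈ Icc 1 M, v m| ≤ δ * M + C0) (y : ℕ) :
    |∑ m ∈ Icc 1 y, a m * v m| ≤ δ * ∑ m ∈ Icc 1 y, a m + C0 * a 1 := by
  rcases Nat.eq_zero_or_pos y with rfl | hy
  · simp
    exact mul_nonneg hC0 (ha 1 le_rfl)
  · have h1 := s3_abel a v δ C0 hanti hW y hy
    have h2 : |a y * ∑ m ∈ Icc 1 y, v m| ≤ a y * (δ * y + C0) := by
      rw [abs_mul, abs_of_nonneg (ha y hy)]
      exact mul_le_mul_of_nonneg_left (hW y) (ha y hy)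
    have h3 : ∑ m ∈ Icc 1 y, a m * v m = (∑ m ∈ Icc 1 y, a m * v m - a y * ∑ m ∈ Icc 1 y, v m) +
        a y * ∑ m ∈ Icc 1 y, v m := by ring
    rw [h3]
    calc _ ≤ _ := abs_add_le _ _
      _ ≤ (δ * (∑ m ∈ Icc 1 y, a m - a y * y) + C0 * (a 1 - a y)) + a y * (δ * y + C0) :=
        add_le_add h1 h2
      _ = _ := by ring

private theorem s3_up (s : ℝ) (h0 : 0 ≤ s) (h1 : s ≤ 1) (m : ℕ) (hm : 1 ≤ m) :
    s * (m : ℝ) ^ (s - 1) ≤ (m : ℝ) ^ s - ((m : ℝ) - 1) ^ s := by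
  have hm0 : (0 : ℝ) < m := by exact_mod_cast hm
  have hm1 : (1 : ℝ) ≤ m := by exact_mod_cast hm
  have hb := rpow_one_add_le_one_add_mul_self (s := -1 / (m : ℝ)) (p := s) (by
    rw [le_div_iff₀ hm0]; linarith) h0 h1
  have e1 : ((m : ℝ) - 1) = m * (1 + -1 / (m : ℝ)) := by field_simp; ring
  have h2 : 0 ≤ 1 + -1 / (m : ℝ) := by
    have : 1 / (m : ℝ) ≤ 1 := by rw [div_le_one hm0]; exact hm1
    have e : -1 / (m : ℝ) = - (1 / (m : ℝ)) := by ring
    rw [e]; linarith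
  rw [e1, Real.mul_rpow hm0.le h2, Real.rpow_sub_one hm0.ne']
  have h3 : 0 ≤ (m : ℝ) ^ s := Real.rpow_nonneg hm0.le _
  have h4 := mul_le_mul_of_nonneg_left hb h3
  have h5 : (m : ℝ) ^ s * (1 + s * (-1 / (m : ℝ))) = (m : ℝ) ^ s - s * ((m : ℝ) ^ s / m) := by
    field_simp
    ring
  rw [h5] at h4
  linarith

private theorem s3_lo (s : ℝ) (h0 : 0 ≤ s) (h1 : s ≤ 1) (m : ℕ) (hm : 1 ≤ m) :
    ((m : ℝ) + 1) ^ s - (m : ℝ) ^ s ≤ s * (m : ℝ) ^ (s - 1) := by
  have hm0 : (0 : ℝ) < m := by exact_mod_cast hm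
  have hb := rpow_one_add_le_one_add_mul_self (s := 1 / (m : ℝ)) (p := s) (by
    have : 0 < 1 / (m : ℝ) := by positivity
    linarith) h0 h1
  have e1 : ((m : ℝ) + 1) = m * (1 + 1 / (m : ℝ)) := by field_simp
  have h2 : 0 ≤ 1 + 1 / (m : ℝ) := by positivity
  rw [e1, Real.mul_rpow hm0.le h2, Real.rpow_sub_one hm0.ne']
  have h3 : 0 ≤ (m : ℝ) ^ s := Real.rpow_nonneg hm0.le _
  have h4 := mul_le_mul_of_nonneg_left hb h3
  have h5 : (m : ℝ) ^ s * (1 + s * (1 / (m : ℝ))) = (m : ℝ) ^ s + s * ((m : ℝ) ^ s / m) := by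
    field_simp
  rw [h5] at h4
  linarith

private theorem s3_sum (s : ℝ) (h0 : 0 < s) (h1 : s ≤ 1) (y : ℕ) :
    ∑ m ∈ Icc 1 y, s * (m : ℝ) ^ (s - 1) ≤ (y : ℝ) ^ s ∧
      ((y : ℝ) + 1) ^ s - 1 ≤ ∑ m ∈ Icc 1 y, s * (m : ℝ) ^ (s - 1) := by
  induction y with
  | zero => simp [Real.zero_rpow h0.ne']
  | succ y ih =>
    rw [Finset.sum_Icc_succ_top (by omega)]
    have hu := s3_up s h0.le h1 (y + 1) (by omega)
    have hl := s3_lo s h0.le h1 (y + 1) (by omega)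
    have e : (((y + 1 : ℕ) : ℝ) - 1) = (y : ℝ) := by push_cast; ring
    rw [e] at hu
    constructor
    · linarith [ih.1]
    · have e2 : ((y + 1 : ℕ) : ℝ) = (y : ℝ) + 1 := by push_cast; ring
      rw [e2] at hl ⊢
      linarith [ih.2]

theorem s3 : S3 := by
  intro c β L δ w hc hβ hδ ⟨K, hK⟩ ⟨M0, hM0⟩
  set s : ℝ := 1 / c with hs
  have hs0 : 0 < s := by positivity
  have hs1 : s ≤ 1 := by rw [hs, div_le_one (by linarith)]; exact hc.le
  set B : ℝ := β ^ (-s) with hB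
  have hB0 : 0 < B := Real.rpow_pos_of_pos hβ _
  have hK0 : 0 ≤ K := le_trans (abs_nonneg _) (hK 0)
  set C0 : ℝ := (K + |L|) * M0 with hC0
  have hC00 : 0 ≤ C0 := by positivity
  -- the bound for the partial sums
  have hW : ∀ M : ℕ, |∑ m ∈ Icc 1 M, (w m - L)| ≤ δ * M + C0 := by
    intro M
    by_cases hM : M0 ≤ M
    · rcases Nat.eq_zero_or_pos M with rfl | hMp
      · simp
        exact hC00
      · have h := hM0 M hM
        have hMr : (0 : ℝ) < M := by exact_mod_cast hMp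
        have e : ∑ m ∈ Icc 1 M, (w m - L) = M * ((1 / (M : ℝ)) * ∑ m ∈ Icc 1 M, w m - L) := by
          rw [Finset.sum_sub_distrib]
          simp only [Finset.sum_const, Nat.card_Icc, Nat.add_sub_cancel, nsmul_eq_mul]
          field_simp
        rw [e, abs_mul, abs_of_pos hMr]
        calc (M : ℝ) * |1 / (M : ℝ) * ∑ m ∈ Icc 1 M, w m - L| ≤ M * δ :=
              mul_le_mul_of_nonneg_left h hMr.le
          _ ≤ δ * M + C0 := by linarith [mul_comm (M : ℝ) δ]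
    · push Not at hM
      calc |∑ m ∈ Icc 1 M, (w m - L)| ≤ ∑ m ∈ Icc 1 M, |w m - L| :=
            Finset.abs_sum_le_sum_abs _ _
        _ ≤ ∑ m ∈ Icc 1 M, (K + |L|) := by
            refine Finset.sum_le_sum fun m _ => ?_
            calc |w m - L| ≤ |w m| + |L| := abs_sub _ _
              _ ≤ K + |L| := by linarith [hK m]
        _ = M * (K + |L|) := by
            simp only [Finset.sum_const, Nat.card_Icc, Nat.add_sub_cancel, nsmul_eq_mul]
        _ ≤ M0 * (K + |L|) := by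
            refine mul_le_mul_of_nonneg_right ?_ (by positivity)
            exact_mod_cast hM.le
        _ ≤ δ * M + C0 := by
            rw [hC0]
            have : 0 ≤ δ * M := by positivity
            linarith [mul_comm (M0 : ℝ) (K + |L|)]
  set a : ℕ → ℝ := fun m => s * B * (m : ℝ) ^ (s - 1) with ha
  have hapos : ∀ m, 1 ≤ m → 0 ≤ a m := by
    intro m _
    simp only [ha]
    have := Real.rpow_nonneg (Nat.cast_nonneg (α := ℝ) m) (s - 1)
    positivity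
  have hanti : ∀ m, 1 ≤ m → a (m + 1) ≤ a m := by
    intro m hm
    simp only [ha]
    refine mul_le_mul_of_nonneg_left ?_ (by positivity)
    refine Real.rpow_le_rpow_of_nonpos (by exact_mod_cast hm) ?_ (by linarith)
    push_cast; linarith
  -- the conclusion
  obtain ⟨N0, hN0⟩ := exists_nat_gt ((C0 * a 1 + |L| * B) / δ)
  refine ⟨N0 + 1, fun N hN => ?_⟩
  have hNr : (0 : ℝ) < N := by
    have : 0 < N := by omega
    exact_mod_cast this
  set y : ℕ := ⌊β * (N : ℝ) ^ c⌋₊ with hy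
  have hz0 : 0 ≤ β * (N : ℝ) ^ c := by
    have := Real.rpow_nonneg hNr.le c
    positivity
  have hzs : (β * (N : ℝ) ^ c) ^ s = β ^ s * N := by
    rw [Real.mul_rpow hβ.le (Real.rpow_nonneg hNr.le c), ← Real.rpow_mul hNr.le, hs,
      mul_one_div_cancel (by linarith), Real.rpow_one]
  have hBs : B * β ^ s = 1 := by
    rw [hB, ← Real.rpow_add hβ]; simp
  have hA : ∑ m ∈ Icc 1 y, a m = B * ∑ m ∈ Icc 1 y, s * (m : ℝ) ^ (s - 1) := by
    rw [Finset.mul_sum]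
    refine Finset.sum_congr rfl fun m _ => ?_
    simp only [ha]; ring
  obtain ⟨hS1, hS2⟩ := s3_sum s hs0 hs1 y
  have hAu : ∑ m ∈ Icc 1 y, a m ≤ N := by
    rw [hA]
    have h1 : (y : ℝ) ^ s ≤ β ^ s * N := by
      rw [← hzs]
      exact Real.rpow_le_rpow (Nat.cast_nonneg _) (Nat.floor_le hz0) hs0.le
    calc B * ∑ m ∈ Icc 1 y, s * (m : ℝ) ^ (s - 1) ≤ B * (β ^ s * N) :=
          mul_le_mul_of_nonneg_left (hS1.trans h1) hB0.le
      _ = (B * β ^ s) * N := by ring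
      _ = N := by rw [hBs, one_mul]
  have hAl : (N : ℝ) - B ≤ ∑ m ∈ Icc 1 y, a m := by
    rw [hA]
    have h1 : β ^ s * N ≤ ((y : ℝ) + 1) ^ s := by
      rw [← hzs]
      exact Real.rpow_le_rpow hz0 (Nat.lt_floor_add_one _).le hs0.le
    calc (N : ℝ) - B = B * (β ^ s * N - 1) := by
          have : B * (β ^ s * N - 1) = (B * β ^ s) * N - B := by ring
          rw [this, hBs, one_mul]
      _ ≤ B * ∑ m ∈ Icc 1 y, s * (m : ℝ) ^ (s - 1) :=
          mul_le_mul_of_nonneg_left (by linarith) hB0.le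
  have key := s3_abel' a (fun m => w m - L) δ C0 hC00 hapos hanti hW y
  have e1 : ∑ m ∈ Icc 1 y, s * B * (m : ℝ) ^ (s - 1) * w m =
      ∑ m ∈ Icc 1 y, a m * (w m - L) + L * ∑ m ∈ Icc 1 y, a m := by
    rw [Finset.mul_sum, ← Finset.sum_add_distrib]
    refine Finset.sum_congr rfl fun m _ => ?_
    simp only [ha]; ring
  rw [e1]
  have e2 : 1 / (N : ℝ) * (∑ m ∈ Icc 1 y, a m * (w m - L) + L * ∑ m ∈ Icc 1 y, a m) - L =
      (1 / (N : ℝ)) * (∑ m ∈ Icc 1 y, a m * (w m - L) + L * (∑ m ∈ Icc 1 y, a m - N)) := by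
    field_simp
    ring
  rw [e2, abs_mul, abs_of_pos (by positivity : (0 : ℝ) < 1 / N)]
  have h5 : |∑ m ∈ Icc 1 y, a m * (w m - L) + L * (∑ m ∈ Icc 1 y, a m - N)| ≤
      δ * N + (C0 * a 1 + |L| * B) := by
    have h6 : |L * (∑ m ∈ Icc 1 y, a m - N)| ≤ |L| * B := by
      rw [abs_mul]
      refine mul_le_mul_of_nonneg_left ?_ (abs_nonneg _)
      rw [abs_le]
      constructor <;> linarith
    calc _ ≤ _ := abs_add_le _ _
      _ ≤ (δ * ∑ m ∈ Icc 1 y, a m + C0 * a 1) + |L| * B := add_le_add key h6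
      _ ≤ δ * N + (C0 * a 1 + |L| * B) := by
          have := mul_le_mul_of_nonneg_left hAu hδ.le
          linarith
  have h7 : C0 * a 1 + |L| * B ≤ δ * N := by
    have h8 : (C0 * a 1 + |L| * B) / δ < N := by
      refine hN0.trans_le ?_
      have : N0 ≤ N := by omega
      exact_mod_cast this
    rw [div_lt_iff₀ hδ] at h8
    linarith [mul_comm (N : ℝ) δ]
  calc 1 / (N : ℝ) * |∑ m ∈ Icc 1 y, a m * (w m - L) + L * (∑ m ∈ Icc 1 y, a m - N)|
      ≤ 1 / (N : ℝ) * (2 * δ * N) := by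
        refine mul_le_mul_of_nonneg_left ?_ (by positivity)
        linarith
    _ = 2 * δ := by field_simp

end Pool.Agent.H706R2.PS
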