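import Pool.Agent.H706R2.PS.SDefs

/-! S4: Riemann sums. -/

open Finset MeasureTheory Filter

namespace Pool.Agent.H706R2.PS

theorem s4 : S4 := by
  intro F L q δ hq hδ hF hu hL
  have hq0 : (0 : ℝ) < q := by exact_mod_cast hq
  obtain ⟨T0, hT0⟩ := Metric.tendsto_atTop.1 hL δ hδ
  refine ⟨⌈T0 * q⌉₊ + 1, fun M hM => ?_⟩
  have hM0 : (0 : ℝ) < M := by
    have : 0 < M := by omega
    exact_mod_cast this
  have hMT : T0 ≤ (M : ℝ) / q := by
    rw [le_div_iff₀ hq0]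
    have h1 : T0 * q ≤ ⌈T0 * q⌉₊ := Nat.le_ceil _
    have h2 : ((⌈T0 * q⌉₊ + 1 : ℕ) : ℝ) ≤ M := by exact_mod_cast hM
    push_cast at h2
    linarith
  have h1 := hT0 ((M : ℝ) / q) hMT
  rw [Real.dist_eq] at h1
  have hsumI : ∑ k ∈ range M, ∫ t in ((k : ℝ) / q)..(((k + 1 : ℕ) : ℝ) / q), F t
      = ∫ t in (0 : ℝ)..((M : ℝ) / q), F t := by
    have := intervalIntegral.sum_integral_adjacent_intervals (μ := volume) (f := F)
      (a := fun k : ℕ => (k : ℝ) / q) (n := M) (fun k _ => hF.intervalIntegrable _ _)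
    simpa using this
  have hIcc : ∀ (G : ℕ → ℝ) (M : ℕ), ∑ m ∈ Icc 1 M, G m = ∑ k ∈ range M, G (k + 1) := by
    intro G M
    induction M with
    | zero => simp
    | succ M ih => rw [Finset.sum_Icc_succ_top (by omega), ih, sum_range_succ]
  rw [hIcc (fun m => F ((m : ℝ) / q)) M]
  have hterm : ∀ k : ℕ, |F (((k + 1 : ℕ) : ℝ) / q)
      - q * ∫ t in ((k : ℝ) / q)..(((k + 1 : ℕ) : ℝ) / q), F t| ≤ δ := by
    intro k
    have hlen : (((k + 1 : ℕ) : ℝ) / q) - (k : ℝ) / q = 1 / q := by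
      push_cast
      field_simp
      ring
    have hle : (k : ℝ) / q ≤ ((k + 1 : ℕ) : ℝ) / q := by
      have : (0 : ℝ) < 1 / q := by positivity
      linarith
    have e1 : F (((k + 1 : ℕ) : ℝ) / q) - q * ∫ t in ((k : ℝ) / q)..(((k + 1 : ℕ) : ℝ) / q), F t
        = q * ∫ t in ((k : ℝ) / q)..(((k + 1 : ℕ) : ℝ) / q), (F (((k + 1 : ℕ) : ℝ) / q) - F t) := by
      rw [intervalIntegral.integral_sub (by simp) (hF.intervalIntegrable _ _),
        intervalIntegral.integral_const, hlen, smul_eq_mul, mul_sub]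
      field_simp
    rw [e1, abs_mul, abs_of_pos hq0]
    have e2 := intervalIntegral.norm_integral_le_of_norm_le_const
      (f := fun t => F (((k + 1 : ℕ) : ℝ) / q) - F t) (C := δ) (a := (k : ℝ) / q)
      (b := ((k + 1 : ℕ) : ℝ) / q) (by
        intro t ht
        rw [Set.uIoc_of_le hle] at ht
        rw [Real.norm_eq_abs]
        have hk0 : (0 : ℝ) ≤ (k : ℝ) / q := by positivity
        refine hu _ _ (hk0.trans hle) (hk0.trans ht.1.le) ?_
        rw [abs_of_nonneg (by linarith [ht.2])]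
        linarith [ht.1])
    rw [hlen, abs_of_pos (by positivity : (0 : ℝ) < 1 / q), Real.norm_eq_abs] at e2
    calc (q : ℝ) * |∫ t in ((k : ℝ) / q)..(((k + 1 : ℕ) : ℝ) / q), (F (((k + 1 : ℕ) : ℝ) / q) - F t)|
        ≤ q * (δ * (1 / q)) := mul_le_mul_of_nonneg_left e2 hq0.le
      _ = δ := by field_simp
  have hdiff : |1 / (M : ℝ) * ∑ k ∈ range M, F (((k + 1 : ℕ) : ℝ) / q)
      - 1 / ((M : ℝ) / q) * ∫ t in (0 : ℝ)..((M : ℝ) / q), F t| ≤ δ := by
    have e1 : 1 / (M : ℝ) * ∑ k ∈ range M, F (((k + 1 : ℕ) : ℝ) / q)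
        - 1 / ((M : ℝ) / q) * ∫ t in (0 : ℝ)..((M : ℝ) / q), F t
        = 1 / (M : ℝ) * ∑ k ∈ range M, (F (((k + 1 : ℕ) : ℝ) / q)
          - q * ∫ t in ((k : ℝ) / q)..(((k + 1 : ℕ) : ℝ) / q), F t) := by
      rw [← hsumI, sum_sub_distrib, ← mul_sum, mul_sub]
      congr 1
      field_simp
    rw [e1, abs_mul, abs_of_pos (by positivity : (0 : ℝ) < 1 / (M : ℝ))]
    have e2 : |∑ k ∈ range M, (F (((k + 1 : ℕ) : ℝ) / q)
          - q * ∫ t in ((k : ℝ) / q)..(((k + 1 : ℕ) : ℝ) / q), F t)| ≤ M * δ := by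
      refine (abs_sum_le_sum_abs _ _).trans ((sum_le_sum fun k _ => hterm k).trans ?_)
      simp
    calc 1 / (M : ℝ) * |∑ k ∈ range M, (F (((k + 1 : ℕ) : ℝ) / q)
          - q * ∫ t in ((k : ℝ) / q)..(((k + 1 : ℕ) : ℝ) / q), F t)|
        ≤ 1 / (M : ℝ) * (M * δ) := mul_le_mul_of_nonneg_left e2 (by positivity)
      _ = δ := by field_simp
  have := abs_le.1 hdiff
  have := abs_lt.1 h1
  rw [abs_le]
  constructor <;> linarith

end Pool.Agent.H706R2.PS
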