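import Pool.Agent.H706R2.PS.SDefs

/-! Task S6: Urysohn functions (helper866). -/

open Finset MeasureTheory Filter

namespace Pool.Agent.H706R2.PS

universe u

theorem s6 : S6.{u} := by
  intro X _ _ _ _ _ _ μ _ U ε hU hε
  have hreg : μ.InnerRegularWRT IsCompact IsOpen := by
    have : μ.Regular := inferInstance
    exact Measure.Regular.innerRegular
  have hUfin : μ U ≠ ⊤ := measure_ne_top μ U
  -- a compact subset of almost full measure
  obtain ⟨K, hKU, hK, hKε⟩ : ∃ K, K ⊆ U ∧ IsCompact K ∧ μ.real U - ε ≤ μ.real K := by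
    by_cases h0 : μ.real U - ε < 0
    · exact ⟨∅, Set.empty_subset _, isCompact_empty, by simpa using h0.le⟩
    · push Not at h0
      have hUpos : 0 < μ.real U := by linarith
      have hlt : ENNReal.ofReal (μ.real U - ε) < μ U := by
        rw [← ENNReal.ofReal_toReal hUfin]
        exact (ENNReal.ofReal_lt_ofReal_iff hUpos).2 (by
          show μ.real U - ε < (μ U).toReal
          change μ.real U - ε < μ.real U
          linarith)
      obtain ⟨K, hKU, hK, hKlt⟩ := hreg hU _ hlt
      refine ⟨K, hKU, hK, ?_⟩
      have h1 := ENNReal.toReal_mono (measure_ne_top μ K) hKlt.le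
      rwa [ENNReal.toReal_ofReal h0] at h1
  obtain ⟨f, hf1, hfc, hfU, hf01⟩ := exists_continuousMap_one_of_isCompact_subset_isOpen hK hU hKU
  have hcs : HasCompactSupport (f : X → ℝ) := hfc
  refine ⟨f, f.continuous, hcs, fun x => ⟨(hf01 x).1, (hf01 x).2⟩, ?_, ?_⟩
  · intro x hx
    exact image_eq_zero_of_notMem_tsupport (fun h => hx (hfU h))
  · refine hKε.trans ?_
    have hfi : Integrable (f : X → ℝ) μ := f.continuous.integrable_of_hasCompactSupport hcs
    have h1 : ∫ x in K, f x ∂μ = μ.real K := by
      rw [setIntegral_congr_fun hK.measurableSet (fun x hx => hf1 hx)]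
      simp
    rw [← h1]
    exact setIntegral_le_integral hfi (Filter.Eventually.of_forall fun x => (hf01 x).1)

end Pool.Agent.H706R2.PS
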