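import Pool.Agent.H706R2.PS.SDefs

/-! Task S8 (helper411): uniform continuity along a flow. -/

open Finset MeasureTheory Filter

namespace Pool.Agent.H706R2.PS

theorem s8.{u} : S8.{u} := by
  intro X _ _ _ φ hφ hadd hzero f hf hfc δ hδ
  set K : Set X := tsupport f with hK
  have hKc : IsCompact K := hfc
  set K1 : Set X := (fun p : ℝ × X => φ p.1 p.2) '' (Set.Icc (-1 : ℝ) 1 ×ˢ K) with hK1
  have hK1c : IsCompact K1 := (isCompact_Icc.prod hKc).image hφ
  have hg : Continuous fun p : ℝ × X => |f (φ p.1 p.2) - f p.2| :=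
    ((hf.comp hφ).sub (hf.comp continuous_snd)).abs
  have hopen : IsOpen {p : ℝ × X | |f (φ p.1 p.2) - f p.2| < δ} := isOpen_lt hg continuous_const
  have hsub : ({0} : Set ℝ) ×ˢ K1 ⊆ {p : ℝ × X | |f (φ p.1 p.2) - f p.2| < δ} := by
    rintro ⟨s, x⟩ ⟨hs, -⟩
    have hs0 : s = 0 := hs
    show |f (φ s x) - f x| < δ
    rw [hs0, hzero, sub_self, abs_zero]
    exact hδ
  obtain ⟨u, v, hu, -, hu0, hv, huv⟩ :=
    generalized_tube_lemma isCompact_singleton hK1c hopen hsub
  have h0u : (0 : ℝ) ∈ u := hu0 rfl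
  obtain ⟨r, hr, hball⟩ := Metric.isOpen_iff.1 hu 0 h0u
  obtain ⟨n, hn⟩ := exists_nat_one_div_lt hr
  refine ⟨n + 1, by omega, fun x s hs => ?_⟩
  have hs1 : |s| < r := lt_of_le_of_lt (by exact_mod_cast hs) hn
  have hs2 : |s| ≤ 1 := by
    refine hs.trans ?_
    push_cast
    rw [div_le_one (by positivity)]
    have : (0 : ℝ) ≤ n := Nat.cast_nonneg n
    linarith
  by_cases hx : x ∈ K1
  · have h1 : ((s, x) : ℝ × X) ∈ u ×ˢ v := by
      refine ⟨hball ?_, hv hx⟩
      rw [Metric.mem_ball, Real.dist_eq, sub_zero]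
      exact hs1
    exact (huv h1).le
  · have h1 : x ∉ K := fun h => hx ⟨(0, x), ⟨⟨by norm_num, by norm_num⟩, h⟩, hzero x⟩
    have h2 : φ s x ∉ K := by
      intro h
      refine hx ⟨(-s, φ s x), ⟨?_, h⟩, ?_⟩
      · rw [abs_le] at hs2
        exact ⟨by linarith [hs2.2], by linarith [hs2.1]⟩
      · show φ (-s) (φ s x) = x
        rw [← hadd, neg_add_cancel, hzero]
    rw [image_eq_zero_of_notMem_tsupport h1, image_eq_zero_of_notMem_tsupport h2, sub_zero,
      abs_zero]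
    exact hδ.le

end Pool.Agent.H706R2.PS
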