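import Pool.Agent.H706R2.PS.Defs

/-! Task T11c. -/

open Finset MeasureTheory Filter

namespace Pool.Agent.H706R2.PS

open Classical in
/-- summand of the difference -/
noncomputable def t11cF (A : Set ℕ) (c : ℝ) (m : ℕ) : ℝ :=
  (if m ∈ A then (if ∃ k : ℕ, 1 ≤ k ∧ ⌊(k : ℝ) ^ c⌋₊ = m then (1:ℝ) else 0) else 0) -
    (if m ∈ A then (1 / c) * (m : ℝ) ^ (1 / c - 1) else 0)

/-- the difference -/
noncomputable def t11cD (A : Set ℕ) (c : ℝ) (X y : ℕ) : ℝ :=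
  nPS A c X y - mainT (Ax A X y) c

theorem t11cD_eq (A : Set ℕ) (c : ℝ) (X y : ℕ) :
    t11cD A c X y = ∑ m ∈ Ioc X y, t11cF A c m := by
  classical
  unfold t11cD nPS mainT Ax t11cF
  rw [Finset.card_filter, Finset.sum_sub_distrib, Nat.cast_sum, Finset.sum_filter,
    Finset.sum_filter]
  congr 1
  apply Finset.sum_congr rfl
  intro m _
  by_cases h1 : m ∈ A
  · by_cases h2 : ∃ k : ℕ, 1 ≤ k ∧ ⌊(k : ℝ) ^ c⌋₊ = m
    · simp only [h1, h2, if_true, Nat.cast_one]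
    · simp only [h1, h2, if_true, if_false, Nat.cast_zero]
  · simp only [h1, if_false]

theorem t11cD_add (A : Set ℕ) (c : ℝ) (X y : ℕ) (h : X ≤ y) :
    t11cD A c 0 y = t11cD A c 0 X + t11cD A c X y := by
  rw [t11cD_eq, t11cD_eq, t11cD_eq, Finset.sum_Ioc_consecutive _ (Nat.zero_le X) h]

theorem t11c_two_pow (θ : ℝ) (i : ℕ) :
    ((2:ℝ) ^ (i + 1)) ^ θ = (2:ℝ) ^ θ * ((2:ℝ) ^ i) ^ θ := by
  rw [pow_succ, Real.mul_rpow (by positivity) (by norm_num), mul_comm]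

theorem t11c_ind (A : Set ℕ) (c θ : ℝ) (hθ : 0 < θ) (i0 : ℕ)
    (h : ∀ i : ℕ, i0 ≤ i → ∀ y : ℕ, 2 ^ i ≤ y → y ≤ 2 ^ (i + 1) →
      |t11cD A c (2 ^ i) y| ≤ 8 * ((2 : ℝ) ^ i) ^ θ) (i : ℕ) (hi : i0 ≤ i) :
    |t11cD A c 0 (2 ^ i)| ≤ |t11cD A c 0 (2 ^ i0)| +
      8 / ((2:ℝ) ^ θ - 1) * ((2 : ℝ) ^ i) ^ θ := by
  have h2 : 1 < (2:ℝ) ^ θ := Real.one_lt_rpow (by norm_num) hθ
  have h3 : 0 < (2:ℝ) ^ θ - 1 := by linarith
  induction i, hi using Nat.le_induction with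
  | base =>
    have : 0 ≤ 8 / ((2:ℝ) ^ θ - 1) * ((2 : ℝ) ^ i0) ^ θ := by positivity
    linarith
  | succ i hi ih =>
    rw [t11cD_add A c (2 ^ i) (2 ^ (i + 1)) (Nat.pow_le_pow_right (by norm_num) (Nat.le_succ i)),
      t11c_two_pow]
    refine (abs_add_le _ _).trans ?_
    have h4 := h i hi (2 ^ (i + 1)) (Nat.pow_le_pow_right (by norm_num) (Nat.le_succ i)) le_rfl
    have h5 : 8 / ((2:ℝ) ^ θ - 1) * ((2:ℝ) ^ θ * ((2:ℝ) ^ i) ^ θ) =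
        8 / ((2:ℝ) ^ θ - 1) * ((2 : ℝ) ^ i) ^ θ + 8 * ((2 : ℝ) ^ i) ^ θ := by
      field_simp
      ring
    rw [h5]
    linarith

theorem t11c_det (A : Set ℕ) (c θ : ℝ) (hθ : 0 < θ) (i0 : ℕ)
    (h : ∀ i : ℕ, i0 ≤ i → ∀ y : ℕ, 2 ^ i ≤ y → y ≤ 2 ^ (i + 1) →
      |t11cD A c (2 ^ i) y| ≤ 8 * ((2 : ℝ) ^ i) ^ θ) :
    ∃ C : ℝ, ∀ y : ℕ, 1 ≤ y → |t11cD A c 0 y| ≤ C * (y : ℝ) ^ θ := by
  have h2 : 1 < (2:ℝ) ^ θ := Real.one_lt_rpow (by norm_num) hθ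
  have h3 : 0 < (2:ℝ) ^ θ - 1 := by linarith
  set S : ℝ := ∑ y ∈ range (2 ^ i0 + 1), |t11cD A c 0 y| with hS
  have hS1 : ∀ y, y ≤ 2 ^ i0 → |t11cD A c 0 y| ≤ S := by
    intro y hy
    exact Finset.single_le_sum (f := fun y => |t11cD A c 0 y|) (fun _ _ => abs_nonneg _)
      (Finset.mem_range.2 (by omega))
  have hS0 : 0 ≤ S := Finset.sum_nonneg (fun _ _ => abs_nonneg _)
  refine ⟨S + (8 / ((2:ℝ) ^ θ - 1) + 8), fun y hy => ?_⟩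
  have hy1 : (1:ℝ) ≤ (y : ℝ) ^ θ := Real.one_le_rpow (by exact_mod_cast hy) hθ.le
  have hc : 0 ≤ 8 / ((2:ℝ) ^ θ - 1) := by positivity
  rcases le_total y (2 ^ i0) with hle | hge
  · calc |t11cD A c 0 y| ≤ S := hS1 y hle
      _ ≤ S + (8 / ((2:ℝ) ^ θ - 1) + 8) := by linarith
      _ ≤ (S + (8 / ((2:ℝ) ^ θ - 1) + 8)) * (y : ℝ) ^ θ :=
        le_mul_of_one_le_right (by positivity) hy1
  · set i : ℕ := Nat.log 2 y with hi
    have hi1 : 2 ^ i ≤ y := Nat.pow_log_le_self 2 (by omega)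
    have hi2 : y < 2 ^ (i + 1) := Nat.lt_pow_succ_log_self (by norm_num) y
    have hi0 : i0 ≤ i := by
      by_contra hcon
      push Not at hcon
      have : 2 ^ (i + 1) ≤ 2 ^ i0 := Nat.pow_le_pow_right (by norm_num) hcon
      omega
    have h4 := t11c_ind A c θ hθ i0 h i hi0
    have h5 := h i hi0 y hi1 hi2.le
    rw [t11cD_add A c (2 ^ i) y hi1]
    refine (abs_add_le _ _).trans ?_
    have h6 : ((2:ℝ) ^ i) ^ θ ≤ (y : ℝ) ^ θ := by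
      apply Real.rpow_le_rpow (by positivity) _ hθ.le
      exact_mod_cast hi1
    have h7 := hS1 (2 ^ i0) le_rfl
    have h8 : 8 / ((2:ℝ) ^ θ - 1) * ((2:ℝ) ^ i) ^ θ ≤ 8 / ((2:ℝ) ^ θ - 1) * (y : ℝ) ^ θ :=
      mul_le_mul_of_nonneg_left h6 hc
    have h9 : S ≤ S * (y : ℝ) ^ θ := le_mul_of_one_le_right hS0 hy1
    have h10 : (S + (8 / ((2:ℝ) ^ θ - 1) + 8)) * (y : ℝ) ^ θ =
      S * (y : ℝ) ^ θ + 8 / ((2:ℝ) ^ θ - 1) * (y : ℝ) ^ θ + 8 * (y : ℝ) ^ θ := by ring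
    rw [h10]
    linarith

theorem t11c (h : T11b) : T11c := by
  intro A
  have hC : ∀ n : ℕ, (1:ℝ) ≤ (n : ℝ) + 2 := by
    intro n
    have : (0:ℝ) ≤ n := Nat.cast_nonneg n
    linarith
  choose κ hκ0 hκ1 hκ using fun n : ℕ => h ((n : ℝ) + 2) (hC n)
  have hae : ∀ᵐ c : ℝ, ∀ n j : ℕ,
      c ∈ Set.Icc (min (1 + j * κ n) ((n : ℝ) + 2)) (min (1 + (j + 1) * κ n) ((n : ℝ) + 2)) →
      ∃ i0 : ℕ, ∀ i : ℕ, i0 ≤ i → ∀ y : ℕ, 2 ^ i ≤ y → y ≤ 2 ^ (i + 1) →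
        |nPS A c (2 ^ i) y - mainT (Ax A (2 ^ i) y) c| ≤ 8 * ((2 : ℝ) ^ i) ^ (1 / c - κ n / 4) := by
    rw [ae_all_iff]
    intro n
    rw [ae_all_iff]
    intro j
    have hk := hκ0 n
    have hj : (0:ℝ) ≤ j := Nat.cast_nonneg j
    have hjk : 0 ≤ j * κ n := by positivity
    have h1 : 1 ≤ min (1 + j * κ n) ((n : ℝ) + 2) := le_min (by linarith) (hC n)
    have h2 : min (1 + j * κ n) ((n : ℝ) + 2) ≤ min (1 + (j + 1) * κ n) ((n : ℝ) + 2) :=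
      min_le_min (by nlinarith) le_rfl
    refine hκ n A _ _ h1 h2 (min_le_right _ _) ?_
    set c1 := min (1 + j * κ n) ((n : ℝ) + 2) with hc1
    set c2 := min (1 + (j + 1) * κ n) ((n : ℝ) + 2) with hc2
    have h3 : c2 - c1 ≤ κ n := by
      have h4 : c2 ≤ 1 + (j + 1) * κ n := min_le_left _ _
      have h5 : c2 ≤ (n : ℝ) + 2 := min_le_right _ _
      rcases min_choice (1 + j * κ n) ((n : ℝ) + 2) with h6 | h6
      · rw [hc1, h6]; linarith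
      · rw [hc1, h6]; linarith
    have hc1pos : 0 < c1 := by linarith
    have hc2pos : 0 < c2 := by linarith
    have h7 : 1 / c1 - 1 / c2 = (c2 - c1) / (c1 * c2) := by
      field_simp
    rw [h7, div_le_iff₀ (by positivity)]
    have h8 : 1 ≤ c1 * c2 := by nlinarith
    calc c2 - c1 ≤ κ n := h3
      _ ≤ κ n * (c1 * c2) := le_mul_of_one_le_right hk.le h8
  filter_upwards [hae] with c hc hc1
  obtain ⟨n, hn⟩ := exists_nat_ge c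
  have hk := hκ0 n
  have hcn : c ≤ (n : ℝ) + 2 := by linarith
  have hq0 : 0 ≤ (c - 1) / κ n := div_nonneg (by linarith) hk.le
  have hfl := Nat.floor_le hq0
  have hlt := Nat.lt_floor_add_one ((c - 1) / κ n)
  rw [le_div_iff₀ hk] at hfl
  rw [div_lt_iff₀ hk] at hlt
  obtain ⟨i0, hi0⟩ := hc n ⌊(c - 1) / κ n⌋₊
    ⟨(min_le_left _ _).trans (by linarith), le_min (by linarith) hcn⟩
  have hθ : 0 < 1 / c - κ n / 4 := by
    have h1 := hκ1 n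
    have h2 : 1 / (2 * ((n : ℝ) + 2)) ≤ 1 / (2 * c) := by
      apply one_div_le_one_div_of_le (by linarith) (by linarith)
    have h3 : 1 / (2 * c) = 1 / c / 2 := by field_simp
    have h4 : 0 < 1 / c := by positivity
    linarith
  obtain ⟨C, hC'⟩ := t11c_det A c (1 / c - κ n / 4) hθ i0 hi0
  exact ⟨κ n / 4, by positivity, C, hC'⟩

end Pool.Agent.H706R2.PS
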