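import Pool.Agent.H706R2.PS.Defs

open Finset MeasureTheory Filter

namespace Pool.Agent.H706R2.PS

/-- `nPS` as the cardinality of a set -/
lemma nPS_eq (A : Set ℕ) (c : ℝ) (y : ℕ) :
    nPS A c 0 y = (({m : ℕ | m ∈ A ∧ 1 ≤ m ∧ m ≤ y ∧ ∃ k : ℕ, 1 ≤ k ∧ ⌊(k : ℝ) ^ c⌋₊ = m} : Set ℕ).ncard : ℝ) := by
  classical
  unfold nPS
  congr 1
  rw [← Set.ncard_coe_finset]
  congr 1
  ext m
  simp only [Ax, coe_filter, mem_filter, mem_Ioc, Set.mem_setOf_eq]
  constructor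
  · rintro ⟨⟨⟨h1, h2⟩, h3⟩, h4⟩
    exact ⟨h3, h1, h2, h4⟩
  · rintro ⟨h1, h2, h3, h4⟩
    exact ⟨⟨⟨h2, h3⟩, h1⟩, h4⟩

/-- the asymptotic law for sets with the density of the primes, along the integers -/
lemma law_nat (h11 : T11c) (h12 : T12) (A : Set ℕ)
    (hA : Tendsto (fun n : ℕ => ((Ax A 0 n).card : ℝ) * Real.log n / n) atTop (nhds 1)) :
    ∀ᵐ c : ℝ, 1 < c → Tendsto (fun n : ℕ => nPS A c 0 n * Real.log n / (n : ℝ) ^ (1 / c)) atTop (nhds 1) := by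
  filter_upwards [h11 A] with c hc hc1
  obtain ⟨κ, hκ, C, hC⟩ := hc hc1
  have h1 := h12 A c hc1 hA
  have h2 : Tendsto (fun n : ℕ => (nPS A c 0 n - mainT (Ax A 0 n) c) * Real.log n / (n : ℝ) ^ (1 / c))
      atTop (nhds 0) := by
    have h3 : Tendsto (fun n : ℕ => |C| * (Real.log n / (n : ℝ) ^ κ)) atTop (nhds 0) := by
      have := (isLittleO_log_rpow_atTop hκ).tendsto_div_nhds_zero.comp (tendsto_natCast_atTop_atTop (R := ℝ))
      simpa using this.const_mul |C|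
    refine squeeze_zero_norm' ?_ h3
    filter_upwards [eventually_ge_atTop 2] with n hn
    have hn1 : (1 : ℝ) ≤ n := by exact_mod_cast (by omega : 1 ≤ n)
    have hn0 : (0 : ℝ) < n := by linarith
    have hl : 0 ≤ Real.log n := Real.log_nonneg hn1
    rw [Real.norm_eq_abs, abs_div, abs_mul, abs_of_nonneg hl, abs_of_pos (Real.rpow_pos_of_pos hn0 _)]
    have h4 := hC n (by omega)
    have h5 : C * (n : ℝ) ^ (1 / c - κ) ≤ |C| * ((n : ℝ) ^ (1 / c) / (n : ℝ) ^ κ) := by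
      rw [Real.rpow_sub hn0]
      have : 0 ≤ (n : ℝ) ^ (1 / c) / (n : ℝ) ^ κ := by positivity
      nlinarith [le_abs_self C]
    have hp : 0 < (n : ℝ) ^ (1 / c) := Real.rpow_pos_of_pos hn0 _
    rw [div_le_iff₀ hp]
    calc |nPS A c 0 n - mainT (Ax A 0 n) c| * Real.log n ≤
        (|C| * ((n : ℝ) ^ (1 / c) / (n : ℝ) ^ κ)) * Real.log n := by
          gcongr
          exact h4.trans h5
      _ = _ := by ring
  have h3 := h2.add h1
  rw [zero_add] at h3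
  refine h3.congr fun n => ?_
  ring

end Pool.Agent.H706R2.PS
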