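import Pool.Agent.H706R2.PS.Defs
import Pool.Agent.H357R2.SI.Moment

/-!
T14: the integers `m` with a prime in `(m, m + lam log m]` have positive lower density.
-/

set_option autoImplicit false

open Filter Topology Finset

namespace Pool.Agent.H706R2.PS

namespace T14aux

open Pool.Agent.H357R2.SI

/-- every prime of `(Y, 2 Y]` is counted `H` times -/
theorem sum_lower (Y H n : ℕ) (hY : 2 * Y ≤ n) (hH : H ≤ Y) :
    H * pc Y (2 * Y) ≤ ∑ m ∈ Finset.Ico (Y - H) n, pc m (m + H) := by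
  classical
  set P := (Finset.Ioc Y (2 * Y)).filter Nat.Prime with hP
  have h1 : ∀ p ∈ P, H ≤ ∑ m ∈ Finset.Ico (Y - H) n, if m < p ∧ p ≤ m + H then 1 else 0 := by
    intro p hp
    rw [hP, Finset.mem_filter, Finset.mem_Ioc] at hp
    rw [← Finset.card_filter]
    have hsub : Finset.Ico (p - H) p ⊆ (Finset.Ico (Y - H) n).filter
        (fun m => m < p ∧ p ≤ m + H) := by
      intro m hm
      rw [Finset.mem_Ico] at hm
      rw [Finset.mem_filter, Finset.mem_Ico]
      omega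
    have h2 := Finset.card_le_card hsub
    rw [Nat.card_Ico] at h2
    omega
  calc H * pc Y (2 * Y) = ∑ p ∈ P, H := by
        rw [Finset.sum_const, smul_eq_mul, mul_comm]
        rfl
    _ ≤ ∑ p ∈ P, ∑ m ∈ Finset.Ico (Y - H) n, (if m < p ∧ p ≤ m + H then 1 else 0) :=
        Finset.sum_le_sum h1
    _ = ∑ m ∈ Finset.Ico (Y - H) n, ∑ p ∈ P, (if m < p ∧ p ≤ m + H then 1 else 0) :=
        Finset.sum_comm
    _ ≤ ∑ m ∈ Finset.Ico (Y - H) n, pc m (m + H) := by
        refine Finset.sum_le_sum fun m _ => ?_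
        rw [← Finset.card_filter]
        unfold pc
        apply Finset.card_le_card
        intro p hp
        rw [Finset.mem_filter, hP, Finset.mem_filter] at hp
        rw [Finset.mem_filter, Finset.mem_Ioc]
        exact ⟨hp.2, hp.1.2⟩

theorem log_small (a : ℝ) (ha : 0 < a) : ∀ᶠ n : ℕ in atTop, Real.log n ≤ a * n := by
  have h := Real.isLittleO_log_id_atTop.bound ha
  have h2 := (tendsto_natCast_atTop_atTop (R := ℝ)).eventually h
  filter_upwards [h2, eventually_ge_atTop 1] with N hN hN1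
  have hN1' : (1 : ℝ) ≤ N := by exact_mod_cast hN1
  rw [Real.norm_of_nonneg (Real.log_nonneg hN1'), id, Real.norm_of_nonneg (by linarith)] at hN
  exact hN

end T14aux

open T14aux Pool.Agent.H357R2.SI in
theorem t14 (lam : ℝ) (hlam : 0 < lam) : ∃ δ : ℝ, 0 < δ ∧ ∃ n0 : ℕ, ∀ n : ℕ, n0 ≤ n →
    δ * n ≤ ((Ax {m : ℕ | ∃ p : ℕ, p.Prime ∧ m < p ∧ (p : ℝ) ≤ m + lam * Real.log m} 0 n).card
      : ℝ) := by
  classical
  obtain ⟨C, hC, N₀, hN₀, hsm⟩ := second_moment_bound
  obtain ⟨X₀, hX₀, hpc⟩ := pc_window_lower (1 / 10) (by norm_num) (by norm_num)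
  set l : ℝ := min lam 1 / 2 with hl
  have hl0 : 0 < l := by
    have : 0 < min lam 1 := lt_min hlam one_pos
    linarith
  have hl1 : l ≤ 1 / 2 := by
    have : min lam 1 ≤ 1 := min_le_right _ _
    linarith
  have hll : l ≤ lam / 2 := by
    have : min lam 1 ≤ lam := min_le_left _ _
    linarith
  have hlim : Tendsto (fun n : ℕ => Real.log (n : ℝ)) atTop atTop :=
    Real.tendsto_log_atTop.comp tendsto_natCast_atTop_atTop
  have hev : ∀ᶠ n : ℕ in atTop, 2 / l ≤ Real.log n ∧ Real.log n ≤ (1 / 16) * n ∧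
      N₀ ≤ n ∧ 2 * X₀ + 2 ≤ n ∧ 16 ≤ n := by
    filter_upwards [hlim.eventually_ge_atTop (2 / l), log_small (1 / 16) (by norm_num),
      eventually_ge_atTop N₀, eventually_ge_atTop (2 * X₀ + 2), eventually_ge_atTop 16]
      with n h1 h2 h3 h4 h5
    exact ⟨h1, h2, h3, h4, h5⟩
  obtain ⟨n0, hn0⟩ := hev.exists_forall_of_atTop
  have hC0 : 0 < C := by linarith
  refine ⟨(l / 12) ^ 2 / C, by positivity, n0, ?_⟩
  intro n hn
  obtain ⟨a1, a2, a3, a4, a5⟩ := hn0 n hn
  have hnR : (16 : ℝ) ≤ n := by exact_mod_cast a5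
  have hlogn : 0 < Real.log n := Real.log_pos (by linarith)
  set H : ℕ := ⌊l * Real.log n⌋₊ with hH
  set Y : ℕ := n / 2 with hY
  have hH1 : (H : ℝ) ≤ l * Real.log n := Nat.floor_le (by positivity)
  have hH2 : l * Real.log n / 2 ≤ H := by
    have h1 : l * Real.log n < H + 1 := Nat.lt_floor_add_one _
    have h2 : 2 ≤ l * Real.log n := by
      rw [div_le_iff₀ hl0] at a1
      linarith
    linarith
  have hHn : (H : ℝ) ≤ n / 32 := by
    have : l * Real.log n ≤ 1 / 2 * ((1 / 16) * n) :=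
      mul_le_mul hl1 a2 hlogn.le (by norm_num)
    linarith
  have hY1 : 2 * Y ≤ n := by omega
  have hY2 : n ≤ 2 * Y + 1 := by omega
  have hY2R : (n : ℝ) ≤ 2 * Y + 1 := by exact_mod_cast hY2
  have hY1R : 2 * (Y : ℝ) ≤ n := by exact_mod_cast hY1
  have hYX : X₀ ≤ Y := by omega
  have hY3 : (3 : ℝ) ≤ Y := by exact_mod_cast hX₀.trans hYX
  have hHYR : (H : ℝ) ≤ Y := by linarith
  have hHY : H ≤ Y := by exact_mod_cast hHYR
  -- primes in `(Y, 2Y]`
  have hp := hpc Y Y hYX le_rfl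
  have hlogY : 0 < Real.log Y := Real.log_pos (by linarith)
  have hlogYn : Real.log Y ≤ Real.log n := Real.log_le_log (by linarith) (by linarith)
  have h2Y : Y + Y = 2 * Y := by ring
  rw [h2Y] at hp
  have hp2 : (Y : ℝ) / 2 ≤ (pc Y (2 * Y) : ℝ) * Real.log n := by
    have h1 : (pc Y (2 * Y) : ℝ) * Real.log Y ≤ (pc Y (2 * Y) : ℝ) * Real.log n :=
      mul_le_mul_of_nonneg_left hlogYn (Nat.cast_nonneg _)
    linarith
  have hS : l * n / 12 ≤ ∑ m ∈ Finset.Ico (Y - H) n, (pc m (m + H) : ℝ) := by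
    have h1 : ((H * pc Y (2 * Y) : ℕ) : ℝ) ≤ ∑ m ∈ Finset.Ico (Y - H) n, (pc m (m + H) : ℝ) := by
      exact_mod_cast sum_lower Y H n hY1 hHY
    refine le_trans ?_ h1
    push_cast
    have h2 : l * Real.log n / 2 * (pc Y (2 * Y) : ℝ) ≤ H * (pc Y (2 * Y) : ℝ) :=
      mul_le_mul_of_nonneg_right hH2 (Nat.cast_nonneg _)
    refine le_trans ?_ h2
    have h3 : l / 2 * ((Y : ℝ) / 2) ≤ l / 2 * ((pc Y (2 * Y) : ℝ) * Real.log n) :=
      mul_le_mul_of_nonneg_left hp2 (by linarith)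
    have h4 : (n : ℝ) / 3 ≤ Y := by linarith
    have h5 : l / 2 * ((n : ℝ) / 3 / 2) ≤ l / 2 * ((Y : ℝ) / 2) :=
      mul_le_mul_of_nonneg_left (by linarith) (by linarith)
    have h6 : l / 2 * ((pc Y (2 * Y) : ℝ) * Real.log n) =
      l * Real.log n / 2 * (pc Y (2 * Y) : ℝ) := by ring
    have h7 : l / 2 * ((n : ℝ) / 3 / 2) = l * n / 12 := by ring
    linarith
  -- second moment
  have hM := hsm n H a3 (by
    have : l * Real.log n ≤ 1 / 2 * Real.log n := mul_le_mul_of_nonneg_right hl1 hlogn.le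
    linarith)
  set G := (Finset.Ico (Y - H) n).filter (fun m => pc m (m + H) ≠ 0) with hG
  have hSG : ∑ m ∈ Finset.Ico (Y - H) n, (pc m (m + H) : ℝ) = ∑ m ∈ G, (pc m (m + H) : ℝ) := by
    rw [hG, Finset.sum_filter]
    refine Finset.sum_congr rfl fun m _ => ?_
    by_cases h : pc m (m + H) = 0
    · simp [h]
    · simp [h]
  have hCS : (∑ m ∈ G, (pc m (m + H) : ℝ)) ^ 2 ≤ (G.card : ℝ) * (C * n) := by
    refine (sq_sum_le_card_mul_sum_sq).trans ?_
    refine mul_le_mul_of_nonneg_left ?_ (Nat.cast_nonneg _)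
    refine le_trans ?_ hM
    refine Finset.sum_le_sum_of_subset_of_nonneg ?_ fun _ _ _ => sq_nonneg _
    intro m hm
    rw [hG, Finset.mem_filter, Finset.mem_Ico] at hm
    rw [Finset.mem_range]
    exact hm.1.2
  have hcard : (l / 12) ^ 2 / C * n ≤ (G.card : ℝ) := by
    rw [hSG] at hS
    have h0 : 0 ≤ l * n / 12 := by positivity
    have h1 : (l * n / 12) ^ 2 ≤ (G.card : ℝ) * (C * n) :=
      (pow_le_pow_left₀ h0 hS 2).trans hCS
    have hn' : (0 : ℝ) < n := by linarith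
    have h2 : ((l / 12) ^ 2 / C * n) * (C * n) = (l * n / 12) ^ 2 := by
      field_simp
    have h3 : ((l / 12) ^ 2 / C * n) * (C * n) ≤ (G.card : ℝ) * (C * n) := by
      rw [h2]; exact h1
    exact le_of_mul_le_mul_right h3 (by positivity)
  refine hcard.trans ?_
  have hsub : G ⊆ Ax {m : ℕ | ∃ p : ℕ, p.Prime ∧ m < p ∧ (p : ℝ) ≤ m + lam * Real.log m} 0 n := by
    intro m hm
    rw [hG, Finset.mem_filter, Finset.mem_Ico] at hm
    obtain ⟨⟨h1, h2⟩, h3⟩ := hm
    have hmY : (Y : ℝ) - H ≤ m := by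
      have : Y ≤ m + H := by omega
      have h4 : (Y : ℝ) ≤ m + H := by exact_mod_cast this
      linarith
    have hm4 : (n : ℝ) / 4 ≤ m := by linarith
    have hm0 : (0 : ℝ) < m := by linarith
    unfold Ax
    rw [Finset.mem_filter, Finset.mem_Ioc]
    refine ⟨⟨by exact_mod_cast hm0, h2.le⟩, ?_⟩
    have h4 : ((Finset.Ioc m (m + H)).filter Nat.Prime).Nonempty := by
      rw [← Finset.card_pos]
      exact Nat.pos_of_ne_zero h3
    obtain ⟨p, hp'⟩ := h4
    rw [Finset.mem_filter, Finset.mem_Ioc] at hp'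
    refine ⟨p, hp'.2, hp'.1.1, ?_⟩
    have h5 : (p : ℝ) ≤ m + H := by exact_mod_cast hp'.1.2
    have h6 : Real.log n ≤ 2 * Real.log m := by
      have h7 : Real.log n - Real.log 4 ≤ Real.log m := by
        rw [← Real.log_div (by linarith) (by norm_num)]
        exact Real.log_le_log (by linarith) hm4
      have h8 : 2 * Real.log 4 ≤ Real.log n := by
        rw [← Real.log_rpow (by norm_num)]
        apply Real.log_le_log (by positivity)
        norm_num
        exact_mod_cast a5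
      linarith
    have h9 : l * Real.log n ≤ lam / 2 * (2 * Real.log m) :=
      mul_le_mul hll h6 hlogn.le (by linarith)
    linarith
  exact_mod_cast Finset.card_le_card hsub

end Pool.Agent.H706R2.PS
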