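import Pool.Agent.H706R2.PS.Defs

/-! T5: the smooth count. -/

open Finset MeasureTheory Filter

namespace Pool.Agent.H706R2.PS

open Pool.Agent.H438R2.DL (Fw)

private lemma t5_exp_neg_le {d : ℝ} (hd : 0 ≤ d) : Real.exp (-d) ≤ 1 - d + d ^ 2 / 2 := by
  have h1 := Real.quadratic_le_exp_of_nonneg hd
  have h2 : 0 < 1 + d + d ^ 2 / 2 := by positivity
  have h3 : Real.exp (-d) ≤ 1 / (1 + d + d ^ 2 / 2) := by
    rw [Real.exp_neg, ← one_div]
    exact one_div_le_one_div_of_le h2 h1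
  refine h3.trans ?_
  rw [div_le_iff₀ h2]
  nlinarith [pow_nonneg hd 4, pow_nonneg hd 2, pow_nonneg hd 3]

/-- the number of integers in `[A, B)` -/
private lemma t5_card (M N : ℕ) (A B : ℝ) (hA : 0 ≤ A) (hAB : A ≤ B) (hM : (M : ℝ) ≤ A) (hN : B ≤ N) :
    |(((Ico M N).filter (fun k : ℕ => A ≤ (k : ℝ) ∧ (k : ℝ) < B)).card : ℝ) - (B - A)| ≤ 1 := by
  have h1 : (Ico M N).filter (fun k : ℕ => A ≤ (k : ℝ) ∧ (k : ℝ) < B) = Ico ⌈A⌉₊ ⌈B⌉₊ := by
    ext k
    rw [mem_filter, mem_Ico, mem_Ico, Nat.ceil_le, Nat.lt_ceil]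
    constructor
    · rintro ⟨_, h⟩; exact h
    · rintro ⟨h2, h3⟩
      refine ⟨⟨?_, ?_⟩, h2, h3⟩
      · exact_mod_cast hM.trans h2
      · exact_mod_cast h3.trans_le hN
  rw [h1, Nat.card_Ico]
  have h2 := Nat.ceil_lt_add_one hA
  have h3 := Nat.ceil_lt_add_one (hA.trans hAB)
  have h4 := Nat.le_ceil A
  have h5 := Nat.le_ceil B
  rw [Nat.cast_sub (Nat.ceil_mono hAB), abs_le]
  constructor <;> linarith

private lemma t5_log_three : 1 < Real.log 3 := by
  rw [Real.lt_log_iff_exp_lt (by norm_num)]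
  exact Real.exp_one_lt_d9.trans (by norm_num)

private lemma t5_iff {c ω : ℝ} {k m : ℕ} (hc : 1 ≤ c) (hk : 3 ≤ k) (hm : 3 ≤ m) :
    (Real.log c + ll k < ll m ∧ ll m ≤ Real.log c + ll k + ω) ↔
      (Real.exp (Real.exp (-ω) * (Real.log m / c)) ≤ (k : ℝ) ∧ (k : ℝ) < Real.exp (Real.log m / c)) := by
  have hk' : (3 : ℝ) ≤ k := by exact_mod_cast hk
  have hm' : (3 : ℝ) ≤ m := by exact_mod_cast hm
  have hlk : 0 < Real.log k := Real.log_pos (by linarith)
  have hlm : 0 < Real.log m := Real.log_pos (by linarith)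
  have hc0 : 0 < c := by linarith
  unfold ll
  have e0 : Real.log c + Real.log (Real.log k) = Real.log (c * Real.log k) := by
    rw [Real.log_mul hc0.ne' hlk.ne']
  have e1 : Real.log (c * Real.log k) + ω = Real.log (c * Real.log k * Real.exp ω) := by
    rw [Real.log_mul (by positivity) (Real.exp_ne_zero _), Real.log_exp]
  rw [e0, e1, Real.log_lt_log_iff (by positivity) hlm, Real.log_le_log_iff hlm (by positivity)]
  have i1 : c * Real.log k < Real.log m ↔ (k : ℝ) < Real.exp (Real.log m / c) := by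
    rw [← Real.log_lt_iff_lt_exp (by linarith), lt_div_iff₀ hc0, mul_comm]
  have i2 : Real.log m ≤ c * Real.log k * Real.exp ω ↔
      Real.exp (Real.exp (-ω) * (Real.log m / c)) ≤ (k : ℝ) := by
    rw [← Real.le_log_iff_exp_le (by linarith), Real.exp_neg, inv_mul_le_iff₀ (Real.exp_pos ω),
      div_le_iff₀ hc0]
    constructor <;> intro h <;> nlinarith
  rw [i1, i2]
  tauto

theorem t5 : T5 := by
  intro X M P c ω hX hP hc hω hω1 h3 hM
  have hX' : (3 : ℝ) ≤ X := by exact_mod_cast hX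
  have hc0 : 0 < c := by linarith
  have h1 : (∑ k ∈ Ico 3 M, Fw P ll ω (Real.log c + ll k)) =
      ∑ m ∈ P, (1 / ω) * (((Ico 3 M).filter (fun k : ℕ =>
        Real.exp (Real.exp (-ω) * (Real.log m / c)) ≤ (k : ℝ) ∧ (k : ℝ) < Real.exp (Real.log m / c))).card : ℝ) := by
    unfold Fw
    rw [← mul_sum, ← mul_sum]
    congr 1
    simp only [card_filter]
    push_cast
    rw [sum_comm]
    refine sum_congr rfl fun m hm => sum_congr rfl fun k hk => ?_
    have hmX := (mem_Ioc.1 (hP hm)).1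
    simp only [t5_iff (ω := ω) hc (mem_Ico.1 hk).1 (show 3 ≤ m by omega)]
  rw [h1, ← sum_sub_distrib]
  refine (abs_sum_le_sum_abs _ _).trans ?_
  rw [← nsmul_eq_mul, ← sum_const]
  refine sum_le_sum fun m hm => ?_
  have hmX := mem_Ioc.1 (hP hm)
  have hm1 : (X : ℝ) < m := by exact_mod_cast hmX.1
  have hm2 : (m : ℝ) ≤ 2 * X := by exact_mod_cast hmX.2
  have hm0 : (0 : ℝ) < m := by linarith
  set t := Real.log m / c with ht
  have hB : (m : ℝ) ^ (1 / c) = Real.exp t := by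
    rw [Real.rpow_def_of_pos hm0, ht]
    congr 1
    ring
  have hlm : 0 < Real.log m := Real.log_pos (by linarith)
  have ht0 : 0 < t := by positivity
  have hexp1 : Real.exp (-ω) ≤ 1 := Real.exp_le_one_iff.mpr (by linarith)
  have hexp0 : 0 < Real.exp (-ω) := Real.exp_pos _
  have hA3 : 3 ≤ Real.exp (Real.exp (-ω) * t) := by
    refine h3.trans ?_
    rw [Real.rpow_def_of_pos (by linarith), Real.exp_le_exp]
    have h5 : Real.log X ≤ Real.log m := Real.log_le_log (by linarith) hm1.le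
    calc Real.log X * (Real.exp (-ω) / c) ≤ Real.log m * (Real.exp (-ω) / c) := by
          apply mul_le_mul_of_nonneg_right h5; positivity
      _ = Real.exp (-ω) * t := by rw [ht]; ring
  have hAB : Real.exp (Real.exp (-ω) * t) ≤ Real.exp t := by
    rw [Real.exp_le_exp]; nlinarith
  have hB2 : Real.exp t ≤ (2 * X : ℝ) ^ (1 / c) := by
    rw [← hB]
    exact Real.rpow_le_rpow hm0.le hm2 (by positivity)
  have hcard := t5_card 3 M _ _ (by positivity) hAB (by exact_mod_cast hA3) (hB2.trans hM)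
  set n : ℝ := (((Ico 3 M).filter (fun k : ℕ =>
        Real.exp (Real.exp (-ω) * t) ≤ (k : ℝ) ∧ (k : ℝ) < Real.exp t)).card : ℝ) with hn
  have ht1 : 1 ≤ t := by
    have h6 : Real.exp 1 ≤ Real.exp t := by
      have := Real.exp_one_lt_d9
      linarith
    exact Real.exp_le_exp.1 h6
  have ht2 : t ≤ Real.log (2 * X) := by
    have h7 : Real.log m ≤ Real.log (2 * X) := Real.log_le_log hm0 hm2
    have h8 : t ≤ Real.log m := by
      rw [ht]; exact div_le_self hlm.le hc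
    linarith
  set δ := t * (1 - Real.exp (-ω)) with hδ
  have hδ0 : 0 ≤ δ := mul_nonneg ht0.le (by linarith)
  have hAe : Real.exp (Real.exp (-ω) * t) = Real.exp t * Real.exp (-δ) := by
    rw [← Real.exp_add]; congr 1; rw [hδ]; ring
  have hω2 : 1 - Real.exp (-ω) ≤ ω := by
    have := Real.add_one_le_exp (-ω); linarith
  have hω3 : ω - ω ^ 2 / 2 ≤ 1 - Real.exp (-ω) := by
    have := t5_exp_neg_le hω.le; linarith
  have hδ1 : δ ≤ t * ω := mul_le_mul_of_nonneg_left hω2 ht0.le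
  have hδ2 : t * (ω - ω ^ 2 / 2) ≤ δ := mul_le_mul_of_nonneg_left hω3 ht0.le
  have hδ3 : 1 - Real.exp (-δ) ≤ δ := by
    have := Real.add_one_le_exp (-δ); linarith
  have hδ4 : δ - δ ^ 2 / 2 ≤ 1 - Real.exp (-δ) := by
    have := t5_exp_neg_le hδ0; linarith
  have hδ5 : δ ^ 2 ≤ (t * ω) ^ 2 := pow_le_pow_left₀ hδ0 hδ1 2
  have hkey : |1 - Real.exp (-δ) - t * ω| ≤ t ^ 2 * ω ^ 2 := by
    have h9 : t * ω ^ 2 ≤ t ^ 2 * ω ^ 2 := by
      apply mul_le_mul_of_nonneg_right _ (by positivity)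
      nlinarith
    rw [abs_le]
    constructor
    · nlinarith
    · nlinarith [mul_nonneg (sq_nonneg t) (sq_nonneg ω)]
  have e4 : 1 / ω * n - Real.exp t * t = (1 / ω) * (n - (Real.exp t - Real.exp (Real.exp (-ω) * t))) +
      (1 / ω) * (Real.exp t * (1 - Real.exp (-δ) - t * ω)) := by
    rw [hAe]
    field_simp
    ring
  rw [hB, e4]
  refine (abs_add_le _ _).trans ?_
  rw [abs_mul, abs_mul, abs_mul, abs_of_pos (Real.exp_pos t), abs_of_pos (by positivity : (0 : ℝ) < 1 / ω)]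
  have h10 : 1 / ω * |n - (Real.exp t - Real.exp (Real.exp (-ω) * t))| ≤ 1 / ω * 1 :=
    mul_le_mul_of_nonneg_left hcard (by positivity)
  have h11 : 1 / ω * (Real.exp t * |1 - Real.exp (-δ) - t * ω|) ≤
      (2 * X : ℝ) ^ (1 / c) * Real.log (2 * X) ^ 2 * ω := by
    calc 1 / ω * (Real.exp t * |1 - Real.exp (-δ) - t * ω|)
        ≤ 1 / ω * (Real.exp t * (t ^ 2 * ω ^ 2)) := by
          apply mul_le_mul_of_nonneg_left _ (by positivity)
          exact mul_le_mul_of_nonneg_left hkey (Real.exp_pos t).le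
      _ = Real.exp t * t ^ 2 * ω := by field_simp
      _ ≤ (2 * X : ℝ) ^ (1 / c) * Real.log (2 * X) ^ 2 * ω := by
          apply mul_le_mul_of_nonneg_right _ hω.le
          apply mul_le_mul hB2 (pow_le_pow_left₀ ht0.le ht2 2) (by positivity) (by positivity)
  linarith

end Pool.Agent.H706R2.PS
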