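import Pool.Agent.H706R2.PS.Defs

/-! Task T6 (helper329): sandwich. -/

set_option autoImplicit false

open Finset MeasureTheory Filter

namespace Pool.Agent.H706R2.PS

open Pool.Agent.H438R2.DL (Fw AD)

namespace T6h

lemma diff_bounds {a : ℝ} (ha : 1 < a) :
    1 / ((a + 1) * Real.log (a + 1)) ≤ Real.log (Real.log (a + 1)) - Real.log (Real.log a) ∧
      Real.log (Real.log (a + 1)) - Real.log (Real.log a) ≤ 1 / (a * Real.log a) := by
  have hA : 0 < Real.log a := Real.log_pos ha
  have hB : 0 < Real.log (a + 1) := Real.log_pos (by linarith)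
  have ha0 : 0 < a := by linarith
  have h1 : Real.log (a + 1) - Real.log a = Real.log ((a + 1) / a) :=
    (Real.log_div (by linarith) ha0.ne').symm
  have h2 : Real.log ((a + 1) / a) ≤ 1 / a := by
    have := Real.log_le_sub_one_of_pos (show 0 < (a + 1) / a by positivity)
    have e : (a + 1) / a - 1 = 1 / a := by field_simp; ring
    linarith
  have h3 : 1 / (a + 1) ≤ Real.log ((a + 1) / a) := by
    have := Real.one_sub_inv_le_log_of_pos (show 0 < (a + 1) / a by positivity)
    have e : 1 - ((a + 1) / a)⁻¹ = 1 / (a + 1) := by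
      rw [inv_div]
      field_simp
      ring
    linarith
  have h4 : Real.log (Real.log (a + 1)) - Real.log (Real.log a) =
      Real.log (Real.log (a + 1) / Real.log a) := (Real.log_div hB.ne' hA.ne').symm
  have hr : 0 < Real.log (a + 1) / Real.log a := by positivity
  rw [h4]
  constructor
  · have h5 := Real.one_sub_inv_le_log_of_pos hr
    have e : 1 - (Real.log (a + 1) / Real.log a)⁻¹ =
        (Real.log (a + 1) - Real.log a) / Real.log (a + 1) := by
      rw [inv_div]
      field_simp
    refine le_trans ?_ h5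
    rw [e, h1, le_div_iff₀ hB]
    have e2 : 1 / ((a + 1) * Real.log (a + 1)) * Real.log (a + 1) = 1 / (a + 1) := by
      field_simp
    rw [e2]
    exact h3
  · have h5 := Real.log_le_sub_one_of_pos hr
    have e : Real.log (a + 1) / Real.log a - 1 =
        (Real.log (a + 1) - Real.log a) / Real.log a := by
      field_simp
    refine h5.trans ?_
    rw [e, h1, div_le_iff₀ hA]
    have e2 : 1 / (a * Real.log a) * Real.log a = 1 / a := by
      field_simp
    rw [e2]
    exact h2

lemma sl_le {m N2 : ℝ} (hm : 1 < m) (h : m ≤ N2) :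
    sl N2 ≤ Real.log (Real.log (m + 1)) - Real.log (Real.log m) := by
  refine le_trans ?_ (diff_bounds hm).1
  unfold sl
  have h1 : 0 < Real.log (m + 1) := Real.log_pos (by linarith)
  have h2 : Real.log (m + 1) ≤ Real.log (N2 + 1) := Real.log_le_log (by linarith) (by linarith)
  apply one_div_le_one_div_of_le (mul_pos (by linarith) h1)
  exact mul_le_mul (by linarith) h2 h1.le (by linarith)

lemma su_ge {m N1 : ℝ} (hN : 1 < N1) (h : N1 < m) :
    Real.log (Real.log (m + 1)) - Real.log (Real.log m) ≤ su N1 := by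
  refine (diff_bounds (hN.trans h)).2.trans ?_
  unfold su
  have h1 : 0 < Real.log N1 := Real.log_pos hN
  have h2 : Real.log N1 ≤ Real.log m := Real.log_le_log (by linarith) h.le
  apply one_div_le_one_div_of_le (mul_pos (by linarith) h1)
  exact mul_le_mul h.le h2 h1.le (by linarith)

lemma ll_le_iff {m k c : ℝ} (hm : 1 < m) (hk : 1 < k) (hc : 0 < c) :
    Real.log (Real.log m) ≤ Real.log c + Real.log (Real.log k) ↔ m ≤ k ^ c := by
  have hA : 0 < Real.log m := Real.log_pos hm
  have hB : 0 < Real.log k := Real.log_pos hk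
  have hk0 : 0 < k := by linarith
  rw [← Real.log_mul hc.ne' hB.ne', Real.log_le_log_iff hA (by positivity),
    ← Real.log_rpow hk0, Real.log_le_log_iff (by linarith) (Real.rpow_pos_of_pos hk0 c)]

lemma lt_ll_iff {m k c : ℝ} (hm : 1 < m) (hk : 1 < k) (hc : 0 < c) :
    Real.log c + Real.log (Real.log k) < Real.log (Real.log m) ↔ k ^ c < m := by
  rw [← not_le, ll_le_iff hm hk hc, not_le]

lemma sFw {P K : Finset ℕ} {s w : ℝ} (hs : 0 < s) :
    s * ∑ k ∈ K, Fw P ll s (w + -s + ll k) =
      ∑ k ∈ K, ((P.filter (fun m => w + ll k - s < ll m ∧ ll m ≤ w + ll k)).card : ℝ) := by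
  rw [mul_sum]
  refine sum_congr rfl fun k _ => ?_
  unfold Fw
  rw [← mul_assoc, mul_one_div_cancel hs.ne', one_mul]
  congr 2
  refine filter_congr fun m _ => ?_
  have e1 : w + -s + ll k = w + ll k - s := by ring
  rw [e1, sub_add_cancel]

end T6h

open T6h in
theorem t6 : T6 := by
  intro P M c N1 N2 hN1 hN12 hP hc
  have hsl : 0 < sl N2 := by
    unfold sl
    have : 0 < Real.log (N2 + 1) := Real.log_pos (by linarith)
    have : 0 < N2 + 1 := by linarith
    positivity
  have hsu : 0 < su N1 := by
    unfold su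
    have : 0 < Real.log N1 := Real.log_pos (by linarith)
    have : 0 < N1 := by linarith
    positivity
  rw [sFw hsl, sFw hsu]
  unfold cnt
  constructor
  · refine sum_le_sum fun k hk => ?_
    have hk3 : (3 : ℝ) ≤ k := by exact_mod_cast (mem_Ico.mp hk).1
    refine Nat.cast_le.mpr (card_le_card fun m hm => ?_)
    rw [mem_filter] at hm ⊢
    obtain ⟨hmP, h1, h2⟩ := hm
    obtain ⟨h3, h4⟩ := hP m hmP
    have hm1 : (1 : ℝ) < m := by linarith
    refine ⟨hmP, (ll_le_iff hm1 (by linarith) hc).mp h2, ?_⟩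
    refine (lt_ll_iff (by linarith) (by linarith) hc).mp ?_
    have h5 := sl_le hm1 h4
    unfold ll at h1
    linarith
  · refine sum_le_sum fun k hk => ?_
    have hk3 : (3 : ℝ) ≤ k := by exact_mod_cast (mem_Ico.mp hk).1
    refine Nat.cast_le.mpr (card_le_card fun m hm => ?_)
    rw [mem_filter] at hm ⊢
    obtain ⟨hmP, h1, h2⟩ := hm
    obtain ⟨h3, h4⟩ := hP m hmP
    have hm1 : (1 : ℝ) < m := by linarith
    refine ⟨hmP, ?_, (ll_le_iff hm1 (by linarith) hc).mpr h1⟩
    have h6 := (lt_ll_iff (m := (m : ℝ) + 1) (by linarith) (by linarith : (1 : ℝ) < k) hc).mpr h2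
    have h5 := su_ge (by linarith) h3
    unfold ll
    linarith

end Pool.Agent.H706R2.PS
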