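import Pool.Agent.H706R2.PS.Defs

open Finset MeasureTheory Filter

namespace Pool.Agent.H706R2.PS

open Pool.Agent.H469R2.NK (e)
open Pool.Agent.H438R2.DL (Fw AD)

theorem t7_split (P : Finset ℕ) (M : ℕ) (s ω c : ℝ) :
    s * ∑ k ∈ Ico 3 M, Fw P ll s (Real.log c + (-s) + ll k) =
      s * ADc P M s ω c + s * ∑ k ∈ Ico 3 M, Fw P ll ω (Real.log c + ll k) := by
  unfold ADc AD
  rw [sum_sub_distrib]
  ring

theorem t7_main (P : Finset ℕ) (c s ρ : ℝ) (hc : 1 ≤ c)
    (hP : ∀ m ∈ P, |s * ((m : ℝ) * Real.log m) - 1| ≤ ρ) (hm : ∀ m ∈ P, 1 ≤ m) :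
    |s * ∑ m ∈ P, (m : ℝ) ^ (1 / c) * (Real.log m / c) - mainT P c| ≤ ρ * mainT P c := by
  have hc0 : 0 < c := by linarith
  have h1 : s * ∑ m ∈ P, (m : ℝ) ^ (1 / c) * (Real.log m / c) - mainT P c =
      ∑ m ∈ P, (1 / c) * (m : ℝ) ^ (1 / c - 1) * (s * ((m : ℝ) * Real.log m) - 1) := by
    unfold mainT
    rw [mul_sum, ← sum_sub_distrib]
    refine sum_congr rfl fun m hmP => ?_
    have hm0 : (0 : ℝ) < m := by exact_mod_cast hm m hmP
    have h2 : (m : ℝ) ^ (1 / c) = (m : ℝ) ^ (1 / c - 1) * m := by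
      rw [Real.rpow_sub_one hm0.ne']
      field_simp
    rw [h2]
    ring
  rw [h1]
  unfold mainT
  rw [mul_sum]
  refine (abs_sum_le_sum_abs _ _).trans (sum_le_sum fun m hmP => ?_)
  have hm0 : (0 : ℝ) < m := by exact_mod_cast hm m hmP
  have h3 : 0 ≤ (1 / c) * (m : ℝ) ^ (1 / c - 1) := by positivity
  rw [abs_mul, abs_of_nonneg h3, mul_comm ρ]
  exact mul_le_mul_of_nonneg_left (hP m hmP) h3

theorem t7 (h5 : T5) (h6 : T6) : T7 := by
  intro X M P c ω N1 N2 ρ hX hXN1 hN12 hN2 hP hc hω hω1 hbig hM hρ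
  have hX3 : (3 : ℝ) ≤ X := by exact_mod_cast hX
  have hPX : P ⊆ Ioc X (2 * X) := by
    intro m hm
    obtain ⟨h1, h2⟩ := hP m hm
    rw [mem_Ioc]
    constructor
    · have : (X : ℝ) < m := by linarith
      exact_mod_cast this
    · have : (m : ℝ) ≤ 2 * X := by linarith
      exact_mod_cast this
  have hm1 : ∀ m ∈ P, 1 ≤ m := fun m hm => by
    have := (mem_Ioc.mp (hPX hm)).1
    omega
  have hsm := h5 X M P c ω hX hPX hc hω hω1 hbig hM
  obtain ⟨hlo, hup⟩ := h6 P M c N1 N2 (by linarith) hN12 hP (by linarith)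
  set E : ℝ := P.card * ((2 * X : ℝ) ^ (1 / c) * Real.log (2 * X) ^ 2 * ω + 1 / ω) with hE
  set Mω := ∑ k ∈ Ico 3 M, Fw P ll ω (Real.log c + ll k) with hMω
  have hE0 : 0 ≤ E := le_trans (abs_nonneg _) hsm
  have hN1 : (3 : ℝ) ≤ N1 := by linarith
  have hN2' : (3 : ℝ) ≤ N2 := by linarith
  have hl1 : 0 < Real.log N1 := Real.log_pos (by linarith)
  have hl2 : 0 < Real.log (N2 + 1) := Real.log_pos (by linarith)
  have hsu : 0 < su N1 := by unfold su; positivity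
  have hsl : 0 < sl N2 := by
    unfold sl
    have : 0 < N2 + 1 := by linarith
    positivity
  have hslu : sl N2 ≤ su N1 := by
    unfold sl su
    apply one_div_le_one_div_of_le (by positivity)
    apply mul_le_mul (by linarith) (Real.log_le_log (by linarith) (by linarith)) hl1.le (by linarith)
  have k1 := t7_main P c (sl N2) ρ hc (fun m hm => (hρ m hm).1) hm1
  have k2 := t7_main P c (su N1) ρ hc (fun m hm => (hρ m hm).2) hm1
  rw [t7_split P M (sl N2) ω c] at hlo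
  rw [t7_split P M (su N1) ω c] at hup
  rw [← hMω] at hlo hup
  have e1 := abs_le.mp hsm
  have e2 := abs_le.mp k1
  have e3 := abs_le.mp k2
  set Q := ∑ m ∈ P, (m : ℝ) ^ (1 / c) * (Real.log m / c) with hQ
  have b1 : su N1 * Mω ≤ su N1 * Q + su N1 * E := by
    have := mul_le_mul_of_nonneg_left (show Mω ≤ Q + E by linarith [e1.2]) hsu.le
    linarith
  have b2 : sl N2 * Q - sl N2 * E ≤ sl N2 * Mω := by
    have := mul_le_mul_of_nonneg_left (show Q - E ≤ Mω by linarith [e1.1]) hsl.le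
    linarith
  have b3 : sl N2 * E ≤ su N1 * E := mul_le_mul_of_nonneg_right hslu hE0
  have b4 : su N1 * ADc P M (su N1) ω c ≤ su N1 * |ADc P M (su N1) ω c| :=
    mul_le_mul_of_nonneg_left (le_abs_self _) hsu.le
  have b5 : -(sl N2 * |ADc P M (sl N2) ω c|) ≤ sl N2 * ADc P M (sl N2) ω c := by
    have := mul_le_mul_of_nonneg_left (neg_abs_le (ADc P M (sl N2) ω c)) hsl.le
    linarith
  have b6 : 0 ≤ sl N2 * |ADc P M (sl N2) ω c| := mul_nonneg hsl.le (abs_nonneg _)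
  have b7 : 0 ≤ su N1 * |ADc P M (su N1) ω c| := mul_nonneg hsu.le (abs_nonneg _)
  rw [abs_le]
  constructor
  · linarith [e2.1, b2, b3, b5, b7, hlo]
  · linarith [e3.2, b1, b4, b6, hup]

end Pool.Agent.H706R2.PS
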