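import Pool.Agent.H706R2.PS.WDefs
import Pool.Agent.H706R2.PS.T11c

/-! Task W15. -/

open Finset MeasureTheory Filter

namespace Pool.Agent.H706R2.PS

/-- end points of the covering -/
noncomputable def w15p (κ C0 : ℝ) (j : ℕ) : ℝ := min (1 + j * κ) C0

theorem w15_ends (κ C0 : ℝ) (hC : 1 ≤ C0) (hk : 0 < κ) (j : ℕ) :
    1 ≤ w15p κ C0 j ∧ w15p κ C0 j ≤ w15p κ C0 (j + 1) ∧ w15p κ C0 (j + 1) ≤ C0 ∧
      1 / w15p κ C0 j - 1 / w15p κ C0 (j + 1) ≤ κ := by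
  have hj : (0:ℝ) ≤ j := Nat.cast_nonneg j
  have hjk : 0 ≤ j * κ := by positivity
  have h1 : 1 ≤ w15p κ C0 j := le_min (by linarith) hC
  have h2 : w15p κ C0 j ≤ w15p κ C0 (j + 1) := by
    unfold w15p
    refine min_le_min ?_ le_rfl
    push_cast
    nlinarith
  refine ⟨h1, h2, min_le_right _ _, ?_⟩
  have h3 : w15p κ C0 (j + 1) - w15p κ C0 j ≤ κ := by
    have h4 : w15p κ C0 (j + 1) ≤ 1 + (j + 1) * κ := by
      have := min_le_left (1 + ((j + 1 : ℕ) : ℝ) * κ) C0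
      unfold w15p
      push_cast at this ⊢
      exact this
    have h5 : w15p κ C0 (j + 1) ≤ C0 := min_le_right _ _
    rcases min_choice (1 + j * κ) C0 with h6 | h6
    · have : w15p κ C0 j = 1 + j * κ := h6
      linarith
    · have : w15p κ C0 j = C0 := h6
      linarith
  set c1 := w15p κ C0 j with hc1
  set c2 := w15p κ C0 (j + 1) with hc2
  have hc1pos : 0 < c1 := by linarith
  have hc2pos : 0 < c2 := by linarith
  have h7 : 1 / c1 - 1 / c2 = (c2 - c1) / (c1 * c2) := by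
    field_simp
  rw [h7, div_le_iff₀ (by positivity)]
  have h8 : 1 ≤ c1 * c2 := by nlinarith
  calc c2 - c1 ≤ κ := h3
    _ ≤ κ * (c1 * c2) := le_mul_of_one_le_right hk.le h8

theorem w15 (h12 : W12) (h13 : W13) (h14 : W14) : W15 := by
  intro C0 hC0
  obtain ⟨κ, hκ0, hκ1, hκ⟩ := h12 C0 hC0
  have hκle : κ ≤ 1 := by
    refine hκ1.trans ?_
    rw [div_le_one (by linarith)]
    linarith
  refine ⟨κ / 4, by positivity, 1 - κ / 64, by linarith, fun A => ?_⟩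
  refine ⟨⋃ j : ℕ, {c : ℝ | ∀ i1 : ℕ, ∃ i : ℕ, i1 ≤ i ∧
    c ∈ Bad A κ (w15p κ C0 j) (w15p κ C0 (j + 1)) i}, ?_, ?_⟩
  · rw [dimH_iUnion]
    refine iSup_le fun j => ?_
    obtain ⟨e1, e2, e3, e4⟩ := w15_ends κ C0 hC0 hκ0 j
    obtain ⟨i0, hi0⟩ := hκ _ _ e1 e2 e3 e4
    exact h14 κ _ hκ0 hκle ⟨i0, fun i hi => hi0 A i hi⟩
  · intro c hc1 hc2 hE
    have hq0 : 0 ≤ (c - 1) / κ := div_nonneg (by linarith) hκ0.le
    have hfl := Nat.floor_le hq0
    have hlt := Nat.lt_floor_add_one ((c - 1) / κ)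
    rw [le_div_iff₀ hκ0] at hfl
    rw [div_lt_iff₀ hκ0] at hlt
    set j := ⌊(c - 1) / κ⌋₊ with hj
    obtain ⟨e1, e2, e3, e4⟩ := w15_ends κ C0 hC0 hκ0 j
    have hmem : c ∈ Set.Icc (w15p κ C0 j) (w15p κ C0 (j + 1)) := by
      constructor
      · exact (min_le_left _ _).trans (by linarith)
      · refine le_min ?_ hc2
        push_cast
        linarith
    have hnot : ∃ i1 : ℕ, ∀ i : ℕ, i1 ≤ i →
        c ∉ Bad A κ (w15p κ C0 j) (w15p κ C0 (j + 1)) i := by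
      by_contra hcon
      apply hE
      rw [Set.mem_iUnion]
      refine ⟨j, fun i1 => ?_⟩
      by_contra h
      apply hcon
      refine ⟨i1, fun i hi hb => h ⟨i, hi, hb⟩⟩
    obtain ⟨i0, hi0⟩ := h13 C0 κ _ _ hC0 hκ0 hκ1 e1 e2 e3 e4 A c hmem hnot
    have hθ : 0 < 1 / c - κ / 4 := by
      have h2 : 1 / (8 * C0) ≤ 1 / (8 * c) := by
        apply one_div_le_one_div_of_le (by linarith) (by linarith)
      have h3 : 1 / (8 * c) = 1 / c / 8 := by field_simp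
      have h4 : 0 < 1 / c := by positivity
      linarith
    obtain ⟨C, hC'⟩ := t11c_det A c (1 / c - κ / 4) hθ i0 hi0
    exact ⟨C, hC'⟩

end Pool.Agent.H706R2.PS
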