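import Pool.Agent.H706R2.PS.Defs

/-! Wave 2: windows `[m + a, m + a + w)` and the Hausdorff dimension of the exceptional set. -/

open Finset MeasureTheory Filter

namespace Pool.Agent.H706R2.PS

open Pool.Agent.H469R2.NK (e)
open Pool.Agent.H438R2.DL (Fw AD)

/-- `log log (m + a)` -/
noncomputable def lla (a : ℝ) (m : ℕ) : ℝ := Real.log (Real.log ((m : ℝ) + a))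

/-- number of pairs `(k, m)`, `k ∈ K`, `m ∈ P` with `m + a ≤ k^c < m + a + w` -/
noncomputable def cntw (P K : Finset ℕ) (a w c : ℝ) : ℝ :=
  ∑ k ∈ K, ((P.filter (fun m : ℕ => (m : ℝ) + a ≤ (k : ℝ) ^ c ∧ (k : ℝ) ^ c < m + a + w)).card : ℝ)

noncomputable def mainw (P : Finset ℕ) (a c : ℝ) : ℝ := ∑ m ∈ P, (1 / c) * ((m : ℝ) + a) ^ (1 / c - 1)

noncomputable def slw (N2 : ℝ) : ℝ := 1 / ((N2 + 3) * Real.log (N2 + 3))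
noncomputable def suw (N1 : ℝ) : ℝ := 1 / ((N1 - 1) * Real.log (N1 - 1))
noncomputable def ADw (P : Finset ℕ) (M : ℕ) (a s ω c : ℝ) : ℝ :=
  AD P (lla a) (Ico 3 M) ll (-s) s ω (Real.log c)

/-- W4 (cf. T4) -/
def W4 : Prop := ∀ (X : ℕ) (P : Finset ℕ) (a s : ℝ), 4 ≤ X → P ⊆ Ioc X (2 * X) → |a| ≤ 1 → 0 < s →
  ∫ u, (Fw P (lla a) s u) ^ 2 ≤ (P.card : ℝ) * (8 * X * Real.log (2 * X) + 1 / s)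

/-- W5 (cf. T5) -/
def W5 : Prop := ∀ (X M : ℕ) (P : Finset ℕ) (c ω a : ℝ), 4 ≤ X → P ⊆ Ioc X (2 * X) → |a| ≤ 1 → 1 ≤ c →
  0 < ω → ω ≤ 1 → 3 ≤ ((X : ℝ) - 1) ^ (Real.exp (-ω) / c) → (2 * X + 1 : ℝ) ^ (1 / c) ≤ M →
  |∑ k ∈ Ico 3 M, Fw P (lla a) ω (Real.log c + ll k) -
      ∑ m ∈ P, ((m : ℝ) + a) ^ (1 / c) * (Real.log ((m : ℝ) + a) / c)| ≤
    P.card * ((2 * X + 1 : ℝ) ^ (1 / c) * Real.log (2 * X + 1) ^ 2 * ω + 1 / ω)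

/-- W6 (cf. T6) -/
def W6 : Prop := ∀ (P : Finset ℕ) (M : ℕ) (c N1 N2 a w : ℝ), 4 ≤ N1 → N1 ≤ N2 →
  (∀ m ∈ P, N1 < (m : ℝ) ∧ (m : ℝ) ≤ N2) → |a| ≤ 1 → 0 < w → w ≤ 2 → 0 < c →
  (w * slw N2) * ∑ k ∈ Ico 3 M, Fw P (lla a) (w * slw N2) (Real.log c + (-(w * slw N2)) + ll k) ≤
      cntw P (Ico 3 M) a w c ∧
    cntw P (Ico 3 M) a w c ≤
      (w * suw N1) * ∑ k ∈ Ico 3 M, Fw P (lla a) (w * suw N1) (Real.log c + (-(w * suw N1)) + ll k)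

/-- W7 (cf. T7) -/
def W7 : Prop := ∀ (X M : ℕ) (P : Finset ℕ) (c ω N1 N2 ρ a w : ℝ), 4 ≤ X → (X : ℝ) ≤ N1 → N1 ≤ N2 →
  N2 ≤ 2 * X → (∀ m ∈ P, N1 < (m : ℝ) ∧ (m : ℝ) ≤ N2) → |a| ≤ 1 → 0 < w → w ≤ 2 → 1 ≤ c → 0 < ω → ω ≤ 1 →
  3 ≤ ((X : ℝ) - 1) ^ (Real.exp (-ω) / c) → (2 * X + 1 : ℝ) ^ (1 / c) ≤ M →
  (∀ m ∈ P, |slw N2 * (((m : ℝ) + a) * Real.log ((m : ℝ) + a)) - 1| ≤ ρ ∧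
    |suw N1 * (((m : ℝ) + a) * Real.log ((m : ℝ) + a)) - 1| ≤ ρ) →
  |cntw P (Ico 3 M) a w c - w * mainw P a c| ≤ (w * slw N2) * |ADw P M a (w * slw N2) ω c| +
    (w * suw N1) * |ADw P M a (w * suw N1) ω c| + ρ * (w * mainw P a c) +
    (w * suw N1) * (P.card * ((2 * X + 1 : ℝ) ^ (1 / c) * Real.log (2 * X + 1) ^ 2 * ω + 1 / ω))

/-- W8 (cf. T8) -/
def W8 : Prop := ∀ (X J : ℕ) (m N1 N2 a : ℝ), 16 ≤ X → 1 ≤ J → J ≤ X → (X : ℝ) ≤ N1 → N2 ≤ 2 * X →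
  N2 = N1 + X / J → N1 < m → m ≤ N2 → |a| ≤ 1 →
  |slw N2 * ((m + a) * Real.log (m + a)) - 1| ≤ 32 / J ∧ |suw N1 * ((m + a) * Real.log (m + a)) - 1| ≤ 32 / J

/-- W9 (cf. T9) -/
def W9 : Prop := ∀ (X M : ℕ) (P : Finset ℕ) (a s ω Ξ0 Ξ1 η Y : ℝ), 4 ≤ X → 4 ≤ M → P ⊆ Ioc X (2 * X) →
  |a| ≤ 1 → 0 < s → s ≤ ω → 0 ≤ Ξ0 → 2 * Real.pi * ω * Ξ0 ≤ 1 / 2 → 0 < Ξ1 → 0 < η →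
  1 / s ≤ 16 * X * Real.log (2 * X) →
  (∀ ξ : ℝ, Ξ0 ≤ |ξ| → |ξ| ≤ Ξ1 → ‖∑ k ∈ Ico 3 M, e (ll k * ξ)‖ ≤ η * M) → 0 < Y →
  IntegrableOn (fun c => |ADw P M a s ω c|) (Set.Icc Y (2 * Y)) ∧
  ∫ c in Set.Icc Y (2 * Y), |ADw P M a s ω c| ≤
    2 * Y * (M * ((96 * Real.pi * ω * Ξ0 + 64 * η) * (X * Real.log (2 * X)) + 3 * X / (s * √Ξ1)))

/-- W10a (cf. T10a) -/
def W10a : Prop := ∀ (X M J : ℕ) (P : Finset ℕ) (c1 c2 ω Ξ0 Ξ1 η a w : ℝ), 32 ≤ X → 4 ≤ M → 1 ≤ J → J ≤ X →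
  P ⊆ Ioc X (2 * X) → |a| ≤ 1 → 1 / 2 ≤ w → w ≤ 2 → 1 ≤ c1 → c1 ≤ c2 → c2 ≤ 2 * c1 → 0 < ω → ω ≤ 1 →
  4 / (X * Real.log X) ≤ ω → 3 ≤ ((X : ℝ) - 1) ^ (Real.exp (-ω) / c2) → (2 * X + 1 : ℝ) ^ (1 / c1) ≤ M →
  0 ≤ Ξ0 → 2 * Real.pi * ω * Ξ0 ≤ 1 / 2 → 0 < Ξ1 → 0 < η →
  (∀ ξ : ℝ, Ξ0 ≤ |ξ| → |ξ| ≤ Ξ1 → ‖∑ k ∈ Ico 3 M, e (ll k * ξ)‖ ≤ η * M) →
  IntegrableOn (fun c => |cntw P (Ico 3 M) a w c - w * mainw P a c|) (Set.Icc c1 c2) ∧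
  ∫ c in Set.Icc c1 c2, |cntw P (Ico 3 M) a w c - w * mainw P a c| ≤
    4 * c1 * J * M * (1000 * Real.pi * ω * Ξ0 + 1000 * η + 3 * X / √Ξ1) +
    (c2 - c1) * (64 / J * (2 * X : ℝ) ^ (1 / c1) +
      J * (16 * Real.log (2 * X + 1) * ω * (2 * X + 1 : ℝ) ^ (1 / c1) + 4 / ω))

/-- W10b (cf. T10b): the `L¹` theorem for windows -/
def W10b : Prop := ∀ C0 : ℝ, 1 ≤ C0 → ∃ κ : ℝ, 0 < κ ∧ κ ≤ 1 / (8 * C0) ∧ ∀ c1 c2 : ℝ, 1 ≤ c1 → c1 ≤ c2 →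
  c2 ≤ C0 → 1 / c1 - 1 / c2 ≤ κ → ∃ X0 : ℕ, ∀ X : ℕ, X0 ≤ X → ∀ P : Finset ℕ, P ⊆ Ioc X (2 * X) →
    ∀ a w : ℝ, |a| ≤ 1 → 1 / 2 ≤ w → w ≤ 2 →
    IntegrableOn (fun c => |cntw P (Ico 3 (⌈(4 * X : ℝ) ^ (1 / c1)⌉₊)) a w c - w * mainT P c|) (Set.Icc c1 c2) ∧
    ∫ c in Set.Icc c1 c2, |cntw P (Ico 3 (⌈(4 * X : ℝ) ^ (1 / c1)⌉₊)) a w c - w * mainT P c| ≤
      (X : ℝ) ^ (1 / c2 - κ)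

/-- W11: perturbation of the exponent -/
def W11 : Prop := ∀ (X : ℕ) (P : Finset ℕ) (c1 c c' ε r : ℝ), 16 ≤ X → P ⊆ Ioc X (2 * X) → 1 ≤ c1 → c1 ≤ c →
  c1 ≤ c' → 0 < ε → ε ≤ 1 / 4 → 0 ≤ r → 32 * r * X * Real.log (4 * X) ≤ ε → |c - c'| ≤ r →
  cntw P (Ico 3 (⌈(4 * X : ℝ) ^ (1 / c1)⌉₊)) ε (1 - 2 * ε) c' ≤ cnt P (Ico 3 (⌈(4 * X : ℝ) ^ (1 / c1)⌉₊)) c ∧
    cnt P (Ico 3 (⌈(4 * X : ℝ) ^ (1 / c1)⌉₊)) c ≤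
      cntw P (Ico 3 (⌈(4 * X : ℝ) ^ (1 / c1)⌉₊)) (-ε) (1 + 2 * ε) c' ∧
    |mainT P c - mainT P c'| ≤ ε / X * (X : ℝ) ^ (1 / c1)

/-- the points of the partial blocks -/
noncomputable def yp (X T t : ℕ) : ℕ := min (X + t * (X / T + 1)) (2 * X)

/-- the bad exponents at scale `X = 2^i` -/
def Bad (A : Set ℕ) (κ c1 c2 : ℝ) (i : ℕ) : Set ℝ :=
  {c | c ∈ Set.Icc c1 c2 ∧ ∃ t : ℕ, t ≤ ⌈((2 : ℝ) ^ i) ^ (κ / 4)⌉₊ ∧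
    ((2 : ℝ) ^ i) ^ (1 / c2 - κ / 2) <
      |cnt (Ax A (2 ^ i) (yp (2 ^ i) ⌈((2 : ℝ) ^ i) ^ (κ / 4)⌉₊ t)) (Ico 3 (⌈(4 * (2 : ℝ) ^ i) ^ (1 / c1)⌉₊)) c -
        mainT (Ax A (2 ^ i) (yp (2 ^ i) ⌈((2 : ℝ) ^ i) ^ (κ / 4)⌉₊ t)) c|}

/-- W12: covering of the bad sets by few short intervals (number `≤ X^(1 + 7κ/4 + κ/8)`, length `X^(-1-2κ-κ/16)`) -/
def W12 : Prop := ∀ C0 : ℝ, 1 ≤ C0 → ∃ κ : ℝ, 0 < κ ∧ κ ≤ 1 / (8 * C0) ∧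
  ∀ c1 c2 : ℝ, 1 ≤ c1 → c1 ≤ c2 → c2 ≤ C0 → 1 / c1 - 1 / c2 ≤ κ → ∃ i0 : ℕ, ∀ (A : Set ℕ) (i : ℕ), i0 ≤ i →
    ∃ S : Finset ℝ, (S.card : ℝ) ≤ ((2 : ℝ) ^ i) ^ (1 + 15 * κ / 8) ∧
      Bad A κ c1 c2 i ⊆ ⋃ x ∈ S, Set.Icc x (x + ((2 : ℝ) ^ i) ^ (-(1 + 31 * κ / 16)))

/-- W13: outside the upper limit of the bad sets the law holds on dyadic blocks -/
def W13 : Prop := ∀ (C0 κ c1 c2 : ℝ), 1 ≤ C0 → 0 < κ → κ ≤ 1 / (8 * C0) → 1 ≤ c1 → c1 ≤ c2 → c2 ≤ C0 →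
  1 / c1 - 1 / c2 ≤ κ → ∀ (A : Set ℕ) (c : ℝ), c ∈ Set.Icc c1 c2 → (∃ i1 : ℕ, ∀ i : ℕ, i1 ≤ i → c ∉ Bad A κ c1 c2 i) →
    ∃ i0 : ℕ, ∀ i : ℕ, i0 ≤ i → ∀ y : ℕ, 2 ^ i ≤ y → y ≤ 2 ^ (i + 1) →
      |nPS A c (2 ^ i) y - mainT (Ax A (2 ^ i) y) c| ≤ 8 * ((2 : ℝ) ^ i) ^ (1 / c - κ / 4)

/-- W14: Hausdorff dimension of an upper limit set -/
def W14 : Prop := ∀ (κ : ℝ) (B : ℕ → Set ℝ), 0 < κ → κ ≤ 1 → (∃ i0 : ℕ, ∀ i : ℕ, i0 ≤ i →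
    ∃ S : Finset ℝ, (S.card : ℝ) ≤ ((2 : ℝ) ^ i) ^ (1 + 15 * κ / 8) ∧
      B i ⊆ ⋃ x ∈ S, Set.Icc x (x + ((2 : ℝ) ^ i) ^ (-(1 + 31 * κ / 16)))) →
  dimH {c : ℝ | ∀ i1 : ℕ, ∃ i : ℕ, i1 ≤ i ∧ c ∈ B i} ≤ ENNReal.ofReal (1 - κ / 64)

/-- W15: final form: exceptional sets of dimension `< 1` in every compact interval, uniform power saving -/
def W15 : Prop := ∀ C0 : ℝ, 1 ≤ C0 → ∃ κ : ℝ, 0 < κ ∧ ∃ d : ℝ, d < 1 ∧ ∀ A : Set ℕ,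
  ∃ E : Set ℝ, dimH E ≤ ENNReal.ofReal d ∧ ∀ c : ℝ, 1 < c → c ≤ C0 → c ∉ E →
    ∃ C : ℝ, ∀ y : ℕ, 1 ≤ y → |nPS A c 0 y - mainT (Ax A 0 y) c| ≤ C * (y : ℝ) ^ (1 / c - κ)

end Pool.Agent.H706R2.PS
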